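import Pool.Agent.U607.GapMoment

/-! Tail and second moment of the gaps in an interval from bounds for the numbers of empty windows. -/

set_option autoImplicit false

namespace Pool.Agent.U607.GM

open Finset

open Classical in
/-- the pairs of consecutive elements of `P` in `(M, M + Y]` -/
noncomputable def consec (P : ℕ → Prop) (M Y : ℕ) : Finset (ℕ × ℕ) :=
  ((Ioc M (M + Y)) ×ˢ (Ioc M (M + Y))).filter
    (fun z => P z.1 ∧ P z.2 ∧ z.1 < z.2 ∧ ∀ m : ℕ, z.1 < m → m < z.2 → ¬ P m)

theorem mem_consec {P : ℕ → Prop} {M Y : ℕ} {z : ℕ × ℕ} : z ∈ consec P M Y ↔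
    ((M < z.1 ∧ z.1 ≤ M + Y) ∧ M < z.2 ∧ z.2 ≤ M + Y) ∧ P z.1 ∧ P z.2 ∧ z.1 < z.2 ∧
      ∀ m : ℕ, z.1 < m → m < z.2 → ¬ P m := by
  classical
  unfold consec
  rw [mem_filter, mem_product, mem_Ioc, mem_Ioc]

theorem sum_consec (P : ℕ → Prop) (M Y : ℕ) (g : ℕ → ℕ) :
    ∑ z ∈ consec P M Y, g (z.2 - z.1) = ∑ z ∈ gaps {n | P (M + n)} Y, g (z.2 - z.1) := by
  classical
  apply sum_nbij' (i := fun z => (z.1 - M, z.2 - M)) (j := fun z => (M + z.1, M + z.2))
  · intro z hz
    rw [mem_consec] at hz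
    obtain ⟨⟨⟨a1, a2⟩, a3, a4⟩, b1, b2, b3, b4⟩ := hz
    rw [mem_gaps]
    refine ⟨⟨by dsimp; omega, by dsimp; omega, by dsimp; omega, by dsimp; omega⟩, ?_, ?_, by dsimp; omega, ?_⟩
    · show P (M + (z.1 - M))
      rw [Nat.add_sub_cancel' a1.le]
      exact b1
    · show P (M + (z.2 - M))
      rw [Nat.add_sub_cancel' a3.le]
      exact b2
    · intro m hm hm2
      dsimp at hm2
      exact b4 (M + m) (by omega) (by omega) hm
  · intro z hz
    rw [mem_gaps] at hz
    obtain ⟨⟨a1, a2, a3, a4⟩, b1, b2, b3, b4⟩ := hz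
    rw [mem_consec]
    refine ⟨⟨⟨by dsimp; omega, by dsimp; omega⟩, by dsimp; omega, by dsimp; omega⟩, b1, b2, by dsimp; omega, ?_⟩
    intro m h1 h2 h3
    dsimp at h1 h2
    apply b4 (m - M) (by
      show P (M + (m - M))
      rw [Nat.add_sub_cancel' (by omega)]
      exact h3)
    omega
  · intro z hz
    rw [mem_consec] at hz
    apply Prod.ext
    · show M + (z.1 - M) = z.1
      omega
    · show M + (z.2 - M) = z.2
      omega
  · intro z _
    apply Prod.ext
    · show M + z.1 - M = z.1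
      omega
    · show M + z.2 - M = z.2
      omega
  · intro z hz
    rw [mem_consec] at hz
    show g (z.2 - z.1) = g (z.2 - M - (z.1 - M))
    congr 1
    omega

theorem from_empt (P : ℕ → Prop) (M Y X : ℕ) (E : ℝ) (hYX : Y ≤ X) (hX : 3 ≤ X) (hYE : (Y : ℝ) ≤ E)
    (hemp : ∀ h : ℕ, 1 ≤ h → h ≤ X → ((empt {n | P (M + n)} Y h).card : ℝ) ≤ E / h) :
    (∀ H : ℝ, 1 ≤ H → (((consec P M Y).filter (fun z => H ≤ ((z.2 - z.1 : ℕ) : ℝ))).card : ℝ) ≤ 16 * E / H ^ 2) ∧
    ((∑ z ∈ consec P M Y, (z.2 - z.1) ^ 2 : ℕ) : ℝ) ≤ Y + 16 * (Real.log X * E) := by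
  classical
  have hXr : (3 : ℝ) ≤ X := by exact_mod_cast hX
  have hX0 : (0 : ℝ) < X := by linarith
  have hL0 : 0 < Real.log X := Real.log_pos (by linarith)
  have hY0 : (0 : ℝ) ≤ Y := Nat.cast_nonneg _
  have hE0 : 0 ≤ E := hY0.trans hYE
  constructor
  · intro H hH
    have hcc : ∀ h : ℕ, ((consec P M Y).filter (fun z => h ≤ z.2 - z.1)).card =
        ((gaps {n | P (M + n)} Y).filter (fun z => h ≤ z.2 - z.1)).card := by
      intro h
      rw [card_filter, card_filter]
      exact sum_consec P M Y (fun g => if h ≤ g then 1 else 0)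
    rcases lt_or_ge H 2 with h2 | h2
    · -- trivial
      have h3 : ((consec P M Y).filter (fun z => H ≤ ((z.2 - z.1 : ℕ) : ℝ))).card ≤
          ((consec P M Y).filter (fun z => 1 ≤ z.2 - z.1)).card := by
        apply card_le_card
        intro z hz
        rw [mem_filter] at hz ⊢
        refine ⟨hz.1, ?_⟩
        have : (1 : ℝ) ≤ ((z.2 - z.1 : ℕ) : ℝ) := hH.trans hz.2
        exact_mod_cast this
      rw [hcc] at h3
      have h4 : ((gaps {n | P (M + n)} Y).filter (fun z => 1 ≤ z.2 - z.1)).card ≤ Y := by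
        refine le_trans ?_ (sum_all {n | P (M + n)} Y)
        rw [card_filter]
        apply sum_le_sum
        intro z _
        split_ifs with h
        · exact h
        · exact Nat.zero_le _
      have h5 : (((consec P M Y).filter (fun z => H ≤ ((z.2 - z.1 : ℕ) : ℝ))).card : ℝ) ≤ Y := by
        exact_mod_cast h3.trans h4
      refine h5.trans ?_
      rw [le_div_iff₀ (by positivity)]
      have h6 : H ^ 2 ≤ 4 := by nlinarith
      calc (Y : ℝ) * H ^ 2 ≤ E * 4 := mul_le_mul hYE h6 (by positivity) hE0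
        _ ≤ 16 * E := by linarith
    · obtain ⟨h, hh⟩ : ∃ h : ℕ, h = ⌊H / 2⌋₊ := ⟨_, rfl⟩
      have h3 : (h : ℝ) ≤ H / 2 := by rw [hh]; exact Nat.floor_le (by linarith)
      have h4 : H / 2 < h + 1 := by rw [hh]; exact Nat.lt_floor_add_one _
      have h5 : 1 ≤ h := by rw [hh]; exact Nat.le_floor (by push_cast; linarith)
      have h5r : (1 : ℝ) ≤ h := by exact_mod_cast h5
      have h6 : H / 4 ≤ h := by linarith
      have h7 : ((consec P M Y).filter (fun z => H ≤ ((z.2 - z.1 : ℕ) : ℝ))).card ≤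
          ((consec P M Y).filter (fun z => 2 * h ≤ z.2 - z.1)).card := by
        apply card_le_card
        intro z hz
        rw [mem_filter] at hz ⊢
        refine ⟨hz.1, ?_⟩
        have : ((2 * h : ℕ) : ℝ) ≤ ((z.2 - z.1 : ℕ) : ℝ) := by
          push_cast
          have := hz.2
          linarith
        exact_mod_cast this
      rcases le_or_gt h X with h8 | h8
      · have h9 := card_long {n | P (M + n)} Y h
        rw [hcc] at h7
        have h10 : (((consec P M Y).filter (fun z => H ≤ ((z.2 - z.1 : ℕ) : ℝ))).card : ℝ) * h ≤ E / h := by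
          refine le_trans ?_ (hemp h h5 h8)
          exact_mod_cast (Nat.mul_le_mul_right h h7).trans h9
        have h11 : (((consec P M Y).filter (fun z => H ≤ ((z.2 - z.1 : ℕ) : ℝ))).card : ℝ) ≤ E / (h * h) := by
          rw [le_div_iff₀ (by positivity), ← mul_assoc]
          rw [le_div_iff₀ (by linarith)] at h10
          exact h10
        refine h11.trans ?_
        rw [div_le_div_iff₀ (by positivity) (by positivity)]
        have h12 : H ^ 2 ≤ 16 * (h * h) := by nlinarith
        calc E * H ^ 2 ≤ E * (16 * (h * h)) := mul_le_mul_of_nonneg_left h12 hE0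
          _ = _ := by ring
      · have h9 : (consec P M Y).filter (fun z => H ≤ ((z.2 - z.1 : ℕ) : ℝ)) = ∅ := by
          rw [filter_eq_empty_iff]
          intro z hz hz2
          rw [mem_consec] at hz
          have h10 : ((2 * h : ℕ) : ℝ) ≤ ((z.2 - z.1 : ℕ) : ℝ) := by
            push_cast
            linarith
          have h11 : 2 * h ≤ z.2 - z.1 := by exact_mod_cast h10
          omega
        rw [h9]
        simp
        positivity
  · rw [sum_consec P M Y (fun g => g ^ 2)]
    obtain ⟨K, hK⟩ : ∃ K : ℕ, K = Nat.log 2 Y := ⟨_, rfl⟩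
    have h1 := second {n | P (M + n)} Y K 0 0 (by
      intro z hz
      left
      rw [mem_gaps] at hz
      have h2 : Y < 2 ^ (K + 1) := by
        rw [hK]
        exact Nat.lt_pow_succ_log_self (by norm_num) Y
      omega)
    rw [Nat.zero_mul, Nat.add_zero] at h1
    have h2 : ((∑ z ∈ gaps {n | P (M + n)} Y, (z.2 - z.1) ^ 2 : ℕ) : ℝ) ≤
        Y + ∑ k ∈ Icc 1 K, (2 : ℝ) ^ (k + 2) * ((empt {n | P (M + n)} Y (2 ^ (k - 1))).card : ℝ) := by
      exact_mod_cast h1
    refine h2.trans ?_
    have h3 : ∀ k ∈ Icc 1 K, (2 : ℝ) ^ (k + 2) * ((empt {n | P (M + n)} Y (2 ^ (k - 1))).card : ℝ) ≤ 8 * E := by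
      intro k hk
      rw [mem_Icc] at hk
      have hY1 : Y ≠ 0 := by
        rintro rfl
        rw [Nat.log_zero_right] at hK
        omega
      have h4 : 2 ^ (k - 1) ≤ X := by
        calc 2 ^ (k - 1) ≤ 2 ^ K := Nat.pow_le_pow_right (by norm_num) (by omega)
          _ ≤ Y := by
            rw [hK]
            exact Nat.pow_log_le_self 2 hY1
          _ ≤ X := hYX
      have h5 := hemp (2 ^ (k - 1)) Nat.one_le_two_pow h4
      push_cast at h5
      have h6 : (2 : ℝ) ^ (k + 2) = 8 * 2 ^ (k - 1) := by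
        have : k + 2 = 3 + (k - 1) := by omega
        rw [this, pow_add]
        norm_num
      rw [h6]
      have h7 : (0 : ℝ) < 2 ^ (k - 1) := by positivity
      calc 8 * (2 : ℝ) ^ (k - 1) * _ ≤ 8 * (2 : ℝ) ^ (k - 1) * (E / 2 ^ (k - 1)) := by
            apply mul_le_mul_of_nonneg_left h5 (by positivity)
        _ = 8 * E := by field_simp
    have h4 := sum_le_sum h3
    rw [sum_const, Nat.card_Icc, Nat.add_sub_cancel, nsmul_eq_mul] at h4
    have hKlog : (K : ℝ) ≤ 2 * Real.log X := by
      rcases Nat.eq_zero_or_pos Y with h5 | h5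
      · have : K = 0 := by
          rw [hK, h5]
          simp
        rw [this]
        push_cast
        positivity
      · have h6 : 2 ^ K ≤ X := by
          refine le_trans ?_ hYX
          rw [hK]
          exact Nat.pow_log_le_self 2 (by omega)
        have h7 : (2 : ℝ) ^ K ≤ X := by exact_mod_cast h6
        have h8 := Real.log_le_log (by positivity) h7
        rw [Real.log_pow] at h8
        have h9 : (0.5 : ℝ) < Real.log 2 := by linarith [Real.log_two_gt_d9]
        have h10 : (0 : ℝ) ≤ K := Nat.cast_nonneg _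
        nlinarith
    have h5 : (K : ℝ) * (8 * E) ≤ 2 * Real.log X * (8 * E) :=
      mul_le_mul_of_nonneg_right hKlog (by positivity)
    linarith

end Pool.Agent.U607.GM
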