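import Pool.Agent.Y149.CR.Eul
import Pool.Agent.Y149.CR.Bes
import Pool.Agent.W353.NF.EC

/-! All modular elliptic curves over the rationals, base changed to number fields: the joint Bessel
inequality on the edge of absolute convergence. -/

set_option autoImplicit false
set_option linter.unusedSectionVars false

namespace Pool.Agent.U607.AllE

open Complex Filter Topology ComplexConjugate NumberField IsDedekindDomain Asymptotics
  CongruenceSubgroup
open scoped MatrixGroups TensorProduct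
open Pool.Agent.W353.TP (HX sysH push push_abs_le qh qh_abs LL LL_tendsto inum mx mx_surjective
  mx_eq_iff EH_eq card_hom_eq bdd_isLittleO lamS_sub isSquare_iff exists_rho Om)
open Pool.Agent.W353.AB (Sy syE tEH csH vq gram norm_vq norm_tEH)
open Pool.Agent.W540.BE (EP EP_const_mul EP_finsupp)
open Pool.Agent.H341R2 (E lam R_rat)
open Pool.Agent.H341R2.EC (csum cub cub_eval)
open Pool.Agent.TH941 (Hecke)
open Pool.Agent.W165.RS (ac)
open Pool.Agent.Y722.RS (S2 rc tt cross_le self_le tt_le)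
open Pool.Agent.Y149.CR (bessel cross_le_t zr abs_zr_le)

/-- the number of points, with the point at infinity -/
noncomputable def points (R : Type) [CommRing R] (a b : ℤ) : ℕ :=
  Nat.card {P : R × R // P.2 ^ 2 = P.1 ^ 3 + a * P.1 + b} + 1

/-- the first coefficient of the model -/
noncomputable def PP (a : ℤ) : 𝓞 ℚ := ((-48 * a : ℤ) : 𝓞 ℚ)

/-- the second coefficient of the model -/
noncomputable def QQ (b : ℤ) : 𝓞 ℚ := ((-864 * b : ℤ) : 𝓞 ℚ)

/-- points and character sums -/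
theorem points_eq (p : ℕ) [Fact p.Prime] (hp2 : p ≠ 2) (a b : ℤ) :
    (points (ZMod p) a b : ℤ) = p + 1 + ∑ x : ZMod p, quadraticChar (ZMod p) (x ^ 3 + a * x + b) := by
  classical
  have hchar : ringChar (ZMod p) ≠ 2 := by rwa [ZMod.ringChar_zmod_n]
  have h1 : Nat.card {P : ZMod p × ZMod p // P.2 ^ 2 = P.1 ^ 3 + a * P.1 + b} =
      ∑ x : ZMod p, (Finset.univ.filter fun y : ZMod p => y ^ 2 = x ^ 3 + a * x + b).card := by
    rw [Nat.card_eq_fintype_card, Fintype.card_subtype]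
    rw [← Finset.univ_product_univ, Finset.card_filter, Finset.sum_product]
    refine Finset.sum_congr rfl fun x _ => ?_
    rw [Finset.card_filter]
  have h2 : ∀ x : ZMod p, ((Finset.univ.filter fun y : ZMod p =>
      y ^ 2 = x ^ 3 + a * x + b).card : ℤ) = quadraticChar (ZMod p) (x ^ 3 + a * x + b) + 1 := by
    intro x
    have h3 := quadraticChar_card_sqrts hchar (x ^ 3 + a * x + b)
    rw [← h3]
    congr 2
    ext y
    simp
  unfold points
  push_cast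
  rw [h1]
  push_cast
  rw [Finset.sum_congr rfl fun x _ => h2 x, Finset.sum_add_distrib, Finset.sum_const,
    Finset.card_univ, ZMod.card]
  simp
  ring

theorem csum_eq (p : ℕ) [Fact p.Prime] (hp2 : p ≠ 2) (hp3 : p ≠ 3) (a b : ℤ) :
    csum ((-48 * a : ℤ) : ZMod p) ((-864 * b : ℤ) : ZMod p) =
      ∑ x : ZMod p, quadraticChar (ZMod p) (x ^ 3 + a * x + b) := by
  classical
  have h6 : (6 : ZMod p) ≠ 0 := by
    intro h
    have h7 : ((6 : ℕ) : ZMod p) = 0 := by exact_mod_cast h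
    rw [ZMod.natCast_eq_zero_iff] at h7
    have h8 : p ∣ 2 * 3 := by simpa using h7
    have hp : p.Prime := Fact.out
    rcases (hp.dvd_mul).1 h8 with h9 | h9
    · exact hp2 ((Nat.prime_dvd_prime_iff_eq hp Nat.prime_two).1 h9)
    · exact hp3 ((Nat.prime_dvd_prime_iff_eq hp Nat.prime_three).1 h9)
  have h36 : (36 : ZMod p) ≠ 0 := by
    have : (36 : ZMod p) = 6 * 6 := by norm_num
    rw [this]
    exact mul_ne_zero h6 h6
  have h216 : (216 : ZMod p) ≠ 0 := by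
    have : (216 : ZMod p) = 6 * 6 * 6 := by norm_num
    rw [this]
    exact mul_ne_zero (mul_ne_zero h6 h6) h6
  unfold csum
  let e : ZMod p ≃ ZMod p := Equiv.mulLeft₀ 36 h36
  rw [← e.sum_comp]
  refine Finset.sum_congr rfl fun x _ => ?_
  have he : e x = 36 * x := rfl
  rw [cub_eval, he]
  have h1 : (36 * x) ^ 3 - 27 * ((-48 * a : ℤ) : ZMod p) * (36 * x) - 54 * ((-864 * b : ℤ) : ZMod p) =
      216 ^ 2 * (x ^ 3 + a * x + b) := by
    push_cast
    ring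
  rw [h1, map_mul, quadraticChar_sq_one' h216, one_mul]

theorem tEH_good {a b : ℤ} (x : HX ℚ) (h2 : (x.1 : ℕ) ≠ 2) (h3 : (x.1 : ℕ) ≠ 3)
    (hd : ¬ ((x.1 : ℕ) : ℤ) ∣ 4 * a ^ 3 + 27 * b ^ 2) :
    tEH (PP a) (QQ b) x =
      (((((x.1 : ℕ) : ℝ) + 1 - points (ZMod (x.1 : ℕ)) a b) / Real.sqrt (x.1 : ℕ) : ℝ) : ℂ) := by
  have : Fact (x.1 : ℕ).Prime := ⟨x.1.2⟩
  have hp : (x.1 : ℕ).Prime := x.1.2
  have hP : x.2 (PP a) = ((-48 * a : ℤ) : ZMod (x.1 : ℕ)) := by
    unfold PP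
    rw [map_intCast]
  have hQ : x.2 (QQ b) = ((-864 * b : ℤ) : ZMod (x.1 : ℕ)) := by
    unfold QQ
    rw [map_intCast]
  have h23 : ∀ m : ℕ, (x.1 : ℕ) ∣ 2 ^ m * 3 ^ m → False := by
    intro m h
    rcases (hp.dvd_mul).1 h with h9 | h9
    · exact h2 ((Nat.prime_dvd_prime_iff_eq hp Nat.prime_two).1 (hp.dvd_of_dvd_pow h9))
    · exact h3 ((Nat.prime_dvd_prime_iff_eq hp Nat.prime_three).1 (hp.dvd_of_dvd_pow h9))
  have c1 : x.2 6 ≠ 0 := by
    rw [map_ofNat]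
    intro h
    have h7 : ((6 : ℕ) : ZMod (x.1 : ℕ)) = 0 := by exact_mod_cast h
    rw [ZMod.natCast_eq_zero_iff] at h7
    exact h23 1 (by simpa using h7)
  have c2 : x.2 ((PP a) ^ 3 - (QQ b) ^ 2) ≠ 0 := by
    rw [map_sub, map_pow, map_pow, hP, hQ]
    have e : ((-48 * a : ℤ) : ZMod (x.1 : ℕ)) ^ 3 - ((-864 * b : ℤ) : ZMod (x.1 : ℕ)) ^ 2 =
        ((-27648 * (4 * a ^ 3 + 27 * b ^ 2) : ℤ) : ZMod (x.1 : ℕ)) := by
      push_cast
      ring
    rw [e, Ne, ZMod.intCast_zmod_eq_zero_iff_dvd]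
    intro h
    have hpi : Prime (((x.1 : ℕ) : ℤ)) := Nat.prime_iff_prime_int.1 hp
    rcases hpi.dvd_or_dvd h with h9 | h9
    · rw [dvd_neg] at h9
      have h10 : (x.1 : ℕ) ∣ 27648 := by exact_mod_cast h9
      exact h23 10 (h10.trans (by norm_num))
    · exact hd h9
  unfold tEH
  rw [if_pos ⟨c1, c2⟩]
  have e1 : csH (PP a) (QQ b) x = (points (ZMod (x.1 : ℕ)) a b : ℤ) - (x.1 : ℕ) - 1 := by
    unfold csH
    rw [hP, hQ, csum_eq _ h2 h3, points_eq _ h2]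
    ring
  rw [e1]
  push_cast
  rw [div_eq_mul_inv]
  ring

/-- the norms of the homomorphisms -/
def NN (x : HX ℚ) : ℕ := (x.1 : ℕ)

theorem normNN : Pool.Agent.W540.BE.NormSys NN :=
  ⟨(sysH ℚ).two_le, (sysH ℚ).summable⟩

theorem EP_NN (ε : ℝ) (φ : HX ℚ → ℝ) : EP NN ε φ = (sysH ℚ).E ε φ := rfl

theorem EP_prime {ε : ℝ} (hε : 0 < ε) {φ : Nat.Primes → ℝ} {B : ℝ} (hφ : ∀ p, |φ p| ≤ B) :
    EP NN ε (fun x => φ x.1) = E ε φ := by
  rw [EP_NN, EH_eq (K := ℚ) hε (φ := fun x : HX ℚ => φ x.1) (B := B) (fun x => hφ x.1)]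
  congr 1
  funext p
  have e : ∑ u : 𝓞 ℚ →+* ZMod (p : ℕ), (fun x : HX ℚ => φ x.1) ⟨p, u⟩ =
      ∑ _u : 𝓞 ℚ →+* ZMod (p : ℕ), φ p := rfl
  refine e.trans ?_
  rw [Finset.sum_const, Finset.card_univ, card_hom_eq, R_rat, one_smul]

section
variable {ι : Type*} (a b : ι → ℤ) (M : ι → ℕ) [∀ i, NeZero (M i)] (f : ∀ i, S2 (M i))
  (hf : ∀ i, Hecke (f i))
  (hpt : ∀ i, ∀ p : ℕ, p.Prime → ¬ (p : ℤ) ∣ 2 * (4 * a i ^ 3 + 27 * b i ^ 2) →
    ¬ p ∣ M i ∧ ac (f i) p = (p : ℂ) + 1 - points (ZMod p) (a i) (b i))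
  (hne : ∀ i j, i ≠ j → ∃ p : ℕ, p.Prime ∧ ¬ (p : ℤ) ∣ 2 * (4 * a i ^ 3 + 27 * b i ^ 2) ∧
    ¬ (p : ℤ) ∣ 2 * (4 * a j ^ 3 + 27 * b j ^ 2) ∧
    points (ZMod p) (a i) (b i) ≠ points (ZMod p) (a j) (b j))

/-- the coefficients with a height -/
noncomputable def uu (c : ι × ℝ) (x : HX ℚ) : ℂ :=
  ((tt (f c.1) (x.1 : ℕ) : ℝ) : ℂ) * ((x.1 : ℕ) : ℂ) ^ (-((c.2 : ℂ) * I))

theorem norm_cpow_neg (x : HX ℚ) (τ : ℝ) : ‖((x.1 : ℕ) : ℂ) ^ (-((τ : ℂ) * I))‖ = 1 := by
  rw [Complex.norm_natCast_cpow_of_pos x.1.2.pos]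
  simp

include hf in
theorem norm_uu (c : ι × ℝ) (x : HX ℚ) : ‖uu M f c x‖ ≤ 2 := by
  unfold uu
  rw [norm_mul, norm_cpow_neg, mul_one, Complex.norm_real, Real.norm_eq_abs]
  exact tt_le (hf c.1) x.1.2

theorem uu_mul (c d : ι × ℝ) (x : HX ℚ) : (uu M f c x * conj (uu M f d x)).re =
    tt (f c.1) (x.1 : ℕ) * tt (f d.1) (x.1 : ℕ) * zr (c.2 - d.2) (x.1 : ℕ) := by
  have h0 : ((x.1 : ℕ) : ℂ) ≠ 0 := by exact_mod_cast x.1.2.ne_zero
  have hcj : conj (((x.1 : ℕ) : ℂ) ^ (-((d.2 : ℂ) * I))) = ((x.1 : ℕ) : ℂ) ^ ((d.2 : ℂ) * I) := by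
    have h1 : conj (((x.1 : ℕ) : ℂ) ^ ((d.2 : ℂ) * I)) = ((x.1 : ℕ) : ℂ) ^ (-((d.2 : ℂ) * I)) :=
      (sysH ℚ).conj_cpow_I x d.2
    rw [← h1, Complex.conj_conj]
  unfold uu zr
  rw [map_mul, Complex.conj_ofReal, hcj]
  have e2 : (-(((c.2 - d.2 : ℝ) : ℂ) * I)) = -((c.2 : ℂ) * I) + (d.2 : ℂ) * I := by
    push_cast
    ring
  rw [e2, Complex.cpow_add _ _ h0]
  have e3 : ((tt (f c.1) (x.1 : ℕ) : ℝ) : ℂ) * ((x.1 : ℕ) : ℂ) ^ (-((c.2 : ℂ) * I)) *
      (((tt (f d.1) (x.1 : ℕ) : ℝ) : ℂ) * ((x.1 : ℕ) : ℂ) ^ ((d.2 : ℂ) * I)) =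
      ((tt (f c.1) (x.1 : ℕ) * tt (f d.1) (x.1 : ℕ) : ℝ) : ℂ) *
        (((x.1 : ℕ) : ℂ) ^ (-((c.2 : ℂ) * I)) * ((x.1 : ℕ) : ℂ) ^ ((d.2 : ℂ) * I)) := by
    push_cast
    ring
  rw [e3, Complex.re_ofReal_mul]

theorem zr_zero' {p : ℕ} : zr 0 p = 1 := by
  unfold zr
  simp

include hf hpt hne in
theorem gram_u (c d : ι × ℝ) [Decidable (c = d)] : ∃ C : ℝ, ∀ᶠ ε : ℝ in 𝓝[>] 0,
    (EP NN ε fun x => (uu M f c x * conj (uu M f d x)).re) ≤
      (if c = d then 1 else 0) * LL ε + C := by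
  have key : ∀ ε : ℝ, 0 < ε → (EP NN ε fun x => (uu M f c x * conj (uu M f d x)).re) =
      E ε fun p : Nat.Primes => tt (f c.1) p * tt (f d.1) p * zr (c.2 - d.2) p := by
    intro ε hε
    have h1 : (fun x : HX ℚ => (uu M f c x * conj (uu M f d x)).re) =
        fun x : HX ℚ => (fun p : Nat.Primes =>
          tt (f c.1) p * tt (f d.1) p * zr (c.2 - d.2) p) x.1 := by
      funext x
      exact uu_mul M f c d x
    have hb : ∀ p : Nat.Primes, |tt (f c.1) p * tt (f d.1) p * zr (c.2 - d.2) p| ≤ 2 * 2 * 1 := by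
      intro p
      rw [abs_mul, abs_mul]
      exact mul_le_mul (mul_le_mul (tt_le (hf c.1) p.2) (tt_le (hf d.1) p.2) (abs_nonneg _)
        (by norm_num)) (abs_zr_le _ p.2.pos) (abs_nonneg _) (by norm_num)
    have h2 := EP_prime hε hb
    rw [h1]
    exact h2
  by_cases hcd : c = d
  · subst hcd
    rw [if_pos rfl]
    obtain ⟨C, hC⟩ := self_le (hf c.1)
    refine ⟨C, ?_⟩
    filter_upwards [hC, self_mem_nhdsWithin] with ε h1 h2
    have hε : (0 : ℝ) < ε := h2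
    rw [key ε hε]
    simp only [sub_self, zr_zero', mul_one]
    rw [one_mul]
    exact h1
  · rw [if_neg hcd]
    by_cases hτ : c.2 = d.2
    · have hi : c.1 ≠ d.1 := fun h => hcd (Prod.ext h hτ)
      obtain ⟨p, hp, h1, h2, h3⟩ := hne c.1 d.1 hi
      obtain ⟨h4, h5⟩ := hpt c.1 p hp h1
      obtain ⟨h6, h7⟩ := hpt d.1 p hp h2
      have h8 : rc (f c.1) p ≠ rc (f d.1) p := by
        unfold rc
        rw [h5, h7]
        intro h9
        apply h3
        simp only [Complex.sub_re, Complex.add_re, Complex.natCast_re, Complex.one_re] at h9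
        have h10 : (points (ZMod p) (a c.1) (b c.1) : ℝ) = points (ZMod p) (a d.1) (b d.1) := by
          linarith
        exact_mod_cast h10
      obtain ⟨C, hC⟩ := cross_le (hf c.1) (hf d.1) hp h4 h6 h8
      refine ⟨C, ?_⟩
      filter_upwards [hC, self_mem_nhdsWithin] with ε h1 h2
      have hε : (0 : ℝ) < ε := h2
      rw [key ε hε]
      simp only [hτ, sub_self, zr_zero', mul_one]
      rw [zero_mul, zero_add]
      exact h1
    · obtain ⟨C, hC⟩ := cross_le_t (hf c.1) (hf d.1) (sub_ne_zero.2 hτ)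
      refine ⟨C, ?_⟩
      filter_upwards [hC, self_mem_nhdsWithin] with ε h1 h2
      have hε : (0 : ℝ) < ε := h2
      rw [key ε hε, zero_mul, zero_add]
      exact h1

/-- the sizes in terms of the coefficients of the newforms -/
theorem size_lim {F : Type} [Field F] [NumberField F] (D : 𝓞 F)
    (hΔ : ∀ i, 4 * a i ^ 3 + 27 * b i ^ 2 ≠ 0)
    (hf : ∀ i, Hecke (f i))
    (hpt : ∀ i, ∀ p : ℕ, p.Prime → ¬ (p : ℤ) ∣ 2 * (4 * a i ^ 3 + 27 * b i ^ 2) →
      ¬ p ∣ M i ∧ ac (f i) p = (p : ℂ) + 1 - points (ZMod p) (a i) (b i))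
    (c : ι × ℝ) (X : ℝ → ℝ)
    (hX : (syE (PP (a c.1)) (QQ (b c.1))).IsSize (F := F) (fun _ => D) c.2 X) :
    Tendsto (fun ε : ℝ => (EP NN ε fun x => (vq ℚ D 0 x * uu M f c x).re) / LL ε - X ε)
      (𝓝[>] 0) (𝓝 0) := by
  classical
  set m : ℕ := (6 * (4 * a c.1 ^ 3 + 27 * b c.1 ^ 2)).natAbs with hm
  have hm0 : m ≠ 0 := by
    rw [hm, Int.natAbs_ne_zero]
    exact mul_ne_zero (by norm_num) (hΔ c.1)
  have hfin : {p : Nat.Primes | (p : ℕ) ∣ m}.Finite := by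
    have h2 : {n : ℕ | n ∣ m}.Finite := (Set.finite_le_nat m).subset fun n hn =>
      Nat.le_of_dvd (Nat.pos_of_ne_zero hm0) hn
    exact h2.preimage (f := fun p : Nat.Primes => (p : ℕ)) fun a _ b _ hab => Subtype.ext hab
  set S : Finset (HX ℚ) := hfin.toFinset.sigma fun p => (Finset.univ : Finset (𝓞 ℚ →+* ZMod (p : ℕ)))
    with hS
  set r : HX ℚ → ℝ := fun x => (vq ℚ D 0 x * uu M f c x).re -
    (tEH (PP (a c.1)) (QQ (b c.1)) x * conj (vq ℚ D c.2 x)).re with hr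
  have hr0 : ∀ x, x ∉ S → r x = 0 := by
    intro x hx
    have hx' : ¬ (x.1 : ℕ) ∣ m := by
      intro h
      apply hx
      rw [hS, Finset.mem_sigma]
      exact ⟨by rw [Set.Finite.mem_toFinset]; exact h, Finset.mem_univ _⟩
    have hp : (x.1 : ℕ).Prime := x.1.2
    have h6 : ¬ (((x.1 : ℕ) : ℤ)) ∣ 6 * (4 * a c.1 ^ 3 + 27 * b c.1 ^ 2) := by
      intro h
      exact hx' (Int.natCast_dvd.1 h)
    have h2 : (x.1 : ℕ) ≠ 2 := by
      intro h
      apply h6
      rw [h]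
      exact Dvd.dvd.mul_right (by norm_num) _
    have h3 : (x.1 : ℕ) ≠ 3 := by
      intro h
      apply h6
      rw [h]
      exact Dvd.dvd.mul_right (by norm_num) _
    have hd : ¬ (((x.1 : ℕ) : ℤ)) ∣ 4 * a c.1 ^ 3 + 27 * b c.1 ^ 2 := fun h =>
      h6 (Dvd.dvd.mul_left h _)
    have hd2 : ¬ (((x.1 : ℕ) : ℤ)) ∣ 2 * (4 * a c.1 ^ 3 + 27 * b c.1 ^ 2) := by
      intro h
      have hpi : Prime (((x.1 : ℕ) : ℤ)) := Nat.prime_iff_prime_int.1 hp
      rcases hpi.dvd_or_dvd h with h9 | h9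
      · have h10 : (x.1 : ℕ) ∣ 2 := by exact_mod_cast h9
        exact h2 ((Nat.prime_dvd_prime_iff_eq hp Nat.prime_two).1 h10)
      · exact hd h9
    have ht : tEH (PP (a c.1)) (QQ (b c.1)) x = ((tt (f c.1) (x.1 : ℕ) : ℝ) : ℂ) := by
      rw [tEH_good x h2 h3 hd]
      unfold tt rc
      rw [(hpt c.1 _ hp hd2).2]
      simp
    have hcj : conj (((x.1 : ℕ) : ℂ) ^ ((c.2 : ℂ) * I)) = ((x.1 : ℕ) : ℂ) ^ (-((c.2 : ℂ) * I)) :=
      (sysH ℚ).conj_cpow_I x c.2
    rw [hr]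
    simp only
    rw [ht]
    unfold vq uu
    rw [map_mul, Complex.conj_ofReal, hcj]
    have e0 : ((x.1 : ℕ) : ℂ) ^ (((0 : ℝ) : ℂ) * I) = 1 := by simp
    rw [e0, mul_one, sub_eq_zero]
    congr 1
    ring
  have hb1 : ∀ x : HX ℚ, |(vq ℚ D 0 x * uu M f c x).re| ≤ Module.finrank ℚ F * 2 := by
    intro x
    refine (Complex.abs_re_le_norm _).trans ?_
    rw [norm_mul]
    exact mul_le_mul (norm_vq D 0 x) (norm_uu M f hf c x) (norm_nonneg _) (by positivity)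
  have hb2 : ∀ x : HX ℚ, |(tEH (PP (a c.1)) (QQ (b c.1)) x * conj (vq ℚ D c.2 x)).re| ≤
      2 * Module.finrank ℚ F := by
    intro x
    refine (Complex.abs_re_le_norm _).trans ?_
    rw [norm_mul, Complex.norm_conj]
    exact mul_le_mul (norm_tEH _ _ x) (norm_vq D c.2 x) (norm_nonneg _) (by norm_num)
  have hrb : ∀ x, |r x| ≤ Module.finrank ℚ F * 2 + 2 * Module.finrank ℚ F := fun x =>
    (abs_sub _ _).trans (add_le_add (hb1 x) (hb2 x))
  have hcorr : ∀ ε : ℝ, (syE (PP (a c.1)) (QQ (b c.1))).corr (F := F) (fun _ => D) c.2 ε =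
      EP NN ε fun x => (tEH (PP (a c.1)) (QQ (b c.1)) x * conj (vq ℚ D c.2 x)).re := by
    intro ε
    have e3 : (syE (PP (a c.1)) (QQ (b c.1))).corr (F := F) (fun _ => D) c.2 ε =
        ∑ _j ∈ ({()} : Finset Unit), (sysH ℚ).E ε fun x : HX ℚ =>
          (tEH (PP (a c.1)) (QQ (b c.1)) x *
            conj (vq ℚ (∏ _i ∈ ({0} : Finset (Fin 1)), D) c.2 x)).re := rfl
    rw [e3, Finset.sum_singleton, Finset.prod_singleton]
    rfl
  have o1 : (fun ε : ℝ => (EP NN ε fun x => (vq ℚ D 0 x * uu M f c x).re) -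
      (syE (PP (a c.1)) (QQ (b c.1))).corr (F := F) (fun _ => D) c.2 ε) =o[𝓝[>] 0] LL := by
    refine bdd_isLittleO ⟨S.card * (Module.finrank ℚ F * 2 + 2 * Module.finrank ℚ F), ?_⟩
    filter_upwards [self_mem_nhdsWithin] with ε h
    have hε : (0 : ℝ) < ε := h
    rw [hcorr]
    have e1 : (EP NN ε fun x => (vq ℚ D 0 x * uu M f c x).re) -
        (EP NN ε fun x => (tEH (PP (a c.1)) (QQ (b c.1)) x * conj (vq ℚ D c.2 x)).re) =
        EP NN ε r := by
      have h5 := Pool.Agent.W540.BE.EP_add normNN hε hb1 (φ := fun x => (vq ℚ D 0 x * uu M f c x).re)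
        (ψ := fun x => (-1) * (tEH (PP (a c.1)) (QQ (b c.1)) x * conj (vq ℚ D c.2 x)).re)
        (B' := 2 * Module.finrank ℚ F) (fun x => by
          rw [abs_mul, abs_neg, abs_one, one_mul]
          exact hb2 x)
      rw [EP_const_mul] at h5
      have h6 : (fun x : HX ℚ => (vq ℚ D 0 x * uu M f c x).re +
          (-1) * (tEH (PP (a c.1)) (QQ (b c.1)) x * conj (vq ℚ D c.2 x)).re) = r := by
        funext x
        rw [hr]
        ring
      rw [h6] at h5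
      rw [h5]
      ring
    rw [e1]
    exact EP_finsupp normNN S r hr0 _ hrb hε
  unfold Sy.IsSize at hX
  have o2 := (o1.sub hX).tendsto_div_nhds_zero
  refine o2.congr' ?_
  filter_upwards [LL_tendsto.eventually_gt_atTop 0] with ε h
  field_simp
  ring

theorem lim_one : Tendsto (fun ε : ℝ => (EP NN ε fun _ => 1) / LL ε) (𝓝[>] 0) (𝓝 1) := by
  have h1 := (lamS_sub (sysH ℚ)).tendsto_div_nhds_zero.add_const 1
  rw [zero_add] at h1
  refine h1.congr' ?_
  filter_upwards [LL_tendsto.eventually_gt_atTop 0] with ε h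
  have e : (EP NN ε fun _ => 1) = (sysH ℚ).lam ε := by
    unfold EP
    exact tsum_congr fun x => one_mul _
  rw [e]
  field_simp
  ring

theorem herm_lim {F F' : Type} [Field F] [NumberField F] [Field F'] [NumberField F'] {D : 𝓞 F}
    {D' : 𝓞 F'} (hD : D ≠ 0) (hD' : D' ≠ 0) :
    Tendsto (fun ε : ℝ => (EP NN ε fun x => (vq ℚ D 0 x * conj (vq ℚ D' 0 x)).re) / LL ε)
      (𝓝[>] 0) (𝓝 (inum ℚ F F' (D : F) (D' : F') : ℝ)) := by
  classical
  have h := gram (K := ℚ) hD hD' 0 0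
  rw [if_pos rfl] at h
  have h1 := h.tendsto_div_nhds_zero.add_const (inum ℚ F F' (D : F) (D' : F') : ℝ)
  rw [zero_add] at h1
  refine h1.congr' ?_
  filter_upwards [LL_tendsto.eventually_gt_atTop 0] with ε h
  rw [EP_NN]
  field_simp
  ring

include hf hpt hne in
/-- **The joint Bessel inequality** -/
theorem core (hΔ : ∀ i, 4 * a i ^ 3 + 27 * b i ^ 2 ≠ 0) {κ : Type} [Fintype κ] (F : κ → Type)
    [∀ k, Field (F k)] [∀ k, NumberField (F k)] (D : ∀ k, 𝓞 (F k)) (hD : ∀ k, D k ≠ 0)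
    (S : Finset (ι × ℝ)) (x : ι × ℝ → κ → ℝ → ℝ)
    (hx : ∀ c ∈ S, ∀ k, (syE (PP (a c.1)) (QQ (b c.1))).IsSize (F := F k) (fun _ => D k) c.2
      (x c k)) (C : ℝ) {η : ℝ} (hη : 0 < η) :
    ∀ᶠ ε : ℝ in 𝓝[>] 0, ∀ c : κ → ℝ, (∀ k, |c k| ≤ C) →
      ∑ s ∈ S, (max (∑ k, c k * x s k ε) 0) ^ 2 ≤
        ∑ k, ∑ l, (c k * c l) * (inum ℚ (F k) (F l) (D k : F k) (D l : F l) : ℝ) + η := by
  classical
  have h := bessel normNN LL_tendsto lim_one S (Finset.univ : Finset κ) (uu M f)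
    (fun k => vq ℚ (D k) 0) (bu := 2) (bG := fun k => (Module.finrank ℚ (F k) : ℝ))
    (norm_uu M f hf) (fun k p => norm_vq (D k) 0 p)
    (fun c _ d _ => gram_u a b M f hf hpt hne c d)
    (fun k l => (inum ℚ (F k) (F l) (D k : F k) (D l : F l) : ℝ))
    (fun k _ l _ => herm_lim (hD k) (hD l)) x
    (fun s hs k _ => size_lim a b M f (D k) hΔ hf hpt s (x s k) (hx s hs k)) C hη
  filter_upwards [h] with ε h c hc
  exact h c fun k _ => hc k

theorem isSize_neg {P Q : 𝓞 ℚ} {F : Type} [Field F] [NumberField F] (D : 𝓞 F) {τ : ℝ} {X : ℝ → ℝ}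
    (h : (syE P Q).IsSize (F := F) (fun _ => D) τ X) :
    (syE P Q).IsSize (F := F) (fun _ => D) (-τ) X := by
  unfold Sy.IsSize at *
  have e : ∀ ε : ℝ, (syE P Q).corr (F := F) (fun _ => D) (-τ) ε =
      (syE P Q).corr (F := F) (fun _ => D) τ ε := by
    intro ε
    unfold Sy.corr
    refine Finset.sum_congr rfl fun j hj => ?_
    congr 1
    funext x
    have hT : (syE P Q).T j x = ((((syE P Q).T j x).re : ℝ) : ℂ) := by
      apply Complex.ext
      · simp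
      · rw [Complex.ofReal_im, Pool.Agent.W353.NF.syE_real P Q j hj x]
    rw [hT, Complex.re_ofReal_mul, Complex.re_ofReal_mul, Complex.conj_re, Complex.conj_re]
    congr 1
    unfold vq
    rw [Complex.re_ofReal_mul, Complex.re_ofReal_mul]
    congr 1
    have hcj : conj (((x.1 : ℕ) : ℂ) ^ ((τ : ℂ) * I)) = ((x.1 : ℕ) : ℂ) ^ (-((τ : ℂ) * I)) :=
      (sysH ℚ).conj_cpow_I x τ
    have e1 : (((-τ : ℝ) : ℂ) * I) = -((τ : ℂ) * I) := by
      push_cast
      ring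
    rw [e1, ← hcj, Complex.conj_re]
  simp only [e]
  exact h

/-- the weights: a point of `S` off the real axis counts twice if its mirror image is not in `S` -/
noncomputable def wt (S : Finset (ι × ℝ)) (s : ι × ℝ) : ℝ :=
  open Classical in if s.2 ≠ 0 ∧ (s.1, -s.2) ∉ S then 2 else 1

include hf hpt hne in
/-- both signs of the heights -/
theorem core_w (hΔ : ∀ i, 4 * a i ^ 3 + 27 * b i ^ 2 ≠ 0) {κ : Type} [Fintype κ] (F : κ → Type)
    [∀ k, Field (F k)] [∀ k, NumberField (F k)] (D : ∀ k, 𝓞 (F k)) (hD : ∀ k, D k ≠ 0)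
    (S : Finset (ι × ℝ)) (x : ι × ℝ → κ → ℝ → ℝ)
    (hx : ∀ c ∈ S, ∀ k, (syE (PP (a c.1)) (QQ (b c.1))).IsSize (F := F k) (fun _ => D k) c.2
      (x c k)) (C : ℝ) {η : ℝ} (hη : 0 < η) :
    ∀ᶠ ε : ℝ in 𝓝[>] 0, ∀ c : κ → ℝ, (∀ k, |c k| ≤ C) →
      ∑ s ∈ S, wt S s * (max (∑ k, c k * x s k ε) 0) ^ 2 ≤
        ∑ k, ∑ l, (c k * c l) * (inum ℚ (F k) (F l) (D k : F k) (D l : F l) : ℝ) + η := by
  classical
  set ng : ι × ℝ → ι × ℝ := fun c => (c.1, -c.2) with hng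
  have hngng : ∀ c, ng (ng c) = c := fun c => by
    rw [hng]
    simp
  have hinj : Function.Injective ng := fun c d h => by
    rw [← hngng c, h, hngng d]
  set S₁ : Finset (ι × ℝ) := S.filter fun c => c.2 ≠ 0 ∧ ng c ∉ S with hS₁
  have hdisj : Disjoint S (S₁.image ng) := by
    rw [Finset.disjoint_left]
    intro c hc h
    obtain ⟨d, hd, rfl⟩ := Finset.mem_image.1 h
    rw [hS₁, Finset.mem_filter] at hd
    exact hd.2.2 hc
  set y : ι × ℝ → κ → ℝ → ℝ := fun c => if c ∈ S then x c else x (ng c) with hy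
  have h := core a b M f hf hpt hne hΔ F D hD (S ∪ S₁.image ng) y (by
    intro c hc k
    rw [Finset.mem_union] at hc
    by_cases hcS : c ∈ S
    · rw [hy]
      simp only [if_pos hcS]
      exact hx c hcS k
    · have h2 := hc.resolve_left hcS
      obtain ⟨d, hd, rfl⟩ := Finset.mem_image.1 h2
      rw [hS₁, Finset.mem_filter] at hd
      rw [hy]
      simp only [if_neg hcS, hngng]
      have h3 := isSize_neg (D k) (hx d hd.1 k)
      exact h3) C hη
  filter_upwards [h] with ε h c hc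
  refine le_trans (le_of_eq ?_) (h c hc)
  rw [Finset.sum_union hdisj, Finset.sum_image fun c _ d _ h => hinj h]
  have e1 : ∑ s ∈ S, (max (∑ k, c k * y s k ε) 0) ^ 2 = ∑ s ∈ S, (max (∑ k, c k * x s k ε) 0) ^ 2 := by
    refine Finset.sum_congr rfl fun s hs => ?_
    rw [hy]
    simp only [if_pos hs]
  have e2 : ∑ s ∈ S₁, (max (∑ k, c k * y (ng s) k ε) 0) ^ 2 =
      ∑ s ∈ S₁, (max (∑ k, c k * x s k ε) 0) ^ 2 := by
    refine Finset.sum_congr rfl fun s hs => ?_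
    have h4 : ng s ∉ S := by
      rw [hS₁, Finset.mem_filter] at hs
      exact hs.2.2
    rw [hy]
    simp only [if_neg h4, hngng]
  rw [e1, e2, hS₁, Finset.sum_filter, ← Finset.sum_add_distrib]
  refine Finset.sum_congr rfl fun s _ => ?_
  unfold wt
  by_cases h5 : s.2 ≠ 0 ∧ (s.1, -s.2) ∉ S
  · rw [if_pos h5, if_pos h5]
    ring
  · rw [if_neg h5, if_neg h5]
    ring

include hf hpt hne in
/-- two fields -/
theorem core_pair (hΔ : ∀ i, 4 * a i ^ 3 + 27 * b i ^ 2 ≠ 0) {F G : Type} [Field F]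
    [NumberField F] [Field G] [NumberField G] {D : 𝓞 F} (hD : D ≠ 0) {D' : 𝓞 G} (hD' : D' ≠ 0)
    (S : Finset (ι × ℝ)) (x y : ι × ℝ → ℝ → ℝ)
    (hx : ∀ c ∈ S, (syE (PP (a c.1)) (QQ (b c.1))).IsSize (F := F) (fun _ => D) c.2 (x c))
    (hy : ∀ c ∈ S, (syE (PP (a c.1)) (QQ (b c.1))).IsSize (F := G) (fun _ => D') c.2 (y c))
    (C : ℝ) {η : ℝ} (hη : 0 < η) :
    ∀ᶠ ε : ℝ in 𝓝[>] 0, ∀ c d : ℝ, |c| ≤ C → |d| ≤ C →
      ∑ s ∈ S, wt S s * (max (c * x s ε + d * y s ε) 0) ^ 2 ≤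
        ((c * c) * (inum ℚ F F (D : F) (D : F) : ℝ) + (c * d) * (inum ℚ F G (D : F) (D' : G) : ℝ)) +
        ((d * c) * (inum ℚ G F (D' : G) (D : F) : ℝ) +
          (d * d) * (inum ℚ G G (D' : G) (D' : G) : ℝ)) + η := by
  let Fk : Bool → Type := fun k => match k with
    | true => F
    | false => G
  let i1 : ∀ k, Field (Fk k) := fun k => match k with
    | true => (inferInstance : Field F)
    | false => (inferInstance : Field G)
  let i2 : ∀ k, NumberField (Fk k) := fun k => match k with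
    | true => (inferInstance : NumberField F)
    | false => (inferInstance : NumberField G)
  let Dk : ∀ k, 𝓞 (Fk k) := fun k => match k with
    | true => D
    | false => D'
  have h := core_w a b M f hf hpt hne hΔ Fk Dk (fun k => match k with
    | true => hD
    | false => hD') S (fun c k => match k with
    | true => x c
    | false => y c) (fun c hc k => match k with
    | true => hx c hc
    | false => hy c hc) C hη
  filter_upwards [h] with ε h c d hc hd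
  have h1 := h (fun k => match k with
    | true => c
    | false => d) (fun k => match k with
    | true => hc
    | false => hd)
  simp only [Fintype.sum_bool] at h1
  exact h1

/-- from the sizes to the orders -/
theorem to_orders {A κ : Type*} [Fintype κ] (S : Finset A) (w : A → ℝ) (x : A → κ → ℝ → ℝ)
    (m : A → κ → ℤ) (Q : (κ → ℝ) → ℝ)
    (h : ∀ (C η : ℝ), 0 < η → ∀ᶠ ε : ℝ in 𝓝[>] 0, ∀ c : κ → ℝ, (∀ k, |c k| ≤ C) →
      ∑ s ∈ S, w s * (max (∑ k, c k * x s k ε) 0) ^ 2 ≤ Q c + η)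
    (hm : ∀ s ∈ S, ∀ k, Tendsto (x s k) (𝓝[>] 0) (𝓝 (-(m s k : ℝ)))) (hQ : ∀ c, Q (-c) = Q c)
    (c : κ → ℝ) : ∑ s ∈ S, w s * (max (∑ k, c k * m s k) 0) ^ 2 ≤ Q c := by
  refine le_of_forall_pos_le_add fun η hη => ?_
  have hcont : Continuous fun y : ℝ => (max y 0) ^ 2 := by fun_prop
  have hlim : Tendsto (fun ε : ℝ => ∑ s ∈ S, w s * (max (∑ k, (-c) k * x s k ε) 0) ^ 2) (𝓝[>] 0)
      (𝓝 (∑ s ∈ S, w s * (max (∑ k, (-c) k * (-(m s k : ℝ))) 0) ^ 2)) :=
    tendsto_finsetSum _ fun s hs => ((hcont.tendsto _).comp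
      (tendsto_finsetSum _ fun k _ => (hm s hs k).const_mul ((-c) k))).const_mul (w s)
  simp only [Pi.neg_apply, neg_mul_neg] at hlim
  refine le_of_tendsto hlim ?_
  filter_upwards [h (∑ k, |c k|) η hη] with ε h4
  have h5 := h4 (-c) fun k => by
    rw [Pi.neg_apply, abs_neg]
    exact Finset.single_le_sum (f := fun k => |c k|) (fun k _ => abs_nonneg _) (Finset.mem_univ k)
  rw [hQ] at h5
  exact h5

end

/-! intertwining numbers -/

/-- the Galois group acts doubly transitively on the embeddings of `F` -/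
def TwoTrans (K F : Type) [Field K] [Field F] [Algebra K F] : Prop :=
  ∀ i j i' j' : F →ₐ[K] AlgebraicClosure K, i ≠ j → i' ≠ j' →
    ∃ g : Gal(AlgebraicClosure K/K), (∀ x, g (i x) = i' x) ∧ ∀ x, g (j x) = j' x

theorem exists_emb (K F : Type) [Field K] [NumberField K] [Field F] [NumberField F] [Algebra K F] :
    Nonempty (F →ₐ[K] Om K) := by
  refine Fintype.card_pos_iff.1 ?_
  rw [AlgHom.card K F (Om K)]
  exact Module.finrank_pos

theorem inum_le' {K F G : Type} [Field K] [NumberField K] [Field F] [NumberField F] [Field G]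
    [NumberField G] [Algebra K F] [Algebra K G] (D : F) (D' : G) :
    inum K F G D D' ≤ Module.finrank K G := by
  obtain ⟨i⟩ := exists_emb K F
  have hs := mx_surjective (K := K) (F := F) (G := G) i
  have hfin : Finite (MaximalSpectrum (F ⊗[K] G)) := Finite.of_surjective _ hs
  unfold inum
  refine (Nat.card_le_card_of_injective Subtype.val Subtype.val_injective).trans ?_
  refine (Nat.card_le_card_of_surjective _ hs).trans ?_
  rw [Nat.card_eq_fintype_card]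
  exact (AlgHom.card K G (Om K)).le

theorem inum_pos' {K F G : Type} [Field K] [NumberField K] [Field F] [NumberField F] [Field G]
    [NumberField G] [Algebra K F] [Algebra K G] :
    1 ≤ inum K F G (1 : F) (1 : G) := by
  obtain ⟨i⟩ := exists_emb K F
  obtain ⟨σ⟩ := exists_emb K G
  have hs := mx_surjective (K := K) (F := F) (G := G) i
  have hfin : Finite (MaximalSpectrum (F ⊗[K] G)) := Finite.of_surjective _ hs
  unfold inum
  have hne : Nonempty {m : MaximalSpectrum (F ⊗[K] G) //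
      IsSquare (Ideal.Quotient.mk m.asIdeal ((1 : F) ⊗ₜ (1 : G)))} := by
    refine ⟨mx F G i σ, ?_⟩
    have e : ((1 : F) ⊗ₜ[K] (1 : G)) = 1 := rfl
    rw [e, map_one]
    exact IsSquare.one
  exact Nat.card_pos

theorem inum_two' {K F : Type} [Field K] [NumberField K] [Field F] [NumberField F] [Algebra K F]
    (h : TwoTrans K F) : inum K F F (1 : F) (1 : F) ≤ 2 := by
  classical
  obtain ⟨i⟩ := exists_emb K F
  have hs := mx_surjective (K := K) (F := F) (G := F) i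
  have hfin : Finite (MaximalSpectrum (F ⊗[K] F)) := Finite.of_surjective _ hs
  unfold inum
  refine (Nat.card_le_card_of_injective Subtype.val Subtype.val_injective).trans ?_
  by_cases hex : ∃ σ₁ : F →ₐ[K] Om K, i ≠ σ₁
  · obtain ⟨σ₁, h1⟩ := hex
    have hsur : Function.Surjective fun b : Bool => mx F F i (if b then i else σ₁) := by
      intro m
      obtain ⟨σ, rfl⟩ := hs m
      by_cases h2 : i = σ
      · exact ⟨true, by simp [h2]⟩
      · refine ⟨false, ?_⟩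
        change mx F F i σ₁ = mx F F i σ
        rw [mx_eq_iff]
        exact h i σ₁ i σ h1 h2
    have := Nat.card_le_card_of_surjective _ hsur
    simpa using this
  · push Not at hex
    have hsur : Function.Surjective fun _ : Unit => mx F F i i := by
      intro m
      obtain ⟨σ, rfl⟩ := hs m
      exact ⟨(), by rw [← hex σ]⟩
    have h3 := Nat.card_le_card_of_surjective _ hsur
    have h4 : Nat.card Unit = 1 := Nat.card_unique
    omega

theorem inum_le {F G : Type} [Field F] [NumberField F] [Field G] [NumberField G] (D : F) (D' : G) :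
    inum ℚ F G D D' ≤ Module.finrank ℚ G := inum_le' D D'

theorem inum_rat {F : Type} [Field F] [NumberField F] : inum ℚ F ℚ (1 : F) (1 : ℚ) = 1 := by
  have h1 := inum_le (F := F) (G := ℚ) (1 : F) (1 : ℚ)
  rw [Module.finrank_self] at h1
  exact le_antisymm h1 inum_pos'

theorem inum_rat' {F : Type} [Field F] [NumberField F] : inum ℚ ℚ F (1 : ℚ) (1 : F) = 1 := by
  have h := Pool.Agent.W353.AB.inum_comm' (K := ℚ) (F := ℚ) (G := F) (D := (1 : 𝓞 ℚ)) (D' := (1 : 𝓞 F))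
    one_ne_zero one_ne_zero
  have e1 : ((1 : 𝓞 ℚ) : ℚ) = 1 := rfl
  have e2 : ((1 : 𝓞 F) : F) = 1 := rfl
  rw [e1, e2] at h
  rw [h, inum_rat]

theorem inum_deg_one {G : Type} [Field G] [NumberField G] (hG : Module.finrank ℚ G = 1)
    {F : Type} [Field F] [NumberField F] :
    inum ℚ F G (1 : F) (1 : G) = 1 ∧ inum ℚ G F (1 : G) (1 : F) = 1 := by
  have h1 : inum ℚ F G (1 : F) (1 : G) = 1 := by
    have h1 := inum_le (F := F) (G := G) (1 : F) (1 : G)
    rw [hG] at h1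
    exact le_antisymm h1 inum_pos'
  refine ⟨h1, ?_⟩
  have h := Pool.Agent.W353.AB.inum_comm' (K := ℚ) (F := G) (G := F) (D := (1 : 𝓞 G))
    (D' := (1 : 𝓞 F)) one_ne_zero one_ne_zero
  have e1 : ((1 : 𝓞 G) : G) = 1 := rfl
  have e2 : ((1 : 𝓞 F) : F) = 1 := rfl
  rw [e1, e2] at h
  rw [h, h1]

section
variable {ι : Type*} (a b : ι → ℤ) (M : ι → ℕ) [∀ i, NeZero (M i)] (f : ∀ i, S2 (M i))
  (hf : ∀ i, Hecke (f i))
  (hpt : ∀ i, ∀ p : ℕ, p.Prime → ¬ (p : ℤ) ∣ 2 * (4 * a i ^ 3 + 27 * b i ^ 2) →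
    ¬ p ∣ M i ∧ ac (f i) p = (p : ℂ) + 1 - points (ZMod p) (a i) (b i))
  (hne : ∀ i j, i ≠ j → ∃ p : ℕ, p.Prime ∧ ¬ (p : ℤ) ∣ 2 * (4 * a i ^ 3 + 27 * b i ^ 2) ∧
    ¬ (p : ℤ) ∣ 2 * (4 * a j ^ 3 + 27 * b j ^ 2) ∧
    points (ZMod p) (a i) (b i) ≠ points (ZMod p) (a j) (b j))

include hf hpt hne in
/-- a field of degree one and another field -/
theorem core_two (hΔ : ∀ i, 4 * a i ^ 3 + 27 * b i ^ 2 ≠ 0) {G F : Type} [Field G]
    [NumberField G] [Field F] [NumberField F] (hG : Module.finrank ℚ G = 1)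
    (S : Finset (ι × ℝ)) (x y : ι × ℝ → ℝ → ℝ)
    (hx : ∀ c ∈ S, (syE (PP (a c.1)) (QQ (b c.1))).IsSize (F := G) (fun _ => 1) c.2 (x c))
    (hy : ∀ c ∈ S, (syE (PP (a c.1)) (QQ (b c.1))).IsSize (F := F) (fun _ => 1) c.2 (y c))
    (C : ℝ) {η : ℝ} (hη : 0 < η) :
    ∀ᶠ ε : ℝ in 𝓝[>] 0, ∀ c d : ℝ, |c| ≤ C → |d| ≤ C →
      ∑ s ∈ S, wt S s * (max (c * x s ε + d * y s ε) 0) ^ 2 ≤
        c * c + 2 * (c * d) + d * d * (inum ℚ F F (1 : F) (1 : F) : ℝ) + η := by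
  have h := core_pair a b M f hf hpt hne hΔ (F := G) (G := F) (D := 1) (D' := 1) one_ne_zero
      one_ne_zero S x y hx hy C hη
  filter_upwards [h] with ε h c d hc hd
  have h1 := h c d hc hd
  have e1 : ((1 : 𝓞 G) : G) = 1 := rfl
  have e2 : ((1 : 𝓞 F) : F) = 1 := rfl
  have i1 := (inum_deg_one hG (F := G)).1
  have i2 := (inum_deg_one hG (F := F)).1
  have i3 := (inum_deg_one hG (F := F)).2
  rw [e1, e2, i1, i2, i3] at h1
  refine h1.trans ?_
  push_cast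
  linarith

end

end Pool.Agent.U607.AllE
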