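import Pool.Agent.U607.GapMoment
import Pool.Agent.K3h89.SI.Cnt

/-! Tail and second moment of the gaps between the integers with at most three prime factors. -/

set_option autoImplicit false

namespace Pool.Agent.U607.GM

open Finset Filter
open Pool.Agent.K3h19.RV (Lam lam_three)
open Pool.Agent.K3h31.WL

/-- an integer `> 1` with at most three prime factors, all at least `w` -/
def Three (w : ℝ) (n : ℕ) : Prop :=
  1 < n ∧ n.primeFactorsList.length ≤ 3 ∧ ∀ q : ℕ, q.Prime → q ∣ n → w ≤ q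

theorem empt_sub (A : Set ℕ) (X H : ℕ) (w δ : ℝ) (hX : 3 ≤ X) (hH : 1 ≤ H) (hδ : 0 < δ)
    (hA : ∀ n, Three w n → n ∈ A) :
    (empt A X H).card ≤ ((Icc 1 X).filter (fun x => ((good 3 w H x).card : ℝ) <
      δ * H / Real.log X)).card := by
  classical
  apply card_le_card
  intro x hx
  unfold empt at hx
  rw [mem_filter] at hx ⊢
  refine ⟨hx.1, ?_⟩
  have h1 : good 3 w H x = ∅ := by
    rw [eq_empty_iff_forall_notMem]
    intro j hj
    unfold good at hj
    rw [mem_filter] at hj
    apply hx.2 j hj.1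
    apply hA
    have h2 := mem_Icc.1 hx.1
    have h3 := mem_Icc.1 hj.1
    exact ⟨by omega, hj.2.1, hj.2.2⟩
  rw [h1, card_empty, Nat.cast_zero]
  have h2 : 0 < Real.log X := Real.log_pos (by exact_mod_cast (by omega : 1 < X))
  have h3 : (0 : ℝ) < H := by exact_mod_cast hH
  positivity

/-- large `X`: few empty windows, and no gap longer than `√X` -/
theorem large (ζ : ℝ) (hζ : ζ < 1 / 8) : ∃ C : ℝ, 0 < C ∧ ∃ X₀ : ℕ, 3 ≤ X₀ ∧ ∀ X : ℕ, X₀ ≤ X →
    ∀ A : Set ℕ, (∀ n, Three ((X : ℝ) ^ ζ) n → n ∈ A) →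
    (∀ H : ℕ, 1 ≤ H → H ^ 2 ≤ X → ((empt A X H).card : ℝ) ≤ C * (X * Real.log X ^ 7 / H)) ∧
    ∀ z ∈ gaps A X, (z.2 - z.1) ^ 2 ≤ X := by
  classical
  obtain ⟨τ, hτ⟩ : ∃ τ : ℝ, τ = max (4 * ζ) (2 / 5) := ⟨_, rfl⟩
  have hτ1 : 2 / 5 ≤ τ := by rw [hτ]; exact le_max_right _ _
  have hτ2 : τ < 1 / 2 := by
    rw [hτ]
    apply max_lt
    · linarith
    · norm_num
  have hτζ : ζ ≤ τ / 4 := by
    have : 4 * ζ ≤ τ := by rw [hτ]; exact le_max_left _ _
    linarith
  have hL : 1 < τ * Lam 3 := by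
    have := lam_three
    nlinarith
  obtain ⟨δ, C, hδ, hC, X1, H1⟩ := few_windows 3 (by norm_num) τ (1 / 2) (by linarith) (by linarith) hL
    (by linarith)
  obtain ⟨δ', hδ', X2, H2⟩ := Pool.Agent.K3h89.SI.every 3 (by norm_num) τ (τ / 2 + 1 / 4) (by linarith) hL
    (by linarith) (by linarith)
  -- `X ^ (τ / 2 + 1 / 4) + 2 ≤ √X`
  have ev : ∀ᶠ X : ℕ in atTop, (X : ℝ) ^ (τ / 2 + 1 / 4) + 2 ≤ (X : ℝ) ^ (1 / 2 : ℝ) := by
    have h1 : ∀ᶠ X : ℕ in atTop, (2 : ℝ) ≤ (X : ℝ) ^ (1 / 4 - τ / 2) :=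
      ((tendsto_rpow_atTop (by linarith)).comp tendsto_natCast_atTop_atTop).eventually_ge_atTop _
    have h2 : ∀ᶠ X : ℕ in atTop, (2 : ℝ) ≤ (X : ℝ) ^ (τ / 2 + 1 / 4) :=
      ((tendsto_rpow_atTop (by linarith)).comp tendsto_natCast_atTop_atTop).eventually_ge_atTop _
    filter_upwards [h1, h2, eventually_ge_atTop 1] with X h1 h2 h3
    have hX : (0 : ℝ) < X := by exact_mod_cast h3
    have h4 : (X : ℝ) ^ (1 / 2 : ℝ) = (X : ℝ) ^ (1 / 4 - τ / 2) * (X : ℝ) ^ (τ / 2 + 1 / 4) := by
      rw [← Real.rpow_add hX]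
      congr 1
      ring
    rw [h4]
    nlinarith
  obtain ⟨X3, H3⟩ := eventually_atTop.1 ev
  refine ⟨2 * C, by positivity, max (max X1 X2) (max X3 3), (le_max_right _ _).trans (le_max_right _ _), ?_⟩
  intro X hX A hA
  have e1 : X1 ≤ X := ((le_max_left _ _).trans (le_max_left _ _)).trans hX
  have e2 : X2 ≤ X := ((le_max_right _ _).trans (le_max_left _ _)).trans hX
  have e3 : X3 ≤ X := ((le_max_left _ _).trans (le_max_right _ _)).trans hX
  have e4 : 3 ≤ X := ((le_max_right _ _).trans (le_max_right _ _)).trans hX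
  have hXr : (3 : ℝ) ≤ X := by exact_mod_cast e4
  have hA' : ∀ n, Three ((X : ℝ) ^ (τ / 4)) n → n ∈ A := by
    intro n hn
    apply hA
    refine ⟨hn.1, hn.2.1, fun q hq hqn => le_trans ?_ (hn.2.2 q hq hqn)⟩
    exact Real.rpow_le_rpow_of_exponent_le (by linarith) hτζ
  refine ⟨?_, ?_⟩
  · intro H hH hHX
    have h1 := H1 X e1 H hH hHX
    have h2 := empt_sub A X H ((X : ℝ) ^ (τ / 4)) δ e4 hH hδ hA'
    have h3 : ((empt A X H).card : ℝ) ≤ ((Icc 1 X).filter (fun x => ((good 3 ((X : ℝ) ^ (τ / 4)) H x).card : ℝ) <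
      δ * H / Real.log X)).card := by exact_mod_cast h2
    refine (h3.trans h1).trans (le_of_eq ?_)
    norm_num
    ring
  · intro z hz
    rw [mem_gaps] at hz
    obtain ⟨⟨a1, a2, a3, a4⟩, b1, b2, b3, b4⟩ := hz
    by_contra hcon
    rw [not_le] at hcon
    obtain ⟨H, hH⟩ : ∃ H : ℕ, H = z.2 - z.1 - 1 := ⟨_, rfl⟩
    have h3 := H3 X e3
    have hs : (X : ℝ) ^ (1 / 2 : ℝ) ≤ ((z.2 - z.1 : ℕ) : ℝ) := by
      rw [← Real.sqrt_eq_rpow]
      apply Real.sqrt_le_iff.2
      refine ⟨Nat.cast_nonneg _, ?_⟩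
      exact_mod_cast hcon.le
    have hH1 : ((z.2 - z.1 : ℕ) : ℝ) ≤ H + 1 := by
      have : z.2 - z.1 ≤ H + 1 := by omega
      exact_mod_cast this
    have h5 := H2 X e2 H (by linarith) (by omega) z.1 a1 a2
    have h6 : good 3 ((X : ℝ) ^ (τ / 4)) H z.1 = ∅ := by
      rw [eq_empty_iff_forall_notMem]
      intro j hj
      unfold good at hj
      rw [mem_filter] at hj
      have h7 := mem_Icc.1 hj.1
      apply b4 (z.1 + j)
      · apply hA'
        exact ⟨by omega, hj.2.1, hj.2.2⟩
      · omega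
    rw [h6, card_empty, Nat.cast_zero] at h5
    have h8 : 0 < Real.log X := Real.log_pos (by linarith)
    have h9 : (0 : ℝ) < H := by
      have : (0 : ℝ) ≤ (X : ℝ) ^ (τ / 2 + 1 / 4) := by positivity
      linarith
    have h10 : 0 < δ' * H / Real.log X := by positivity
    linarith

/-- **Tail and second moment.** -/
theorem main (ζ : ℝ) (hζ : ζ < 1 / 8) : ∃ C : ℝ, 0 < C ∧ ∀ X : ℕ, 3 ≤ X →
    ∀ A : Set ℕ, (∀ n, Three ((X : ℝ) ^ ζ) n → n ∈ A) →
    (∀ H : ℝ, 1 ≤ H → (((gaps A X).filter (fun z => H < (z.2 : ℝ) - z.1)).card : ℝ) ≤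
      C * (X * Real.log X ^ 7 / H ^ 2)) ∧
    ∑ z ∈ gaps A X, ((z.2 : ℝ) - z.1) ^ 2 ≤ C * (X * Real.log X ^ 8) := by
  classical
  obtain ⟨C, hC, X₀, hX₀, HL⟩ := large ζ hζ
  have hX₀r : (3 : ℝ) ≤ X₀ := by exact_mod_cast hX₀
  refine ⟨16 * C + 16 + X₀ ^ 2, by positivity, ?_⟩
  intro X hX A hA
  have hXr : (3 : ℝ) ≤ X := by exact_mod_cast hX
  have hL1 : 1 ≤ Real.log X := by
    have : Real.exp 1 ≤ X := by linarith [Real.exp_one_lt_d9]
    rw [Real.le_log_iff_exp_le (by linarith)]
    exact this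
  have hcast : ∀ z ∈ gaps A X, ((z.2 - z.1 : ℕ) : ℝ) = (z.2 : ℝ) - z.1 := by
    intro z hz
    have := (mem_gaps.1 hz).2.2.2.1
    rw [Nat.cast_sub this.le]
  have hsum : ∑ z ∈ gaps A X, ((z.2 : ℝ) - z.1) ≤ X := by
    have h := sum_all A X
    have h1 : ((∑ z ∈ gaps A X, (z.2 - z.1) : ℕ) : ℝ) ≤ X := by exact_mod_cast h
    rw [Nat.cast_sum] at h1
    rwa [sum_congr rfl hcast] at h1
  have hge1 : ∀ z ∈ gaps A X, (1 : ℝ) ≤ (z.2 : ℝ) - z.1 := by
    intro z hz
    rw [← hcast z hz]
    have := (mem_gaps.1 hz).2.2.2.1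
    exact_mod_cast (by omega : 1 ≤ z.2 - z.1)
  have hcard : ((gaps A X).card : ℝ) ≤ X := by
    refine le_trans ?_ hsum
    rw [card_eq_sum_ones, Nat.cast_sum]
    apply sum_le_sum
    intro z hz
    rw [Nat.cast_one]
    exact hge1 z hz
  have hp7 : 1 ≤ Real.log X ^ 7 := one_le_pow₀ hL1
  have hp8 : 1 ≤ Real.log X ^ 8 := one_le_pow₀ hL1
  rcases lt_or_ge X X₀ with hlt | hge
  · -- small `X`
    have hltr : (X : ℝ) ≤ X₀ := by exact_mod_cast hlt.le
    refine ⟨?_, ?_⟩
    · intro H hH
      rcases lt_or_ge (X : ℝ) H with h1 | h1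
      · have h2 : (gaps A X).filter (fun z => H < (z.2 : ℝ) - z.1) = ∅ := by
          apply filter_false_of_mem
          intro z hz
          rw [not_lt]
          have h3 := (mem_gaps.1 hz).1
          have h4 : (z.2 : ℝ) ≤ X := by exact_mod_cast h3.2.2.2
          have h5 : (0 : ℝ) ≤ z.1 := Nat.cast_nonneg _
          linarith
        rw [h2, card_empty, Nat.cast_zero]
        positivity
      · have h2 : (((gaps A X).filter (fun z => H < (z.2 : ℝ) - z.1)).card : ℝ) ≤ X :=
          le_trans (by exact_mod_cast card_filter_le _ _) hcard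
        refine h2.trans ?_
        rw [← mul_div_assoc, le_div_iff₀ (by positivity)]
        have h3 : H ^ 2 ≤ (X₀ : ℝ) ^ 2 := pow_le_pow_left₀ (by linarith) (h1.trans hltr) 2
        have h4 : (0 : ℝ) ≤ X := by linarith
        calc (X : ℝ) * H ^ 2 ≤ X * (X₀ : ℝ) ^ 2 := mul_le_mul_of_nonneg_left h3 h4
          _ = (X₀ : ℝ) ^ 2 * (X * 1) := by ring
          _ ≤ (16 * C + 16 + X₀ ^ 2) * (X * Real.log X ^ 7) := by
              apply mul_le_mul
              · linarith
              · exact mul_le_mul_of_nonneg_left hp7 h4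
              · positivity
              · positivity
    · have h1 : ∑ z ∈ gaps A X, ((z.2 : ℝ) - z.1) ^ 2 ≤ X * X := by
        calc ∑ z ∈ gaps A X, ((z.2 : ℝ) - z.1) ^ 2 ≤ ∑ z ∈ gaps A X, (X : ℝ) * ((z.2 : ℝ) - z.1) := by
              apply sum_le_sum
              intro z hz
              have h3 := (mem_gaps.1 hz).1
              have h4 : (z.2 : ℝ) ≤ X := by exact_mod_cast h3.2.2.2
              have h5 : (0 : ℝ) ≤ z.1 := Nat.cast_nonneg _
              have h6 := hge1 z hz
              rw [sq]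
              apply mul_le_mul_of_nonneg_right _ (by linarith)
              linarith
          _ = X * ∑ z ∈ gaps A X, ((z.2 : ℝ) - z.1) := by rw [mul_sum]
          _ ≤ X * X := by
              apply mul_le_mul_of_nonneg_left hsum (by linarith)
      refine h1.trans ?_
      have h4 : (0 : ℝ) ≤ X := by linarith
      have h7 : (X : ℝ) ≤ (X₀ : ℝ) ^ 2 := by nlinarith
      calc (X : ℝ) * X ≤ (X₀ : ℝ) ^ 2 * (X * 1) := by nlinarith
        _ ≤ (16 * C + 16 + X₀ ^ 2) * (X * Real.log X ^ 8) := by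
              apply mul_le_mul
              · linarith
              · exact mul_le_mul_of_nonneg_left hp8 h4
              · positivity
              · positivity
  · obtain ⟨F1, F2⟩ := HL X hge A hA
    have h4 : (0 : ℝ) ≤ X := by linarith
    refine ⟨?_, ?_⟩
    · intro H hH
      rcases lt_or_ge H 2 with h2 | h2
      · have h3 : (((gaps A X).filter (fun z => H < (z.2 : ℝ) - z.1)).card : ℝ) ≤ X :=
          le_trans (by exact_mod_cast card_filter_le _ _) hcard
        refine h3.trans ?_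
        rw [← mul_div_assoc, le_div_iff₀ (by positivity)]
        have h5 : H ^ 2 ≤ 4 := by nlinarith
        calc (X : ℝ) * H ^ 2 ≤ X * 4 := mul_le_mul_of_nonneg_left h5 h4
          _ = 4 * (X * 1) := by ring
          _ ≤ (16 * C + 16 + X₀ ^ 2) * (X * Real.log X ^ 7) := by
              apply mul_le_mul
              · nlinarith
              · exact mul_le_mul_of_nonneg_left hp7 h4
              · positivity
              · positivity
      · obtain ⟨h, hh⟩ : ∃ h : ℕ, h = ⌊H / 2⌋₊ := ⟨_, rfl⟩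
        have hh1 : 1 ≤ h := by
          rw [hh]
          apply Nat.le_floor
          push_cast
          linarith
        have hh2 : (h : ℝ) ≤ H / 2 := by
          rw [hh]
          exact Nat.floor_le (by linarith)
        have hh3 : H / 2 < h + 1 := by
          rw [hh]
          exact Nat.lt_floor_add_one _
        have hh1r : (1 : ℝ) ≤ h := by exact_mod_cast hh1
        have hsub : (gaps A X).filter (fun z => H < (z.2 : ℝ) - z.1) ⊆
            (gaps A X).filter (fun z => 2 * h ≤ z.2 - z.1) := by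
          intro z hz
          rw [mem_filter] at hz ⊢
          refine ⟨hz.1, ?_⟩
          have h5 := hz.2
          rw [← hcast z hz.1] at h5
          have h6 : ((2 * h : ℕ) : ℝ) ≤ ((z.2 - z.1 : ℕ) : ℝ) := by
            push_cast [Nat.cast_sub]
            push_cast at h5
            linarith
          exact_mod_cast h6
        rcases (gaps A X).filter (fun z => 2 * h ≤ z.2 - z.1) |>.eq_empty_or_nonempty with hE | hE
        · rw [hE, subset_empty] at hsub
          rw [hsub, card_empty, Nat.cast_zero]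
          positivity
        · obtain ⟨z, hz⟩ := hE
          rw [mem_filter] at hz
          have h5 := F2 z hz.1
          have h6 : h ^ 2 ≤ X := by
            have h7 : h ≤ z.2 - z.1 := by omega
            exact (Nat.pow_le_pow_left h7 2).trans h5
          have h7 := F1 h hh1 h6
          have h8 := card_long A X h
          have h8r : ((((gaps A X).filter (fun z => 2 * h ≤ z.2 - z.1)).card : ℝ)) * h ≤ (empt A X h).card := by
            exact_mod_cast h8
          have h9 : (((gaps A X).filter (fun z => H < (z.2 : ℝ) - z.1)).card : ℝ) ≤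
              (((gaps A X).filter (fun z => 2 * h ≤ z.2 - z.1)).card : ℝ) := by
            exact_mod_cast card_le_card hsub
          have h10 : (((gaps A X).filter (fun z => H < (z.2 : ℝ) - z.1)).card : ℝ) * h ≤
              C * (X * Real.log X ^ 7 / h) :=
            (mul_le_mul_of_nonneg_right h9 (by linarith)).trans (h8r.trans h7)
          have h11 : (((gaps A X).filter (fun z => H < (z.2 : ℝ) - z.1)).card : ℝ) * (h : ℝ) ^ 2 ≤
              C * (X * Real.log X ^ 7) := by
            have := mul_le_mul_of_nonneg_right h10 (show (0 : ℝ) ≤ h by linarith)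
            calc _ = (((gaps A X).filter (fun z => H < (z.2 : ℝ) - z.1)).card : ℝ) * h * h := by ring
              _ ≤ C * (X * Real.log X ^ 7 / h) * h := this
              _ = C * (X * Real.log X ^ 7) := by
                field_simp
          have h12 : H ^ 2 ≤ 16 * (h : ℝ) ^ 2 := by nlinarith
          rw [← mul_div_assoc, le_div_iff₀ (by positivity)]
          calc (((gaps A X).filter (fun z => H < (z.2 : ℝ) - z.1)).card : ℝ) * H ^ 2 ≤
                (((gaps A X).filter (fun z => H < (z.2 : ℝ) - z.1)).card : ℝ) * (16 * (h : ℝ) ^ 2) :=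
                mul_le_mul_of_nonneg_left h12 (Nat.cast_nonneg _)
            _ = 16 * ((((gaps A X).filter (fun z => H < (z.2 : ℝ) - z.1)).card : ℝ) * (h : ℝ) ^ 2) := by ring
            _ ≤ 16 * (C * (X * Real.log X ^ 7)) := by linarith
            _ = 16 * C * (X * Real.log X ^ 7) := by ring
            _ ≤ (16 * C + 16 + X₀ ^ 2) * (X * Real.log X ^ 7) := by
                apply mul_le_mul_of_nonneg_right _ (by positivity)
                nlinarith
    · obtain ⟨s, hs⟩ : ∃ s : ℕ, s = Nat.sqrt X := ⟨_, rfl⟩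
      obtain ⟨K, hK⟩ : ∃ K : ℕ, K = Nat.log 2 s := ⟨_, rfl⟩
      have hs1 : 1 ≤ s := by
        rw [hs]
        exact Nat.sqrt_pos.2 (by omega)
      have hs2 : s * s ≤ X := by
        rw [hs]
        exact Nat.sqrt_le X
      have hK1 : 2 ^ K ≤ s := by
        rw [hK]
        exact Nat.pow_log_le_self 2 (by omega)
      have hK2 : s < 2 ^ (K + 1) := by
        rw [hK]
        exact Nat.lt_pow_succ_log_self (by norm_num) s
      have hsec := second A X K 0 0 (fun z hz => by
        left
        refine lt_of_le_of_lt ?_ hK2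
        rw [hs]
        apply Nat.le_sqrt.2
        have := F2 z hz
        rwa [sq] at this)
      rw [Nat.zero_mul, Nat.add_zero] at hsec
      have hsecr : ∑ z ∈ gaps A X, ((z.2 : ℝ) - z.1) ^ 2 ≤
          X + ∑ k ∈ Icc 1 K, 2 ^ (k + 2) * ((empt A X (2 ^ (k - 1))).card : ℝ) := by
        have h5 : ((∑ z ∈ gaps A X, (z.2 - z.1) ^ 2 : ℕ) : ℝ) ≤
          ((X + ∑ k ∈ Icc 1 K, 2 ^ (k + 2) * (empt A X (2 ^ (k - 1))).card : ℕ) : ℝ) := by
          exact_mod_cast hsec
        push_cast at h5
        rw [sum_congr rfl fun z hz => by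
          rw [hcast z hz]] at h5
        exact h5
      have hterm : ∀ k ∈ Icc 1 K, (2 : ℝ) ^ (k + 2) * ((empt A X (2 ^ (k - 1))).card : ℝ) ≤
          8 * C * (X * Real.log X ^ 7) := by
        intro k hk
        rw [mem_Icc] at hk
        have h5 : 2 ^ (k - 1) ≤ s := by
          refine le_trans ?_ hK1
          apply Nat.pow_le_pow_right (by norm_num)
          omega
        have h6 := F1 (2 ^ (k - 1)) Nat.one_le_two_pow (by
          rw [sq]
          exact (Nat.mul_le_mul h5 h5).trans hs2)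
        have h7 : (2 : ℝ) ^ (k + 2) = 8 * 2 ^ (k - 1) := by
          have : k + 2 = (k - 1) + 3 := by omega
          rw [this, pow_add]
          norm_num
          ring
        rw [h7]
        have h8 : (0 : ℝ) < 2 ^ (k - 1) := by positivity
        calc 8 * (2 : ℝ) ^ (k - 1) * ((empt A X (2 ^ (k - 1))).card : ℝ) ≤
              8 * (2 : ℝ) ^ (k - 1) * (C * (X * Real.log X ^ 7 / ((2 ^ (k - 1) : ℕ) : ℝ))) :=
              mul_le_mul_of_nonneg_left h6 (by positivity)
          _ = 8 * C * (X * Real.log X ^ 7) := by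
            push_cast
            field_simp
      have hKr : (K : ℝ) ≤ Real.log X := by
        have h5 : ((2 : ℝ) ^ K) ^ 2 ≤ X := by
          have h6 : (2 ^ K) ^ 2 ≤ X := by
            rw [sq]
            exact (Nat.mul_le_mul hK1 hK1).trans hs2
          exact_mod_cast h6
        rw [Real.le_log_iff_exp_le (by linarith)]
        refine le_trans ?_ h5
        rw [← pow_mul, mul_comm K 2, pow_mul]
        calc Real.exp K = Real.exp 1 ^ K := by
              rw [← Real.exp_nat_mul, mul_one]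
          _ ≤ ((2 : ℝ) ^ 2) ^ K := by
              apply pow_le_pow_left₀ (Real.exp_pos 1).le
              linarith [Real.exp_one_lt_d9]
      have h9 : ∑ k ∈ Icc 1 K, (2 : ℝ) ^ (k + 2) * ((empt A X (2 ^ (k - 1))).card : ℝ) ≤
          K * (8 * C * (X * Real.log X ^ 7)) := by
        refine (sum_le_sum hterm).trans (le_of_eq ?_)
        rw [sum_const, Nat.card_Icc, nsmul_eq_mul]
        simp
      calc ∑ z ∈ gaps A X, ((z.2 : ℝ) - z.1) ^ 2 ≤ X + K * (8 * C * (X * Real.log X ^ 7)) := by linarith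
        _ ≤ X + Real.log X * (8 * C * (X * Real.log X ^ 7)) := by
            have := mul_le_mul_of_nonneg_right hKr (show 0 ≤ 8 * C * (X * Real.log X ^ 7) by positivity)
            linarith
        _ = 1 * (X * 1) + 8 * C * (X * Real.log X ^ 8) := by ring
        _ ≤ 1 * (X * Real.log X ^ 8) + 8 * C * (X * Real.log X ^ 8) := by
            have := mul_le_mul_of_nonneg_left hp8 h4
            linarith
        _ ≤ (16 * C + 16 + X₀ ^ 2) * (X * Real.log X ^ 8) := by
            rw [← add_mul]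
            apply mul_le_mul_of_nonneg_right _ (by positivity)
            nlinarith

end Pool.Agent.U607.GM
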