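import Mathlib

/-! Long gaps of a set of integers and the empty windows: tail and second moment. -/

set_option autoImplicit false

namespace Pool.Agent.U607.GM

open Finset

open Classical in
/-- the pairs `(a, b)`, `1 ≤ a < b ≤ X`, of consecutive elements of `A` -/
noncomputable def gaps (A : Set ℕ) (X : ℕ) : Finset (ℕ × ℕ) :=
  ((Icc 1 X) ×ˢ (Icc 1 X)).filter
    (fun z => z.1 ∈ A ∧ z.2 ∈ A ∧ z.1 < z.2 ∧ ∀ m ∈ A, ¬ (z.1 < m ∧ m < z.2))

open Classical in
/-- the `x ≤ X` such that no element of `A` is in `(x, x + H]` -/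
noncomputable def empt (A : Set ℕ) (X H : ℕ) : Finset ℕ :=
  (Icc 1 X).filter (fun x => ∀ j ∈ Icc 1 H, x + j ∉ A)

theorem mem_gaps {A : Set ℕ} {X : ℕ} {z : ℕ × ℕ} : z ∈ gaps A X ↔
    (1 ≤ z.1 ∧ z.1 ≤ X ∧ 1 ≤ z.2 ∧ z.2 ≤ X) ∧ z.1 ∈ A ∧ z.2 ∈ A ∧ z.1 < z.2 ∧
      ∀ m ∈ A, ¬ (z.1 < m ∧ m < z.2) := by
  classical
  unfold gaps
  rw [mem_filter, mem_product, mem_Icc, mem_Icc]
  tauto

theorem sum_sub (A : Set ℕ) (X H : ℕ) :
    ∑ z ∈ (gaps A X).filter (fun z => z.1 + H ≤ z.2), (z.2 - H - z.1) ≤ (empt A X H).card := by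
  classical
  have h1 : ∑ z ∈ (gaps A X).filter (fun z => z.1 + H ≤ z.2), (z.2 - H - z.1) =
      (((gaps A X).filter (fun z => z.1 + H ≤ z.2)).biUnion (fun z => Ico z.1 (z.2 - H))).card := by
    rw [card_biUnion]
    · apply sum_congr rfl
      intro z _
      rw [Nat.card_Ico]
    · intro z hz z' hz' hne
      rw [mem_coe, mem_filter, mem_gaps] at hz hz'
      obtain ⟨⟨_, a1, a2, a3, a4⟩, _⟩ := hz
      obtain ⟨⟨_, b1, b2, b3, b4⟩, _⟩ := hz'
      rw [Function.onFun, disjoint_left]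
      intro x hx hx'
      rw [mem_Ico] at hx hx'
      rcases lt_trichotomy z.1 z'.1 with h | h | h
      · have := a4 z'.1 b1
        omega
      · apply hne
        have c1 := a4 z'.2 b2
        have c2 := b4 z.2 a2
        apply Prod.ext h
        omega
      · have := b4 z.1 a1
        omega
  rw [h1]
  apply card_le_card
  intro x hx
  rw [mem_biUnion] at hx
  obtain ⟨z, hz, hx⟩ := hx
  rw [mem_filter, mem_gaps] at hz
  obtain ⟨⟨⟨c1, c2, c3, c4⟩, a1, a2, a3, a4⟩, hH⟩ := hz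
  rw [mem_Ico] at hx
  unfold empt
  rw [mem_filter, mem_Icc]
  refine ⟨⟨by omega, by omega⟩, ?_⟩
  intro j hj hA
  rw [mem_Icc] at hj
  have := a4 _ hA
  omega

/-- the total length of the gaps is at most `X` -/
theorem sum_all (A : Set ℕ) (X : ℕ) : ∑ z ∈ gaps A X, (z.2 - z.1) ≤ X := by
  classical
  have h := sum_sub A X 0
  have h1 : (gaps A X).filter (fun z => z.1 + 0 ≤ z.2) = gaps A X := by
    apply filter_true_of_mem
    intro z hz
    rw [mem_gaps] at hz
    omega
  rw [h1] at h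
  simp only [Nat.sub_zero] at h
  refine h.trans ?_
  refine (card_filter_le _ _).trans ?_
  rw [Nat.card_Icc]
  omega

/-- the total length of the gaps of length at least `2 H` -/
theorem sum_long (A : Set ℕ) (X H : ℕ) :
    ∑ z ∈ (gaps A X).filter (fun z => 2 * H ≤ z.2 - z.1), (z.2 - z.1) ≤ 2 * (empt A X H).card := by
  classical
  refine le_trans ?_ (Nat.mul_le_mul_left 2 (sum_sub A X H))
  rw [mul_sum]
  have h1 : (gaps A X).filter (fun z => 2 * H ≤ z.2 - z.1) ⊆ (gaps A X).filter (fun z => z.1 + H ≤ z.2) := by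
    intro z hz
    rw [mem_filter] at hz ⊢
    refine ⟨hz.1, ?_⟩
    have := (mem_gaps.1 hz.1).2.2.2.1
    omega
  refine le_trans ?_ (sum_le_sum_of_subset h1)
  apply sum_le_sum
  intro z hz
  rw [mem_filter] at hz
  omega

/-- the number of the gaps of length at least `2 H` -/
theorem card_long (A : Set ℕ) (X H : ℕ) :
    ((gaps A X).filter (fun z => 2 * H ≤ z.2 - z.1)).card * H ≤ (empt A X H).card := by
  classical
  have h := sum_long A X H
  have h1 : ((gaps A X).filter (fun z => 2 * H ≤ z.2 - z.1)).card * (2 * H) ≤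
      ∑ z ∈ (gaps A X).filter (fun z => 2 * H ≤ z.2 - z.1), (z.2 - z.1) := by
    rw [← smul_eq_mul]
    apply card_nsmul_le_sum
    intro z hz
    exact (mem_filter.1 hz).2
  nlinarith

/-- the second moment -/
theorem second (A : Set ℕ) (X K h₀ G : ℕ)
    (hG : ∀ z ∈ gaps A X, z.2 - z.1 < 2 ^ (K + 1) ∨ (2 * h₀ ≤ z.2 - z.1 ∧ z.2 - z.1 ≤ G)) :
    ∑ z ∈ gaps A X, (z.2 - z.1) ^ 2 ≤
      X + ∑ k ∈ Icc 1 K, 2 ^ (k + 2) * (empt A X (2 ^ (k - 1))).card + G * (2 * (empt A X h₀).card) := by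
  classical
  have key : ∀ z ∈ gaps A X, (z.2 - z.1) ^ 2 ≤ (z.2 - z.1) +
      ∑ k ∈ Icc 1 K, (if 2 * 2 ^ (k - 1) ≤ z.2 - z.1 then 2 ^ (k + 1) * (z.2 - z.1) else 0) +
      (if 2 * h₀ ≤ z.2 - z.1 then G * (z.2 - z.1) else 0) := by
    intro z hz
    have hlt := (mem_gaps.1 hz).2.2.2.1
    obtain ⟨g, hg⟩ : ∃ g, g = z.2 - z.1 := ⟨_, rfl⟩
    rw [← hg]
    have hg1 : 1 ≤ g := by omega
    rcases hG z hz with h | ⟨h, h'⟩
    · rw [← hg] at h
      rcases Nat.eq_or_lt_of_le hg1 with h2 | h2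
      · rw [← h2]
        have : 1 ^ 2 ≤ 1 := by norm_num
        omega
      · obtain ⟨k, hk⟩ : ∃ k, k = Nat.log 2 g := ⟨_, rfl⟩
        have hk1 : 1 ≤ k := by
          rw [hk]
          exact Nat.log_pos (by norm_num) (by omega)
        have hk2 : 2 ^ k ≤ g := by
          rw [hk]
          exact Nat.pow_log_le_self 2 (by omega)
        have hk3 : g < 2 ^ (k + 1) := by
          rw [hk]
          exact Nat.lt_pow_succ_log_self (by norm_num) g
        have hkK : k ≤ K := by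
          by_contra hcon
          have : 2 ^ (K + 1) ≤ 2 ^ k := Nat.pow_le_pow_right (by norm_num) (by omega)
          omega
        have h3 : 2 * 2 ^ (k - 1) = 2 ^ k := by
          rw [← pow_succ']
          congr 1
          omega
        have h4 : (if 2 * 2 ^ (k - 1) ≤ g then 2 ^ (k + 1) * g else 0) ≤
            ∑ k ∈ Icc 1 K, (if 2 * 2 ^ (k - 1) ≤ g then 2 ^ (k + 1) * g else 0) := by
          apply single_le_sum (f := fun k => if 2 * 2 ^ (k - 1) ≤ g then 2 ^ (k + 1) * g else 0)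
            (fun _ _ => Nat.zero_le _)
          rw [mem_Icc]
          exact ⟨hk1, hkK⟩
        rw [h3, if_pos hk2] at h4
        have h5 : g ^ 2 ≤ 2 ^ (k + 1) * g := by
          rw [sq]
          exact Nat.mul_le_mul_right g hk3.le
        omega
    · rw [← hg] at h h'
      rw [if_pos h]
      have h5 : g ^ 2 ≤ G * g := by
        rw [sq]
        exact Nat.mul_le_mul_right g h'
      omega
  refine (sum_le_sum key).trans ?_
  rw [sum_add_distrib, sum_add_distrib]
  refine add_le_add (add_le_add (sum_all A X) ?_) ?_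
  · rw [sum_comm]
    apply sum_le_sum
    intro k _
    rw [← sum_filter, ← mul_sum]
    refine (Nat.mul_le_mul_left _ (sum_long A X (2 ^ (k - 1)))).trans ?_
    rw [pow_succ 2 (k + 1)]
    apply le_of_eq
    ring
  · rw [← sum_filter, ← mul_sum]
    exact Nat.mul_le_mul_left _ (sum_long A X h₀)

end Pool.Agent.U607.GM
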