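import Pool.Agent.U607.GapMoment
import Pool.Agent.K3h89.SI.Cnt

/-! Tail and second moment of the gaps between the integers with at most two prime factors. -/

set_option autoImplicit false

namespace Pool.Agent.U607.GM

open Finset Filter
open Pool.Agent.K3h19.RV (Lam lam_two)
open Pool.Agent.K3h31.WL


/-- an integer `> 1` with at most two prime factors, all at least `w` -/
def Two (w : ℝ) (n : ℕ) : Prop :=
  1 < n ∧ n.primeFactorsList.length ≤ 2 ∧ ∀ q : ℕ, q.Prime → q ∣ n → w ≤ q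

theorem empt_sub2 (A : Set ℕ) (X H : ℕ) (w δ : ℝ) (hX : 3 ≤ X) (hH : 1 ≤ H) (hδ : 0 < δ)
    (hA : ∀ n, Two w n → n ∈ A) :
    (empt A X H).card ≤ ((Icc 1 X).filter (fun x => ((good 2 w H x).card : ℝ) <
      δ * H / Real.log X)).card := by
  classical
  apply card_le_card
  intro x hx
  unfold empt at hx
  rw [mem_filter] at hx ⊢
  refine ⟨hx.1, ?_⟩
  have h1 : good 2 w H x = ∅ := by
    rw [eq_empty_iff_forall_notMem]
    intro j hj
    unfold good at hj
    rw [mem_filter] at hj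
    apply hx.2 j hj.1
    apply hA
    have h2 := mem_Icc.1 hx.1
    have h3 := mem_Icc.1 hj.1
    exact ⟨by omega, hj.2.1, hj.2.2⟩
  rw [h1, card_empty, Nat.cast_zero]
  have h2 : 0 < Real.log X := Real.log_pos (by exact_mod_cast (by omega : 1 < X))
  have h3 : (0 : ℝ) < H := by exact_mod_cast hH
  positivity

/-- large `X`: few empty windows, and no gap longer than `X ^ (6 / 11 + ε)` -/
theorem large2 (ε : ℝ) (hε : 0 < ε) (hε1 : ε ≤ 1 / 4) : ∃ C : ℝ, 0 < C ∧ ∃ X₀ : ℕ, 3 ≤ X₀ ∧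
    ∀ X : ℕ, X₀ ≤ X → ∀ A : Set ℕ, (∀ n, Two ((X : ℝ) ^ (3 / 22 : ℝ)) n → n ∈ A) →
    (∀ H : ℕ, 1 ≤ H → H ^ 2 ≤ X → ((empt A X H).card : ℝ) ≤ C * ((X : ℝ) ^ (12 / 11 + ε) / H)) ∧
    ∀ z ∈ gaps A X, ((z.2 - z.1 : ℕ) : ℝ) ≤ (X : ℝ) ^ (6 / 11 + ε) + 1 := by
  classical
  have hL : 1 < (6 / 11 + ε / 8) * Lam 2 := by
    have := lam_two
    nlinarith
  obtain ⟨δ, C, hδ, hC, X1, H1⟩ := few_windows 2 (by norm_num) (6 / 11 + ε / 8) (6 / 11 + ε / 4) (by linarith)
    (by linarith) hL (by linarith)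
  obtain ⟨δ', hδ', X2, H2⟩ := Pool.Agent.K3h89.SI.every 2 (by norm_num) (6 / 11 + ε / 8) (6 / 11 + ε)
    (by linarith) hL (by linarith) (by linarith)
  have ev : ∀ᶠ X : ℕ in atTop, 1 * Real.log X ^ 7 * (X : ℝ) ^ (12 / 11 + ε / 2) ≤ (X : ℝ) ^ (12 / 11 + ε) :=
    Pool.Agent.K3h31.LP.log_pow_le 1 7 (12 / 11 + ε / 2) (12 / 11 + ε) (by linarith)
  obtain ⟨X3, H3⟩ := eventually_atTop.1 ev
  refine ⟨2 * C, by positivity, max (max X1 X2) (max X3 3), (le_max_right _ _).trans (le_max_right _ _), ?_⟩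
  intro X hX A hA
  have e1 : X1 ≤ X := ((le_max_left _ _).trans (le_max_left _ _)).trans hX
  have e2 : X2 ≤ X := ((le_max_right _ _).trans (le_max_left _ _)).trans hX
  have e3 : X3 ≤ X := ((le_max_left _ _).trans (le_max_right _ _)).trans hX
  have e4 : 3 ≤ X := ((le_max_right _ _).trans (le_max_right _ _)).trans hX
  have hXr : (3 : ℝ) ≤ X := by exact_mod_cast e4
  have hA' : ∀ n, Two ((X : ℝ) ^ ((6 / 11 + ε / 8) / 4)) n → n ∈ A := by
    intro n hn
    apply hA
    refine ⟨hn.1, hn.2.1, fun q hq hqn => le_trans ?_ (hn.2.2 q hq hqn)⟩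
    exact Real.rpow_le_rpow_of_exponent_le (by linarith) (by linarith)
  refine ⟨?_, ?_⟩
  · intro H hH hHX
    have h1 := H1 X e1 H hH hHX
    have h2 := empt_sub2 A X H ((X : ℝ) ^ ((6 / 11 + ε / 8) / 4)) δ e4 hH hδ hA'
    have h3 : ((empt A X H).card : ℝ) ≤
      ((Icc 1 X).filter (fun x => ((good 2 ((X : ℝ) ^ ((6 / 11 + ε / 8) / 4)) H x).card : ℝ) <
      δ * H / Real.log X)).card := by exact_mod_cast h2
    refine (h3.trans h1).trans ?_
    have hH0 : (0 : ℝ) < H := by exact_mod_cast hH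
    have h4 : (X : ℝ) ≤ (X : ℝ) ^ (12 / 11 + ε / 2) := by
      calc (X : ℝ) = (X : ℝ) ^ (1 : ℝ) := (Real.rpow_one _).symm
        _ ≤ (X : ℝ) ^ (12 / 11 + ε / 2) := Real.rpow_le_rpow_of_exponent_le (by linarith) (by linarith)
    have h5 : (X : ℝ) ^ (2 * (6 / 11 + ε / 4)) = (X : ℝ) ^ (12 / 11 + ε / 2) := by
      congr 1
      ring
    have h6 := H3 X e3
    rw [one_mul] at h6
    have hL0 : 0 ≤ Real.log X := Real.log_nonneg (by linarith)
    rw [h5]
    have h7 : ((X : ℝ) + (X : ℝ) ^ (12 / 11 + ε / 2)) * Real.log X ^ 7 ≤ 2 * (X : ℝ) ^ (12 / 11 + ε) := by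
      have h8 : (0 : ℝ) ≤ Real.log X ^ 7 := by positivity
      nlinarith
    calc C * (((X : ℝ) + (X : ℝ) ^ (12 / 11 + ε / 2)) * Real.log X ^ 7 / H) ≤
          C * (2 * (X : ℝ) ^ (12 / 11 + ε) / H) := by gcongr
      _ = 2 * C * ((X : ℝ) ^ (12 / 11 + ε) / H) := by ring
  · intro z hz
    rw [mem_gaps] at hz
    obtain ⟨⟨a1, a2, a3, a4⟩, b1, b2, b3, b4⟩ := hz
    by_contra hcon
    rw [not_le] at hcon
    obtain ⟨H, hH⟩ : ∃ H : ℕ, H = z.2 - z.1 - 1 := ⟨_, rfl⟩
    have hH1 : ((z.2 - z.1 : ℕ) : ℝ) ≤ H + 1 := by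
      have : z.2 - z.1 ≤ H + 1 := by omega
      exact_mod_cast this
    have h5 := H2 X e2 H (by linarith) (by omega) z.1 a1 a2
    have h6 : good 2 ((X : ℝ) ^ ((6 / 11 + ε / 8) / 4)) H z.1 = ∅ := by
      rw [eq_empty_iff_forall_notMem]
      intro j hj
      unfold good at hj
      rw [mem_filter] at hj
      have h7 := mem_Icc.1 hj.1
      apply b4 (z.1 + j)
      · apply hA'
        exact ⟨by omega, hj.2.1, hj.2.2⟩
      · omega
    rw [h6, card_empty, Nat.cast_zero] at h5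
    have h8 : 0 < Real.log X := Real.log_pos (by linarith)
    have h9 : (0 : ℝ) < H := by
      have : (0 : ℝ) < (X : ℝ) ^ (6 / 11 + ε) := by positivity
      linarith
    have h10 : 0 < δ' * H / Real.log X := by positivity
    linarith

/-- **Tail, second moment and maximum for at most two prime factors.** -/
theorem main2 (ε : ℝ) (hε : 0 < ε) : ∃ C : ℝ, 0 < C ∧ ∀ X : ℕ, 3 ≤ X →
    ∀ A : Set ℕ, (∀ n, Two ((X : ℝ) ^ (3 / 22 : ℝ)) n → n ∈ A) →
    (∀ z ∈ gaps A X, (z.2 : ℝ) - z.1 ≤ C * (X : ℝ) ^ (6 / 11 + ε)) ∧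
    (∀ H : ℝ, 1 ≤ H → H ^ 2 ≤ X → (((gaps A X).filter (fun z => H < (z.2 : ℝ) - z.1)).card : ℝ) ≤
      C * ((X : ℝ) ^ (12 / 11 + ε) / H ^ 2)) ∧
    ∑ z ∈ gaps A X, ((z.2 : ℝ) - z.1) ^ 2 ≤ C * (X : ℝ) ^ (25 / 22 + ε) := by
  classical
  obtain ⟨η, hη⟩ : ∃ η : ℝ, η = min (ε / 4) (1 / 4) := ⟨_, rfl⟩
  have hη0 : 0 < η := by
    rw [hη]
    exact lt_min (by linarith) (by norm_num)
  have hη1 : η ≤ 1 / 4 := by rw [hη]; exact min_le_right _ _
  have hηε : 4 * η ≤ ε := by
    have : η ≤ ε / 4 := by rw [hη]; exact min_le_left _ _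
    linarith
  obtain ⟨C, hC, X₀, hX₀, HL⟩ := large2 η hη0 hη1
  have ev : ∀ᶠ X : ℕ in atTop, 1 * Real.log X ^ 1 * (X : ℝ) ^ (12 / 11 + η) ≤ (X : ℝ) ^ (25 / 22 + ε) :=
    Pool.Agent.K3h31.LP.log_pow_le 1 1 (12 / 11 + η) (25 / 22 + ε) (by linarith)
  obtain ⟨X3, H3⟩ := eventually_atTop.1 ev
  obtain ⟨X₁, hX₁⟩ : ∃ X₁ : ℕ, X₁ = max X₀ X3 := ⟨_, rfl⟩
  refine ⟨48 * C + 16 + X₁ ^ 2, by positivity, ?_⟩
  intro X hX A hA
  have hXr : (3 : ℝ) ≤ X := by exact_mod_cast hX
  have hX1 : (1 : ℝ) ≤ X := by linarith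
  have hX0 : (0 : ℝ) < X := by linarith
  have hge : ∀ a : ℝ, 0 ≤ a → 1 ≤ (X : ℝ) ^ a := fun a ha => Real.one_le_rpow hX1 ha
  have hXle : (X : ℝ) ≤ (X : ℝ) ^ (12 / 11 + ε) := by
    calc (X : ℝ) = (X : ℝ) ^ (1 : ℝ) := (Real.rpow_one _).symm
      _ ≤ _ := Real.rpow_le_rpow_of_exponent_le hX1 (by linarith)
  have hXle2 : (X : ℝ) ≤ (X : ℝ) ^ (25 / 22 + ε) := by
    calc (X : ℝ) = (X : ℝ) ^ (1 : ℝ) := (Real.rpow_one _).symm
      _ ≤ _ := Real.rpow_le_rpow_of_exponent_le hX1 (by linarith)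
  have hcast : ∀ z ∈ gaps A X, ((z.2 - z.1 : ℕ) : ℝ) = (z.2 : ℝ) - z.1 := by
    intro z hz
    have := (mem_gaps.1 hz).2.2.2.1
    rw [Nat.cast_sub this.le]
  have hsum : ∑ z ∈ gaps A X, ((z.2 : ℝ) - z.1) ≤ X := by
    have h := sum_all A X
    have h1 : ((∑ z ∈ gaps A X, (z.2 - z.1) : ℕ) : ℝ) ≤ X := by exact_mod_cast h
    rw [Nat.cast_sum] at h1
    rwa [sum_congr rfl hcast] at h1
  have hge1 : ∀ z ∈ gaps A X, (1 : ℝ) ≤ (z.2 : ℝ) - z.1 := by
    intro z hz
    rw [← hcast z hz]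
    have := (mem_gaps.1 hz).2.2.2.1
    exact_mod_cast (by omega : 1 ≤ z.2 - z.1)
  have hleX : ∀ z ∈ gaps A X, (z.2 : ℝ) - z.1 ≤ X := by
    intro z hz
    have h3 := (mem_gaps.1 hz).1
    have h4 : (z.2 : ℝ) ≤ X := by exact_mod_cast h3.2.2.2
    have h5 : (0 : ℝ) ≤ z.1 := Nat.cast_nonneg _
    linarith
  have hcard : ((gaps A X).card : ℝ) ≤ X := by
    refine le_trans ?_ hsum
    rw [card_eq_sum_ones, Nat.cast_sum]
    apply sum_le_sum
    intro z hz
    rw [Nat.cast_one]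
    exact hge1 z hz
  rcases lt_or_ge X X₁ with hlt | hgeX
  · -- small `X`
    have hltr : (X : ℝ) ≤ X₁ := by exact_mod_cast hlt.le
    have hX1r : (1 : ℝ) ≤ X₁ := hX1.trans hltr
    have hbig : (X₁ : ℝ) ^ 2 ≤ 48 * C + 16 + (X₁ : ℝ) ^ 2 := by linarith
    refine ⟨?_, ?_, ?_⟩
    · intro z hz
      calc (z.2 : ℝ) - z.1 ≤ X := hleX z hz
        _ ≤ (X₁ : ℝ) ^ 2 * 1 := by nlinarith
        _ ≤ _ := by
            apply mul_le_mul hbig (hge _ (by linarith)) (by norm_num) (by positivity)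
    · intro H hH hHX
      have h2 : (((gaps A X).filter (fun z => H < (z.2 : ℝ) - z.1)).card : ℝ) ≤ X :=
          le_trans (by exact_mod_cast card_filter_le _ _) hcard
      refine h2.trans ?_
      rw [← mul_div_assoc, le_div_iff₀ (by positivity)]
      calc (X : ℝ) * H ^ 2 ≤ X * X := mul_le_mul_of_nonneg_left hHX hX0.le
        _ ≤ (X₁ : ℝ) ^ 2 * (X : ℝ) ^ (12 / 11 + ε) := by
            apply mul_le_mul _ hXle hX0.le (by positivity)
            nlinarith
        _ ≤ _ := by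
            apply mul_le_mul_of_nonneg_right hbig (by positivity)
    · calc ∑ z ∈ gaps A X, ((z.2 : ℝ) - z.1) ^ 2 ≤ ∑ z ∈ gaps A X, (X : ℝ) * ((z.2 : ℝ) - z.1) := by
            apply sum_le_sum
            intro z hz
            rw [sq]
            exact mul_le_mul_of_nonneg_right (hleX z hz) (by linarith [hge1 z hz])
        _ = X * ∑ z ∈ gaps A X, ((z.2 : ℝ) - z.1) := by rw [mul_sum]
        _ ≤ X * X := mul_le_mul_of_nonneg_left hsum hX0.le
        _ ≤ (X₁ : ℝ) ^ 2 * (X : ℝ) ^ (25 / 22 + ε) := by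
            apply mul_le_mul _ hXle2 hX0.le (by positivity)
            nlinarith
        _ ≤ _ := by
            apply mul_le_mul_of_nonneg_right hbig (by positivity)
  · have hgeX0 : X₀ ≤ X := (by rw [hX₁]; exact le_max_left _ _ : X₀ ≤ X₁).trans hgeX
    have hgeX3 : X3 ≤ X := (by rw [hX₁]; exact le_max_right _ _ : X3 ≤ X₁).trans hgeX
    obtain ⟨F1, F2⟩ := HL X hgeX0 A hA
    have hX₁0 : (0 : ℝ) ≤ (X₁ : ℝ) ^ 2 := by positivity
    have hmono : ∀ a b : ℝ, a ≤ b → (X : ℝ) ^ a ≤ (X : ℝ) ^ b := fun a b hab =>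
      Real.rpow_le_rpow_of_exponent_le hX1 hab
    refine ⟨?_, ?_, ?_⟩
    · intro z hz
      have h1 := F2 z hz
      rw [hcast z hz] at h1
      have h2 := hmono (6 / 11 + η) (6 / 11 + ε) (by linarith)
      have h3 := hge (6 / 11 + ε) (by linarith)
      calc (z.2 : ℝ) - z.1 ≤ (X : ℝ) ^ (6 / 11 + η) + 1 := h1
        _ ≤ 2 * (X : ℝ) ^ (6 / 11 + ε) := by linarith
        _ ≤ _ := by
            apply mul_le_mul_of_nonneg_right _ (by positivity)
            linarith
    · intro H hH hHX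
      rcases lt_or_ge H 2 with h2 | h2
      · have h3 : (((gaps A X).filter (fun z => H < (z.2 : ℝ) - z.1)).card : ℝ) ≤ X :=
          le_trans (by exact_mod_cast card_filter_le _ _) hcard
        refine h3.trans ?_
        rw [← mul_div_assoc, le_div_iff₀ (by positivity)]
        have h5 : H ^ 2 ≤ 4 := by nlinarith
        calc (X : ℝ) * H ^ 2 ≤ X * 4 := mul_le_mul_of_nonneg_left h5 hX0.le
          _ = 4 * X := by ring
          _ ≤ (48 * C + 16 + (X₁ : ℝ) ^ 2) * (X : ℝ) ^ (12 / 11 + ε) := by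
              apply mul_le_mul _ hXle hX0.le (by positivity)
              linarith
      · obtain ⟨h, hh⟩ : ∃ h : ℕ, h = ⌊H / 2⌋₊ := ⟨_, rfl⟩
        have hh1 : 1 ≤ h := by
          rw [hh]
          apply Nat.le_floor
          push_cast
          linarith
        have hh2 : (h : ℝ) ≤ H / 2 := by
          rw [hh]
          exact Nat.floor_le (by linarith)
        have hh3 : H / 2 < h + 1 := by
          rw [hh]
          exact Nat.lt_floor_add_one _
        have hh1r : (1 : ℝ) ≤ h := by exact_mod_cast hh1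
        have hsub : (gaps A X).filter (fun z => H < (z.2 : ℝ) - z.1) ⊆
            (gaps A X).filter (fun z => 2 * h ≤ z.2 - z.1) := by
          intro z hz
          rw [mem_filter] at hz ⊢
          refine ⟨hz.1, ?_⟩
          have h5 := hz.2
          rw [← hcast z hz.1] at h5
          have h6 : ((2 * h : ℕ) : ℝ) ≤ ((z.2 - z.1 : ℕ) : ℝ) := by
            push_cast [Nat.cast_sub]
            push_cast at h5
            linarith
          exact_mod_cast h6
        have h6 : h ^ 2 ≤ X := by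
          have h7 : (h : ℝ) ^ 2 ≤ X := by nlinarith
          exact_mod_cast h7
        have h7 := F1 h hh1 h6
        have h8 := card_long A X h
        have h8r : ((((gaps A X).filter (fun z => 2 * h ≤ z.2 - z.1)).card : ℝ)) * h ≤ (empt A X h).card := by
          exact_mod_cast h8
        have h9 : (((gaps A X).filter (fun z => H < (z.2 : ℝ) - z.1)).card : ℝ) ≤
            (((gaps A X).filter (fun z => 2 * h ≤ z.2 - z.1)).card : ℝ) := by
          exact_mod_cast card_le_card hsub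
        have h10 : (((gaps A X).filter (fun z => H < (z.2 : ℝ) - z.1)).card : ℝ) * h ≤
            C * ((X : ℝ) ^ (12 / 11 + η) / h) :=
          (mul_le_mul_of_nonneg_right h9 (by linarith)).trans (h8r.trans h7)
        have h11 : (((gaps A X).filter (fun z => H < (z.2 : ℝ) - z.1)).card : ℝ) * (h : ℝ) ^ 2 ≤
            C * (X : ℝ) ^ (12 / 11 + η) := by
          have := mul_le_mul_of_nonneg_right h10 (show (0 : ℝ) ≤ h by linarith)
          calc _ = (((gaps A X).filter (fun z => H < (z.2 : ℝ) - z.1)).card : ℝ) * h * h := by ring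
            _ ≤ C * ((X : ℝ) ^ (12 / 11 + η) / h) * h := this
            _ = C * (X : ℝ) ^ (12 / 11 + η) := by
              field_simp
        have h12 : H ^ 2 ≤ 16 * (h : ℝ) ^ 2 := by nlinarith
        rw [← mul_div_assoc, le_div_iff₀ (by positivity)]
        calc (((gaps A X).filter (fun z => H < (z.2 : ℝ) - z.1)).card : ℝ) * H ^ 2 ≤
              (((gaps A X).filter (fun z => H < (z.2 : ℝ) - z.1)).card : ℝ) * (16 * (h : ℝ) ^ 2) :=
              mul_le_mul_of_nonneg_left h12 (Nat.cast_nonneg _)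
          _ = 16 * ((((gaps A X).filter (fun z => H < (z.2 : ℝ) - z.1)).card : ℝ) * (h : ℝ) ^ 2) := by ring
          _ ≤ 16 * (C * (X : ℝ) ^ (12 / 11 + η)) := by linarith
          _ ≤ 16 * (C * (X : ℝ) ^ (12 / 11 + ε)) := by
              have := hmono (12 / 11 + η) (12 / 11 + ε) (by linarith)
              have h13 := mul_le_mul_of_nonneg_left this hC.le
              linarith
          _ = 16 * C * (X : ℝ) ^ (12 / 11 + ε) := by ring
          _ ≤ (48 * C + 16 + (X₁ : ℝ) ^ 2) * (X : ℝ) ^ (12 / 11 + ε) := by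
              apply mul_le_mul_of_nonneg_right _ (by positivity)
              linarith
    · obtain ⟨s, hs⟩ : ∃ s : ℕ, s = Nat.sqrt X := ⟨_, rfl⟩
      have hs1 : 1 ≤ s := by
        rw [hs]
        exact Nat.sqrt_pos.2 (by omega)
      have hs2 : s * s ≤ X := by
        rw [hs]
        exact Nat.sqrt_le X
      have hs3 : X < (s + 1) * (s + 1) := by
        rw [hs]
        exact Nat.lt_succ_sqrt X
      obtain ⟨K, hK⟩ : ∃ K : ℕ, K = Nat.log 2 (2 * s) := ⟨_, rfl⟩
      have hK1 : 2 ^ K ≤ 2 * s := by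
        rw [hK]
        exact Nat.pow_log_le_self 2 (by omega)
      have hK2 : 2 * s < 2 ^ (K + 1) := by
        rw [hK]
        exact Nat.lt_pow_succ_log_self (by norm_num) _
      obtain ⟨G, hG⟩ : ∃ G : ℕ, G = ⌊(X : ℝ) ^ (6 / 11 + η) + 1⌋₊ := ⟨_, rfl⟩
      have hGr : (G : ℝ) ≤ (X : ℝ) ^ (6 / 11 + η) + 1 := by
        rw [hG]
        exact Nat.floor_le (by positivity)
      have hsec := second A X K s G (fun z hz => by
        by_cases h1 : z.2 - z.1 < 2 ^ (K + 1)
        · exact Or.inl h1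
        · right
          refine ⟨by omega, ?_⟩
          rw [hG]
          exact Nat.le_floor (F2 z hz))
      have hsecr : ∑ z ∈ gaps A X, ((z.2 : ℝ) - z.1) ^ 2 ≤
          X + ∑ k ∈ Icc 1 K, 2 ^ (k + 2) * ((empt A X (2 ^ (k - 1))).card : ℝ) +
            G * (2 * ((empt A X s).card : ℝ)) := by
        have h5 : ((∑ z ∈ gaps A X, (z.2 - z.1) ^ 2 : ℕ) : ℝ) ≤
          ((X + ∑ k ∈ Icc 1 K, 2 ^ (k + 2) * (empt A X (2 ^ (k - 1))).card +
            G * (2 * (empt A X s).card) : ℕ) : ℝ) := by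
          exact_mod_cast hsec
        push_cast at h5
        rw [sum_congr rfl fun z hz => by
          rw [hcast z hz]] at h5
        exact h5
      have hB0 : 0 < (X : ℝ) ^ (12 / 11 + η) := by positivity
      have hterm : ∀ k ∈ Icc 1 K, (2 : ℝ) ^ (k + 2) * ((empt A X (2 ^ (k - 1))).card : ℝ) ≤
          8 * C * (X : ℝ) ^ (12 / 11 + η) := by
        intro k hk
        rw [mem_Icc] at hk
        have h5 : 2 ^ (k - 1) ≤ s := by
          have h6 : 2 ^ (k - 1) * 2 ≤ 2 ^ K := by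
            rw [← pow_succ]
            apply Nat.pow_le_pow_right (by norm_num)
            omega
          omega
        have h6 := F1 (2 ^ (k - 1)) Nat.one_le_two_pow (by
          rw [sq]
          exact (Nat.mul_le_mul h5 h5).trans hs2)
        have h7 : (2 : ℝ) ^ (k + 2) = 8 * 2 ^ (k - 1) := by
          have : k + 2 = (k - 1) + 3 := by omega
          rw [this, pow_add]
          norm_num
          ring
        rw [h7]
        have h8 : (0 : ℝ) < 2 ^ (k - 1) := by positivity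
        calc 8 * (2 : ℝ) ^ (k - 1) * ((empt A X (2 ^ (k - 1))).card : ℝ) ≤
              8 * (2 : ℝ) ^ (k - 1) * (C * ((X : ℝ) ^ (12 / 11 + η) / ((2 ^ (k - 1) : ℕ) : ℝ))) :=
              mul_le_mul_of_nonneg_left h6 (by positivity)
          _ = 8 * C * (X : ℝ) ^ (12 / 11 + η) := by
            push_cast
            field_simp
      have hKr : (K : ℝ) ≤ 1 * Real.log X ^ 1 + 1 := by
        rcases Nat.eq_zero_or_pos K with h0 | h0
        · rw [h0]
          have : 0 ≤ Real.log X := Real.log_nonneg hX1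
          push_cast
          linarith
        · have h5 : ((2 : ℝ) ^ (K - 1)) ^ 2 ≤ X := by
            have h7 : 2 ^ (K - 1) ≤ s := by
              have h6 : 2 ^ (K - 1) * 2 = 2 ^ K := by
                rw [← pow_succ]
                congr 1
                omega
              omega
            have h6 : (2 ^ (K - 1)) ^ 2 ≤ X := by
              rw [sq]
              exact (Nat.mul_le_mul h7 h7).trans hs2
            exact_mod_cast h6
          have h8 : ((K - 1 : ℕ) : ℝ) ≤ Real.log X := by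
            rw [Real.le_log_iff_exp_le (by linarith)]
            refine le_trans ?_ h5
            rw [← pow_mul, mul_comm (K - 1) 2, pow_mul]
            calc Real.exp ((K - 1 : ℕ) : ℝ) = Real.exp 1 ^ (K - 1) := by
                  rw [← Real.exp_nat_mul, mul_one]
              _ ≤ ((2 : ℝ) ^ 2) ^ (K - 1) := by
                  apply pow_le_pow_left₀ (Real.exp_pos 1).le
                  linarith [Real.exp_one_lt_d9]
          have h9 : (K : ℝ) = ((K - 1 : ℕ) : ℝ) + 1 := by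
            have : K = (K - 1) + 1 := by omega
            exact_mod_cast this
          rw [h9]
          linarith
      have h9 : ∑ k ∈ Icc 1 K, (2 : ℝ) ^ (k + 2) * ((empt A X (2 ^ (k - 1))).card : ℝ) ≤
          K * (8 * C * (X : ℝ) ^ (12 / 11 + η)) := by
        refine (sum_le_sum hterm).trans (le_of_eq ?_)
        rw [sum_const, Nat.card_Icc, nsmul_eq_mul]
        simp
      have hlog := H3 X hgeX3
      have h12 := hmono (12 / 11 + η) (25 / 22 + ε) (by linarith)
      have h10 : (K : ℝ) * (8 * C * (X : ℝ) ^ (12 / 11 + η)) ≤ 16 * C * (X : ℝ) ^ (25 / 22 + ε) := by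
        calc (K : ℝ) * (8 * C * (X : ℝ) ^ (12 / 11 + η)) ≤
              (1 * Real.log X ^ 1 + 1) * (8 * C * (X : ℝ) ^ (12 / 11 + η)) :=
              mul_le_mul_of_nonneg_right hKr (by positivity)
          _ = 8 * C * (1 * Real.log X ^ 1 * (X : ℝ) ^ (12 / 11 + η) + (X : ℝ) ^ (12 / 11 + η)) := by ring
          _ ≤ 8 * C * ((X : ℝ) ^ (25 / 22 + ε) + (X : ℝ) ^ (25 / 22 + ε)) := by
              apply mul_le_mul_of_nonneg_left _ (by positivity)
              linarith
          _ = _ := by ring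
      have h11 : (G : ℝ) * (2 * ((empt A X s).card : ℝ)) ≤ 8 * C * (X : ℝ) ^ (25 / 22 + ε) := by
        have h13 := F1 s hs1 (by rw [sq]; exact hs2)
        have hs0 : (0 : ℝ) < s := by exact_mod_cast hs1
        have hsX : (X : ℝ) ^ (1 / 2 : ℝ) ≤ 2 * s := by
          rw [← Real.sqrt_eq_rpow]
          apply Real.sqrt_le_iff.2
          refine ⟨by positivity, ?_⟩
          have h14 : (X : ℝ) < (s + 1) * (s + 1) := by exact_mod_cast hs3
          have h15 : (1 : ℝ) ≤ s := by exact_mod_cast hs1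
          nlinarith
        have hG2 : (G : ℝ) ≤ 2 * (X : ℝ) ^ (6 / 11 + η) := by
          have := hge (6 / 11 + η) (by linarith)
          linarith
        have h16 : ((empt A X s).card : ℝ) ≤ 2 * C * (X : ℝ) ^ (13 / 22 + η) := by
          refine h13.trans ?_
          rw [mul_div_assoc', div_le_iff₀ hs0]
          have h17 : (X : ℝ) ^ (12 / 11 + η) = (X : ℝ) ^ (13 / 22 + η) * (X : ℝ) ^ (1 / 2 : ℝ) := by
            rw [← Real.rpow_add hX0]
            congr 1
            ring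
          rw [h17]
          have h18 : 0 < (X : ℝ) ^ (13 / 22 + η) := by positivity
          calc C * ((X : ℝ) ^ (13 / 22 + η) * (X : ℝ) ^ (1 / 2 : ℝ)) ≤
                C * ((X : ℝ) ^ (13 / 22 + η) * (2 * s)) := by gcongr
            _ = 2 * C * (X : ℝ) ^ (13 / 22 + η) * s := by ring
        calc (G : ℝ) * (2 * ((empt A X s).card : ℝ)) ≤
              2 * (X : ℝ) ^ (6 / 11 + η) * (2 * (2 * C * (X : ℝ) ^ (13 / 22 + η))) := by gcongr
          _ = 8 * C * ((X : ℝ) ^ (6 / 11 + η) * (X : ℝ) ^ (13 / 22 + η)) := by ring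
          _ = 8 * C * (X : ℝ) ^ (25 / 22 + 2 * η) := by
              rw [← Real.rpow_add hX0]
              congr 2
              ring
          _ ≤ 8 * C * (X : ℝ) ^ (25 / 22 + ε) := by
              apply mul_le_mul_of_nonneg_left (hmono _ _ (by linarith)) (by positivity)
      calc ∑ z ∈ gaps A X, ((z.2 : ℝ) - z.1) ^ 2 ≤ (X : ℝ) ^ (25 / 22 + ε) +
            16 * C * (X : ℝ) ^ (25 / 22 + ε) + 8 * C * (X : ℝ) ^ (25 / 22 + ε) := by linarith
        _ = (24 * C + 1) * (X : ℝ) ^ (25 / 22 + ε) := by ring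
        _ ≤ _ := by
            apply mul_le_mul_of_nonneg_right _ (by positivity)
            linarith

end Pool.Agent.U607.GM
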