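import Pool.Agent.U607.LocalWin

/-! Almost primes in all but few short windows of every short interval: assembly. -/

set_option autoImplicit false

namespace Pool.Agent.U607.LW

open Finset Filter
open Pool.Agent.W23.DC
open Pool.Agent.Y882
open Pool.Agent.Y882.PX
open Pool.Agent.Y882.KW
open Pool.Agent.K3h19.RV (Lam richert)
open Pool.Agent.K3h31
open Pool.Agent.K3h31.WL

open Classical in
theorem local_windows (r : ℕ) (hr : 1 ≤ r) (τ τ' : ℝ) (hτ0 : 0 < τ) (hτ1 : τ' ≤ 1) (h : 1 < τ * Lam r)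
    (hττ : τ < τ') : ∃ δ C : ℝ, 0 < δ ∧ 0 < C ∧ ∃ X₀ : ℕ, ∀ X : ℕ, X₀ ≤ X → ∀ M Y : ℕ, M + Y ≤ X →
    (X : ℝ) ^ (2 * τ') ≤ Y → ∀ H : ℕ, 1 ≤ H → (H : ℝ) ≤ (X : ℝ) ^ τ' →
    (((Icc 1 Y).filter (fun x => ((WL.good r ((X : ℝ) ^ (τ / 4)) H (M + x)).card : ℝ) <
      δ * H / Real.log X)).card : ℝ) ≤ C * (Y * Real.log X ^ 7 / H) := by
  classical
  obtain ⟨υ, lam, S, hζυ, hυτ, hlam, hS, hrS, hint⟩ := richert r hr τ hτ0 h
  obtain ⟨δ₀, hδ₀, Y0, HL⟩ := LP.lower τ (τ / 4) υ lam τ' (by linarith) (by linarith) (by linarith)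
    (by linarith) hζυ hυτ hlam hint hττ
  obtain ⟨C₁, hC₁, HM⟩ := mean_sq 1
  obtain ⟨C₂, hC₂, X2, HS⟩ := sq_local (τ / 4) υ τ' (δ₀ / 4) (by linarith) (by linarith) (by linarith)
  have ev1 : ∀ᶠ X : ℕ in atTop, (2 : ℝ) ≤ (X : ℝ) ^ (S - 1) :=
    ((tendsto_rpow_atTop (show 0 < S - 1 by linarith)).comp
      tendsto_natCast_atTop_atTop).eventually_ge_atTop _
  obtain ⟨X3, hX3⟩ := eventually_atTop.1 ev1
  refine ⟨δ₀ / 4, 2 * C₁ * (4 / δ₀ ^ 2) + C₂, by positivity, by positivity,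
    max (max Y0 X2) (max X3 3), ?_⟩
  intro X hX M Y hMY hYX H hH hHX
  have hXY : Y0 ≤ X := ((le_max_left _ _).trans (le_max_left _ _)).trans hX
  have hXX2 : X2 ≤ X := ((le_max_right _ _).trans (le_max_left _ _)).trans hX
  have hXX3 : X3 ≤ X := ((le_max_left _ _).trans (le_max_right _ _)).trans hX
  have hX3' : 3 ≤ X := ((le_max_right _ _).trans (le_max_right _ _)).trans hX
  have hXr : (3 : ℝ) ≤ X := by exact_mod_cast hX3'
  have hX0 : (0 : ℝ) < X := by linarith
  have hHr : (1 : ℝ) ≤ H := by exact_mod_cast hH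
  have hH0 : (0 : ℝ) < H := by linarith
  have hY0 : (0 : ℝ) ≤ Y := Nat.cast_nonneg _
  have hHX' : H ≤ X := by
    have h1 : (H : ℝ) ≤ X := by
      refine hHX.trans ?_
      calc (X : ℝ) ^ τ' ≤ (X : ℝ) ^ (1 : ℝ) := Real.rpow_le_rpow_of_exponent_le (by linarith) hτ1
        _ = X := Real.rpow_one _
    exact_mod_cast h1
  have hL1 : 1 ≤ Real.log X := by
    have : Real.exp 1 ≤ X := by linarith [Real.exp_one_lt_d9]
    rw [Real.le_log_iff_exp_le hX0]
    exact this
  have hL0 : 0 < Real.log X := by linarith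
  obtain ⟨c, hcL, hcD, hcV⟩ := HL X hXY
  have hPZ : ∀ p ∈ PZ X υ, p.Prime ∧ p ≤ X := by
    intro p hp
    unfold PZ at hp
    rw [mem_filter, mem_Icc] at hp
    exact ⟨hp.2.1, hp.1.2⟩
  set D : ℕ := ⌊(X : ℝ) ^ τ'⌋₊ with hD
  have hDr : (D : ℝ) ≤ (X : ℝ) ^ τ' := Nat.floor_le (by positivity)
  obtain ⟨I, hI⟩ : ∃ I : ℕ → Finset ℕ, I = fun q => {(q - M % q) % q} := ⟨_, rfl⟩
  have hIq : ∀ q : ℕ, q.Prime → ∀ n : ℕ, (n % q ∈ I q ↔ q ∣ M + n) := by
    intro q hq n
    rw [hI]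
    simp only [mem_singleton]
    have hq0 := hq.pos
    have h1 : M % q < q := Nat.mod_lt _ hq0
    constructor
    · intro h2
      have h3 : n ≡ q - M % q [MOD q] := h2
      have h4 : M + n ≡ M % q + (q - M % q) [MOD q] :=
        Nat.ModEq.add (Nat.mod_modEq M q).symm h3
      rw [Nat.add_sub_cancel' h1.le] at h4
      exact (Nat.modEq_zero_iff_dvd).1 (h4.trans (Nat.modEq_zero_iff_dvd.2 (dvd_refl q)))
    · intro h2
      have h4 : M % q + (q - M % q) ≡ M + n [MOD q] := by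
        rw [Nat.add_sub_cancel' h1.le]
        exact (Nat.modEq_zero_iff_dvd.2 (dvd_refl q)).trans (Nat.modEq_zero_iff_dvd.2 h2).symm
      have h5 : M + (q - M % q) ≡ M + n [MOD q] :=
        (Nat.ModEq.add_right _ (Nat.mod_modEq M q).symm).trans h4
      exact (Nat.ModEq.add_left_cancel' M h5).symm
  have hmean := HM X hX3' υ c I D (fun q hq => by
    rw [hI, singleton_subset_iff, mem_range]
    exact Nat.mod_lt _ hq.pos) (fun q _ => by rw [hI]; simp) (fun T hT hT0 => Nat.le_floor (by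
      have := hcD T hT hT0
      exact_mod_cast this)) hcL Y H
  have hmean2 : ∑ x ∈ Icc 1 Y, Rem (PZ X υ) c I H x ^ 2 ≤ 2 * C₁ * (Y * H * Real.log X ^ 5) := by
    refine hmean.trans ?_
    have h1 : (D : ℝ) ^ 2 ≤ Y := by
      calc (D : ℝ) ^ 2 ≤ ((X : ℝ) ^ τ') ^ 2 := pow_le_pow_left₀ (Nat.cast_nonneg _) hDr 2
        _ = (X : ℝ) ^ (2 * τ') := by
          rw [← Real.rpow_natCast, ← Real.rpow_mul hX0.le]
          congr 1
          push_cast
          ring
        _ ≤ Y := hYX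
    norm_num
    calc C₁ * (((Y : ℝ) + (D : ℝ) ^ 2) * H * Real.log X ^ 5) ≤ C₁ * (((Y : ℝ) + Y) * H * Real.log X ^ 5) := by
          gcongr
      _ = 2 * C₁ * (Y * H * Real.log X ^ 5) := by ring
  -- the sieve inequality
  have hsieve : ∀ x ∈ Icc 1 Y, δ₀ * H / Real.log X + Rem (PZ X υ) c I H x ≤
      ((WL.good r ((X : ℝ) ^ (τ / 4)) H (M + x)).card : ℝ) + ((sqs X (τ / 4) υ H (M + x)).card : ℝ) := by
    intro x hx
    rw [mem_Icc] at hx
    have h1 := hcV (fun p => 1 / (p : ℝ)) (Or.inr (by norm_num)) (fun p _ _ => rfl) (Icc 1 H)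
      (fun j => M + x + j)
    have h2 : ∑ T ∈ (PZ X υ).powerset, c T *
          ((((Icc 1 H).filter (fun j => ∏ p ∈ T, p ∣ M + x + j)).card : ℝ) -
            (Icc 1 H).card * ∏ p ∈ T, (1 / (p : ℝ))) =
        Rem (PZ X υ) c I H x := by
      unfold Rem
      refine sum_congr rfl fun T hT => ?_
      rw [mem_powerset] at hT
      congr 2
      · congr 2
        apply filter_congr
        intro j _
        rw [prod_dvd_iff T (fun p hp => (hPZ p (hT hp)).1) (M + x + j)]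
        constructor
        · intro h3 q hq
          rw [hIq q (hPZ q (hT hq)).1, ← add_assoc]
          exact Nat.dvd_of_mod_eq_zero (mem_singleton.1 (h3 q hq))
        · intro h3 q hq
          rw [mem_singleton]
          have := (hIq q (hPZ q (hT hq)).1 (x + j)).1 (h3 q hq)
          rw [← add_assoc] at this
          exact Nat.mod_eq_zero_of_dvd this
      · rw [hI]
        simp
    rw [h2, Nat.card_Icc, Nat.add_sub_cancel] at h1
    refine h1.trans ?_
    have h3 : (Icc 1 H).filter (fun j => 0 < WW X (τ / 4) υ lam (lam / υ) (M + x + j)) ⊆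
        WL.good r ((X : ℝ) ^ (τ / 4)) H (M + x) ∪ sqs X (τ / 4) υ H (M + x) := by
      intro j hj
      rw [mem_filter] at hj
      have hj1 := mem_Icc.1 hj.1
      rw [mem_union]
      by_cases hs : ∃ q ∈ pr X (τ / 4) υ, q ^ 2 ∣ M + x + j
      · right
        unfold sqs
        rw [mem_filter]
        exact ⟨hj.1, hs⟩
      · left
        push Not at hs
        unfold WL.good
        rw [mem_filter]
        refine ⟨hj.1, ?_⟩
        apply almost X (by omega) (τ / 4) υ lam S r hζυ (by linarith) (by linarith) hlam hrS (M + x + j)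
          (by omega) _ hj.2 hs
        have h4 : ((M + x + j : ℕ) : ℝ) ≤ 2 * X := by
          have : M + x + j ≤ 2 * X := by omega
          exact_mod_cast this
        refine h4.trans ?_
        have h5 := hX3 X hXX3
        calc 2 * (X : ℝ) ≤ (X : ℝ) ^ (S - 1) * X := by gcongr
          _ = (X : ℝ) ^ S := by
            rw [← Real.rpow_add_one (by positivity)]
            congr 1
            ring
    have h4 := (card_le_card h3).trans (card_union_le _ _)
    exact_mod_cast h4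
  -- the exceptional set
  set E := (Icc 1 Y).filter (fun x => ((WL.good r ((X : ℝ) ^ (τ / 4)) H (M + x)).card : ℝ) <
      δ₀ / 4 * H / Real.log X) with hE
  set E1 := (Icc 1 Y).filter (fun x => δ₀ / 4 * H / Real.log X < ((sqs X (τ / 4) υ H (M + x)).card : ℝ))
    with hE1
  set E2 := (Icc 1 Y).filter (fun x => (δ₀ * H / (2 * Real.log X)) ^ 2 ≤ Rem (PZ X υ) c I H x ^ 2)
    with hE2
  have hsub : E ⊆ E1 ∪ E2 := by
    intro x hx
    rw [hE, mem_filter] at hx
    rw [mem_union]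
    by_cases h1 : δ₀ / 4 * H / Real.log X < ((sqs X (τ / 4) υ H (M + x)).card : ℝ)
    · left
      rw [hE1, mem_filter]
      exact ⟨hx.1, h1⟩
    · right
      rw [hE2, mem_filter]
      refine ⟨hx.1, ?_⟩
      have h2 := hsieve x hx.1
      have e1 : δ₀ * H / Real.log X = δ₀ / 4 * H / Real.log X + δ₀ / 4 * H / Real.log X +
        δ₀ * H / (2 * Real.log X) := by
        field_simp
        ring
      have h3 : Rem (PZ X υ) c I H x ≤ - (δ₀ * H / (2 * Real.log X)) := by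
        linarith [hx.2, not_lt.1 h1]
      have h4 : 0 ≤ δ₀ * H / (2 * Real.log X) := by positivity
      nlinarith
  have hb1 := HS X hXX2 M Y hYX H hH hHX
  have hpos : 0 < (δ₀ * H / (2 * Real.log X)) ^ 2 := by positivity
  have hb2 : (E2.card : ℝ) * (δ₀ * H / (2 * Real.log X)) ^ 2 ≤ 2 * C₁ * (Y * H * Real.log X ^ 5) := by
    calc (E2.card : ℝ) * (δ₀ * H / (2 * Real.log X)) ^ 2 = ∑ _x ∈ E2, (δ₀ * H / (2 * Real.log X)) ^ 2 := by
          rw [sum_const, nsmul_eq_mul]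
      _ ≤ ∑ x ∈ E2, Rem (PZ X υ) c I H x ^ 2 := sum_le_sum fun x hx => by
          rw [hE2, mem_filter] at hx
          exact hx.2
      _ ≤ ∑ x ∈ Icc 1 Y, Rem (PZ X υ) c I H x ^ 2 :=
          sum_le_sum_of_subset_of_nonneg (by rw [hE2]; exact filter_subset _ _) fun _ _ _ => sq_nonneg _
      _ ≤ _ := hmean2
  rw [← le_div_iff₀ hpos] at hb2
  have hb3 : 2 * C₁ * (Y * H * Real.log X ^ 5) / (δ₀ * H / (2 * Real.log X)) ^ 2 =
      2 * C₁ * (4 / δ₀ ^ 2) * (Y * Real.log X ^ 7 / H) := by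
    field_simp
    ring
  have hb4 : C₂ * ((Y : ℝ) * Real.log X ^ 2 / H) ≤ C₂ * (Y * Real.log X ^ 7 / H) := by
    have h5 : Real.log X ^ 2 ≤ Real.log X ^ 7 := pow_le_pow_right₀ hL1 (by norm_num)
    gcongr
  have hc : (E.card : ℝ) ≤ (E1.card : ℝ) + E2.card := by
    have := (card_le_card hsub).trans (card_union_le _ _)
    exact_mod_cast this
  rw [hb3] at hb2
  rw [add_mul]
  linarith

end Pool.Agent.U607.LW
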