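import Pool.Agent.U607.LocalMain

/-! Almost primes in all long windows behind all but few points of every short interval. -/

set_option autoImplicit false

namespace Pool.Agent.U607.LW

open Finset Filter
open Pool.Agent.K3h19.RV (Lam richert lam_three)
open Pool.Agent.K3h31

theorem half_sum (k0 : ℕ) : ∀ n : ℕ, ∑ i ∈ range n, (1 / 2 : ℝ) ^ (k0 + i) ≤
    2 * (1 / 2 : ℝ) ^ k0 - 2 * (1 / 2 : ℝ) ^ (k0 + n) := by
  intro n
  induction n with
  | zero => simp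
  | succ n ih =>
    rw [sum_range_succ]
    have : (1 / 2 : ℝ) ^ (k0 + (n + 1)) = (1 / 2 : ℝ) ^ (k0 + n) * (1 / 2) := by
      rw [← add_assoc, pow_succ]
    rw [this]
    linarith

theorem half_set (K : Finset ℕ) (a : ℝ) (ha : 0 < a) (h : ∀ k ∈ K, a ≤ 2 ^ (k + 1)) :
    ∑ k ∈ K, 1 / (2 : ℝ) ^ k ≤ 4 / a := by
  rcases K.eq_empty_or_nonempty with h0 | h0
  · rw [h0, sum_empty]
    positivity
  · obtain ⟨k0, hk0⟩ : ∃ k0, k0 = K.min' h0 := ⟨_, rfl⟩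
    have hk : k0 ∈ K := by rw [hk0]; exact min'_mem _ _
    obtain ⟨N, hN⟩ : ∃ N, N = K.max' h0 + 1 := ⟨_, rfl⟩
    have hsub : K ⊆ (range N).image (fun i => k0 + i) := by
      intro k hkK
      rw [mem_image]
      have h1 : k0 ≤ k := by rw [hk0]; exact min'_le _ _ hkK
      have h2 : k ≤ K.max' h0 := le_max' _ _ hkK
      refine ⟨k - k0, ?_, by omega⟩
      rw [mem_range]
      omega
    have h3 : ∑ k ∈ K, 1 / (2 : ℝ) ^ k ≤ ∑ i ∈ range N, (1 / 2 : ℝ) ^ (k0 + i) := by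
      refine (sum_le_sum_of_subset_of_nonneg hsub fun _ _ _ => by positivity).trans (le_of_eq ?_)
      rw [sum_image (by intro a _ b _ hab; simpa using hab)]
      apply sum_congr rfl
      intro i _
      rw [one_div, one_div, inv_pow]
    have h4 := half_sum k0 N
    have h5 : (0 : ℝ) ≤ 2 * (1 / 2 : ℝ) ^ (k0 + N) := by positivity
    have h6 := h k0 hk
    have h7 : 2 * (1 / 2 : ℝ) ^ k0 ≤ 4 / a := by
      rw [le_div_iff₀ ha]
      have h8 : (1 / 2 : ℝ) ^ k0 * 2 ^ k0 = 1 := by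
        rw [← mul_pow]
        norm_num
      have h9 : (0 : ℝ) < (1 / 2 : ℝ) ^ k0 := by positivity
      rw [pow_succ] at h6
      calc 2 * (1 / 2 : ℝ) ^ k0 * a ≤ 2 * (1 / 2 : ℝ) ^ k0 * (2 ^ k0 * 2) := by gcongr
        _ = 4 * ((1 / 2 : ℝ) ^ k0 * 2 ^ k0) := by ring
        _ = 4 := by rw [h8]; norm_num
    linarith

theorem good_mono (r : ℕ) (w : ℝ) {H H' : ℕ} (h : H ≤ H') (x : ℕ) :
    (WL.good r w H x).card ≤ (WL.good r w H' x).card := by
  classical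
  apply card_le_card
  intro j hj
  unfold WL.good at hj ⊢
  rw [mem_filter, mem_Icc] at hj ⊢
  exact ⟨⟨hj.1.1, hj.1.2.trans h⟩, hj.2⟩

open Classical in
theorem uniform (r : ℕ) (hr : 1 ≤ r) (τ τ' : ℝ) (hτ0 : 0 < τ) (hτ1 : τ' ≤ 1) (h : 1 < τ * Lam r)
    (hττ : τ < τ') : ∃ δ C : ℝ, 0 < δ ∧ 0 < C ∧ ∃ X₀ : ℕ, ∀ X : ℕ, X₀ ≤ X → ∀ M Y : ℕ, M + Y ≤ X →
    (X : ℝ) ^ (2 * τ') ≤ Y → ∀ H₀ : ℝ, 1 ≤ H₀ →
    (((Icc 1 Y).filter (fun x => ∃ H : ℕ, H₀ ≤ H ∧ H ≤ X ∧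
      ((WL.good r ((X : ℝ) ^ (τ / 4)) H (M + x)).card : ℝ) < δ * H / Real.log X)).card : ℝ) ≤
        C * (Y * Real.log X ^ 7 / H₀) := by
  classical
  obtain ⟨δ₁, C, hδ₁, hC, X1, H1⟩ := local_windows r hr τ τ' hτ0 hτ1 h hττ
  obtain ⟨δ₂, hδ₂, X2, H2⟩ := Pool.Agent.K3h89.SI.every r hr τ τ' hτ0 h hττ hτ1
  refine ⟨min δ₁ δ₂ / 2, 4 * C, by positivity, by positivity, max (max X1 X2) 3, ?_⟩
  intro X hX M Y hMY hYX H₀ hH₀
  have e1 : X1 ≤ X := ((le_max_left _ _).trans (le_max_left _ _)).trans hX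
  have e2 : X2 ≤ X := ((le_max_right _ _).trans (le_max_left _ _)).trans hX
  have e3 : 3 ≤ X := (le_max_right _ _).trans hX
  have hXr : (3 : ℝ) ≤ X := by exact_mod_cast e3
  have hL0 : 0 < Real.log X := Real.log_pos (by linarith)
  set K : Finset ℕ := (range (X + 1)).filter (fun k => H₀ ≤ 2 ^ (k + 1) ∧ (2 : ℝ) ^ k ≤ (X : ℝ) ^ τ') with hK
  have hsub : (Icc 1 Y).filter (fun x => ∃ H : ℕ, H₀ ≤ H ∧ H ≤ X ∧
      ((WL.good r ((X : ℝ) ^ (τ / 4)) H (M + x)).card : ℝ) < min δ₁ δ₂ / 2 * H / Real.log X) ⊆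
      K.biUnion (fun k => (Icc 1 Y).filter (fun x =>
        ((WL.good r ((X : ℝ) ^ (τ / 4)) (2 ^ k) (M + x)).card : ℝ) < δ₁ * ((2 ^ k : ℕ) : ℝ) / Real.log X)) := by
    intro x hx
    rw [mem_filter] at hx
    obtain ⟨hx1, H, hH1, hH2, hH3⟩ := hx
    have hHr : (1 : ℝ) ≤ H := hH₀.trans hH1
    have hH4 : 1 ≤ H := by exact_mod_cast hHr
    obtain ⟨k, hk⟩ : ∃ k, k = Nat.log 2 H := ⟨_, rfl⟩
    have hk1 : 2 ^ k ≤ H := by
      rw [hk]
      exact Nat.pow_log_le_self 2 (by omega)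
    have hk2 : H < 2 ^ (k + 1) := by
      rw [hk]
      exact Nat.lt_pow_succ_log_self (by norm_num) H
    have hk3 : k < 2 ^ k := Nat.lt_two_pow_self
    have hk2r : (H : ℝ) ≤ 2 * (2 : ℝ) ^ k := by
      have : (H : ℝ) ≤ 2 ^ (k + 1) := by exact_mod_cast hk2.le
      rw [pow_succ] at this
      linarith
    have h5 : ((WL.good r ((X : ℝ) ^ (τ / 4)) (2 ^ k) (M + x)).card : ℝ) <
        min δ₁ δ₂ * ((2 ^ k : ℕ) : ℝ) / Real.log X := by
      have h6 : ((WL.good r ((X : ℝ) ^ (τ / 4)) (2 ^ k) (M + x)).card : ℝ) ≤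
          ((WL.good r ((X : ℝ) ^ (τ / 4)) H (M + x)).card : ℝ) := by
        exact_mod_cast good_mono r _ hk1 (M + x)
      refine (h6.trans_lt hH3).trans_le ?_
      apply div_le_div_of_nonneg_right _ hL0.le
      push_cast
      have h7 : 0 < min δ₁ δ₂ := by positivity
      nlinarith
    have hx2 := mem_Icc.1 hx1
    have h8 : (2 : ℝ) ^ k ≤ (X : ℝ) ^ τ' := by
      by_contra hcon
      rw [not_le] at hcon
      have h9 := H2 X e2 (2 ^ k) (by push_cast; exact hcon.le) (hk1.trans hH2) (M + x) (by omega) (by omega)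
      have h10 : min δ₁ δ₂ * ((2 ^ k : ℕ) : ℝ) / Real.log X ≤ δ₂ * ((2 ^ k : ℕ) : ℝ) / Real.log X := by
        apply div_le_div_of_nonneg_right _ hL0.le
        exact mul_le_mul_of_nonneg_right (min_le_right _ _) (Nat.cast_nonneg _)
      linarith
    rw [mem_biUnion]
    refine ⟨k, ?_, ?_⟩
    · rw [hK, mem_filter, mem_range]
      refine ⟨by omega, ?_, h8⟩
      rw [pow_succ]
      linarith
    · rw [mem_filter]
      refine ⟨hx1, h5.trans_le ?_⟩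
      apply div_le_div_of_nonneg_right _ hL0.le
      exact mul_le_mul_of_nonneg_right (min_le_left _ _) (Nat.cast_nonneg _)
  have hcard := (card_le_card hsub).trans card_biUnion_le
  have hcardr : (((Icc 1 Y).filter (fun x => ∃ H : ℕ, H₀ ≤ H ∧ H ≤ X ∧
      ((WL.good r ((X : ℝ) ^ (τ / 4)) H (M + x)).card : ℝ) < min δ₁ δ₂ / 2 * H / Real.log X)).card : ℝ) ≤
      ∑ k ∈ K, (((Icc 1 Y).filter (fun x =>
        ((WL.good r ((X : ℝ) ^ (τ / 4)) (2 ^ k) (M + x)).card : ℝ) <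
          δ₁ * ((2 ^ k : ℕ) : ℝ) / Real.log X)).card : ℝ) := by
    exact_mod_cast hcard
  refine hcardr.trans ?_
  have hterm : ∀ k ∈ K, (((Icc 1 Y).filter (fun x =>
        ((WL.good r ((X : ℝ) ^ (τ / 4)) (2 ^ k) (M + x)).card : ℝ) <
          δ₁ * ((2 ^ k : ℕ) : ℝ) / Real.log X)).card : ℝ) ≤ C * (Y * Real.log X ^ 7) * (1 / 2 ^ k) := by
    intro k hk
    rw [hK, mem_filter] at hk
    have h5 := H1 X e1 M Y hMY hYX (2 ^ k) Nat.one_le_two_pow (by push_cast; exact hk.2.2)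
    refine h5.trans (le_of_eq ?_)
    push_cast
    ring
  refine (sum_le_sum hterm).trans ?_
  rw [← mul_sum]
  have h6 := half_set K H₀ (by linarith) (fun k hk => by
    rw [hK, mem_filter] at hk
    exact hk.2.1)
  calc C * (Y * Real.log X ^ 7) * ∑ k ∈ K, 1 / (2 : ℝ) ^ k ≤ C * (Y * Real.log X ^ 7) * (4 / H₀) := by
        apply mul_le_mul_of_nonneg_left h6 (by positivity)
    _ = 4 * C * (Y * Real.log X ^ 7 / H₀) := by ring

end Pool.Agent.U607.LW
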