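import Pool.Agent.K3h89.SI.Cnt

/-! Almost primes in all but few short windows of every short interval. -/

set_option autoImplicit false

namespace Pool.Agent.U607.LW

open Finset Filter
open Pool.Agent.W23.DC
open Pool.Agent.Y882
open Pool.Agent.Y882.PX
open Pool.Agent.Y882.KW
open Pool.Agent.K3h19.RV (Lam richert)
open Pool.Agent.K3h31
open Pool.Agent.K3h31.WL

theorem mul_shift (d H M Y : ℕ) (hd : 0 < d) :
    ∑ x ∈ Icc 1 Y, (mul d H (M + x) : ℝ) ≤ H * ((Y : ℝ) / d + 1) := by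
  classical
  have h1 : ∑ x ∈ Icc 1 Y, (mul d H (M + x) : ℝ) =
      ∑ j ∈ Icc 1 H, (((Icc 1 Y).filter (fun x => d ∣ M + x + j)).card : ℝ) := by
    unfold mul
    simp only [card_filter]
    push_cast
    rw [sum_comm]
  rw [h1]
  have h2 : ∀ j ∈ Icc 1 H, (((Icc 1 Y).filter (fun x => d ∣ M + x + j)).card : ℝ) ≤ (Y : ℝ) / d + 1 := by
    intro j _
    apply card_cong d Y hd _ (filter_subset _ _)
    intro x hx y hy
    rw [mem_filter] at hx hy
    have h3 : M + x + j ≡ M + y + j [MOD d] :=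
      ((Nat.modEq_zero_iff_dvd).2 hx.2).trans ((Nat.modEq_zero_iff_dvd).2 hy.2).symm
    exact Nat.ModEq.add_left_cancel' M (Nat.ModEq.add_right_cancel' j h3)
  refine (sum_le_sum h2).trans (le_of_eq ?_)
  rw [sum_const, Nat.card_Icc, nsmul_eq_mul]
  simp

/-- few windows with many numbers divisible by the square of a medium prime -/
theorem sq_local (ζ υ θ η : ℝ) (hζ : 0 < ζ) (hυ : υ ≤ θ) (hη : 0 < η) :
    ∃ C : ℝ, 0 < C ∧ ∃ X₀ : ℕ, ∀ X : ℕ, X₀ ≤ X → ∀ M Y : ℕ, (X : ℝ) ^ (2 * θ) ≤ Y →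
    ∀ H : ℕ, 1 ≤ H → (H : ℝ) ≤ (X : ℝ) ^ θ →
    (((Icc 1 Y).filter (fun x => η * H / Real.log X < ((sqs X ζ υ H (M + x)).card : ℝ))).card : ℝ) ≤
      C * (Y * Real.log X ^ 2 / H) := by
  classical
  have ev1 : ∀ᶠ X : ℕ in atTop, (16 / η) * Real.log X ^ 1 * (X : ℝ) ^ (0 : ℝ) ≤ (X : ℝ) ^ ζ :=
    LP.log_pow_le (16 / η) 1 0 ζ hζ
  have ev3 : ∀ᶠ X : ℕ in atTop, (2 : ℝ) ≤ (X : ℝ) ^ ζ :=
    ((tendsto_rpow_atTop hζ).comp tendsto_natCast_atTop_atTop).eventually_ge_atTop _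
  obtain ⟨X1, hX1⟩ := eventually_atTop.1 (ev1.and ev3)
  refine ⟨4 / η * (16 / η + 1), by positivity, max X1 4, ?_⟩
  intro X hX M Y hY H hH hHX
  obtain ⟨w1, w4⟩ := hX1 X ((le_max_left _ _).trans hX)
  have hX4 : 4 ≤ X := (le_max_right _ _).trans hX
  have hXr : (4 : ℝ) ≤ X := by exact_mod_cast hX4
  have hX0 : (0 : ℝ) < X := by linarith
  have hHr : (1 : ℝ) ≤ H := by exact_mod_cast hH
  have hH0 : (0 : ℝ) < H := by linarith
  rw [Real.rpow_zero, mul_one, pow_one] at w1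
  have hL1 : 1 ≤ Real.log X := by
    have : Real.exp 1 ≤ X := by linarith [Real.exp_one_lt_d9]
    rw [Real.le_log_iff_exp_le hX0]
    exact this
  have hL0 : 0 < Real.log X := by linarith
  set L : ℝ := Real.log X with hL
  set Q : ℝ := η * H / (8 * L) with hQ
  have hQ0 : 0 < Q := by positivity
  set P1 : Finset ℕ := (pr X ζ υ).filter (fun q => (q : ℝ) ≤ Q) with hP1
  set P2 : Finset ℕ := (pr X ζ υ).filter (fun q => ¬ (q : ℝ) ≤ Q) with hP2
  have hprp : ∀ q ∈ pr X ζ υ, q.Prime ∧ (X : ℝ) ^ ζ ≤ q ∧ (q : ℝ) < (X : ℝ) ^ υ := by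
    intro q hq
    have := LP.pr_facts (by omega) hq
    exact ⟨this.1, this.2.2.1, this.2.2.2⟩
  -- the number of the bad `j` is at most the sum over `q`
  have hcount : ∀ x, ((sqs X ζ υ H x).card : ℝ) ≤ ∑ q ∈ pr X ζ υ, (mul (q ^ 2) H x : ℝ) := by
    intro x
    have h1 : sqs X ζ υ H x ⊆ (pr X ζ υ).biUnion (fun q => (Icc 1 H).filter (fun j => q ^ 2 ∣ x + j)) := by
      intro j hj
      unfold sqs at hj
      rw [mem_filter] at hj
      obtain ⟨q, hq, hqj⟩ := hj.2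
      rw [mem_biUnion]
      exact ⟨q, hq, mem_filter.2 ⟨hj.1, hqj⟩⟩
    have h2 := (card_le_card h1).trans card_biUnion_le
    have h3 : ((sqs X ζ υ H x).card : ℝ) ≤
        ((∑ q ∈ pr X ζ υ, ((Icc 1 H).filter (fun j => q ^ 2 ∣ x + j)).card : ℕ) : ℝ) := by
      exact_mod_cast h2
    rw [Nat.cast_sum] at h3
    exact h3
  -- small `q`
  have hsmall : ∀ x, ∑ q ∈ P1, (mul (q ^ 2) H x : ℝ) ≤ η * H / (2 * L) / 2 * 2 / 2 + Q := by
    intro x
    have h1 : ∑ q ∈ P1, (mul (q ^ 2) H x : ℝ) ≤ ∑ q ∈ P1, ((H : ℝ) * (1 / (q : ℝ) ^ 2) + 1) := by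
      apply sum_le_sum
      intro q hq
      rw [hP1, mem_filter] at hq
      have := mul_le (q ^ 2) H x (pow_pos (hprp q hq.1).1.pos 2)
      push_cast at this
      refine this.trans (le_of_eq ?_)
      ring
    have h2 : ∑ q ∈ P1, (1 / (q : ℝ) ^ 2) ≤ 2 / (X : ℝ) ^ ζ :=
      (sum_le_sum_of_subset_of_nonneg (filter_subset _ _) fun _ _ _ => by positivity).trans
        (LP.pr_sq (by omega) ζ υ w4)
    have h3 : (P1.card : ℝ) ≤ Q := by
      have h4 : P1 ⊆ Icc 1 ⌊Q⌋₊ := by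
        intro q hq
        rw [hP1, mem_filter] at hq
        rw [mem_Icc]
        exact ⟨(hprp q hq.1).1.one_le, Nat.le_floor hq.2⟩
      have h5 := card_le_card h4
      rw [Nat.card_Icc, Nat.add_sub_cancel] at h5
      have h6 : (P1.card : ℝ) ≤ (⌊Q⌋₊ : ℝ) := by exact_mod_cast h5
      exact h6.trans (Nat.floor_le hQ0.le)
    have h7 : (H : ℝ) * (2 / (X : ℝ) ^ ζ) ≤ η * H / (2 * L) / 2 * 2 / 2 := by
      have h8 : 0 < (X : ℝ) ^ ζ := by positivity
      rw [mul_div_assoc', div_le_iff₀ h8]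
      have h9 : 16 / η * L * (η * H / (2 * L) / 2 * 2 / 2) = 4 * H := by
        field_simp
        norm_num
      have h10 : 0 ≤ η * H / (2 * L) / 2 * 2 / 2 := by positivity
      have h11 := mul_le_mul_of_nonneg_right w1 h10
      nlinarith
    calc _ ≤ ∑ q ∈ P1, ((H : ℝ) * (1 / (q : ℝ) ^ 2) + 1) := h1
      _ = H * ∑ q ∈ P1, (1 / (q : ℝ) ^ 2) + P1.card := by
          rw [sum_add_distrib, mul_sum]
          simp
      _ ≤ H * (2 / (X : ℝ) ^ ζ) + Q := by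
          have := mul_le_mul_of_nonneg_left h2 hH0.le
          linarith
      _ ≤ _ := by linarith
  -- large `q` in the mean
  have hinv : ∑ q ∈ P2, 1 / (q : ℝ) ^ 2 ≤ 2 / Q := by
    rcases lt_or_ge Q 1 with h1 | h1
    · refine (sum_le_sum_of_subset_of_nonneg (filter_subset _ _) fun _ _ _ => by positivity).trans
        ((LP.pr_sq (by omega) ζ υ w4).trans ?_)
      apply div_le_div_of_nonneg_left (by norm_num) hQ0
      linarith
    · have ha : 1 ≤ ⌊Q⌋₊ := Nat.le_floor (by exact_mod_cast h1)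
      have h2 := inv_sq_tail P2 ⌊Q⌋₊ ha (fun q hq => by
        rw [hP2, mem_filter] at hq
        rw [Nat.floor_lt hQ0.le]
        exact not_le.1 hq.2)
      refine h2.trans ?_
      have h3 := Nat.lt_floor_add_one Q
      have h4 : (1 : ℝ) ≤ (⌊Q⌋₊ : ℝ) := by exact_mod_cast ha
      rw [div_le_div_iff₀ (by linarith) hQ0]
      linarith
  have hY0 : (0 : ℝ) ≤ Y := Nat.cast_nonneg _
  have hP2c : (P2.card : ℝ) ≤ Y / H := by
    have h4 : P2 ⊆ Icc 1 ⌊(X : ℝ) ^ θ⌋₊ := by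
      intro q hq
      rw [hP2, mem_filter] at hq
      rw [mem_Icc]
      refine ⟨(hprp q hq.1).1.one_le, Nat.le_floor ?_⟩
      exact (hprp q hq.1).2.2.le.trans (Real.rpow_le_rpow_of_exponent_le (by linarith) hυ)
    have h5 := card_le_card h4
    rw [Nat.card_Icc, Nat.add_sub_cancel] at h5
    have h6 : (P2.card : ℝ) ≤ (⌊(X : ℝ) ^ θ⌋₊ : ℝ) := by exact_mod_cast h5
    refine (h6.trans (Nat.floor_le (by positivity))).trans ?_
    rw [le_div_iff₀ hH0]
    calc (X : ℝ) ^ θ * H ≤ (X : ℝ) ^ θ * (X : ℝ) ^ θ := mul_le_mul_of_nonneg_left hHX (by positivity)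
      _ = (X : ℝ) ^ (2 * θ) := by
        rw [← Real.rpow_add hX0]
        congr 1
        ring
      _ ≤ Y := hY
  have hmean : ∑ x ∈ Icc 1 Y, ∑ q ∈ P2, (mul (q ^ 2) H (M + x) : ℝ) ≤ (H : ℝ) * ((Y : ℝ) * (2 / Q) + (Y : ℝ) / H) := by
    rw [sum_comm]
    calc _ ≤ ∑ q ∈ P2, (H : ℝ) * ((Y : ℝ) * (1 / (q : ℝ) ^ 2) + 1) := by
          apply sum_le_sum
          intro q hq
          rw [hP2, mem_filter] at hq
          have := mul_shift (q ^ 2) H M Y (pow_pos (hprp q hq.1).1.pos 2)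
          push_cast at this
          refine this.trans (le_of_eq ?_)
          ring
      _ = (H : ℝ) * ((Y : ℝ) * ∑ q ∈ P2, (1 / (q : ℝ) ^ 2) + (P2.card : ℝ)) := by
          rw [← mul_sum, sum_add_distrib, ← mul_sum]
          simp
      _ ≤ (H : ℝ) * ((Y : ℝ) * (2 / Q) + (Y : ℝ) / H) := by
          have := mul_le_mul_of_nonneg_left hinv hY0
          gcongr
  -- Markov
  set E := (Icc 1 Y).filter (fun x => η * H / L < ((sqs X ζ υ H (M + x)).card : ℝ)) with hE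
  have hlow : ∀ x ∈ E, η * H / (4 * L) ≤ ∑ q ∈ P2, (mul (q ^ 2) H (M + x) : ℝ) := by
    intro x hx
    rw [hE, mem_filter] at hx
    have h1 := hcount (M + x)
    have h2 := hsmall (M + x)
    have h3 : ∑ q ∈ pr X ζ υ, (mul (q ^ 2) H (M + x) : ℝ) =
        ∑ q ∈ P1, (mul (q ^ 2) H (M + x) : ℝ) + ∑ q ∈ P2, (mul (q ^ 2) H (M + x) : ℝ) := by
      rw [hP1, hP2]
      exact (sum_filter_add_sum_filter_not _ _ _).symm
    have e1 : η * H / (2 * L) / 2 * 2 / 2 = η * H / L / 4 := by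
      field_simp
      norm_num
    have e2 : Q = η * H / L / 8 := by
      rw [hQ]
      field_simp
    have e3 : η * H / (4 * L) = η * H / L / 4 := by
      field_simp
    have h4 : 0 ≤ η * H / L := by positivity
    rw [e1, e2] at h2
    rw [e3]
    have h5 := hx.2
    linarith
  have h6 : (E.card : ℝ) * (η * H / (4 * L)) ≤ (H : ℝ) * ((Y : ℝ) * (2 / Q) + (Y : ℝ) / H) := by
    calc (E.card : ℝ) * (η * H / (4 * L)) = ∑ _x ∈ E, η * H / (4 * L) := by
          rw [sum_const, nsmul_eq_mul]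
      _ ≤ ∑ x ∈ E, ∑ q ∈ P2, (mul (q ^ 2) H (M + x) : ℝ) := sum_le_sum hlow
      _ ≤ ∑ x ∈ Icc 1 Y, ∑ q ∈ P2, (mul (q ^ 2) H (M + x) : ℝ) :=
          sum_le_sum_of_subset_of_nonneg (filter_subset _ _) fun _ _ _ =>
            sum_nonneg fun _ _ => Nat.cast_nonneg _
      _ ≤ _ := hmean
  have hpos : 0 < η * H / (4 * L) := by positivity
  rw [← le_div_iff₀ hpos] at h6
  refine h6.trans ?_
  have e4 : (H : ℝ) * ((Y : ℝ) * (2 / Q) + (Y : ℝ) / H) / (η * H / (4 * L)) =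
      4 / η * (16 / η * ((Y : ℝ) * L ^ 2 / H) + (Y : ℝ) * L / H) := by
    rw [hQ]
    field_simp
    ring
  rw [e4]
  have h7 : (Y : ℝ) * L / H ≤ Y * L ^ 2 / H := by
    apply div_le_div_of_nonneg_right _ hH0.le
    apply mul_le_mul_of_nonneg_left _ hY0
    nlinarith
  have h8 : 0 < 4 / η := by positivity
  calc 4 / η * (16 / η * (Y * L ^ 2 / H) + Y * L / H) ≤
        4 / η * (16 / η * (Y * L ^ 2 / H) + Y * L ^ 2 / H) := by gcongr
    _ = 4 / η * (16 / η + 1) * (Y * L ^ 2 / H) := by ring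

end Pool.Agent.U607.LW
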