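import Pool.Agent.U607.OsCore

set_option autoImplicit false

/-! Sums of multiplicative functions over arbitrary intervals. -/

namespace Pool.Agent.U607.OS

open Finset

/-- the sums over the subintervals of `[0, P)` are small -/
def Good (F : ℕ → ℂ) (C t : ℝ) (P : ℕ) : Prop := ∀ N N' : ℕ, N ≤ N' → N' ≤ P →
  ‖∑ n ∈ Ico N N', F n‖ ≤ C * ((if 0 < N then 1 else 0) + (if N' < P then 1 else 0)) +
    t * ((N' : ℝ) - N)

lemma good_zero (F : ℕ → ℂ) (C t : ℝ) (hC : 0 ≤ C) : Good F C t 0 := by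
  intro N N' h1 h2
  have h3 : N' = 0 := by omega
  have h4 : N = 0 := by omega
  subst h3 h4
  simp

lemma concat (F : ℕ → ℂ) (C t : ℝ) (hC : 0 ≤ C) (P q : ℕ) (hP : Good F C t P) (hq : Good F C t q)
    (hF : ∀ m < q, F (P + m) = F P * F m) (h1 : ‖F P‖ = 1) : Good F C t (P + q) := by
  intro N N' hNN hN'
  have hshift : ∀ u v : ℕ, u ≤ v → v ≤ q → ‖∑ n ∈ Ico (P + u) (P + v), F n‖ = ‖∑ n ∈ Ico u v, F n‖ := by
    intro u v huv hv
    have e1 : ∑ n ∈ Ico (P + u) (P + v), F n = ∑ n ∈ Ico u v, F (P + n) := by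
      rw [sum_Ico_eq_sum_range, sum_Ico_eq_sum_range]
      have h5 : P + v - (P + u) = v - u := by omega
      rw [h5]
      refine sum_congr rfl fun n _ => ?_
      rw [add_assoc]
    rw [e1]
    have e2 : ∑ n ∈ Ico u v, F (P + n) = F P * ∑ n ∈ Ico u v, F n := by
      rw [mul_sum]
      refine sum_congr rfl fun n hn => ?_
      rw [mem_Ico] at hn
      exact hF n (by omega)
    rw [e2, norm_mul, h1, one_mul]
  by_cases c1 : N' ≤ P
  · have h2 := hP N N' hNN c1
    refine h2.trans ?_
    have h3 : (if N' < P then (1 : ℝ) else 0) ≤ if N' < P + q then 1 else 0 := by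
      by_cases c : N' < P
      · rw [if_pos c, if_pos (by omega)]
      · rw [if_neg c]
        split_ifs <;> norm_num
    have := mul_le_mul_of_nonneg_left h3 hC
    nlinarith
  · push Not at c1
    by_cases c2 : P ≤ N
    · obtain ⟨u, rfl⟩ : ∃ u, N = P + u := ⟨N - P, by omega⟩
      obtain ⟨v, rfl⟩ : ∃ v, N' = P + v := ⟨N' - P, by omega⟩
      rw [hshift u v (by omega) (by omega)]
      refine (hq u v (by omega) (by omega)).trans ?_
      have h3 : (if 0 < u then (1 : ℝ) else 0) ≤ if 0 < P + u then 1 else 0 := by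
        by_cases c : 0 < u
        · rw [if_pos c, if_pos (by omega)]
        · rw [if_neg c]
          split_ifs <;> norm_num
      have h4 : (if v < q then (1 : ℝ) else 0) = if P + v < P + q then 1 else 0 := by
        by_cases c : v < q
        · rw [if_pos c, if_pos (by omega)]
        · rw [if_neg c, if_neg (by omega)]
      have := mul_le_mul_of_nonneg_left h3 hC
      rw [h4]
      push_cast
      nlinarith
    · push Not at c2
      obtain ⟨v, rfl⟩ : ∃ v, N' = P + v := ⟨N' - P, by omega⟩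
      have e1 : ∑ n ∈ Ico N (P + v), F n = ∑ n ∈ Ico N P, F n + ∑ n ∈ Ico (P + 0) (P + v), F n := by
        rw [add_zero, sum_Ico_consecutive _ c2.le (by omega)]
      rw [e1]
      refine (norm_add_le _ _).trans ?_
      rw [hshift 0 v (by omega) (by omega)]
      have h2 := hP N P c2.le le_rfl
      have h3 := hq 0 v (by omega) (by omega)
      simp only [lt_irrefl, if_false, add_zero, zero_add] at h2 h3
      have h4 : (if v < q then (1 : ℝ) else 0) = if P + v < P + q then 1 else 0 := by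
        by_cases c : v < q
        · rw [if_pos c, if_pos (by omega)]
        · rw [if_neg c, if_neg (by omega)]
      rw [h4] at h3
      push_cast at h3 ⊢
      nlinarith

lemma good_Q (a : ℕ → ℕ) (ha : ∀ k, 1 ≤ a k) (F : ℕ → ℂ) (hF : Mul a F) (hF1 : ∀ n, ‖F n‖ = 1)
    (t : ℝ) (ht : 0 ≤ t) (K : ℕ) (hK : ∀ k, K ≤ k → ‖E a F k‖ ≤ t * Q a k) : ∀ i : ℕ,
    Good F (Q a (K + 1)) t (Q a (K + i)) ∧ Good F (Q a (K + 1)) t (Q a (K + i + 1)) := by
  have hbase : ∀ k, K ≤ k → k ≤ K + 1 → Good F (Q a (K + 1)) t (Q a k) := by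
    intro k hk1 hk2 N N' hNN hN'
    have hQk : Q a k ≤ Q a (K + 1) := Q_monotone a ha hk2
    have htriv : ‖∑ n ∈ Ico N N', F n‖ ≤ (Q a (K + 1) : ℝ) := by
      refine (norm_sum_le _ _).trans ?_
      simp only [hF1, sum_const, Nat.card_Ico, nsmul_eq_mul, mul_one]
      have : N' - N ≤ Q a (K + 1) := by omega
      exact_mod_cast this
    have hN0 : 0 ≤ t * ((N' : ℝ) - N) := by
      apply mul_nonneg ht
      have : (N : ℝ) ≤ N' := by exact_mod_cast hNN
      linarith
    have hC0 : (0 : ℝ) ≤ Q a (K + 1) := Nat.cast_nonneg _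
    by_cases c1 : 0 < N
    · rw [if_pos c1]
      split_ifs <;> nlinarith
    · by_cases c2 : N' < Q a k
      · rw [if_pos c2, if_neg c1]
        nlinarith
      · have h1 : N = 0 := by omega
        have h2 : N' = Q a k := by omega
        rw [if_neg c1, if_neg c2, h1, h2]
        have h3 := hK k hk1
        unfold E at h3
        rw [← range_eq_Ico]
        push_cast
        linarith
  intro i
  induction i with
  | zero => exact ⟨hbase K le_rfl (by omega), hbase (K + 1) (by omega) le_rfl⟩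
  | succ i ih =>
    refine ⟨ih.2, ?_⟩
    obtain ⟨j, hj⟩ : ∃ j, j = K + i := ⟨_, rfl⟩
    have ej : K + (i + 1) + 1 = j + 2 := by omega
    rw [ej]
    rw [← hj] at ih
    have hC0 : (0 : ℝ) ≤ Q a (K + 1) := Nat.cast_nonneg _
    have hpj := Q_pos a ha j
    have hmj := Q_mono a ha j
    have hmul : ∀ d, d ≤ a (j + 1) → Good F (Q a (K + 1)) t (d * Q a (j + 1)) := by
      intro d
      induction d with
      | zero =>
        intro _
        rw [zero_mul]
        exact good_zero F _ t hC0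
      | succ d ihd =>
        intro hd
        rw [add_mul, one_mul]
        apply concat F _ t hC0 _ _ (ihd (by omega)) ih.2 _ (hF1 _)
        intro m hm
        apply hF (j + 1) m d hm
        show d * Q a (j + 1) + m < Q a (j + 2)
        rw [Q_step]
        have h1 : (d + 1) * Q a (j + 1) ≤ a (j + 1) * Q a (j + 1) := Nat.mul_le_mul_right _ hd
        rw [add_mul, one_mul] at h1
        omega
    rw [Q_step]
    apply concat F _ t hC0 _ _ (hmul _ le_rfl) ih.1 _ (hF1 _)
    intro m hm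
    apply hF (j + 1) m _ (by omega)
    show a (j + 1) * Q a (j + 1) + m < Q a (j + 2)
    rw [Q_step]
    omega

lemma seg (a : ℕ → ℕ) (ha : ∀ k, 1 ≤ a k) (F : ℕ → ℂ) (hF : Mul a F) (hF1 : ∀ n, ‖F n‖ = 1)
    (t : ℝ) (ht : 0 ≤ t) (K : ℕ) (hK : ∀ k, K ≤ k → ‖E a F k‖ ≤ t * Q a k) (N B : ℕ) :
    ‖∑ n ∈ range B, F (N + n)‖ ≤ 2 * Q a (K + 1) + t * B := by
  have h1 : N + B ≤ Q a (K + (N + B + 1)) := by
    have h2 := Q_grow a ha (N + B)
    exact h2.trans (Q_monotone a ha (by omega))
  have h2 := (good_Q a ha F hF hF1 t ht K hK (N + B + 1)).1 N (N + B) (by omega) h1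
  have h3 : ∑ n ∈ Ico N (N + B), F n = ∑ n ∈ range B, F (N + n) := by
    rw [sum_Ico_eq_sum_range]
    simp
  rw [h3] at h2
  refine h2.trans ?_
  have hC0 : (0 : ℝ) ≤ Q a (K + 1) := Nat.cast_nonneg _
  push_cast
  split_ifs <;> nlinarith

end Pool.Agent.U607.OS
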