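import Pool.Agent.U607.OsMain
import Pool.Agent.U607.OsSeg
import Pool.Agent.U602.AB.Family

set_option autoImplicit false

/-! Exponential sums over arbitrary intervals, and smooth functions. -/

namespace Pool.Agent.U607.OS

open Finset Filter
open Pool.Agent.H469R2.NK (e norm_e e_add e_zero)
open Pool.Agent.W147.PS (ff ff_compare ev_pow)
open Pool.Agent.U602.AB (Blocks family_smooth)

variable {G : Type} [AddCommGroup G] [Fintype G]

lemma boundAll (a : ℕ → ℕ) (ha : ∀ k, 1 ≤ a k) (A : ℕ) (hA : ∀ k, a k ≤ A) (S : ℕ → G) (hS : Add a S)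
    (w : ℕ) (hw : ∀ k, AddSubgroup.closure (gens a S k w) = ⊤) :
    ∃ (r : ℕ) (ρ : ℝ), 1 ≤ r ∧ 1 / 2 ≤ ρ ∧ ρ < 1 ∧ ∀ χ : AddChar G ℂ, χ ≠ 0 → ∀ (x : ℝ) (n N B : ℕ),
      ‖∑ m ∈ range B, χ (S (N + m)) * e (m * x)‖ ≤ 2 * Q a (r * n + 1) + ρ ^ n * B := by
  classical
  obtain ⟨c, hc, hgap⟩ := chi_gap (G := G)
  have hA1 : (1 : ℝ) ≤ (A : ℝ) + 1 := by
    have : (0 : ℝ) ≤ A := Nat.cast_nonneg _
    linarith
  have hAA : (1 : ℝ) ≤ A := by exact_mod_cast (ha 0).trans (hA 0)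
  obtain ⟨ν, hνd⟩ : ∃ ν : ℝ, ν = min 1 (c / (20 * ((A : ℝ) + 1))) := ⟨_, rfl⟩
  have hν0 : 0 < ν := by
    rw [hνd]
    exact lt_min one_pos (by positivity)
  have hν1 : ν ≤ 1 := by
    rw [hνd]
    exact min_le_left _ _
  have hνc : 20 * ((A : ℝ) + 1) * ν ≤ c := by
    have h1 : ν ≤ c / (20 * ((A : ℝ) + 1)) := by
      rw [hνd]
      exact min_le_right _ _
    rw [le_div_iff₀ (by positivity)] at h1
    linarith
  obtain ⟨ε, hε⟩ : ∃ ε : ℝ, ε = ν ^ 2 / (2 * ((A : ℝ) + 1) ^ 2) := ⟨_, rfl⟩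
  have hε0 : 0 < ε := by rw [hε]; positivity
  have hε2 : ε ≤ 1 / 2 := by
    rw [hε, div_le_div_iff₀ (by positivity) (by norm_num)]
    nlinarith
  refine ⟨w + 4, 1 - ε / 2, by omega, by linarith, by linarith, ?_⟩
  intro χ hχ x n N B
  obtain ⟨F, hFd⟩ : ∃ F : ℕ → ℂ, F = fun m : ℕ => χ (S m) * e (m * x) := ⟨_, rfl⟩
  have hF1 : ∀ m, ‖F m‖ = 1 := by
    intro m
    rw [hFd]
    show ‖χ (S m) * e (m * x)‖ = 1
    rw [norm_mul, χ.norm_apply, norm_e, one_mul]
  have hF : Mul a F := by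
    intro k m d hm hmd
    rw [hFd]
    show χ (S (d * Q a k + m)) * e (((d * Q a k + m : ℕ) : ℝ) * x) =
      χ (S (d * Q a k)) * e (((d * Q a k : ℕ) : ℝ) * x) * (χ (S m) * e (m * x))
    rw [hS k m d hm hmd, AddChar.map_add_eq_mul]
    have h1 : e (((d * Q a k + m : ℕ) : ℝ) * x) = e (((d * Q a k : ℕ) : ℝ) * x) * e (m * x) := by
      rw [← e_add]
      congr 1
      push_cast
      ring
    rw [h1]
    ring
  have hyp : ∀ k, ∃ j d, k + 2 ≤ j ∧ j + 1 ≤ k + (w + 4) ∧ d ≤ a j ∧ 6 * ν < ‖F (d * Q a j) - 1‖ := by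
    intro k
    by_contra hcon
    push Not at hcon
    apply hχ
    have hgen : ∀ g ∈ gens a S (k + 2) w, χ g = 1 := by
      rintro g (⟨j, d, hj1, hj2, hd2, hda, hg⟩ | ⟨j, hj1, hj2, hg⟩)
      · apply hgap
        have h1 := hcon j d (by omega) (by omega) hda
        have h2 := hcon j 1 (by omega) (by omega) (ha j)
        rw [one_mul] at h2
        have h3 : F (d * Q a j) - F (Q a j) ^ d = F (Q a j) ^ d * (χ g - 1) := by
          have h4 : F (Q a j) ^ d = χ (d • S (Q a j)) * e (((d * Q a j : ℕ) : ℝ) * x) := by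
            rw [hFd]
            show (χ (S (Q a j)) * e ((Q a j : ℝ) * x)) ^ d = _
            rw [mul_pow, AddChar.map_nsmul_eq_pow, ← e_mul_nat]
            congr 2
            push_cast
            ring
          have h5 : F (d * Q a j) = χ g * F (Q a j) ^ d := by
            rw [h4, hFd]
            show χ (S (d * Q a j)) * e (((d * Q a j : ℕ) : ℝ) * x) = _
            have h6 : S (d * Q a j) = g + d • S (Q a j) := by
              rw [hg]
              abel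
            rw [h6, AddChar.map_add_eq_mul]
            ring
          rw [h5]
          ring
        have h4 : ‖χ g - 1‖ = ‖F (d * Q a j) - F (Q a j) ^ d‖ := by
          rw [h3, norm_mul, norm_pow, hF1, one_pow, one_mul]
        rw [h4]
        have h5 := pow_sub_one_le (F (Q a j)) (hF1 _) d
        have h6 : ‖F (d * Q a j) - F (Q a j) ^ d‖ ≤ ‖F (d * Q a j) - 1‖ + ‖F (Q a j) ^ d - 1‖ := by
          have e1 : F (d * Q a j) - F (Q a j) ^ d = (F (d * Q a j) - 1) - (F (Q a j) ^ d - 1) := by ring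
          rw [e1]
          exact norm_sub_le _ _
        have h7 : (d : ℝ) ≤ A := by exact_mod_cast hda.trans (hA j)
        have h8 : (d : ℝ) * ‖F (Q a j) - 1‖ ≤ A * (6 * ν) :=
          mul_le_mul h7 h2 (norm_nonneg _) (by linarith)
        nlinarith
      · apply hgap
        have h1 := hcon (j + 2) 1 (by omega) (by omega) (ha _)
        have h2 := hcon (j + 1) (a (j + 1)) (by omega) (by omega) le_rfl
        have h3 := hcon j 1 (by omega) (by omega) (ha _)
        rw [one_mul] at h1 h3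
        have h4 : F (Q a (j + 2)) = χ g * (F (a (j + 1) * Q a (j + 1)) * F (Q a j)) := by
          rw [hFd]
          show χ (S (Q a (j + 2))) * e ((Q a (j + 2) : ℝ) * x) =
            χ g * (χ (S (a (j + 1) * Q a (j + 1))) * e (((a (j + 1) * Q a (j + 1) : ℕ) : ℝ) * x) *
              (χ (S (Q a j)) * e ((Q a j : ℝ) * x)))
          have h5 : S (Q a (j + 2)) = g + S (a (j + 1) * Q a (j + 1)) + S (Q a j) := by
            rw [hg]
            abel
          have h6 : e ((Q a (j + 2) : ℝ) * x) =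
              e (((a (j + 1) * Q a (j + 1) : ℕ) : ℝ) * x) * e ((Q a j : ℝ) * x) := by
            rw [← e_add, Q_step]
            congr 1
            push_cast
            ring
          rw [h5, h6, AddChar.map_add_eq_mul, AddChar.map_add_eq_mul]
          ring
        have h5 : ‖χ g - 1‖ = ‖F (Q a (j + 2)) - F (a (j + 1) * Q a (j + 1)) * F (Q a j)‖ := by
          rw [h4]
          have e1 : χ g * (F (a (j + 1) * Q a (j + 1)) * F (Q a j)) -
              F (a (j + 1) * Q a (j + 1)) * F (Q a j) =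
              (χ g - 1) * (F (a (j + 1) * Q a (j + 1)) * F (Q a j)) := by ring
          rw [e1, norm_mul, norm_mul, hF1, hF1, one_mul, mul_one]
        rw [h5]
        have h6 : ‖F (Q a (j + 2)) - F (a (j + 1) * Q a (j + 1)) * F (Q a j)‖ ≤
            ‖F (Q a (j + 2)) - 1‖ + ‖F (a (j + 1) * Q a (j + 1)) * F (Q a j) - 1‖ := by
          have e1 : F (Q a (j + 2)) - F (a (j + 1) * Q a (j + 1)) * F (Q a j) =
            (F (Q a (j + 2)) - 1) - (F (a (j + 1) * Q a (j + 1)) * F (Q a j) - 1) := by ring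
          rw [e1]
          exact norm_sub_le _ _
        have h7 := mul_sub_one_le (F (a (j + 1) * Q a (j + 1))) (F (Q a j)) (hF1 _)
        nlinarith
    have hall : ∀ g : G, χ g = 1 := by
      intro g
      have hg : g ∈ AddSubgroup.closure (gens a S (k + 2) w) := by
        rw [hw]
        exact AddSubgroup.mem_top g
      induction hg using AddSubgroup.closure_induction with
      | mem x hx => exact hgen x hx
      | zero => exact AddChar.map_zero_eq_one χ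
      | add x y _ _ hx hy => rw [AddChar.map_add_eq_mul, hx, hy, one_mul]
      | neg x _ hx =>
        have h1 : χ (x + -x) = 1 := by rw [add_neg_cancel, AddChar.map_zero_eq_one]
        rw [AddChar.map_add_eq_mul, hx, one_mul] at h1
        exact h1
    ext g
    rw [hall g]
    rfl
  have h := decay a F ha A hA hF hF1 (w + 4) ν ε hν0 hν1 hε hyp n
  have hρn : (0 : ℝ) ≤ (1 - ε / 2) ^ n := pow_nonneg (by linarith) n
  have hall : ∀ k, (w + 4) * n ≤ k → ‖E a F k‖ ≤ (1 - ε / 2) ^ n * Q a k := by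
    intro k hk
    have h1 := (stay a F ha A hA hF hF1 ν ε hν0 hν1 hε ((w + 4) * n) _ hρn h.1 h.2 (k - (w + 4) * n)).1
    rw [Nat.add_sub_cancel' hk] at h1
    have q0 : (0 : ℝ) < Q a k := by exact_mod_cast Q_pos a ha _
    unfold y at h1
    rwa [norm_div, Complex.norm_natCast, div_le_iff₀ q0] at h1
  have hs := seg a ha F hF hF1 _ hρn ((w + 4) * n) hall N B
  have e1 : ∑ m ∈ range B, F (N + m) = e ((N : ℝ) * x) * ∑ m ∈ range B, χ (S (N + m)) * e (m * x) := by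
    rw [mul_sum]
    refine sum_congr rfl fun m _ => ?_
    rw [hFd]
    show χ (S (N + m)) * e (((N + m : ℕ) : ℝ) * x) = _
    have e2 : e (((N + m : ℕ) : ℝ) * x) = e ((N : ℝ) * x) * e (m * x) := by
      rw [← e_add]
      congr 1
      push_cast
      ring
    rw [e2]
    ring
  rw [e1, norm_mul, norm_e, one_mul] at hs
  exact hs

theorem blocks (a : ℕ → ℕ) (ha : ∀ k, 1 ≤ a k) (A : ℕ) (hA : ∀ k, a k ≤ A) (S : ℕ → G)
    (hS : Add a S) (w : ℕ) (hw : ∀ k, AddSubgroup.closure (gens a S k w) = ⊤) : Blocks S := by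
  classical
  obtain ⟨r, ρ, hr, hρ1, hρ2, hρ⟩ := boundAll a ha A hA S hS w hw
  have hρ0 : 0 < ρ := by linarith
  have hAA : 1 ≤ A := (ha 0).trans (hA 0)
  have hA2 : (2 : ℝ) ≤ (A : ℝ) + 1 := by
    have : (1 : ℝ) ≤ A := by exact_mod_cast hAA
    linarith
  obtain ⟨D, hD⟩ : ∃ D : ℝ, D = ((A : ℝ) + 1) ^ r := ⟨_, rfl⟩
  have hD2 : 2 ≤ D := by
    rw [hD]
    calc (2 : ℝ) ≤ (A : ℝ) + 1 := hA2
      _ = ((A : ℝ) + 1) ^ 1 := (pow_one _).symm
      _ ≤ _ := pow_le_pow_right₀ (by linarith) hr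
  have hD0 : 0 < D := by linarith
  have hlD : 0 < Real.log D := Real.log_pos (by linarith)
  obtain ⟨μ, hμ⟩ : ∃ μ : ℝ, μ = min 1 (Real.log (1 / ρ) / Real.log D) := ⟨_, rfl⟩
  have hlρ : 0 < Real.log (1 / ρ) := Real.log_pos (by rw [lt_div_iff₀ hρ0]; linarith)
  have hμ0 : 0 < μ := by
    rw [hμ]
    exact lt_min one_pos (by positivity)
  have hμ1 : μ ≤ 1 := by
    rw [hμ]
    exact min_le_left _ _
  have hDμ : D ^ μ ≤ 1 / ρ := by
    have h1 : μ ≤ Real.log (1 / ρ) / Real.log D := by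
      rw [hμ]
      exact min_le_right _ _
    rw [le_div_iff₀ hlD] at h1
    rw [Real.rpow_def_of_pos hD0]
    calc Real.exp (Real.log D * μ) ≤ Real.exp (Real.log (1 / ρ)) := Real.exp_le_exp.2 (by linarith)
      _ = 1 / ρ := Real.exp_log (by positivity)
  refine ⟨μ / 8, by positivity, ?_⟩
  intro δ hδ
  filter_upwards [eventually_ge_atTop (1 : ℝ), (tendsto_rpow_atTop hδ).eventually_ge_atTop 2,
    ev_pow (μ / 8 * δ) (δ / 2 * μ) 4 (by nlinarith [mul_pos hμ0 hδ]),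
    ev_pow (δ / 2 + μ / 8 * δ) δ (16 * ((A : ℝ) + 1)) (by nlinarith)] with M hM1 hM2 hM3 hM4
  have hM0 : 0 < M := by linarith
  obtain ⟨Z, hZ⟩ : ∃ Z : ℝ, Z = M ^ (δ / 2) := ⟨_, rfl⟩
  have hZ1 : 1 ≤ Z := by rw [hZ]; exact Real.one_le_rpow hM1 (by linarith)
  obtain ⟨B, hB⟩ : ∃ B : ℕ, B = ⌊M ^ δ⌋₊ := ⟨_, rfl⟩
  have hB1 : M ^ δ / 4 ≤ B := by
    have := Nat.lt_floor_add_one (M ^ δ)
    rw [← hB] at this
    linarith
  have hB2 : (B : ℝ) ≤ M ^ δ := by
    rw [hB]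
    exact Nat.floor_le (by positivity)
  refine ⟨B, hB1, hB2, fun x => ⟨x, le_rfl, by omega, ?_⟩⟩
  intro χ hχ θ
  have hex : ∃ n : ℕ, Z < Q a (r * (n + 1)) := by
    obtain ⟨n, hn⟩ := exists_nat_gt Z
    refine ⟨n, hn.trans_le ?_⟩
    have h1 := Q_grow a ha n
    have h2 := Q_monotone a ha (show n + 1 ≤ r * (n + 1) from Nat.le_mul_of_pos_left _ hr)
    exact_mod_cast h1.trans h2
  obtain ⟨L, hL⟩ : ∃ L, L = Nat.find hex := ⟨_, rfl⟩
  have hL2 : Z < Q a (r * (L + 1)) := by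
    rw [hL]
    exact Nat.find_spec hex
  have hL1 : (Q a (r * L) : ℝ) ≤ Z := by
    rcases Nat.eq_zero_or_pos L with h | h
    · rw [h, mul_zero]
      show ((1 : ℕ) : ℝ) ≤ _
      rw [Nat.cast_one]
      exact hZ1
    · have h1 := Nat.find_min hex (show L - 1 < Nat.find hex by omega)
      rw [Nat.sub_add_cancel h] at h1
      exact not_lt.1 h1
  have hDB : Z ≤ D ^ (L + 1) := by
    have h1 := Q_le_pow a ha A hA 0 (r * (L + 1))
    have h2 : Q a 0 = 1 := rfl
    rw [zero_add, h2, mul_one] at h1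
    refine hL2.le.trans ?_
    rw [hD, ← pow_mul]
    exact_mod_cast h1
  have hρL : ρ ^ L * M ^ (μ / 8 * δ) ≤ 1 / 2 := by
    have h1 : M ^ (δ / 2 * μ) ≤ (1 / ρ) ^ (L + 1) := by
      calc M ^ (δ / 2 * μ) = Z ^ μ := by rw [hZ, Real.rpow_mul hM0.le]
        _ ≤ (D ^ (L + 1)) ^ μ := Real.rpow_le_rpow (by positivity) hDB hμ0.le
        _ = (D ^ μ) ^ (L + 1) := by
            rw [← Real.rpow_natCast, ← Real.rpow_natCast, ← Real.rpow_mul hD0.le,
              ← Real.rpow_mul hD0.le, mul_comm]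
        _ ≤ (1 / ρ) ^ (L + 1) := pow_le_pow_left₀ (by positivity) hDμ _
    have h2 : ρ ^ L * (1 / ρ) ^ (L + 1) = 1 / ρ := by
      rw [pow_succ, ← mul_assoc, ← mul_pow, mul_one_div_cancel hρ0.ne', one_pow, one_mul]
    have h3 : 1 / ρ ≤ 2 := by
      rw [div_le_iff₀ hρ0]
      linarith
    have h4 : ρ ^ L * (4 * M ^ (μ / 8 * δ)) ≤ 2 := by
      calc ρ ^ L * (4 * M ^ (μ / 8 * δ)) ≤ ρ ^ L * (1 / ρ) ^ (L + 1) :=
            mul_le_mul_of_nonneg_left (hM3.trans h1) (by positivity)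
        _ = 1 / ρ := h2
        _ ≤ 2 := h3
    linarith
  have h := hρ χ hχ θ L x B
  refine h.trans ?_
  rw [Real.rpow_neg hM0.le, ← div_eq_mul_inv, le_div_iff₀ (by positivity)]
  have h1 : (Q a (r * L + 1) : ℝ) ≤ (A + 1) * Z := by
    have h2 := Q_le a ha A hA (r * L)
    have h3 : (Q a (r * L + 1) : ℝ) ≤ (A + 1) * Q a (r * L) := by exact_mod_cast h2
    exact h3.trans (mul_le_mul_of_nonneg_left hL1 (by positivity))
  have h2 : M ^ (δ / 2 + μ / 8 * δ) = Z * M ^ (μ / 8 * δ) := by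
    rw [hZ, ← Real.rpow_add hM0]
  rw [h2] at hM4
  obtain ⟨T, hT⟩ : ∃ T : ℝ, T = M ^ (μ / 8 * δ) := ⟨_, rfl⟩
  have hT0 : 0 < T := by rw [hT]; positivity
  rw [← hT] at hM4 hρL ⊢
  have h3 : 2 * (Q a (r * L + 1) : ℝ) * T ≤ B / 2 := by
    have h4 : (Q a (r * L + 1) : ℝ) * T ≤ ((A + 1) * Z) * T := mul_le_mul_of_nonneg_right h1 hT0.le
    nlinarith
  have hB0 : (0 : ℝ) ≤ B := Nat.cast_nonneg _
  have h5 : ρ ^ L * B * T ≤ B / 2 := by
    have : ρ ^ L * B * T = (ρ ^ L * T) * B := by ring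
    rw [this]
    nlinarith
  nlinarith

end Pool.Agent.U607.OS
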