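import Mathlib

set_option autoImplicit false

/-! Contraction for sums of multiplicative functions in the Ostrowski numeration. -/

namespace Pool.Agent.U607.OS

open Finset

/-- the denominators `Q 0 = 1`, `Q 1 = a 0`, `Q (k + 2) = a (k + 1) * Q (k + 1) + Q k` -/
def Q (a : ℕ → ℕ) : ℕ → ℕ
  | 0 => 1
  | 1 => a 0
  | (k + 2) => a (k + 1) * Q a (k + 1) + Q a k

lemma Q_step (a : ℕ → ℕ) (k : ℕ) : Q a (k + 2) = a (k + 1) * Q a (k + 1) + Q a k := rfl

lemma Q_pos (a : ℕ → ℕ) (ha : ∀ k, 1 ≤ a k) : ∀ k, 1 ≤ Q a k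
  | 0 => le_rfl
  | 1 => ha 0
  | (k + 2) => by
    rw [Q_step]
    have h1 := Q_pos a ha k
    have h2 := Nat.zero_le (a (k + 1) * Q a (k + 1))
    omega

lemma Q_mono (a : ℕ → ℕ) (ha : ∀ k, 1 ≤ a k) (k : ℕ) : Q a k ≤ Q a (k + 1) := by
  rcases k with _ | k
  · exact ha 0
  · rw [Q_step]
    have h1 : 1 * Q a (k + 1) ≤ a (k + 1) * Q a (k + 1) := Nat.mul_le_mul_right _ (ha _)
    omega

lemma Q_monotone (a : ℕ → ℕ) (ha : ∀ k, 1 ≤ a k) : Monotone (Q a) := monotone_nat_of_le_succ (Q_mono a ha)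

lemma Q_le (a : ℕ → ℕ) (ha : ∀ k, 1 ≤ a k) (A : ℕ) (hA : ∀ k, a k ≤ A) (k : ℕ) :
    Q a (k + 1) ≤ (A + 1) * Q a k := by
  rcases k with _ | k
  · show a 0 ≤ (A + 1) * 1
    have := hA 0
    omega
  · rw [Q_step]
    have h1 : a (k + 1) * Q a (k + 1) ≤ A * Q a (k + 1) := Nat.mul_le_mul_right _ (hA _)
    have h2 := Q_mono a ha k
    rw [add_mul, one_mul]
    omega

lemma Q_grow (a : ℕ → ℕ) (ha : ∀ k, 1 ≤ a k) : ∀ k, k ≤ Q a (k + 1)
  | 0 => Nat.zero_le _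
  | (k + 1) => by
    rw [Q_step]
    have h0 := Q_grow a ha k
    have h1 : 1 * Q a (k + 1) ≤ a (k + 1) * Q a (k + 1) := Nat.mul_le_mul_right _ (ha _)
    have h2 := Q_pos a ha k
    omega

/-- the variance identity -/
lemma variance (p : ℕ → ℝ) (z : ℕ → ℂ) (s : Finset ℕ) (hp : ∀ i ∈ s, 0 ≤ p i)
    (hsum : ∑ i ∈ s, p i = 1) (T : ℝ) (hT : 0 ≤ T) (hz : ∀ i ∈ s, ‖z i‖ ≤ T) (ε : ℝ)
    (hε : 0 ≤ ε) (hε1 : ε ≤ 1) (hy : (1 - ε) * T ≤ ‖∑ i ∈ s, (p i : ℂ) * z i‖) (i : ℕ) (hi : i ∈ s) :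
    p i * ‖z i - ∑ j ∈ s, (p j : ℂ) * z j‖ ^ 2 ≤ 2 * ε * T ^ 2 := by
  obtain ⟨y, hyd⟩ : ∃ y : ℂ, y = ∑ j ∈ s, (p j : ℂ) * z j := ⟨_, rfl⟩
  rw [← hyd] at hy ⊢
  have h1 : ∀ j, ‖z j - y‖ ^ 2 = ‖z j‖ ^ 2 - 2 * (z j * (starRingEnd ℂ) y).re + ‖y‖ ^ 2 := by
    intro j
    rw [Complex.sq_norm, Complex.sq_norm, Complex.sq_norm, Complex.normSq_sub]
    ring
  have h2 : ∑ j ∈ s, p j * (z j * (starRingEnd ℂ) y).re = ‖y‖ ^ 2 := by
    have h3 : (∑ j ∈ s, (p j : ℂ) * (z j * (starRingEnd ℂ) y)) = y * (starRingEnd ℂ) y := by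
      rw [hyd, sum_mul]
      refine sum_congr rfl fun j _ => ?_
      ring
    have h4 := congrArg Complex.re h3
    rw [Complex.re_sum, Complex.mul_conj, Complex.ofReal_re, ← Complex.sq_norm] at h4
    rw [← h4]
    refine sum_congr rfl fun j _ => ?_
    rw [Complex.re_ofReal_mul]
  have h5 : ∑ j ∈ s, p j * ‖z j - y‖ ^ 2 = ∑ j ∈ s, p j * ‖z j‖ ^ 2 - ‖y‖ ^ 2 := by
    have h6 : ∀ j ∈ s, p j * ‖z j - y‖ ^ 2 = p j * ‖z j‖ ^ 2 - 2 * (p j * (z j * (starRingEnd ℂ) y).re) +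
        p j * ‖y‖ ^ 2 := by
      intro j _
      rw [h1 j]
      ring
    rw [sum_congr rfl h6, sum_add_distrib, sum_sub_distrib, ← mul_sum, h2, ← sum_mul, hsum]
    ring
  have h7 : ∑ j ∈ s, p j * ‖z j‖ ^ 2 ≤ T ^ 2 := by
    calc ∑ j ∈ s, p j * ‖z j‖ ^ 2 ≤ ∑ j ∈ s, p j * T ^ 2 := by
          apply sum_le_sum
          intro j hj
          apply mul_le_mul_of_nonneg_left _ (hp j hj)
          exact pow_le_pow_left₀ (norm_nonneg _) (hz j hj) 2
      _ = T ^ 2 := by rw [← sum_mul, hsum, one_mul]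
  have h8 : ((1 - ε) * T) ^ 2 ≤ ‖y‖ ^ 2 := by
    apply pow_le_pow_left₀ _ hy
    apply mul_nonneg (by linarith) hT
  have h9 : p i * ‖z i - y‖ ^ 2 ≤ ∑ j ∈ s, p j * ‖z j - y‖ ^ 2 :=
    single_le_sum (f := fun j => p j * ‖z j - y‖ ^ 2)
      (fun j hj => mul_nonneg (hp j hj) (by positivity)) hi
  have h10 : 0 ≤ (ε * T) ^ 2 := by positivity
  nlinarith

lemma sum_blocks (f : ℕ → ℂ) (q d : ℕ) :
    ∑ n ∈ range (d * q), f n = ∑ i ∈ range d, ∑ m ∈ range q, f (i * q + m) := by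
  induction d with
  | zero => simp
  | succ d ih => rw [add_mul, one_mul, sum_range_add, ih, sum_range_succ]

section

variable (a : ℕ → ℕ) (F : ℕ → ℂ)

/-- the sums of `F` over the blocks -/
noncomputable def E (k : ℕ) : ℂ := ∑ n ∈ range (Q a k), F n

/-- the means -/
noncomputable def y (k : ℕ) : ℂ := E a F k / Q a k

/-- multiplicative with respect to the expansions -/
def Mul : Prop := ∀ k m d : ℕ, m < Q a k → d * Q a k + m < Q a (k + 1) →
  F (d * Q a k + m) = F (d * Q a k) * F m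

lemma E_rec (ha : ∀ k, 1 ≤ a k) (hF : Mul a F) (k : ℕ) :
    E a F (k + 2) = (∑ d ∈ range (a (k + 1)), F (d * Q a (k + 1))) * E a F (k + 1) +
      F (a (k + 1) * Q a (k + 1)) * E a F k := by
  have hp := Q_pos a ha k
  have hm := Q_mono a ha k
  unfold E
  rw [Q_step, sum_range_add, sum_blocks]
  congr 1
  · rw [sum_mul]
    refine sum_congr rfl fun i hi => ?_
    rw [mem_range] at hi
    rw [mul_sum]
    refine sum_congr rfl fun m hmm => ?_
    rw [mem_range] at hmm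
    apply hF (k + 1) m i hmm
    rw [Q_step]
    have h1 : (i + 1) * Q a (k + 1) ≤ a (k + 1) * Q a (k + 1) := Nat.mul_le_mul_right _ hi
    rw [add_mul, one_mul] at h1
    omega
  · rw [mul_sum]
    refine sum_congr rfl fun m hmm => ?_
    rw [mem_range] at hmm
    apply hF (k + 1) m _ (by omega)
    rw [Q_step]
    omega

variable (ha : ∀ k, 1 ≤ a k) (A : ℕ) (hA : ∀ k, a k ≤ A) (hF : Mul a F) (hF1 : ∀ n, ‖F n‖ = 1)

include ha hF hF1 in
/-- the new mean is a convex combination -/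
lemma y_comb (k : ℕ) : ∃ (p : ℕ → ℝ) (z : ℕ → ℂ),
    (∀ i ∈ range (a (k + 1) + 1), 0 ≤ p i) ∧ ∑ i ∈ range (a (k + 1) + 1), p i = 1 ∧
    (∀ i < a (k + 1), p i = (Q a (k + 1) : ℝ) / Q a (k + 2) ∧ z i = F (i * Q a (k + 1)) * y a F (k + 1)) ∧
    p (a (k + 1)) = (Q a k : ℝ) / Q a (k + 2) ∧ z (a (k + 1)) = F (a (k + 1) * Q a (k + 1)) * y a F k ∧
    y a F (k + 2) = ∑ i ∈ range (a (k + 1) + 1), (p i : ℂ) * z i := by
  classical
  have q0 : (0 : ℝ) < Q a k := by exact_mod_cast Q_pos a ha k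
  have q1 : (0 : ℝ) < Q a (k + 1) := by exact_mod_cast Q_pos a ha (k + 1)
  have q2 : (0 : ℝ) < Q a (k + 2) := by exact_mod_cast Q_pos a ha (k + 2)
  have c0 : (Q a k : ℂ) ≠ 0 := by exact_mod_cast q0.ne'
  have c1 : (Q a (k + 1) : ℂ) ≠ 0 := by exact_mod_cast q1.ne'
  have c2 : (Q a (k + 2) : ℂ) ≠ 0 := by exact_mod_cast q2.ne'
  refine ⟨fun i => if i < a (k + 1) then (Q a (k + 1) : ℝ) / Q a (k + 2) else (Q a k : ℝ) / Q a (k + 2),
    fun i => if i < a (k + 1) then F (i * Q a (k + 1)) * y a F (k + 1) else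
      F (a (k + 1) * Q a (k + 1)) * y a F k, ?_, ?_, ?_, ?_, ?_, ?_⟩
  · intro i _
    show 0 ≤ if i < a (k + 1) then (Q a (k + 1) : ℝ) / Q a (k + 2) else (Q a k : ℝ) / Q a (k + 2)
    split_ifs <;> positivity
  · rw [sum_range_succ, if_neg (lt_irrefl _)]
    rw [sum_congr rfl (fun i hi => if_pos (mem_range.1 hi)), sum_const, card_range, nsmul_eq_mul]
    have h1 : (Q a (k + 2) : ℝ) = a (k + 1) * Q a (k + 1) + Q a k := by
      exact_mod_cast Q_step a k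
    rw [mul_div_assoc', ← add_div, ← h1, div_self q2.ne']
  · intro i hi
    simp only [if_pos hi, and_self]
  · simp
  · simp
  · rw [sum_range_succ]
    simp only [lt_irrefl, if_false]
    rw [sum_congr rfl (fun i hi => by rw [if_pos (mem_range.1 hi), if_pos (mem_range.1 hi)])]
    unfold y
    rw [E_rec a F ha hF k]
    push_cast
    have h3 : ∀ i ∈ range (a (k + 1)), (Q a (k + 1) : ℂ) / Q a (k + 2) *
        (F (i * Q a (k + 1)) * (E a F (k + 1) / Q a (k + 1))) =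
        F (i * Q a (k + 1)) * (E a F (k + 1) / Q a (k + 2)) := by
      intro i _
      field_simp
    rw [sum_congr rfl h3, ← sum_mul]
    field_simp

include ha hF hF1 in
lemma F_zero : F 0 = 1 := by
  have h1 := hF 0 0 0 (Q_pos a ha 0) (by
    rw [Nat.zero_mul, Nat.zero_add]
    exact Q_pos a ha 1)
  simp only [zero_mul, add_zero] at h1
  have h2 : F 0 ≠ 0 := by
    intro h
    have := hF1 0
    rw [h, norm_zero] at this
    norm_num at this
  have h3 : F 0 * F 0 = F 0 * 1 := by rw [mul_one]; exact h1.symm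
  exact mul_left_cancel₀ h2 h3

include ha hA hF hF1 in
lemma step (k : ℕ) (T ν ε : ℝ) (hT : 0 ≤ T) (hν : 0 < ν) (hν1 : ν ≤ 1)
    (hε : ε = ν ^ 2 / (2 * ((A : ℝ) + 1) ^ 2)) (h0 : ‖y a F k‖ ≤ T) (h1 : ‖y a F (k + 1)‖ ≤ T) :
    ‖y a F (k + 2)‖ ≤ T ∧
    (‖y a F (k + 1)‖ ≤ (1 - ε) * T → ‖y a F (k + 2)‖ ≤ (1 - ε / 2) * T) ∧
    ((1 - ε) * T ≤ ‖y a F (k + 2)‖ →
      (∀ d < a (k + 1), ‖F (d * Q a (k + 1)) * y a F (k + 1) - y a F (k + 2)‖ ≤ ν * T) ∧
      ‖F (a (k + 1) * Q a (k + 1)) * y a F k - y a F (k + 2)‖ ≤ ν * T) := by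
  classical
  obtain ⟨p, z, hp, hs, hz, hpa, hza, hy⟩ := y_comb a F ha hF hF1 k
  have q0 : (0 : ℝ) < Q a k := by exact_mod_cast Q_pos a ha k
  have q1 : (0 : ℝ) < Q a (k + 1) := by exact_mod_cast Q_pos a ha (k + 1)
  have q2 : (0 : ℝ) < Q a (k + 2) := by exact_mod_cast Q_pos a ha (k + 2)
  have qA1 : (Q a (k + 2) : ℝ) ≤ (A + 1) * Q a (k + 1) := by exact_mod_cast Q_le a ha A hA (k + 1)
  have qA0 : (Q a (k + 1) : ℝ) ≤ (A + 1) * Q a k := by exact_mod_cast Q_le a ha A hA k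
  have q01 : (Q a k : ℝ) ≤ Q a (k + 1) := by exact_mod_cast Q_mono a ha k
  have q12 : (Q a (k + 1) : ℝ) + Q a k ≤ Q a (k + 2) := by
    have h1 : 1 * Q a (k + 1) ≤ a (k + 1) * Q a (k + 1) := Nat.mul_le_mul_right _ (ha _)
    have h2 : Q a (k + 1) + Q a k ≤ Q a (k + 2) := by
      rw [Q_step]
      omega
    exact_mod_cast h2
  have hA1 : (1 : ℝ) ≤ (A : ℝ) + 1 := by
    have : (0 : ℝ) ≤ A := Nat.cast_nonneg _
    linarith
  have hε0 : 0 < ε := by rw [hε]; positivity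
  have hε2 : ε ≤ 1 / 2 := by
    rw [hε, div_le_div_iff₀ (by positivity) (by norm_num)]
    nlinarith
  have hzT : ∀ i ∈ range (a (k + 1) + 1), ‖z i‖ ≤ T := by
    intro i hi
    rw [mem_range] at hi
    rcases Nat.lt_succ_iff_lt_or_eq.1 hi with h | h
    · rw [(hz i h).2, norm_mul, hF1, one_mul]
      exact h1
    · rw [h, hza, norm_mul, hF1, one_mul]
      exact h0
  have hnorm : ‖y a F (k + 2)‖ ≤ ∑ i ∈ range (a (k + 1) + 1), p i * ‖z i‖ := by
    rw [hy]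
    refine (norm_sum_le _ _).trans ?_
    apply sum_le_sum
    intro i hi
    rw [norm_mul, Complex.norm_real, Real.norm_of_nonneg (hp i hi)]
  refine ⟨?_, ?_, ?_⟩
  · refine hnorm.trans ?_
    calc ∑ i ∈ range (a (k + 1) + 1), p i * ‖z i‖ ≤ ∑ i ∈ range (a (k + 1) + 1), p i * T :=
          sum_le_sum fun i hi => mul_le_mul_of_nonneg_left (hzT i hi) (hp i hi)
      _ = T := by rw [← sum_mul, hs, one_mul]
  · intro hsm
    refine hnorm.trans ?_
    rw [sum_range_succ] at hs ⊢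
    have e1 : ∑ i ∈ range (a (k + 1)), p i * ‖z i‖ ≤ ∑ i ∈ range (a (k + 1)), p i * ((1 - ε) * T) := by
      apply sum_le_sum
      intro i hi
      apply mul_le_mul_of_nonneg_left _ (hp i (by
        rw [mem_range] at hi ⊢
        omega))
      rw [(hz i (mem_range.1 hi)).2, norm_mul, hF1, one_mul]
      exact hsm
    rw [← sum_mul] at e1
    have e2 : p (a (k + 1)) * ‖z (a (k + 1))‖ ≤ p (a (k + 1)) * T := by
      apply mul_le_mul_of_nonneg_left (hzT _ (by simp)) (hp _ (by simp))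
    have e3 : p (a (k + 1)) ≤ 1 / 2 := by
      rw [hpa, div_le_div_iff₀ q2 (by norm_num)]
      linarith
    have e4 : ∑ i ∈ range (a (k + 1)), p i = 1 - p (a (k + 1)) := by linarith
    rw [e4] at e1
    have e5 : 0 ≤ ε * T := by positivity
    nlinarith
  · intro hbig
    have hmain : ∀ i ∈ range (a (k + 1) + 1), 1 / ((A : ℝ) + 1) ^ 2 ≤ p i →
        ‖z i - y a F (k + 2)‖ ≤ ν * T := by
      intro i hi hpi
      have h2 := variance p z _ hp hs T hT hzT ε hε0.le (by linarith) (by rw [← hy]; exact hbig) i hi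
      rw [← hy] at h2
      have h3 : 1 / ((A : ℝ) + 1) ^ 2 * ‖z i - y a F (k + 2)‖ ^ 2 ≤ 2 * ε * T ^ 2 :=
        (mul_le_mul_of_nonneg_right hpi (by positivity)).trans h2
      have h4 : 2 * ε * T ^ 2 = 1 / ((A : ℝ) + 1) ^ 2 * (ν * T) ^ 2 := by
        rw [hε]
        field_simp
      rw [h4] at h3
      have h5 := le_of_mul_le_mul_left h3 (by positivity)
      exact (sq_le_sq₀ (norm_nonneg _) (by positivity)).1 h5
    have hsq : (A : ℝ) + 1 ≤ ((A : ℝ) + 1) ^ 2 := by nlinarith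
    refine ⟨?_, ?_⟩
    · intro d hd
      have h2 := hmain d (by rw [mem_range]; omega) (by
        rw [(hz d hd).1, div_le_div_iff₀ (by positivity) q2]
        nlinarith)
      rw [(hz d hd).2] at h2
      exact h2
    · have h2 := hmain (a (k + 1)) (by simp) (by
        rw [hpa, div_le_div_iff₀ (by positivity) q2]
        nlinarith)
      rw [hza] at h2
      exact h2

include ha hA hF hF1 in
lemma stay (ν ε : ℝ) (hν : 0 < ν) (hν1 : ν ≤ 1)
    (hε : ε = ν ^ 2 / (2 * ((A : ℝ) + 1) ^ 2)) (k : ℕ) (T : ℝ) (hT : 0 ≤ T) (h0 : ‖y a F k‖ ≤ T)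
    (h1 : ‖y a F (k + 1)‖ ≤ T) (i : ℕ) : ‖y a F (k + i)‖ ≤ T ∧ ‖y a F (k + i + 1)‖ ≤ T := by
  induction i with
  | zero => exact ⟨h0, h1⟩
  | succ i ih =>
    refine ⟨ih.2, ?_⟩
    exact (step a F ha A hA hF hF1 (k + i) T ν ε hT hν hν1 hε ih.1 ih.2).1

include ha hA hF hF1 in
lemma contract (r : ℕ) (ν ε : ℝ) (hν : 0 < ν) (hν1 : ν ≤ 1)
    (hε : ε = ν ^ 2 / (2 * ((A : ℝ) + 1) ^ 2))
    (hyp : ∀ k, ∃ j d, k + 2 ≤ j ∧ j + 1 ≤ k + r ∧ d ≤ a j ∧ 6 * ν < ‖F (d * Q a j) - 1‖)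
    (k : ℕ) (T : ℝ) (hT : 0 ≤ T) (h0 : ‖y a F k‖ ≤ T) (h1 : ‖y a F (k + 1)‖ ≤ T) :
    ‖y a F (k + r)‖ ≤ (1 - ε / 2) * T ∧ ‖y a F (k + r + 1)‖ ≤ (1 - ε / 2) * T := by
  have hA1 : (1 : ℝ) ≤ (A : ℝ) + 1 := by
    have : (0 : ℝ) ≤ A := Nat.cast_nonneg _
    linarith
  have hε0 : 0 < ε := by rw [hε]; positivity
  have hε2 : ε ≤ 1 / 2 := by
    rw [hε, div_le_div_iff₀ (by positivity) (by norm_num)]
    nlinarith
  have hall := stay a F ha A hA hF hF1 ν ε hν hν1 hε k T hT h0 h1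
  have hall' : ∀ j, k ≤ j → ‖y a F j‖ ≤ T := by
    intro j hj
    have := (hall (j - k)).1
    rwa [Nat.add_sub_cancel' hj] at this
  by_cases hA' : ∃ j, k + 1 ≤ j ∧ j ≤ k + r ∧ ‖y a F j‖ ≤ (1 - ε) * T
  · obtain ⟨j, hj1, hj2, hj3⟩ := hA'
    obtain ⟨i, rfl⟩ : ∃ i, j = i + 1 := ⟨j - 1, by omega⟩
    have h2 := (step a F ha A hA hF hF1 i T ν ε hT hν hν1 hε (hall' i (by omega)) (hall' (i + 1) (by omega))).2.1 hj3
    have h3 : ‖y a F (i + 1)‖ ≤ (1 - ε / 2) * T := by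
      refine hj3.trans ?_
      apply mul_le_mul_of_nonneg_right _ hT
      linarith
    have h4 := stay a F ha A hA hF hF1 ν ε hν hν1 hε (i + 1) ((1 - ε / 2) * T)
      (mul_nonneg (by linarith) hT) h3 h2 (k + r - (i + 1))
    rwa [Nat.add_sub_cancel' hj2] at h4
  · exfalso
    push Not at hA'
    obtain ⟨j, d, hj1, hj2, hd, hbig⟩ := hyp k
    have hT0 : 0 < T := by
      have h2 := hA' (k + 1) le_rfl (by omega)
      have h3 := hall' (k + 1) (by omega)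
      have h4 : 0 < ε * T := by nlinarith
      by_contra hcon
      push Not at hcon
      have h5 : T = 0 := le_antisymm hcon hT
      rw [h5, mul_zero] at h4
      exact lt_irrefl _ h4
    obtain ⟨i, rfl⟩ : ∃ i, j = i + 2 := ⟨j - 2, by omega⟩
    have s1 := (step a F ha A hA hF hF1 (i + 1) T ν ε hT hν hν1 hε (hall' (i + 1) (by omega))
      (hall' (i + 2) (by omega))).2.2 (hA' (i + 3) (by omega) (by omega)).le
    have s0 := (step a F ha A hA hF hF1 i T ν ε hT hν hν1 hε (hall' i (by omega))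
      (hall' (i + 1) (by omega))).2.2 (hA' (i + 2) (by omega) (by omega)).le
    have F0 := F_zero a F ha hF hF1
    have t0 := s0.1 0 (ha _)
    have t1 := s1.1 0 (ha _)
    rw [zero_mul, F0, one_mul] at t0 t1
    have b1 : T / 2 < ‖y a F (i + 1)‖ := by
      have := hA' (i + 1) (by omega) (by omega)
      nlinarith
    have b2 : T / 2 < ‖y a F (i + 2)‖ := by
      have := hA' (i + 2) (by omega) (by omega)
      nlinarith
    rcases Nat.lt_or_eq_of_le hd with hd | hd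
    · have t2 := s1.1 d hd
      have e1 : (F (d * Q a (i + 2)) - 1) * y a F (i + 2) =
          (F (d * Q a (i + 2)) * y a F (i + 2) - y a F (i + 3)) - (y a F (i + 2) - y a F (i + 3)) := by
        ring
      have e2 : ‖F (d * Q a (i + 2)) - 1‖ * ‖y a F (i + 2)‖ ≤ 2 * (ν * T) := by
        rw [← norm_mul, e1]
        refine (norm_sub_le _ _).trans ?_
        linarith
      have e3 : 6 * ν * (T / 2) ≤ ‖F (d * Q a (i + 2)) - 1‖ * ‖y a F (i + 2)‖ :=
        mul_le_mul hbig.le b2.le (by positivity) (norm_nonneg _)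
      have e4 : 0 < ν * T := by positivity
      linarith
    · rw [hd] at hbig
      have t2 := s1.2
      have e1 : (F (a (i + 2) * Q a (i + 2)) - 1) * y a F (i + 1) =
          (F (a (i + 2) * Q a (i + 2)) * y a F (i + 1) - y a F (i + 3)) - (y a F (i + 2) - y a F (i + 3)) -
            (y a F (i + 1) - y a F (i + 2)) := by
        ring
      have e2 : ‖F (a (i + 2) * Q a (i + 2)) - 1‖ * ‖y a F (i + 1)‖ ≤ 3 * (ν * T) := by
        rw [← norm_mul, e1]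
        refine (norm_sub_le _ _).trans ?_
        have := norm_sub_le (F (a (i + 2) * Q a (i + 2)) * y a F (i + 1) - y a F (i + 3))
          (y a F (i + 2) - y a F (i + 3))
        linarith
      have e3 : 6 * ν * (T / 2) < ‖F (a (i + 2) * Q a (i + 2)) - 1‖ * ‖y a F (i + 1)‖ :=
        mul_lt_mul'' hbig b1 (by positivity) (by positivity)
      linarith

include ha hA hF hF1 in
lemma decay (r : ℕ) (ν ε : ℝ) (hν : 0 < ν) (hν1 : ν ≤ 1)
    (hε : ε = ν ^ 2 / (2 * ((A : ℝ) + 1) ^ 2))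
    (hyp : ∀ k, ∃ j d, k + 2 ≤ j ∧ j + 1 ≤ k + r ∧ d ≤ a j ∧ 6 * ν < ‖F (d * Q a j) - 1‖) (n : ℕ) :
    ‖y a F (r * n)‖ ≤ (1 - ε / 2) ^ n ∧ ‖y a F (r * n + 1)‖ ≤ (1 - ε / 2) ^ n := by
  have hA1 : (1 : ℝ) ≤ (A : ℝ) + 1 := by
    have : (0 : ℝ) ≤ A := Nat.cast_nonneg _
    linarith
  have hε2 : ε ≤ 1 / 2 := by
    rw [hε, div_le_div_iff₀ (by positivity) (by norm_num)]
    nlinarith
  have hy1 : ∀ k, ‖y a F k‖ ≤ 1 := by
    intro k
    have q0 : (0 : ℝ) < Q a k := by exact_mod_cast Q_pos a ha k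
    unfold y E
    rw [norm_div, Complex.norm_natCast, div_le_one q0]
    refine (norm_sum_le _ _).trans ?_
    simp [hF1]
  induction n with
  | zero => exact ⟨by simpa using hy1 0, by simpa using hy1 1⟩
  | succ n ih =>
    have h := contract a F ha A hA hF hF1 r ν ε hν hν1 hε hyp (r * n) ((1 - ε / 2) ^ n)
      (pow_nonneg (by linarith) n) ih.1 ih.2
    rw [mul_add, mul_one, pow_succ, mul_comm ((1 - ε / 2) ^ n)]
    exact h

end

end Pool.Agent.U607.OS
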