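import Pool.Agent.U607.OsMain
import Pool.Agent.U602.AB.Grp

set_option autoImplicit false

/-! Record gaps at a number and its real multiples, and additive functions in Ostrowski numeration
systems. -/

namespace Pool.Agent.U607.OS

open Finset Filter
open Pool.Agent.H469R2.NK (e norm_e e_add e_zero)
open Pool.Agent.W147.PS (ff ff_compare ev_pow)
open Pool.Agent.U602.AB (block_group_lin)

variable {G : Type} [AddCommGroup G] [Fintype G]

theorem main_lin (a : ℕ → ℕ) (ha : ∀ k, 1 ≤ a k) (A : ℕ) (hA : ∀ k, a k ≤ A) (S : ℕ → G)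
    (hS : Add a S) (w : ℕ) (hw : ∀ k, AddSubgroup.closure (gens a S k w) = ⊤)
    (r' : ℕ) (hr' : 1 ≤ r') (α β : Fin r' → ℝ) (hα : ∀ j, 0 < α j) (c₀ τ : ℝ) (hc₀ : 0 < c₀)
    (hτ : 0 ≤ τ)
    (hdio : ∀ (H : ℕ) (h : Fin r' → ℤ), h ≠ 0 → (∀ j, |h j| ≤ H) → ∀ m : ℤ,
      c₀ * (H : ℝ) ^ (-τ) ≤ |∑ j, (h j : ℝ) * α j - m|)
    (ε : ℝ) (hε : 0 < ε) :
    ∃ κ : ℝ, 0 < κ ∧ ∀ᶠ M : ℝ in atTop, ∀ g : G, ∃ n : ℕ, M < n ∧ (n : ℝ) ≤ M + M ^ ε ∧ S n = g ∧
      (∀ q : ℕ, q.Prime → κ * ff M < |(q : ℝ) - n|) ∧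
        ∀ j, ∀ q : ℕ, q.Prime → κ * ff M < |(q : ℝ) - (α j * n + β j)| := by
  classical
  obtain ⟨r, ρ, hr, hρ1, hρ2, hρ⟩ := bound a ha A hA S hS w hw
  have hρ0 : 0 < ρ := by linarith
  have hAA : 1 ≤ A := (ha 0).trans (hA 0)
  have hA2 : (2 : ℝ) ≤ (A : ℝ) + 1 := by
    have : (1 : ℝ) ≤ A := by exact_mod_cast hAA
    linarith
  obtain ⟨D, hD⟩ : ∃ D : ℝ, D = ((A : ℝ) + 1) ^ r := ⟨_, rfl⟩
  have hD2 : 2 ≤ D := by
    rw [hD]
    calc (2 : ℝ) ≤ (A : ℝ) + 1 := hA2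
      _ = ((A : ℝ) + 1) ^ 1 := (pow_one _).symm
      _ ≤ _ := pow_le_pow_right₀ (by linarith) hr
  have hD0 : 0 < D := by linarith
  have hlD : 0 < Real.log D := Real.log_pos (by linarith)
  obtain ⟨μ, hμ⟩ : ∃ μ : ℝ, μ = min 1 (Real.log (1 / ρ) / Real.log D) := ⟨_, rfl⟩
  have hlρ : 0 < Real.log (1 / ρ) := Real.log_pos (by rw [lt_div_iff₀ hρ0]; linarith)
  have hμ0 : 0 < μ := by
    rw [hμ]
    exact lt_min one_pos (by positivity)
  have hDμ : D ^ μ ≤ 1 / ρ := by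
    have h1 : μ ≤ Real.log (1 / ρ) / Real.log D := by
      rw [hμ]
      exact min_le_right _ _
    rw [le_div_iff₀ hlD] at h1
    rw [Real.rpow_def_of_pos hD0]
    calc Real.exp (Real.log D * μ) ≤ Real.exp (Real.log (1 / ρ)) := Real.exp_le_exp.2 (by linarith)
      _ = 1 / ρ := Real.exp_log (by positivity)
  obtain ⟨η, hη⟩ : ∃ η : ℝ, η = min (1 / 2) (min (ε * μ / 8) (ε / (4 * (τ + 4)))) := ⟨_, rfl⟩
  have hη0 : 0 < η := by
    rw [hη]
    positivity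
  have hη1 : η ≤ 1 / 2 := by
    rw [hη]
    exact min_le_left _ _
  have hη2 : η ≤ ε * μ / 8 := by
    rw [hη]
    exact (min_le_right _ _).trans (min_le_left _ _)
  have hη3 : η ≤ ε / (4 * (τ + 4)) := by
    rw [hη]
    exact (min_le_right _ _).trans (min_le_right _ _)
  rw [le_div_iff₀ (by positivity)] at hη3
  obtain ⟨κ, hκ, hblock⟩ := block_group_lin (G := G) r' hr' α β hα c₀ τ hc₀ hτ hdio η hη0 hη1
  refine ⟨κ, hκ, ?_⟩
  filter_upwards [hblock, eventually_ge_atTop (1 : ℝ),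
    ev_pow (ε / 2) ε ((A : ℝ) + 2) (by linarith), ev_pow (2 * η) (ε / 2 * μ) 2 (by nlinarith),
    ev_pow ((τ + 4) * η) (ε / 2) D (by nlinarith)] with M hM hM1 hM2 hM3 hM4
  intro g
  have hM0 : 0 < M := by linarith
  have hMe : 1 ≤ M ^ (ε / 2) := Real.one_le_rpow hM1 (by linarith)
  have hex : ∃ n : ℕ, M ^ (ε / 2) < Q a (r * (n + 1)) := by
    obtain ⟨n, hn⟩ := exists_nat_gt (M ^ (ε / 2))
    refine ⟨n, hn.trans_le ?_⟩
    have h1 := Q_grow a ha n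
    have h2 := Q_monotone a ha (show n + 1 ≤ r * (n + 1) from Nat.le_mul_of_pos_left _ hr)
    exact_mod_cast h1.trans h2
  obtain ⟨L, hL⟩ : ∃ L, L = Nat.find hex := ⟨_, rfl⟩
  have hL2 : M ^ (ε / 2) < Q a (r * (L + 1)) := by
    rw [hL]
    exact Nat.find_spec hex
  have hL1 : (Q a (r * L) : ℝ) ≤ M ^ (ε / 2) := by
    rcases Nat.eq_zero_or_pos L with h | h
    · rw [h, mul_zero]
      show ((1 : ℕ) : ℝ) ≤ _
      rw [Nat.cast_one]
      exact hMe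
    · have h1 := Nat.find_min hex (show L - 1 < Nat.find hex by omega)
      rw [Nat.sub_add_cancel h] at h1
      exact not_lt.1 h1
  obtain ⟨B, hB⟩ : ∃ B, B = Q a (r * L) := ⟨_, rfl⟩
  rw [← hB] at hL1
  have hB0 : 1 ≤ B := by rw [hB]; exact Q_pos a ha _
  have hB1 : (1 : ℝ) ≤ B := by exact_mod_cast hB0
  have hB0' : (0 : ℝ) < B := by linarith
  have hDB : (Q a (r * (L + 1)) : ℝ) ≤ D * B := by
    have h1 := Q_le_pow a ha A hA (r * L) r
    rw [← hB] at h1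
    rw [mul_add, mul_one, hD]
    exact_mod_cast h1
  have hBD : (B : ℝ) ≤ D ^ L := by
    have h1 := Q_le_pow a ha A hA 0 (r * L)
    have h2 : Q a 0 = 1 := rfl
    rw [zero_add, ← hB, h2, mul_one] at h1
    rw [hD, ← pow_mul]
    exact_mod_cast h1
  have hMB : M ^ (ε / 2) ≤ D * B := hL2.le.trans hDB
  have hρL : ρ ^ L ≤ M ^ (-(2 * η)) := by
    have h1 : M ^ (ε / 2 * μ) ≤ (1 / ρ) ^ (L + 1) := by
      calc M ^ (ε / 2 * μ) = (M ^ (ε / 2)) ^ μ := by rw [Real.rpow_mul hM0.le]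
        _ ≤ (D ^ (L + 1)) ^ μ := by
            apply Real.rpow_le_rpow (by positivity) _ hμ0.le
            refine hMB.trans ?_
            rw [pow_succ, mul_comm]
            exact mul_le_mul_of_nonneg_right hBD hD0.le
        _ = (D ^ μ) ^ (L + 1) := by
            rw [← Real.rpow_natCast, ← Real.rpow_natCast, ← Real.rpow_mul hD0.le,
              ← Real.rpow_mul hD0.le, mul_comm]
        _ ≤ (1 / ρ) ^ (L + 1) := pow_le_pow_left₀ (by positivity) hDμ _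
    have h2 : ρ ^ L * (1 / ρ) ^ (L + 1) = 1 / ρ := by
      rw [pow_succ, ← mul_assoc, ← mul_pow, mul_one_div_cancel hρ0.ne', one_pow, one_mul]
    have h3 : 1 / ρ ≤ 2 := by
      rw [div_le_iff₀ hρ0]
      linarith
    have h4 : ρ ^ L * (2 * M ^ (2 * η)) ≤ 2 := by
      calc ρ ^ L * (2 * M ^ (2 * η)) ≤ ρ ^ L * (1 / ρ) ^ (L + 1) :=
            mul_le_mul_of_nonneg_left (hM3.trans h1) (by positivity)
        _ = 1 / ρ := h2
        _ ≤ 2 := h3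
    rw [Real.rpow_neg hM0.le, ← one_div, le_div_iff₀ (by positivity)]
    linarith
  obtain ⟨M₁, hM₁⟩ : ∃ M₁ : ℕ, M₁ = ⌊M⌋₊ + Q a (r * L + 1) := ⟨_, rfl⟩
  have hM₁Q : M₁ < Q a (r * L + (M₁ + 2)) := by
    have h1 := Q_grow a ha (M₁ + 1)
    have h2 := Q_monotone a ha (show M₁ + 1 + 1 ≤ r * L + (M₁ + 2) by omega)
    omega
  obtain ⟨N, hN1, hN2, hN3⟩ := (round a ha S hS (r * L) (M₁ + 2)).1 M₁ hM₁Q
  have hNM : M < N := by
    apply Nat.lt_of_floor_lt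
    omega
  have hNM' : (N : ℝ) + B ≤ M + M ^ ε := by
    have h1 : (N : ℝ) ≤ (⌊M⌋₊ : ℝ) + Q a (r * L + 1) := by
      rw [hM₁] at hN1
      exact_mod_cast hN1
    have h2 := Nat.floor_le hM0.le
    have h3 : (Q a (r * L + 1) : ℝ) ≤ (A + 1) * B := by
      have := Q_le a ha A hA (r * L)
      rw [← hB] at this
      exact_mod_cast this
    have h4 : ((A : ℝ) + 2) * B ≤ ((A : ℝ) + 2) * M ^ (ε / 2) := by
      apply mul_le_mul_of_nonneg_left hL1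
      positivity
    linarith
  rw [← hB] at hN3
  obtain ⟨n, hn, hng, h1, h2⟩ := hM N B hNM.le (by
    have h5 : D * M ^ ((τ + 4) * η) ≤ D * B := hM4.trans hMB
    exact le_of_mul_le_mul_left h5 hD0) S (by
    intro χ hχ x
    have h5 := hρ χ hχ x L
    rw [← hB] at h5
    exact h5.trans (mul_le_mul_of_nonneg_left hρL hB0'.le)) (g - S N)
  refine ⟨N + n, ?_, ?_, ?_, h1, h2⟩
  · push_cast
    have : (0 : ℝ) ≤ n := Nat.cast_nonneg n
    linarith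
  · push_cast
    have : (n : ℝ) ≤ B := by exact_mod_cast hn.le
    linarith
  · rw [(hN3 n hn).2, hng]
    abel

end Pool.Agent.U607.OS
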