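import Pool.Agent.U607.OsCore
import Pool.Agent.TH915.PW.DigitsMain

set_option autoImplicit false

/-! Record gaps and additive functions in Ostrowski numeration systems. -/

namespace Pool.Agent.U607.OS

open Finset Filter
open Pool.Agent.H469R2.NK (e norm_e e_add e_zero)
open Pool.Agent.TH915.PW (crit_int char_count norm_linear)
open Pool.Agent.W147.PS (ff ff_compare ev_pow)

variable {G : Type} [AddCommGroup G]

/-- additive with respect to the expansions -/
def Add (a : ℕ → ℕ) (S : ℕ → G) : Prop := ∀ k m d : ℕ, m < Q a k → d * Q a k + m < Q a (k + 1) →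
  S (d * Q a k + m) = S (d * Q a k) + S m

/-- the obstructions to linearity in the positions `k, …, k + w - 1` -/
def gens (a : ℕ → ℕ) (S : ℕ → G) (k w : ℕ) : Set G :=
  {g | (∃ j d : ℕ, k ≤ j ∧ j < k + w ∧ 2 ≤ d ∧ d ≤ a j ∧ g = S (d * Q a j) - d • S (Q a j)) ∨
    ∃ j : ℕ, k ≤ j ∧ j < k + w ∧ g = S (Q a (j + 2)) - S (a (j + 1) * Q a (j + 1)) - S (Q a j)}

lemma S_zero (a : ℕ → ℕ) (ha : ∀ k, 1 ≤ a k) (S : ℕ → G) (hS : Add a S) : S 0 = 0 := by
  have h := hS 0 0 0 (Q_pos a ha 0) (by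
    rw [Nat.zero_mul, Nat.zero_add]
    exact Q_pos a ha 1)
  simpa using h

/-- every number is close to a round number -/
lemma round (a : ℕ → ℕ) (ha : ∀ k, 1 ≤ a k) (S : ℕ → G) (hS : Add a S) (K : ℕ) : ∀ i : ℕ,
    (∀ M < Q a (K + i), ∃ N ≤ M, M < N + Q a (K + 1) ∧
      ∀ n < Q a K, N + n < Q a (K + i) ∧ S (N + n) = S N + S n) ∧
    (∀ M < Q a (K + i + 1), ∃ N ≤ M, M < N + Q a (K + 1) ∧
      ∀ n < Q a K, N + n < Q a (K + i + 1) ∧ S (N + n) = S N + S n) := by
  have h0 := S_zero a ha S hS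
  have hm := Q_mono a ha K
  intro i
  induction i with
  | zero =>
    refine ⟨fun M hM => ⟨0, Nat.zero_le _, ?_, fun n hn => ⟨?_, ?_⟩⟩,
      fun M hM => ⟨0, Nat.zero_le _, ?_, fun n hn => ⟨?_, ?_⟩⟩⟩
    · simp only [Nat.add_zero] at hM
      omega
    · simpa using hn
    · rw [h0, zero_add, zero_add]
    · simp only [Nat.add_zero] at hM
      omega
    · rw [zero_add, Nat.add_zero]
      omega
    · rw [h0, zero_add, zero_add]
  | succ i ih =>
    refine ⟨ih.2, fun M hM => ?_⟩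
    obtain ⟨j, hj⟩ : ∃ j, j = K + i := ⟨_, rfl⟩
    have ej : K + (i + 1) + 1 = j + 2 := by omega
    rw [ej] at hM ⊢
    rw [← hj] at ih
    have hst := Q_step a j
    have hst' : Q a (j + 1 + 1) = a (j + 1) * Q a (j + 1) + Q a j := Q_step a j
    have hmj := Q_mono a ha j
    by_cases hc : M < a (j + 1) * Q a (j + 1)
    · have hq := Q_pos a ha (j + 1)
      have hd : M / Q a (j + 1) < a (j + 1) := Nat.div_lt_of_lt_mul (by rwa [mul_comm])
      obtain ⟨N, hN1, hN2, hN3⟩ := ih.2 (M % Q a (j + 1)) (Nat.mod_lt _ hq)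
      have hMe := Nat.div_add_mod M (Q a (j + 1))
      rw [mul_comm] at hMe
      have hd1 : (M / Q a (j + 1) + 1) * Q a (j + 1) ≤ a (j + 1) * Q a (j + 1) :=
        Nat.mul_le_mul_right _ hd
      rw [add_mul, one_mul] at hd1
      have hmod := Nat.mod_lt M hq
      refine ⟨M / Q a (j + 1) * Q a (j + 1) + N, by omega, by omega, fun n hn => ?_⟩
      obtain ⟨hn1, hn2⟩ := hN3 n hn
      refine ⟨by omega, ?_⟩
      rw [add_assoc, hS (j + 1) (N + n) _ hn1 (by omega), hn2,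
        hS (j + 1) N _ (by omega) (by omega)]
      abel
    · push Not at hc
      obtain ⟨N, hN1, hN2, hN3⟩ := ih.1 (M - a (j + 1) * Q a (j + 1)) (by omega)
      have hp := Q_pos a ha K
      have hN0 := (hN3 0 (by omega)).1
      refine ⟨a (j + 1) * Q a (j + 1) + N, by omega, by omega, fun n hn => ?_⟩
      obtain ⟨hn1, hn2⟩ := hN3 n hn
      refine ⟨by omega, ?_⟩
      rw [add_assoc, hS (j + 1) (N + n) _ (by omega) (by omega), hn2,
        hS (j + 1) N _ (by omega) (by omega)]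
      abel

lemma e_mul_nat (x : ℝ) (d : ℕ) : e ((d : ℝ) * x) = e x ^ d := by
  induction d with
  | zero => simp [e_zero]
  | succ d ih =>
    rw [pow_succ, ← ih, ← e_add]
    congr 1
    push_cast
    ring

lemma pow_sub_one_le (u : ℂ) (hu : ‖u‖ = 1) (d : ℕ) : ‖u ^ d - 1‖ ≤ d * ‖u - 1‖ := by
  induction d with
  | zero => simp
  | succ d ih =>
    have e1 : u ^ (d + 1) - 1 = u * (u ^ d - 1) + (u - 1) := by ring
    rw [e1]
    refine (norm_add_le _ _).trans ?_
    rw [norm_mul, hu, one_mul]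
    push_cast
    linarith

lemma mul_sub_one_le (u v : ℂ) (hu : ‖u‖ = 1) : ‖u * v - 1‖ ≤ ‖u - 1‖ + ‖v - 1‖ := by
  have e1 : u * v - 1 = u * (v - 1) + (u - 1) := by ring
  rw [e1]
  refine (norm_add_le _ _).trans ?_
  rw [norm_mul, hu, one_mul, add_comm]

variable [Fintype G]

lemma chi_gap : ∃ c : ℝ, 0 < c ∧ ∀ (χ : AddChar G ℂ) (g : G), ‖χ g - 1‖ < c → χ g = 1 := by
  classical
  have hne : (univ : Finset (AddChar G ℂ × G)).Nonempty := ⟨(0, 0), mem_univ _⟩
  obtain ⟨m, _, hm⟩ := exists_min_image univ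
    (fun t : AddChar G ℂ × G => if t.1 t.2 = 1 then (1 : ℝ) else ‖t.1 t.2 - 1‖) hne
  refine ⟨if m.1 m.2 = 1 then (1 : ℝ) else ‖m.1 m.2 - 1‖, ?_, ?_⟩
  · split_ifs with h
    · norm_num
    · rw [norm_pos_iff]
      exact sub_ne_zero.2 h
  · intro χ g h
    by_contra hcon
    have h1 := hm (χ, g) (mem_univ _)
    simp only [hcon, if_false] at h1
    linarith

lemma bound (a : ℕ → ℕ) (ha : ∀ k, 1 ≤ a k) (A : ℕ) (hA : ∀ k, a k ≤ A) (S : ℕ → G) (hS : Add a S)
    (w : ℕ) (hw : ∀ k, AddSubgroup.closure (gens a S k w) = ⊤) :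
    ∃ (r : ℕ) (ρ : ℝ), 1 ≤ r ∧ 1 / 2 ≤ ρ ∧ ρ < 1 ∧ ∀ χ : AddChar G ℂ, χ ≠ 0 → ∀ (x : ℝ) (n : ℕ),
      ‖∑ m ∈ range (Q a (r * n)), χ (S m) * e (m * x)‖ ≤ Q a (r * n) * ρ ^ n := by
  classical
  obtain ⟨c, hc, hgap⟩ := chi_gap (G := G)
  have hA1 : (1 : ℝ) ≤ (A : ℝ) + 1 := by
    have : (0 : ℝ) ≤ A := Nat.cast_nonneg _
    linarith
  have hAA : (1 : ℝ) ≤ A := by exact_mod_cast (ha 0).trans (hA 0)
  obtain ⟨ν, hνd⟩ : ∃ ν : ℝ, ν = min 1 (c / (20 * ((A : ℝ) + 1))) := ⟨_, rfl⟩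
  have hν0 : 0 < ν := by
    rw [hνd]
    exact lt_min one_pos (by positivity)
  have hν1 : ν ≤ 1 := by
    rw [hνd]
    exact min_le_left _ _
  have hνc : 20 * ((A : ℝ) + 1) * ν ≤ c := by
    have h1 : ν ≤ c / (20 * ((A : ℝ) + 1)) := by
      rw [hνd]
      exact min_le_right _ _
    rw [le_div_iff₀ (by positivity)] at h1
    linarith
  obtain ⟨ε, hε⟩ : ∃ ε : ℝ, ε = ν ^ 2 / (2 * ((A : ℝ) + 1) ^ 2) := ⟨_, rfl⟩
  have hε0 : 0 < ε := by rw [hε]; positivity
  have hε2 : ε ≤ 1 / 2 := by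
    rw [hε, div_le_div_iff₀ (by positivity) (by norm_num)]
    nlinarith
  refine ⟨w + 4, 1 - ε / 2, by omega, by linarith, by linarith, ?_⟩
  intro χ hχ x n
  obtain ⟨F, hFd⟩ : ∃ F : ℕ → ℂ, F = fun m : ℕ => χ (S m) * e (m * x) := ⟨_, rfl⟩
  have hF1 : ∀ m, ‖F m‖ = 1 := by
    intro m
    rw [hFd]
    show ‖χ (S m) * e (m * x)‖ = 1
    rw [norm_mul, χ.norm_apply, norm_e, one_mul]
  have hF : Mul a F := by
    intro k m d hm hmd
    rw [hFd]
    show χ (S (d * Q a k + m)) * e (((d * Q a k + m : ℕ) : ℝ) * x) =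
      χ (S (d * Q a k)) * e (((d * Q a k : ℕ) : ℝ) * x) * (χ (S m) * e (m * x))
    rw [hS k m d hm hmd, AddChar.map_add_eq_mul]
    have h1 : e (((d * Q a k + m : ℕ) : ℝ) * x) = e (((d * Q a k : ℕ) : ℝ) * x) * e (m * x) := by
      rw [← e_add]
      congr 1
      push_cast
      ring
    rw [h1]
    ring
  have hyp : ∀ k, ∃ j d, k + 2 ≤ j ∧ j + 1 ≤ k + (w + 4) ∧ d ≤ a j ∧ 6 * ν < ‖F (d * Q a j) - 1‖ := by
    intro k
    by_contra hcon
    push Not at hcon
    apply hχ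
    have hgen : ∀ g ∈ gens a S (k + 2) w, χ g = 1 := by
      rintro g (⟨j, d, hj1, hj2, hd2, hda, hg⟩ | ⟨j, hj1, hj2, hg⟩)
      · apply hgap
        have h1 := hcon j d (by omega) (by omega) hda
        have h2 := hcon j 1 (by omega) (by omega) (ha j)
        rw [one_mul] at h2
        have h3 : F (d * Q a j) - F (Q a j) ^ d = F (Q a j) ^ d * (χ g - 1) := by
          have h4 : F (Q a j) ^ d = χ (d • S (Q a j)) * e (((d * Q a j : ℕ) : ℝ) * x) := by
            rw [hFd]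
            show (χ (S (Q a j)) * e ((Q a j : ℝ) * x)) ^ d = _
            rw [mul_pow, AddChar.map_nsmul_eq_pow, ← e_mul_nat]
            congr 2
            push_cast
            ring
          have h5 : F (d * Q a j) = χ g * F (Q a j) ^ d := by
            rw [h4, hFd]
            show χ (S (d * Q a j)) * e (((d * Q a j : ℕ) : ℝ) * x) = _
            have h6 : S (d * Q a j) = g + d • S (Q a j) := by
              rw [hg]
              abel
            rw [h6, AddChar.map_add_eq_mul]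
            ring
          rw [h5]
          ring
        have h4 : ‖χ g - 1‖ = ‖F (d * Q a j) - F (Q a j) ^ d‖ := by
          rw [h3, norm_mul, norm_pow, hF1, one_pow, one_mul]
        rw [h4]
        have h5 := pow_sub_one_le (F (Q a j)) (hF1 _) d
        have h6 : ‖F (d * Q a j) - F (Q a j) ^ d‖ ≤ ‖F (d * Q a j) - 1‖ + ‖F (Q a j) ^ d - 1‖ := by
          have e1 : F (d * Q a j) - F (Q a j) ^ d = (F (d * Q a j) - 1) - (F (Q a j) ^ d - 1) := by ring
          rw [e1]
          exact norm_sub_le _ _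
        have h7 : (d : ℝ) ≤ A := by exact_mod_cast hda.trans (hA j)
        have h8 : (d : ℝ) * ‖F (Q a j) - 1‖ ≤ A * (6 * ν) :=
          mul_le_mul h7 h2 (norm_nonneg _) (by linarith)
        nlinarith
      · apply hgap
        have h1 := hcon (j + 2) 1 (by omega) (by omega) (ha _)
        have h2 := hcon (j + 1) (a (j + 1)) (by omega) (by omega) le_rfl
        have h3 := hcon j 1 (by omega) (by omega) (ha _)
        rw [one_mul] at h1 h3
        have h4 : F (Q a (j + 2)) = χ g * (F (a (j + 1) * Q a (j + 1)) * F (Q a j)) := by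
          rw [hFd]
          show χ (S (Q a (j + 2))) * e ((Q a (j + 2) : ℝ) * x) =
            χ g * (χ (S (a (j + 1) * Q a (j + 1))) * e (((a (j + 1) * Q a (j + 1) : ℕ) : ℝ) * x) *
              (χ (S (Q a j)) * e ((Q a j : ℝ) * x)))
          have h5 : S (Q a (j + 2)) = g + S (a (j + 1) * Q a (j + 1)) + S (Q a j) := by
            rw [hg]
            abel
          have h6 : e ((Q a (j + 2) : ℝ) * x) =
              e (((a (j + 1) * Q a (j + 1) : ℕ) : ℝ) * x) * e ((Q a j : ℝ) * x) := by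
            rw [← e_add, Q_step]
            congr 1
            push_cast
            ring
          rw [h5, h6, AddChar.map_add_eq_mul, AddChar.map_add_eq_mul]
          ring
        have h5 : ‖χ g - 1‖ = ‖F (Q a (j + 2)) - F (a (j + 1) * Q a (j + 1)) * F (Q a j)‖ := by
          rw [h4]
          have e1 : χ g * (F (a (j + 1) * Q a (j + 1)) * F (Q a j)) -
              F (a (j + 1) * Q a (j + 1)) * F (Q a j) =
              (χ g - 1) * (F (a (j + 1) * Q a (j + 1)) * F (Q a j)) := by ring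
          rw [e1, norm_mul, norm_mul, hF1, hF1, one_mul, mul_one]
        rw [h5]
        have h6 : ‖F (Q a (j + 2)) - F (a (j + 1) * Q a (j + 1)) * F (Q a j)‖ ≤
            ‖F (Q a (j + 2)) - 1‖ + ‖F (a (j + 1) * Q a (j + 1)) * F (Q a j) - 1‖ := by
          have e1 : F (Q a (j + 2)) - F (a (j + 1) * Q a (j + 1)) * F (Q a j) =
            (F (Q a (j + 2)) - 1) - (F (a (j + 1) * Q a (j + 1)) * F (Q a j) - 1) := by ring
          rw [e1]
          exact norm_sub_le _ _
        have h7 := mul_sub_one_le (F (a (j + 1) * Q a (j + 1))) (F (Q a j)) (hF1 _)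
        nlinarith
    have hall : ∀ g : G, χ g = 1 := by
      intro g
      have hg : g ∈ AddSubgroup.closure (gens a S (k + 2) w) := by
        rw [hw]
        exact AddSubgroup.mem_top g
      induction hg using AddSubgroup.closure_induction with
      | mem x hx => exact hgen x hx
      | zero => exact AddChar.map_zero_eq_one χ
      | add x y _ _ hx hy => rw [AddChar.map_add_eq_mul, hx, hy, one_mul]
      | neg x _ hx =>
        have h1 : χ (x + -x) = 1 := by rw [add_neg_cancel, AddChar.map_zero_eq_one]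
        rw [AddChar.map_add_eq_mul, hx, one_mul] at h1
        exact h1
    ext g
    rw [hall g]
    rfl
  have h := (decay a F ha A hA hF hF1 (w + 4) ν ε hν0 hν1 hε hyp n).1
  have q0 : (0 : ℝ) < Q a ((w + 4) * n) := by exact_mod_cast Q_pos a ha _
  unfold y E at h
  rw [norm_div, Complex.norm_natCast, div_le_iff₀ q0] at h
  rw [hFd] at h
  exact h.trans (le_of_eq (mul_comm _ _))

lemma filter_bound (a : ℕ → ℕ) (S : ℕ → G) [DecidableEq G] (B : ℕ) (R : ℝ) (hR0 : 0 ≤ R)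
    (hR : ∀ χ : AddChar G ℂ, χ ≠ 0 → ∀ x : ℝ, ‖∑ n ∈ range B, χ (S n) * e (n * x)‖ ≤ R) (g : G) (x : ℝ) :
    ‖(Fintype.card G : ℂ) * (∑ n ∈ (range B).filter (fun n => S n = g), e (x * n)) -
      ∑ n ∈ range B, e (n * x)‖ ≤ Fintype.card G * R := by
  have h0 : (0 : AddChar G ℂ) ∈ (univ : Finset (AddChar G ℂ)) := mem_univ _
  rw [char_count, ← add_sum_erase _ _ h0]
  have h1 : ((0 : AddChar G ℂ) (-g) * ∑ n ∈ range B, (0 : AddChar G ℂ) (S n) * e (n * x)) =
      ∑ n ∈ range B, e (n * x) := by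
    simp
  rw [h1, add_sub_cancel_left]
  refine (norm_sum_le _ _).trans ?_
  have h2 : ∀ χ ∈ (univ : Finset (AddChar G ℂ)).erase 0,
      ‖χ (-g) * ∑ n ∈ range B, χ (S n) * e (n * x)‖ ≤ R := by
    intro χ hχ
    rw [norm_mul, χ.norm_apply, one_mul]
    exact hR χ (ne_of_mem_erase hχ) x
  refine (sum_le_card_nsmul _ _ _ h2).trans ?_
  rw [nsmul_eq_mul]
  apply mul_le_mul_of_nonneg_right _ hR0
  have h3 : ((univ : Finset (AddChar G ℂ)).erase 0).card ≤ Fintype.card (AddChar G ℂ) :=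
    (card_le_card (erase_subset _ _)).trans (by rw [card_univ])
  rw [AddChar.card_eq] at h3
  exact_mod_cast h3

lemma Q_le_pow (a : ℕ → ℕ) (ha : ∀ k, 1 ≤ a k) (A : ℕ) (hA : ∀ k, a k ≤ A) (k i : ℕ) :
    Q a (k + i) ≤ (A + 1) ^ i * Q a k := by
  induction i with
  | zero => simp
  | succ i ih =>
    have h1 := Q_le a ha A hA (k + i)
    calc Q a (k + (i + 1)) ≤ (A + 1) * Q a (k + i) := h1
      _ ≤ (A + 1) * ((A + 1) ^ i * Q a k) := Nat.mul_le_mul_left _ ih
      _ = (A + 1) ^ (i + 1) * Q a k := by ring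

end Pool.Agent.U607.OS
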