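import Pool.Agent.Y882.MG.Quad2

set_option autoImplicit false

/-! Roots of quadratic polynomials modulo primes (after the library file `R498.MT.QGen`). -/

namespace Pool.Agent.U607.QD

open Finset Filter Polynomial
open Pool.Agent.W23.DC
open Pool.Agent.Y882
open Pool.Agent.Y882.PX
open Pool.Agent.Y882.KW
open Pool.Agent.Y882.SI

/-- the number of the roots modulo `p` -/
noncomputable def rt (F : ℤ → ℤ) (p : ℕ) : ℕ := ((range p).filter (fun n : ℕ => (p : ℤ) ∣ F n)).card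

theorem rt_ro (F : ℤ[X]) (p : ℕ) : rt (fun n => F.eval n) p = ro F 0 p := by
  rw [ro_eq]
  unfold rt
  simp

/-- the polynomial `A x ^ 2 + B x + C` -/
noncomputable def QG (A B C : ℤ) : ℤ[X] :=
  Polynomial.C A * X ^ 2 + Polynomial.C B * X + Polynomial.C C

theorem QG_eval (A B C n : ℤ) : (QG A B C).eval n = A * n ^ 2 + B * n + C := by
  simp [QG]

/-- the discriminant -/
theorem disc_id (A B C n : ℤ) :
    4 * A * (A * n ^ 2 + B * n + C) = (2 * A * n + B) ^ 2 + (-(B ^ 2 - 4 * A * C)) := by ring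

theorem QG_ne_zero (A B C : ℤ) (hΔ : ¬ IsSquare (B ^ 2 - 4 * A * C)) (n : ℤ) :
    A * n ^ 2 + B * n + C ≠ 0 := by
  intro h
  apply hΔ
  have := disc_id A B C n
  rw [h, mul_zero] at this
  exact ⟨2 * A * n + B, by linarith⟩

theorem rt_QG (A B C : ℤ) (p : ℕ) (hp : p.Prime) (hpA : ¬ (p : ℤ) ∣ 2 * A) :
    rt (fun n => (QG A B C).eval n) p = rt (fun n => (QF (-(B ^ 2 - 4 * A * C))).eval n) p := by
  classical
  have hpZ : Prime (p : ℤ) := Nat.prime_iff_prime_int.1 hp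
  have hp0 : (0 : ℤ) < p := by exact_mod_cast hp.pos
  have hcop : IsCoprime (p : ℤ) (2 * A) := (Prime.coprime_iff_not_dvd hpZ).2 hpA
  obtain ⟨u, v, huv⟩ := hcop
  have hv : (p : ℤ) ∣ v * (2 * A) - 1 := ⟨-u, by linarith⟩
  have hiff : ∀ n : ℤ, (p : ℤ) ∣ (QG A B C).eval n ↔
      (p : ℤ) ∣ (QF (-(B ^ 2 - 4 * A * C))).eval (2 * A * n + B) := by
    intro n
    rw [QG_eval, QF_eval, ← disc_id]
    constructor
    · intro h
      exact h.mul_left _
    · intro h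
      rcases hpZ.dvd_or_dvd h with h | h
      · exfalso
        have h2 : (p : ℤ) ∣ 2 * (2 * A) := by
          have e : (4 * A : ℤ) = 2 * (2 * A) := by ring
          rwa [e] at h
        rcases hpZ.dvd_or_dvd h2 with h3 | h3
        · exact hpA (h3.mul_right _)
        · exact hpA h3
      · exact h
  have hper : ∀ n m : ℤ, (p : ℤ) ∣ n - m → ((p : ℤ) ∣ (QF (-(B ^ 2 - 4 * A * C))).eval n ↔
      (p : ℤ) ∣ (QF (-(B ^ 2 - 4 * A * C))).eval m) := by
    intro n m h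
    rw [QF_eval, QF_eval]
    have h1 : (p : ℤ) ∣ (n ^ 2 + -(B ^ 2 - 4 * A * C)) - (m ^ 2 + -(B ^ 2 - 4 * A * C)) := by
      have e : (n ^ 2 + -(B ^ 2 - 4 * A * C)) - (m ^ 2 + -(B ^ 2 - 4 * A * C)) =
        (n - m) * (n + m) := by ring
      rw [e]
      exact h.mul_right _
    exact (dvd_iff_dvd_of_dvd_sub h1)
  have hperG : ∀ n m : ℤ, (p : ℤ) ∣ n - m → ((p : ℤ) ∣ (QG A B C).eval n ↔
      (p : ℤ) ∣ (QG A B C).eval m) := by
    intro n m h
    rw [QG_eval, QG_eval]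
    have h1 : (p : ℤ) ∣ (A * n ^ 2 + B * n + C) - (A * m ^ 2 + B * m + C) := by
      have e : (A * n ^ 2 + B * n + C) - (A * m ^ 2 + B * m + C) =
        (n - m) * (A * (n + m) + B) := by ring
      rw [e]
      exact h.mul_right _
    exact (dvd_iff_dvd_of_dvd_sub h1)
  have hmodd : ∀ x : ℤ, (p : ℤ) ∣ ((x % p).toNat : ℤ) - x := by
    intro x
    rw [Int.toNat_of_nonneg (Int.emod_nonneg _ hp0.ne')]
    exact (Int.dvd_self_sub_emod).neg_right.trans (by rw [neg_sub])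
  have hmodlt : ∀ x : ℤ, (x % p).toNat < p := by
    intro x
    have h1 := Int.emod_lt_of_pos x hp0
    have h2 := Int.emod_nonneg x hp0.ne'
    omega
  have huniq : ∀ (x : ℤ) (r : ℕ), r < p → (p : ℤ) ∣ x - r → (x % p).toNat = r := by
    intro x r hr h
    have h1 : x % p = r := by
      have h2 : (x : ℤ) ≡ r [ZMOD p] := (Int.modEq_iff_dvd.2 (by
        have := dvd_neg.2 h
        rwa [neg_sub] at this))
      rw [h2.eq]
      exact Int.emod_eq_of_lt (by positivity) (by exact_mod_cast hr)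
    rw [h1]
    simp
  unfold rt
  refine card_nbij' (fun r : ℕ => ((2 * A * r + B) % p).toNat)
    (fun s : ℕ => ((v * ((s : ℤ) - B)) % p).toNat) ?_ ?_ ?_ ?_
  · intro r hr
    simp only [coe_filter, Set.mem_setOf_eq, mem_range] at hr ⊢
    refine ⟨hmodlt _, ?_⟩
    rw [hper _ _ (hmodd _), ← hiff]
    exact hr.2
  · intro s hs
    simp only [coe_filter, Set.mem_setOf_eq, mem_range] at hs ⊢
    refine ⟨hmodlt _, ?_⟩
    rw [hperG _ _ (hmodd _), hiff, hper _ (s : ℤ)]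
    · exact hs.2
    · have e : 2 * A * (v * ((s : ℤ) - B)) + B - s = (v * (2 * A) - 1) * (s - B) := by ring
      rw [e]
      exact hv.mul_right _
  · intro r hr
    simp only [coe_filter, Set.mem_setOf_eq, mem_range] at hr
    apply huniq _ _ hr.1
    have h1 := hmodd (2 * A * r + B)
    have e : v * ((((2 * A * r + B) % p).toNat : ℤ) - B) - r =
      v * ((((2 * A * r + B) % p).toNat : ℤ) - (2 * A * r + B)) + (v * (2 * A) - 1) * r := by ring
    rw [e]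
    exact dvd_add (h1.mul_left _) (hv.mul_right _)
  · intro s hs
    simp only [coe_filter, Set.mem_setOf_eq, mem_range] at hs
    apply huniq _ _ hs.1
    have h1 := hmodd (v * ((s : ℤ) - B))
    have e : 2 * A * (((v * ((s : ℤ) - B)) % p).toNat : ℤ) + B - s =
      2 * A * ((((v * ((s : ℤ) - B)) % p).toNat : ℤ) - v * (s - B)) +
        (v * (2 * A) - 1) * (s - B) := by ring
    rw [e]
    exact dvd_add (h1.mul_left _) (hv.mul_right _)

theorem mer_QG (A B C : ℤ) (hA : A ≠ 0) (hΔ : ¬ IsSquare (B ^ 2 - 4 * A * C)) (ε₁ υ η : ℝ)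
    (hε : 0 < ε₁) (hυ : υ ≤ 1) (hη : 0 < η) : ∃ Y0 : ℕ, ∀ Y : ℕ, Y0 ≤ Y →
      Mer (pr Y ε₁ υ) (tt Y) (fun p => (rt (fun n => (QG A B C).eval n) p : ℝ) / p) ε₁ υ η := by
  classical
  obtain ⟨Y0, hY0⟩ := mer_quad (-(B ^ 2 - 4 * A * C)) (by rwa [neg_neg]) ε₁ υ η hε hυ hη
  have ev : ∀ᶠ Y : ℕ in atTop, ((2 * A).natAbs : ℝ) + 1 ≤ (Y : ℝ) ^ ε₁ :=
    ((tendsto_rpow_atTop hε).comp tendsto_natCast_atTop_atTop).eventually_ge_atTop _
  obtain ⟨Y1, hY1⟩ := eventually_atTop.1 (ev.and (eventually_ge_atTop 3))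
  refine ⟨max Y0 Y1, fun Y hY => ?_⟩
  have h := hY0 Y ((le_max_left _ _).trans hY)
  obtain ⟨h1, h3⟩ := hY1 Y ((le_max_right _ _).trans hY)
  intro a b ha hab hb
  have h2 := h a b ha hab hb
  have e : ∑ p ∈ (pr Y ε₁ υ).filter (fun p => a ≤ tt Y p ∧ tt Y p < b),
      (rt (fun n => (QG A B C).eval n) p : ℝ) / p =
      ∑ p ∈ (pr Y ε₁ υ).filter (fun p => a ≤ tt Y p ∧ tt Y p < b),
      (ro (QF (-(B ^ 2 - 4 * A * C))) 0 p : ℝ) / p := by
    apply sum_congr rfl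
    intro p hp
    rw [mem_filter] at hp
    have hp2 := hp.1
    unfold pr at hp2
    rw [mem_filter] at hp2
    obtain ⟨_, hpp, hp3, _⟩ := hp2
    have hpY : (Y : ℝ) ^ ε₁ ≤ p := by
      have hY0 : (0 : ℝ) < Y := by
        have : (3 : ℝ) ≤ Y := by exact_mod_cast h3
        linarith
      have hl : 0 < Real.log Y := Real.log_pos (by
        have : (3 : ℝ) ≤ Y := by exact_mod_cast h3
        linarith)
      unfold tt at hp3
      rw [le_div_iff₀ hl] at hp3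
      rw [Real.rpow_def_of_pos hY0, ← Real.le_log_iff_exp_le (by exact_mod_cast hpp.pos)]
      linarith
    rw [rt_QG A B C p hpp, rt_ro]
    intro hd
    have h4 : p ∣ (2 * A).natAbs := Int.natCast_dvd.1 hd
    have h5 := Nat.le_of_dvd (Int.natAbs_pos.2 (mul_ne_zero (by norm_num) hA)) h4
    have h6 : (p : ℝ) ≤ ((2 * A).natAbs : ℝ) := by exact_mod_cast h5
    linarith
  rw [e]
  exact h2

theorem sq_QG (A B C : ℤ) (hA : A ≠ 0) (hΔ : ¬ IsSquare (B ^ 2 - 4 * A * C)) (q : ℕ) (hq : q.Prime)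
    (hqa : A.natAbs + (B ^ 2 - 4 * A * C).natAbs < q) (h2 : 2 < q) (N H : ℕ) :
    ((((Icc 1 H).filter
      (fun j : ℕ => ((q ^ 2 : ℕ) : ℤ) ∣ (QG A B C).eval ((N + j : ℕ) : ℤ))).card : ℕ) : ℝ) ≤
      (2 : ℕ) * (H * (1 / (q : ℝ) ^ 2) + 1) := by
  classical
  rcases ((Icc 1 H).filter (fun j : ℕ =>
    ((q ^ 2 : ℕ) : ℤ) ∣ (QG A B C).eval ((N + j : ℕ) : ℤ))).eq_empty_or_nonempty with h | ⟨j0, hj0⟩
  · rw [h]
    simp only [card_empty, Nat.cast_zero]
    positivity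
  rw [mem_filter, QG_eval] at hj0
  have hqZ : Prime (q : ℤ) := Nat.prime_iff_prime_int.1 hq
  have hqA : ¬ (q : ℤ) ∣ A := by
    intro hd
    have h4 : q ∣ A.natAbs := Int.natCast_dvd.1 hd
    have h5 := Nat.le_of_dvd (Int.natAbs_pos.2 hA) h4
    omega
  have hcop : IsCoprime ((q ^ 2 : ℕ) : ℤ) A := by
    push_cast
    exact IsCoprime.pow_left ((Prime.coprime_iff_not_dvd hqZ).2 hqA)
  obtain ⟨u, v, huv⟩ := hcop
  have hΔ0 : B ^ 2 - 4 * A * C ≠ 0 := by
    intro h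
    apply hΔ
    rw [h]
    exact ⟨0, by simp⟩
  have hsub : (Icc 1 H).filter (fun j : ℕ => ((q ^ 2 : ℕ) : ℤ) ∣ (QG A B C).eval ((N + j : ℕ) : ℤ)) ⊆
      (Icc 1 H).filter (fun n : ℕ => ((q ^ 2 : ℕ) : ℤ) ∣ (n : ℤ) - (j0 : ℤ)) ∪
      (Icc 1 H).filter (fun n : ℕ => ((q ^ 2 : ℕ) : ℤ) ∣
        (n : ℤ) - (-(2 * (N : ℤ) + j0) - v * B)) := by
    intro j hj
    rw [mem_filter, QG_eval] at hj
    rw [mem_union, mem_filter, mem_filter]
    obtain ⟨n, hn⟩ : ∃ n : ℤ, n = ((N + j : ℕ) : ℤ) := ⟨_, rfl⟩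
    obtain ⟨n0, hn0⟩ : ∃ n0 : ℤ, n0 = ((N + j0 : ℕ) : ℤ) := ⟨_, rfl⟩
    rw [← hn] at hj
    rw [← hn0] at hj0
    have e1 : (j : ℤ) - (j0 : ℤ) = n - n0 := by
      rw [hn, hn0]
      push_cast
      ring
    have e2 : (j : ℤ) - (-(2 * (N : ℤ) + j0) - v * B) = n + n0 + v * B := by
      rw [hn, hn0]
      push_cast
      ring
    rw [e1, e2]
    have h3 : ((q ^ 2 : ℕ) : ℤ) ∣ (n - n0) * (A * (n + n0) + B) := by
      have := dvd_sub hj.2 hj0.2
      have e : A * n ^ 2 + B * n + C - (A * n0 ^ 2 + B * n0 + C) = (n - n0) * (A * (n + n0) + B) := by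
        ring
      rwa [e] at this
    by_cases h4 : (q : ℤ) ∣ n - n0
    · have h5 : ¬ (q : ℤ) ∣ A * (n + n0) + B := by
        intro h6
        have h7 : (q : ℤ) ∣ 2 * A * n + B := by
          have := dvd_add (h4.mul_left A) h6
          have e : A * (n - n0) + (A * (n + n0) + B) = 2 * A * n + B := by ring
          rwa [e] at this
        have h9 : (q : ℤ) ∣ A * n ^ 2 + B * n + C := by
          refine dvd_trans ?_ hj.2
          push_cast
          exact dvd_pow_self _ (by norm_num)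
        have h10 : (q : ℤ) ∣ B ^ 2 - 4 * A * C := by
          have h11 : (q : ℤ) ∣ (2 * A * n + B) ^ 2 := dvd_pow h7 (by norm_num)
          have h12 := dvd_sub h11 (h9.mul_left (4 * A))
          have e : (2 * A * n + B) ^ 2 - 4 * A * (A * n ^ 2 + B * n + C) = B ^ 2 - 4 * A * C := by
            ring
          rwa [e] at h12
        have h12 : q ∣ (B ^ 2 - 4 * A * C).natAbs := Int.natCast_dvd.1 h10
        have := Nat.le_of_dvd (Int.natAbs_pos.2 hΔ0) h12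
        omega
      left
      refine ⟨hj.1, ?_⟩
      have h6 : IsCoprime ((q ^ 2 : ℕ) : ℤ) (A * (n + n0) + B) := by
        push_cast
        apply IsCoprime.pow_left
        exact (Prime.coprime_iff_not_dvd hqZ).2 h5
      exact h6.dvd_of_dvd_mul_right h3
    · right
      refine ⟨hj.1, ?_⟩
      have h6 : IsCoprime ((q ^ 2 : ℕ) : ℤ) (n - n0) := by
        push_cast
        apply IsCoprime.pow_left
        exact (Prime.coprime_iff_not_dvd hqZ).2 h4
      have h7 := h6.dvd_of_dvd_mul_left h3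
      have e : n + n0 + v * B = v * (A * (n + n0) + B) + (n + n0) * (u * ((q ^ 2 : ℕ) : ℤ)) := by
        linear_combination (-(n + n0)) * huv
      rw [e]
      exact dvd_add (h7.mul_left _) (((dvd_refl _).mul_left _).mul_left _)
  have hm : 0 < q ^ 2 := pow_pos hq.pos 2
  have c1 := class_count (q ^ 2) hm H (j0 : ℤ)
  have c2 := class_count (q ^ 2) hm H (-(2 * (N : ℤ) + j0) - v * B)
  have h3 : ((((Icc 1 H).filter
      (fun j : ℕ => ((q ^ 2 : ℕ) : ℤ) ∣ (QG A B C).eval ((N + j : ℕ) : ℤ))).card : ℕ) : ℝ) ≤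
      (((Icc 1 H).filter (fun n : ℕ => ((q ^ 2 : ℕ) : ℤ) ∣ (n : ℤ) - (j0 : ℤ))).card : ℝ) +
      (((Icc 1 H).filter (fun n : ℕ => ((q ^ 2 : ℕ) : ℤ) ∣
        (n : ℤ) - (-(2 * (N : ℤ) + j0) - v * B))).card : ℝ) := by
    exact_mod_cast (card_le_card hsub).trans (card_union_le _ _)
  refine h3.trans ((add_le_add c1 c2).trans (le_of_eq ?_))
  push_cast
  ring

theorem ro_le (F : ℤ[X]) (p : ℕ) : rt (fun n => F.eval n) p ≤ p := by
  unfold rt
  exact (card_filter_le _ _).trans (by rw [card_range])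

/-- the product over the primes has the exact order -/
theorem lo_QG (A B C : ℤ) (hA : A ≠ 0) (hΔ : ¬ IsSquare (B ^ 2 - 4 * A * C))
    (hadm : ∀ p : ℕ, p.Prime → rt (fun n => (QG A B C).eval n) p < p) :
    ∃ c : ℝ, 0 < c ∧ ∀ Z : ℕ, 3 ≤ Z → ∀ S ⊆ (Icc 1 Z).filter Nat.Prime,
      c / Real.log Z ≤ ∏ p ∈ S, (1 - (rt (fun n => (QG A B C).eval n) p : ℝ) / p) := by
  classical
  obtain ⟨a, ha⟩ : ∃ a : ℤ, a = -(B ^ 2 - 4 * A * C) := ⟨_, rfl⟩
  obtain ⟨c0, hc0, H0⟩ := lo_quad a (by rw [ha, neg_neg]; exact hΔ)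
  obtain ⟨K, hK⟩ : ∃ K : ℕ, K = (2 * A).natAbs := ⟨_, rfl⟩
  obtain ⟨g, hg⟩ : ∃ g : ℕ → ℝ, g = fun p => 1 - (rt (fun n => (QG A B C).eval n) p : ℝ) / p := ⟨_, rfl⟩
  obtain ⟨g2, hg2⟩ : ∃ g2 : ℕ → ℝ, g2 = fun p => 1 - (ro (QF a) 0 p : ℝ) / p := ⟨_, rfl⟩
  have hg0 : ∀ p : ℕ, p.Prime → 0 < g p ∧ g p ≤ 1 := by
    intro p hp
    have hp0 : (0 : ℝ) < p := by exact_mod_cast hp.pos
    have h1 : (rt (fun n => (QG A B C).eval n) p : ℝ) < p := by exact_mod_cast hadm p hp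
    rw [hg]
    constructor
    · show 0 < 1 - (rt (fun n => (QG A B C).eval n) p : ℝ) / p
      rw [sub_pos, div_lt_one hp0]
      exact h1
    · show 1 - (rt (fun n => (QG A B C).eval n) p : ℝ) / p ≤ 1
      have : 0 ≤ (rt (fun n => (QG A B C).eval n) p : ℝ) / p := by positivity
      linarith
  have hg20 : ∀ p : ℕ, p.Prime → 0 ≤ g2 p ∧ g2 p ≤ 1 := by
    intro p hp
    have hp0 : (0 : ℝ) < p := by exact_mod_cast hp.pos
    have h1 : (ro (QF a) 0 p : ℝ) ≤ p := by exact_mod_cast ro_le_self _ _ _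
    rw [hg2]
    constructor
    · show 0 ≤ 1 - (ro (QF a) 0 p : ℝ) / p
      rw [sub_nonneg, div_le_one hp0]
      exact h1
    · show 1 - (ro (QF a) 0 p : ℝ) / p ≤ 1
      have : 0 ≤ (ro (QF a) 0 p : ℝ) / p := by positivity
      linarith
  have hsubp : ∀ (S T : Finset ℕ), S ⊆ T → (∀ p ∈ T, Nat.Prime p) → ∏ p ∈ T, g p ≤ ∏ p ∈ S, g p := by
    intro S T hST hT
    rw [← prod_sdiff hST]
    have h1 : ∏ p ∈ T \ S, g p ≤ 1 := by
      apply prod_le_one
      · intro p hp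
        exact (hg0 p (hT p (mem_sdiff.1 hp).1)).1.le
      · intro p hp
        exact (hg0 p (hT p (mem_sdiff.1 hp).1)).2
    have h2 : 0 ≤ ∏ p ∈ S, g p := prod_nonneg fun p hp => (hg0 p (hT p (hST hp))).1.le
    nlinarith
  obtain ⟨c1, hc1⟩ : ∃ c1 : ℝ, c1 = ∏ p ∈ (Icc 1 K).filter Nat.Prime, g p := ⟨_, rfl⟩
  have hc10 : 0 < c1 := by
    rw [hc1]
    apply prod_pos
    intro p hp
    exact (hg0 p (mem_filter.1 hp).2).1
  refine ⟨c1 * c0, by positivity, ?_⟩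
  intro Z hZ S hS
  have hT : ∀ p ∈ (Icc 1 Z).filter Nat.Prime, Nat.Prime p := fun p hp => (mem_filter.1 hp).2
  have h1 := hsubp S _ hS hT
  have hlZ : 0 < Real.log Z := by
    apply Real.log_pos
    have : (3 : ℝ) ≤ Z := by exact_mod_cast hZ
    linarith
  have h2 : (∏ p ∈ (Icc 1 Z).filter Nat.Prime, if p ≤ K then g p else 1) *
      ∏ p ∈ (Icc 1 Z).filter Nat.Prime, g2 p ≤ ∏ p ∈ (Icc 1 Z).filter Nat.Prime, g p := by
    rw [← prod_mul_distrib]
    apply Finset.prod_le_prod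
    · intro p hp
      have a1 := (hg20 p (hT p hp)).1
      have a2 := (hg0 p (hT p hp)).1
      split_ifs
      · positivity
      · linarith
    · intro p hp
      have a1 := hg20 p (hT p hp)
      have a2 := hg0 p (hT p hp)
      split_ifs with h
      · nlinarith [a1.1, a1.2, a2.1, a2.2]
      · rw [one_mul]
        apply le_of_eq
        rw [hg, hg2, ha]
        show 1 - (ro (QF (-(B ^ 2 - 4 * A * C))) 0 p : ℝ) / p = 1 - (rt (fun n => (QG A B C).eval n) p : ℝ) / p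
        rw [rt_QG A B C p (hT p hp), rt_ro]
        intro hd
        apply h
        rw [hK]
        exact Nat.le_of_dvd (Int.natAbs_pos.2 (mul_ne_zero (by norm_num) hA)) (Int.natCast_dvd.1 hd)
  have h3 : c1 ≤ ∏ p ∈ (Icc 1 Z).filter Nat.Prime, if p ≤ K then g p else 1 := by
    rw [← prod_filter, hc1]
    apply hsubp
    · intro p hp
      rw [mem_filter, mem_filter, mem_Icc] at hp
      rw [mem_filter, mem_Icc]
      exact ⟨⟨hp.1.1.1, hp.2⟩, hp.1.2⟩
    · intro p hp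
      exact (mem_filter.1 hp).2
  have h4 := H0 Z hZ
  unfold lo at h4
  have h5 : ∏ p ∈ (Icc 1 Z).filter Nat.Prime, (1 - (ro (QF a) 0 p : ℝ) / p) =
      ∏ p ∈ (Icc 1 Z).filter Nat.Prime, g2 p := by rw [hg2]
  rw [h5] at h4
  have h6 : 0 ≤ c0 / Real.log Z := by positivity
  calc c1 * c0 / Real.log Z = c1 * (c0 / Real.log Z) := by ring
    _ ≤ (∏ p ∈ (Icc 1 Z).filter Nat.Prime, if p ≤ K then g p else 1) *
      ∏ p ∈ (Icc 1 Z).filter Nat.Prime, g2 p := mul_le_mul h3 h4 h6 (hc10.le.trans h3)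
    _ ≤ _ := h2
    _ ≤ ∏ p ∈ S, g p := h1
    _ = _ := by rw [hg]

/-- `F` is a polynomial function -/
def Per (F : ℤ → ℤ) : Prop := ∀ m n : ℤ, (m - n) ∣ F m - F n

theorem per_dvd {F : ℤ → ℤ} (hF : Per F) {q m n : ℤ} (h : q ∣ m - n) : q ∣ F m ↔ q ∣ F n :=
  dvd_iff_dvd_of_dvd_sub (h.trans (hF m n))

theorem per_eval (F : ℤ[X]) : Per (fun n => F.eval n) := fun m n => Polynomial.sub_dvd_eval_sub m n F

/-- the classes of the roots, shifted -/
def RM (F : ℤ → ℤ) (M q : ℕ) : Finset ℕ :=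
  (range q).filter (fun s : ℕ => (q : ℤ) ∣ F ((M + s : ℕ) : ℤ))

theorem mem_RM {F : ℤ → ℤ} (hF : Per F) (M : ℕ) {q : ℕ} (hq : 0 < q) (n : ℕ) :
    n % q ∈ RM F M q ↔ (q : ℤ) ∣ F ((M + n : ℕ) : ℤ) := by
  unfold RM
  rw [mem_filter, mem_range]
  have h : (q : ℤ) ∣ ((M + n % q : ℕ) : ℤ) - ((M + n : ℕ) : ℤ) := by
    have h := Nat.mod_add_div n q
    refine ⟨-((n / q : ℕ) : ℤ), ?_⟩
    have h' : ((n % q : ℕ) : ℤ) + q * ((n / q : ℕ) : ℤ) = n := by exact_mod_cast h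
    rw [Nat.cast_add, Nat.cast_add]
    linarith
  rw [per_dvd hF h]
  exact ⟨fun h => h.2, fun h => ⟨Nat.mod_lt _ hq, h⟩⟩

theorem card_RM {F : ℤ → ℤ} (hF : Per F) (M : ℕ) (q : ℕ) : (RM F M q).card = rt F q := by
  have h1 : (RM F M q).card = ((Ico M (M + q)).filter (fun n : ℕ => (q : ℤ) ∣ F n)).card := by
    apply card_nbij' (fun s => M + s) (fun n => n - M)
    · intro s hs
      unfold RM at hs
      simp only [coe_filter, Set.mem_setOf_eq, mem_range, mem_Ico] at hs ⊢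
      exact ⟨⟨by omega, by omega⟩, hs.2⟩
    · intro n hn
      unfold RM
      simp only [coe_filter, Set.mem_setOf_eq, mem_range, mem_Ico] at hn ⊢
      refine ⟨by omega, ?_⟩
      rw [Nat.add_sub_cancel' hn.1.1]
      exact hn.2
    · intro s _
      show M + s - M = s
      omega
    · intro n hn
      simp only [coe_filter, Set.mem_setOf_eq, mem_Ico] at hn
      show M + (n - M) = n
      omega
  rw [h1, Nat.filter_Ico_card_eq_of_periodic M q (fun n : ℕ => (q : ℤ) ∣ F n)]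
  · unfold rt
    rw [Nat.count_eq_card_filter_range]
  · intro n
    show ((q : ℤ) ∣ F ((n + q : ℕ) : ℤ)) = ((q : ℤ) ∣ F (n : ℤ))
    apply propext
    apply per_dvd hF
    refine ⟨1, ?_⟩
    push_cast
    ring

end Pool.Agent.U607.QD
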