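import Pool.Agent.U607.LocalWin

/-! Few windows contain many integers with a condition modulo the square of a medium prime. -/

set_option autoImplicit false

namespace Pool.Agent.U607.QD

open Finset Filter
open Pool.Agent.W23.DC
open Pool.Agent.Y882
open Pool.Agent.Y882.PX
open Pool.Agent.Y882.KW
open Pool.Agent.K3h31
open Pool.Agent.K3h31.WL

open Classical in
/-- the number of the `j ≤ H` with `S q (x + j)` -/
noncomputable def mu (S : ℕ → ℕ → Prop) (q H x : ℕ) : ℕ := ((Icc 1 H).filter (fun j => S q (x + j))).card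

open Classical in
/-- the `j ≤ H` with `S q (x + j)` for some medium prime `q` -/
noncomputable def sqg (S : ℕ → ℕ → Prop) (X : ℕ) (ζ υ : ℝ) (H x : ℕ) : Finset ℕ :=
  (Icc 1 H).filter (fun j => ∃ q ∈ pr X ζ υ, S q (x + j))

theorem mu_shift (κ : ℕ) (S : ℕ → ℕ → Prop) (q : ℕ)
    (hS : ∀ N H : ℕ, (mu S q H N : ℝ) ≤ κ * (H * (1 / (q : ℝ) ^ 2) + 1)) (H M Y : ℕ) :
    ∑ x ∈ Icc 1 Y, (mu S q H (M + x) : ℝ) ≤ H * (κ * (Y * (1 / (q : ℝ) ^ 2) + 1)) := by
  classical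
  have h1 : ∑ x ∈ Icc 1 Y, (mu S q H (M + x) : ℝ) = ∑ j ∈ Icc 1 H, (mu S q Y (M + j) : ℝ) := by
    unfold mu
    simp only [card_filter]
    push_cast
    rw [sum_comm]
    refine sum_congr rfl fun j _ => sum_congr rfl fun x _ => ?_
    rw [show M + x + j = M + j + x by ring]
  rw [h1]
  refine (sum_le_sum fun j _ => hS (M + j) Y).trans (le_of_eq ?_)
  rw [sum_const, Nat.card_Icc, nsmul_eq_mul, Nat.add_sub_cancel]

/-- few windows with many numbers divisible by the square of a medium prime -/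
theorem sq_gen (κ : ℕ) (hκ : 1 ≤ κ) (S : ℕ → ℕ → Prop) (K : ℕ)
    (hS : ∀ q : ℕ, q.Prime → K ≤ q → ∀ N H : ℕ, (mu S q H N : ℝ) ≤ κ * (H * (1 / (q : ℝ) ^ 2) + 1))
    (ζ υ θ η : ℝ) (hζ : 0 < ζ) (hυ : υ ≤ θ) (hη : 0 < η) :
    ∃ C : ℝ, 0 < C ∧ ∃ X₀ : ℕ, ∀ X : ℕ, X₀ ≤ X → ∀ M Y : ℕ, (X : ℝ) ^ (2 * θ) ≤ Y →
    ∀ H : ℕ, 1 ≤ H → (H : ℝ) ≤ (X : ℝ) ^ θ →
    (((Icc 1 Y).filter (fun x => η * H / Real.log X < ((sqg S X ζ υ H (M + x)).card : ℝ))).card : ℝ) ≤
      C * (Y * Real.log X ^ 2 / H) := by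
  classical
  have hκr : (1 : ℝ) ≤ κ := by exact_mod_cast hκ
  obtain ⟨η', hη'⟩ : ∃ η' : ℝ, η' = η / κ := ⟨_, rfl⟩
  have hη'0 : 0 < η' := by rw [hη']; positivity
  have ev1 : ∀ᶠ X : ℕ in atTop, (16 / η') * Real.log X ^ 1 * (X : ℝ) ^ (0 : ℝ) ≤ (X : ℝ) ^ ζ :=
    LP.log_pow_le (16 / η') 1 0 ζ hζ
  have ev3 : ∀ᶠ X : ℕ in atTop, (2 : ℝ) + K ≤ (X : ℝ) ^ ζ :=
    ((tendsto_rpow_atTop hζ).comp tendsto_natCast_atTop_atTop).eventually_ge_atTop _
  obtain ⟨X1, hX1⟩ := eventually_atTop.1 (ev1.and ev3)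
  refine ⟨4 / η' * (16 / η' + 1), by positivity, max X1 4, ?_⟩
  intro X hX M Y hY H hH hHX
  obtain ⟨w1, w4⟩ := hX1 X ((le_max_left _ _).trans hX)
  have hX4 : 4 ≤ X := (le_max_right _ _).trans hX
  have hXr : (4 : ℝ) ≤ X := by exact_mod_cast hX4
  have hX0 : (0 : ℝ) < X := by linarith
  have hHr : (1 : ℝ) ≤ H := by exact_mod_cast hH
  have hH0 : (0 : ℝ) < H := by linarith
  have hK0 : (0 : ℝ) ≤ K := Nat.cast_nonneg _
  rw [Real.rpow_zero, mul_one, pow_one] at w1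
  have hL1 : 1 ≤ Real.log X := by
    have : Real.exp 1 ≤ X := by linarith [Real.exp_one_lt_d9]
    rw [Real.le_log_iff_exp_le hX0]
    exact this
  have hL0 : 0 < Real.log X := by linarith
  set L : ℝ := Real.log X with hL
  set Q : ℝ := η' * H / (8 * L) with hQ
  have hQ0 : 0 < Q := by positivity
  set P1 : Finset ℕ := (pr X ζ υ).filter (fun q => (q : ℝ) ≤ Q) with hP1
  set P2 : Finset ℕ := (pr X ζ υ).filter (fun q => ¬ (q : ℝ) ≤ Q) with hP2
  have hprp : ∀ q ∈ pr X ζ υ, q.Prime ∧ (X : ℝ) ^ ζ ≤ q ∧ (q : ℝ) < (X : ℝ) ^ υ := by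
    intro q hq
    have := LP.pr_facts (by omega) hq
    exact ⟨this.1, this.2.2.1, this.2.2.2⟩
  have hprK : ∀ q ∈ pr X ζ υ, K ≤ q := by
    intro q hq
    have h1 := (hprp q hq).2.1
    have h2 : (K : ℝ) ≤ q := by linarith
    exact_mod_cast h2
  -- the number of the bad `j` is at most the sum over `q`
  have hcount : ∀ x, ((sqg S X ζ υ H x).card : ℝ) ≤ ∑ q ∈ pr X ζ υ, (mu S q H x : ℝ) := by
    intro x
    have h1 : sqg S X ζ υ H x ⊆ (pr X ζ υ).biUnion (fun q => (Icc 1 H).filter (fun j => S q (x + j))) := by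
      intro j hj
      unfold sqg at hj
      rw [mem_filter] at hj
      obtain ⟨q, hq, hqj⟩ := hj.2
      rw [mem_biUnion]
      exact ⟨q, hq, mem_filter.2 ⟨hj.1, hqj⟩⟩
    have h2 := (card_le_card h1).trans card_biUnion_le
    have h3 : ((sqg S X ζ υ H x).card : ℝ) ≤
        ((∑ q ∈ pr X ζ υ, ((Icc 1 H).filter (fun j => S q (x + j))).card : ℕ) : ℝ) := by
      exact_mod_cast h2
    rw [Nat.cast_sum] at h3
    exact h3
  -- small `q`
  have hsmall : ∀ x, ∑ q ∈ P1, (mu S q H x : ℝ) ≤ κ * (η' * H / (2 * L) / 2 * 2 / 2 + Q) := by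
    intro x
    have h1 : ∑ q ∈ P1, (mu S q H x : ℝ) ≤ ∑ q ∈ P1, κ * ((H : ℝ) * (1 / (q : ℝ) ^ 2) + 1) := by
      apply sum_le_sum
      intro q hq
      rw [hP1, mem_filter] at hq
      exact hS q (hprp q hq.1).1 (hprK q hq.1) x H
    have h2 : ∑ q ∈ P1, (1 / (q : ℝ) ^ 2) ≤ 2 / (X : ℝ) ^ ζ :=
      (sum_le_sum_of_subset_of_nonneg (filter_subset _ _) fun _ _ _ => by positivity).trans
        (LP.pr_sq (by omega) ζ υ (by linarith))
    have h3 : (P1.card : ℝ) ≤ Q := by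
      have h4 : P1 ⊆ Icc 1 ⌊Q⌋₊ := by
        intro q hq
        rw [hP1, mem_filter] at hq
        rw [mem_Icc]
        exact ⟨(hprp q hq.1).1.one_le, Nat.le_floor hq.2⟩
      have h5 := card_le_card h4
      rw [Nat.card_Icc, Nat.add_sub_cancel] at h5
      have h6 : (P1.card : ℝ) ≤ (⌊Q⌋₊ : ℝ) := by exact_mod_cast h5
      exact h6.trans (Nat.floor_le hQ0.le)
    have h7 : (H : ℝ) * (2 / (X : ℝ) ^ ζ) ≤ η' * H / (2 * L) / 2 * 2 / 2 := by
      have h8 : 0 < (X : ℝ) ^ ζ := by positivity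
      rw [mul_div_assoc', div_le_iff₀ h8]
      have h9 : 16 / η' * L * (η' * H / (2 * L) / 2 * 2 / 2) = 4 * H := by
        field_simp
        norm_num
      have h10 : 0 ≤ η' * H / (2 * L) / 2 * 2 / 2 := by positivity
      have h11 := mul_le_mul_of_nonneg_right w1 h10
      nlinarith
    calc _ ≤ ∑ q ∈ P1, κ * ((H : ℝ) * (1 / (q : ℝ) ^ 2) + 1) := h1
      _ = κ * (H * ∑ q ∈ P1, (1 / (q : ℝ) ^ 2) + P1.card) := by
          rw [← mul_sum, sum_add_distrib, mul_sum]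
          simp
      _ ≤ κ * (H * (2 / (X : ℝ) ^ ζ) + Q) := by
          apply mul_le_mul_of_nonneg_left _ (by linarith)
          have := mul_le_mul_of_nonneg_left h2 hH0.le
          linarith
      _ ≤ _ := by
          apply mul_le_mul_of_nonneg_left _ (by linarith)
          linarith
  -- large `q` in the mean
  have hinv : ∑ q ∈ P2, 1 / (q : ℝ) ^ 2 ≤ 2 / Q := by
    rcases lt_or_ge Q 1 with h1 | h1
    · refine (sum_le_sum_of_subset_of_nonneg (filter_subset _ _) fun _ _ _ => by positivity).trans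
        ((LP.pr_sq (by omega) ζ υ (by linarith)).trans ?_)
      apply div_le_div_of_nonneg_left (by norm_num) hQ0
      linarith
    · have ha : 1 ≤ ⌊Q⌋₊ := Nat.le_floor (by exact_mod_cast h1)
      have h2 := inv_sq_tail P2 ⌊Q⌋₊ ha (fun q hq => by
        rw [hP2, mem_filter] at hq
        rw [Nat.floor_lt hQ0.le]
        exact not_le.1 hq.2)
      refine h2.trans ?_
      have h3 := Nat.lt_floor_add_one Q
      have h4 : (1 : ℝ) ≤ (⌊Q⌋₊ : ℝ) := by exact_mod_cast ha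
      rw [div_le_div_iff₀ (by linarith) hQ0]
      linarith
  have hY0 : (0 : ℝ) ≤ Y := Nat.cast_nonneg _
  have hP2c : (P2.card : ℝ) ≤ Y / H := by
    have h4 : P2 ⊆ Icc 1 ⌊(X : ℝ) ^ θ⌋₊ := by
      intro q hq
      rw [hP2, mem_filter] at hq
      rw [mem_Icc]
      refine ⟨(hprp q hq.1).1.one_le, Nat.le_floor ?_⟩
      exact (hprp q hq.1).2.2.le.trans (Real.rpow_le_rpow_of_exponent_le (by linarith) hυ)
    have h5 := card_le_card h4
    rw [Nat.card_Icc, Nat.add_sub_cancel] at h5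
    have h6 : (P2.card : ℝ) ≤ (⌊(X : ℝ) ^ θ⌋₊ : ℝ) := by exact_mod_cast h5
    refine (h6.trans (Nat.floor_le (by positivity))).trans ?_
    rw [le_div_iff₀ hH0]
    calc (X : ℝ) ^ θ * H ≤ (X : ℝ) ^ θ * (X : ℝ) ^ θ := mul_le_mul_of_nonneg_left hHX (by positivity)
      _ = (X : ℝ) ^ (2 * θ) := by
        rw [← Real.rpow_add hX0]
        congr 1
        ring
      _ ≤ Y := hY
  have hmean : ∑ x ∈ Icc 1 Y, ∑ q ∈ P2, (mu S q H (M + x) : ℝ) ≤
      κ * ((H : ℝ) * ((Y : ℝ) * (2 / Q) + (Y : ℝ) / H)) := by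
    rw [sum_comm]
    calc _ ≤ ∑ q ∈ P2, (H : ℝ) * (κ * ((Y : ℝ) * (1 / (q : ℝ) ^ 2) + 1)) := by
          apply sum_le_sum
          intro q hq
          rw [hP2, mem_filter] at hq
          exact mu_shift κ S q (hS q (hprp q hq.1).1 (hprK q hq.1)) H M Y
      _ = κ * ((H : ℝ) * ((Y : ℝ) * ∑ q ∈ P2, (1 / (q : ℝ) ^ 2) + (P2.card : ℝ))) := by
          rw [← mul_sum, ← mul_sum, sum_add_distrib, ← mul_sum]
          simp
          ring
      _ ≤ κ * ((H : ℝ) * ((Y : ℝ) * (2 / Q) + (Y : ℝ) / H)) := by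
          have := mul_le_mul_of_nonneg_left hinv hY0
          gcongr
  -- Markov
  set E := (Icc 1 Y).filter (fun x => η * H / L < ((sqg S X ζ υ H (M + x)).card : ℝ)) with hE
  have hηκ : η = κ * η' := by
    rw [hη']
    field_simp
  have hlow : ∀ x ∈ E, κ * (η' * H / (4 * L)) ≤ ∑ q ∈ P2, (mu S q H (M + x) : ℝ) := by
    intro x hx
    rw [hE, mem_filter] at hx
    have h1 := hcount (M + x)
    have h2 := hsmall (M + x)
    have h3 : ∑ q ∈ pr X ζ υ, (mu S q H (M + x) : ℝ) =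
        ∑ q ∈ P1, (mu S q H (M + x) : ℝ) + ∑ q ∈ P2, (mu S q H (M + x) : ℝ) := by
      rw [hP1, hP2]
      exact (sum_filter_add_sum_filter_not _ _ _).symm
    have e1 : η' * H / (2 * L) / 2 * 2 / 2 = η' * H / L / 4 := by
      field_simp
      norm_num
    have e2 : Q = η' * H / L / 8 := by
      rw [hQ]
      field_simp
    have e3 : η' * H / (4 * L) = η' * H / L / 4 := by
      field_simp
    have e4 : η * H / L = κ * (η' * H / L) := by
      rw [hηκ]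
      ring
    have h4 : 0 ≤ η' * H / L := by positivity
    rw [e1, e2] at h2
    rw [e3]
    have h5 := hx.2
    rw [e4] at h5
    have h6 : 0 ≤ κ * (η' * H / L) := by positivity
    nlinarith
  have h6 : (E.card : ℝ) * (κ * (η' * H / (4 * L))) ≤ κ * ((H : ℝ) * ((Y : ℝ) * (2 / Q) + (Y : ℝ) / H)) := by
    calc (E.card : ℝ) * (κ * (η' * H / (4 * L))) = ∑ _x ∈ E, κ * (η' * H / (4 * L)) := by
          rw [sum_const, nsmul_eq_mul]
      _ ≤ ∑ x ∈ E, ∑ q ∈ P2, (mu S q H (M + x) : ℝ) := sum_le_sum hlow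
      _ ≤ ∑ x ∈ Icc 1 Y, ∑ q ∈ P2, (mu S q H (M + x) : ℝ) :=
          sum_le_sum_of_subset_of_nonneg (filter_subset _ _) fun _ _ _ =>
            sum_nonneg fun _ _ => Nat.cast_nonneg _
      _ ≤ _ := hmean
  have h6' : (E.card : ℝ) * (η' * H / (4 * L)) ≤ (H : ℝ) * ((Y : ℝ) * (2 / Q) + (Y : ℝ) / H) := by
    have h7 : (κ : ℝ) * ((E.card : ℝ) * (η' * H / (4 * L))) ≤
        κ * ((H : ℝ) * ((Y : ℝ) * (2 / Q) + (Y : ℝ) / H)) := by
      calc (κ : ℝ) * ((E.card : ℝ) * (η' * H / (4 * L))) = (E.card : ℝ) * (κ * (η' * H / (4 * L))) := by ring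
        _ ≤ _ := h6
    exact le_of_mul_le_mul_left h7 (by linarith)
  have hpos : 0 < η' * H / (4 * L) := by positivity
  rw [← le_div_iff₀ hpos] at h6'
  refine h6'.trans ?_
  have e4 : (H : ℝ) * ((Y : ℝ) * (2 / Q) + (Y : ℝ) / H) / (η' * H / (4 * L)) =
      4 / η' * (16 / η' * ((Y : ℝ) * L ^ 2 / H) + (Y : ℝ) * L / H) := by
    rw [hQ]
    field_simp
    ring
  rw [e4]
  have h7 : (Y : ℝ) * L / H ≤ Y * L ^ 2 / H := by
    apply div_le_div_of_nonneg_right _ hH0.le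
    apply mul_le_mul_of_nonneg_left _ hY0
    nlinarith
  have h8 : 0 < 4 / η' := by positivity
  calc 4 / η' * (16 / η' * (Y * L ^ 2 / H) + Y * L / H) ≤
        4 / η' * (16 / η' * (Y * L ^ 2 / H) + Y * L ^ 2 / H) := by gcongr
    _ = 4 / η' * (16 / η' + 1) * (Y * L ^ 2 / H) := by ring

end Pool.Agent.U607.QD
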