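import Pool.Agent.U607.QdBase
import Pool.Agent.U607.QdSq

/-! The weighted sieve for the values of a quadratic polynomial. -/

set_option autoImplicit false

namespace Pool.Agent.U607.QD

open Finset Filter Polynomial
open Pool.Agent.W23.DC
open Pool.Agent.Y882
open Pool.Agent.Y882.PX
open Pool.Agent.Y882.KW
open Pool.Agent.K3h31

theorem rt_le_two (A B C : ℤ) (hA : A ≠ 0) (hgcd : ∀ p : ℕ, p.Prime → ∃ n : ℤ, ¬ (p : ℤ) ∣ (QG A B C).eval n)
    (p : ℕ) (hp : p.Prime) : rt (fun n => (QG A B C).eval n) p ≤ 2 := by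
  classical
  by_contra hcon
  push Not at hcon
  unfold rt at hcon
  obtain ⟨a, b, c, ha, hb, hc, hab, hac, hbc⟩ := Finset.two_lt_card_iff.1 hcon
  rw [mem_filter, mem_range] at ha hb hc
  have hpZ : Prime (p : ℤ) := Nat.prime_iff_prime_int.1 hp
  have key : ∀ u v : ℕ, u < p → v < p → u ≠ v → ¬ (p : ℤ) ∣ (u : ℤ) - v := by
    intro u v hu hv huv h
    have h2 : (u : ℤ) - v = 0 := by
      apply Int.eq_zero_of_abs_lt_dvd h
      rw [abs_lt]
      constructor <;> omega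
    omega
  have hq : ∀ u v : ℕ, u < p → v < p → u ≠ v → (p : ℤ) ∣ (QG A B C).eval (u : ℤ) →
      (p : ℤ) ∣ (QG A B C).eval (v : ℤ) → (p : ℤ) ∣ A * ((u : ℤ) + v) + B := by
    intro u v hu hv huv h1 h2
    rw [QG_eval] at h1 h2
    have h3 : (p : ℤ) ∣ ((u : ℤ) - v) * (A * ((u : ℤ) + v) + B) := by
      have := dvd_sub h1 h2
      have e : A * (u : ℤ) ^ 2 + B * u + C - (A * (v : ℤ) ^ 2 + B * v + C) =
        ((u : ℤ) - v) * (A * ((u : ℤ) + v) + B) := by ring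
      rwa [e] at this
    rcases hpZ.dvd_or_dvd h3 with h | h
    · exact absurd h (key u v hu hv huv)
    · exact h
  have h1 := hq a b ha.1 hb.1 hab ha.2 hb.2
  have h2 := hq a c ha.1 hc.1 hac ha.2 hc.2
  have h3 : (p : ℤ) ∣ A * ((b : ℤ) - c) := by
    have := dvd_sub h1 h2
    have e : A * ((a : ℤ) + b) + B - (A * ((a : ℤ) + c) + B) = A * ((b : ℤ) - c) := by ring
    rwa [e] at this
  have h4 : (p : ℤ) ∣ A := by
    rcases hpZ.dvd_or_dvd h3 with h | h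
    · exact h
    · exact absurd h (key b c hb.1 hc.1 hbc)
  have h5 : (p : ℤ) ∣ B := by
    have := dvd_sub h1 (h4.mul_right ((a : ℤ) + b))
    have e : A * ((a : ℤ) + b) + B - A * ((a : ℤ) + b) = B := by ring
    rwa [e] at this
  have h6 : (p : ℤ) ∣ C := by
    have h7 : (p : ℤ) ∣ (QG A B C).eval (a : ℤ) := ha.2
    rw [QG_eval] at h7
    have h8 := dvd_sub h7 (dvd_add (h4.mul_right ((a : ℤ) ^ 2)) (h5.mul_right (a : ℤ)))
    have e : A * (a : ℤ) ^ 2 + B * a + C - (A * (a : ℤ) ^ 2 + B * a) = C := by ring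
    rwa [e] at h8
  obtain ⟨n, hn⟩ := hgcd p hp
  apply hn
  rw [QG_eval]
  exact dvd_add (dvd_add (h4.mul_right _) (h5.mul_right _)) h6

open Classical in
/-- **The weighted sieve** for the densities of a quadratic polynomial. -/
theorem lowerQ (A B C : ℤ) (hA : A ≠ 0) (hΔ : ¬ IsSquare (B ^ 2 - 4 * A * C))
    (hadm : ∀ p : ℕ, p.Prime → rt (fun n => (QG A B C).eval n) p < p)
    (hrt : ∀ p : ℕ, p.Prime → rt (fun n => (QG A B C).eval n) p ≤ 2)
    (τ ζ υ lam τ' : ℝ) (hζ : 0 < ζ) (h2 : 2 * ζ < τ) (h4 : τ ≤ 4 * ζ)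
    (hτ : τ ≤ 1) (hζυ : ζ ≤ υ) (hυτ : υ < τ) (hlam : 0 < lam)
    (hJ0 : ∫ x in ζ..υ, (lam - lam / υ * x) / (τ - x) / x < Real.log (τ / ζ - 1) / τ)
    (h5 : τ < τ') :
    ∃ δ : ℝ, 0 < δ ∧ ∃ Y0 : ℕ, ∀ Y : ℕ, Y0 ≤ Y →
      ∃ c : Finset ℕ → ℝ, (∀ T, |c T| ≤ 5 * Real.log Y) ∧
      (∀ T ⊆ PZ Y υ, c T ≠ 0 → ((∏ p ∈ T, p : ℕ) : ℝ) ≤ (Y : ℝ) ^ τ') ∧
      ∀ (J : Finset ℕ) (a : ℕ → ℕ),
        δ * J.card / Real.log Y + ∑ T ∈ (PZ Y υ).powerset, c T *
          (((J.filter (fun j => ∏ p ∈ T, p ∣ a j)).card : ℝ) -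
            J.card * ∏ p ∈ T, ((rt (fun n => (QG A B C).eval n) p : ℝ) / p)) ≤
          ((J.filter (fun j => 0 < WW Y ζ υ lam (lam / υ) (a j))).card : ℝ) := by
  have hυ0 : 0 < υ := by linarith
  obtain ⟨ε₁, η, f, hε₁, hε₁ζ, hε₁β, hη, hf, Y1, HC⟩ :=
    core3 2 τ ζ υ lam (lam / υ) τ' 1 hζ h2 h4 hτ hζυ hυτ hlam.le (by positivity)
      (by rw [div_mul_cancel₀ _ hυ0.ne']) hJ0 h5 one_pos
  obtain ⟨Y2, HM⟩ := mer_QG A B C hA hΔ ε₁ υ η hε₁ (by linarith) hη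
  obtain ⟨c0, hc0, HP⟩ := lo_QG A B C hA hΔ hadm
  obtain ⟨h, hh⟩ : ∃ h : ℕ → ℝ, h = fun p => (rt (fun n => (QG A B C).eval n) p : ℝ) / p := ⟨_, rfl⟩
  refine ⟨f * c0, by positivity, max (max Y1 Y2) 3, fun Y hY => ?_⟩
  have hY1 : Y1 ≤ Y := ((le_max_left _ _).trans (le_max_left _ _)).trans hY
  have hY2 : Y2 ≤ Y := ((le_max_right _ _).trans (le_max_left _ _)).trans hY
  have hY3 : 3 ≤ Y := (le_max_right _ _).trans hY
  obtain ⟨c, hcL, hcD, hcN, hcV⟩ := HC Y hY1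
  refine ⟨c, hcL, hcD, ?_⟩
  intro J a
  have hPZ : ∀ w : ℝ, ∀ p ∈ PZ Y w, p.Prime ∧ p ≤ Y := by
    intro w p hp
    unfold PZ at hp
    rw [mem_filter, mem_Icc] at hp
    exact ⟨hp.2.1, hp.1.2⟩
  have hJr : (0 : ℝ) ≤ J.card := Nat.cast_nonneg _
  have hlY : 0 < Real.log Y := by
    apply Real.log_pos
    have : (3 : ℝ) ≤ Y := by exact_mod_cast hY3
    linarith
  have hh01 : ∀ p : ℕ, p.Prime → 0 ≤ h p ∧ h p ≤ 1 ∧ h p ≤ 2 / p := by
    intro p hp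
    have hp0 : (0 : ℝ) < p := by exact_mod_cast hp.pos
    have h1 : (rt (fun n => (QG A B C).eval n) p : ℝ) < p := by exact_mod_cast hadm p hp
    have h2 : (rt (fun n => (QG A B C).eval n) p : ℝ) ≤ 2 := by exact_mod_cast hrt p hp
    rw [hh]
    refine ⟨by positivity, ?_, ?_⟩
    · show (rt (fun n => (QG A B C).eval n) p : ℝ) / p ≤ 1
      rw [div_le_one hp0]
      exact h1.le
    · exact div_le_div_of_nonneg_right h2 hp0.le
  have hmain := hcV h (fun p hp => (hh01 p (hPZ υ p hp).1).1)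
    (fun p hp => (hh01 p (hPZ ε₁ p hp).1).2.1) (by
    intro p hp _
    have hp2 : (2 : ℝ) ≤ p := by exact_mod_cast (hPZ ε₁ p hp).1.two_le
    refine ((hh01 p (hPZ ε₁ p hp).1).2.2).trans ?_
    push_cast
    apply div_le_div_of_nonneg_left (by norm_num) (by linarith)
    linarith) (by rw [hh]; exact HM Y hY2)
  have hlow : c0 / Real.log Y ≤ ∏ p ∈ PZ Y ε₁, (1 - h p) := by
    rw [hh]
    apply HP Y hY3 (PZ Y ε₁)
    intro p hp
    rw [mem_filter, mem_Icc]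
    exact ⟨⟨(hPZ ε₁ p hp).1.one_le, (hPZ ε₁ p hp).2⟩, (hPZ ε₁ p hp).1⟩
  have hmain' : f * (c0 / Real.log Y) ≤ VV (PZ Y υ) c h :=
    (mul_le_mul_of_nonneg_left hlow hf.le).trans hmain
  -- the sieve inequality
  have hs : (J.card : ℝ) * VV (PZ Y υ) c h +
      ∑ T ∈ (PZ Y υ).powerset, c T * (((J.filter (fun j => ∏ p ∈ T, p ∣ a j)).card : ℝ) -
          J.card * ∏ p ∈ T, h p) ≤
      ((J.filter (fun j => 0 < WW Y ζ υ lam (lam / υ) (a j))).card : ℝ) := by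
    have h6 : (J.card : ℝ) * VV (PZ Y υ) c h +
      ∑ T ∈ (PZ Y υ).powerset, c T * (((J.filter (fun j => ∏ p ∈ T, p ∣ a j)).card : ℝ) -
          J.card * ∏ p ∈ T, h p) =
      ∑ T ∈ (PZ Y υ).powerset, c T * ((J.filter (fun j => ∏ p ∈ T, p ∣ a j)).card : ℝ) := by
      unfold VV
      rw [mul_sum, ← sum_add_distrib]
      apply sum_congr rfl
      intro T _
      ring
    have h7 : ∑ T ∈ (PZ Y υ).powerset, c T * ((J.filter (fun j => ∏ p ∈ T, p ∣ a j)).card : ℝ) =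
        ∑ j ∈ J, VV (PZ Y υ) c (fun p => if p ∣ a j then 1 else 0) := by
      unfold VV
      rw [sum_comm]
      apply sum_congr rfl
      intro T hT
      rw [mem_powerset] at hT
      rw [card_filter]
      push_cast
      rw [mul_sum]
      apply sum_congr rfl
      intro j _
      rw [Pool.Agent.Y882.PX.prod_ind T (fun p hp => (hPZ υ p (hT hp)).1)]
    rw [h6, h7, card_filter]
    push_cast
    apply sum_le_sum
    intro j _
    refine (hcN (a j)).trans ?_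
    split_ifs with h
    · exact WW_le_one Y ζ υ lam (lam / υ) (by positivity) (by rw [div_mul_cancel₀ _ hυ0.ne']) (a j)
    · exact not_lt.1 h
  have hm1 := mul_le_mul_of_nonneg_left hmain' hJr
  have e1 : f * c0 * J.card / Real.log Y = (J.card : ℝ) * (f * (c0 / Real.log Y)) := by ring
  rw [e1]
  rw [hh] at hs hm1
  linarith

end Pool.Agent.U607.QD
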