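import Pool.Agent.U607.QdWin
import Pool.Agent.U607.LocalUni
import Pool.Agent.U607.GapMoment

/-! Almost prime values of quadratic polynomials: all window lengths, gaps. -/

set_option autoImplicit false

namespace Pool.Agent.U607.QD

open Finset Filter
open Pool.Agent.W23.DC
open Pool.Agent.Y882
open Pool.Agent.Y882.PX
open Pool.Agent.Y882.KW
open Pool.Agent.K3h19.RV (Lam richert)
open Pool.Agent.K3h31
open Pool.Agent.U607.LW (half_set)

theorem goodF_mono (F : ℤ → ℤ) (r : ℕ) (w : ℝ) {H H' : ℕ} (h : H ≤ H') (x : ℕ) :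
    (goodF F r w H x).card ≤ (goodF F r w H' x).card := by
  classical
  apply card_le_card
  intro j hj
  unfold goodF at hj ⊢
  rw [mem_filter, mem_Icc] at hj ⊢
  exact ⟨⟨hj.1.1, hj.1.2.trans h⟩, hj.2⟩

/-- double counting: few bad short windows, then the long window is good -/
theorem long_good (F : ℤ → ℤ) (r : ℕ) (w : ℝ) (x L H Y : ℕ) (B E : ℝ) (hL0 : 0 < L) (hLH : L ≤ H)
    (hx : 1 ≤ x) (hHY : 1 + H ≤ Y) (hB : 0 ≤ B)
    (hE : (((Icc 1 Y).filter (fun n => ((goodF F r w L (x - 1 + n)).card : ℝ) < B)).card : ℝ) ≤ E) :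
    ((H : ℝ) - L - E) * B ≤ L * ((goodF F r w H x).card : ℝ) := by
  classical
  obtain ⟨P, hP⟩ : ∃ P : ℕ → Prop, P = fun (m : ℕ) => (F (m : ℤ)).natAbs.primeFactorsList.length ≤ r ∧
    ∀ q : ℕ, q.Prime → (q : ℤ) ∣ F (m : ℤ) → w ≤ q := ⟨_, rfl⟩
  have hconv : ∀ n l : ℕ, ((Ioc n (n + l)).filter (fun m => P (x - 1 + m))).card =
      (goodF F r w l (x - 1 + n)).card := by
    intro n l
    unfold goodF
    apply card_nbij' (fun m => m - n) (fun j => n + j)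
    · intro m hm
      simp only [coe_filter, Set.mem_ofPred_eq, mem_Ioc, mem_Icc] at hm ⊢
      refine ⟨⟨by omega, by omega⟩, ?_⟩
      have e : x - 1 + n + (m - n) = x - 1 + m := by omega
      rw [e]
      have := hm.2
      rw [hP] at this
      exact this
    · intro j hj
      simp only [coe_filter, Set.mem_ofPred_eq, mem_Ioc, mem_Icc] at hj ⊢
      refine ⟨⟨by omega, by omega⟩, ?_⟩
      rw [hP]
      have e : x - 1 + (n + j) = x - 1 + n + j := by omega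
      rw [e]
      exact hj.2
    · intro m hm
      simp only [coe_filter, Set.mem_ofPred_eq, mem_Ioc] at hm
      show n + (m - n) = m
      omega
    · intro j _
      show n + j - n = j
      omega
  have h1 := Pool.Agent.Y882.MG.long_of_short (fun m => P (x - 1 + m)) 1 L H Y B E (by exact_mod_cast hL0) hLH
    le_rfl hHY hB (by
      refine le_trans (le_of_eq ?_) hE
      congr 2
      apply filter_congr
      intro n _
      rw [hconv])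
  rw [hconv] at h1
  have e : x - 1 + 1 = x := by omega
  rw [e] at h1
  exact h1

section

variable (A B C : ℤ) (hA : A ≠ 0) (hΔ : ¬ IsSquare (B ^ 2 - 4 * A * C))
    (hadm : ∀ p : ℕ, p.Prime → rt (fun n => (QG A B C).eval n) p < p)
    (hrt : ∀ p : ℕ, p.Prime → rt (fun n => (QG A B C).eval n) p ≤ 2)

include hA hΔ hadm hrt

theorem everyQ (r : ℕ) (hr : 1 ≤ r) (τ τ' : ℝ) (hτ0 : 0 < τ) (hτ1 : τ' ≤ 1 / 4) (h : 1 < τ * Lam r)
    (hττ : τ < τ') : ∃ δ : ℝ, 0 < δ ∧ ∃ X₀ : ℕ, ∀ X : ℕ, X₀ ≤ X → ∀ H : ℕ,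
    (X : ℝ) ^ (2 * τ') ≤ H → H ≤ X → ∀ x : ℕ, 1 ≤ x → x ≤ X →
    δ * H / Real.log X ≤ ((goodF (fun n => (QG A B C).eval n) r ((X : ℝ) ^ (τ / 2)) H x).card : ℝ) := by
  classical
  obtain ⟨τ₂, hτ₂⟩ : ∃ τ₂ : ℝ, τ₂ = (τ + τ') / 2 := ⟨_, rfl⟩
  have ha : τ < τ₂ := by linarith
  have hb : τ₂ < τ' := by linarith
  obtain ⟨δ₁, C₀, hδ₁, hC₀, X1, H1⟩ := windowsQ A B C hA hΔ hadm hrt r hr τ τ₂ hτ0 (by linarith) h ha
  have ev1 : ∀ᶠ X : ℕ in atTop, (48 * C₀) * Real.log X ^ 12 * (X : ℝ) ^ (0 : ℝ) ≤ (X : ℝ) ^ (2 * τ₂) :=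
    LP.log_pow_le (48 * C₀) 12 0 (2 * τ₂) (by linarith)
  have ev2 : ∀ᶠ X : ℕ in atTop, (16 * C₀ + 8) * Real.log X ^ 12 * (X : ℝ) ^ (2 * τ₂) ≤ (X : ℝ) ^ (2 * τ') :=
    LP.log_pow_le (16 * C₀ + 8) 12 (2 * τ₂) (2 * τ') (by linarith)
  have ev3 : ∀ᶠ X : ℕ in atTop, (2 : ℝ) ≤ (X : ℝ) ^ (2 * τ₂) :=
    ((tendsto_rpow_atTop (by linarith)).comp tendsto_natCast_atTop_atTop).eventually_ge_atTop _
  obtain ⟨X2, hX2⟩ := eventually_atTop.1 (ev1.and (ev2.and ev3))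
  refine ⟨δ₁ / 2, by positivity, max (max X1 X2) 3, ?_⟩
  intro X hX H hHX hHX' x hx hxX
  have hXX1 : X1 ≤ X := ((le_max_left _ _).trans (le_max_left _ _)).trans hX
  obtain ⟨w1, w2, w3⟩ := hX2 X (((le_max_right _ _).trans (le_max_left _ _)).trans hX)
  have hX3 : 3 ≤ X := (le_max_right _ _).trans hX
  have hXr : (3 : ℝ) ≤ X := by exact_mod_cast hX3
  have hX0 : (0 : ℝ) < X := by linarith
  have hL1 : 1 ≤ Real.log X := by
    have : Real.exp 1 ≤ X := by linarith [Real.exp_one_lt_d9]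
    rw [Real.le_log_iff_exp_le hX0]
    exact this
  have hL0 : 0 < Real.log X := by linarith
  have hL12 : 1 ≤ Real.log X ^ 12 := one_le_pow₀ hL1
  rw [Real.rpow_zero, mul_one] at w1
  obtain ⟨T, hT⟩ : ∃ T : ℝ, T = (X : ℝ) ^ (2 * τ₂) := ⟨_, rfl⟩
  rw [← hT] at w1 w2 w3
  have hT0 : 0 < T := by linarith
  obtain ⟨L, hL⟩ : ∃ L : ℕ, L = ⌊T⌋₊ := ⟨_, rfl⟩
  have hLT : (L : ℝ) ≤ T := by rw [hL]; exact Nat.floor_le hT0.le
  have hLT2 : T / 2 ≤ L := by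
    have := Nat.lt_floor_add_one T
    rw [← hL] at this
    linarith
  have hL1' : 1 ≤ L := by
    rw [hL]
    exact Nat.le_floor (by push_cast; linarith)
  have hLr0 : (0 : ℝ) < L := by exact_mod_cast hL1'
  have hH0 : (0 : ℝ) < H := lt_of_lt_of_le (by positivity) hHX
  have hH1 : (1 : ℝ) ≤ H := by exact_mod_cast (by exact_mod_cast hH0 : 0 < H)
  obtain ⟨Y, hY⟩ : ∃ Y : ℕ, Y = max (1 + H) ⌈(X : ℝ) ^ (4 * τ₂)⌉₊ := ⟨_, rfl⟩
  have hX4 : (X : ℝ) ^ (4 * τ₂) ≤ X := by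
    calc (X : ℝ) ^ (4 * τ₂) ≤ (X : ℝ) ^ (1 : ℝ) :=
          Real.rpow_le_rpow_of_exponent_le (by linarith) (by linarith)
      _ = X := Real.rpow_one _
  have hYX : (X : ℝ) ^ (4 * τ₂) ≤ Y := by
    rw [hY]
    refine (Nat.le_ceil _).trans ?_
    exact_mod_cast le_max_right _ _
  have hYle : Y ≤ X + 1 := by
    rw [hY]
    apply max_le
    · omega
    · have : ⌈(X : ℝ) ^ (4 * τ₂)⌉₊ ≤ X := Nat.ceil_le.2 hX4
      omega
  have hTT : (X : ℝ) ^ (4 * τ₂) = T * T := by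
    rw [hT, ← Real.rpow_add hX0]
    congr 1
    ring
  have hYr : (Y : ℝ) ≤ 3 * H + T * T := by
    rw [hY]
    push_cast
    apply max_le
    · nlinarith
    · have h5 := Nat.ceil_lt_add_one (show 0 ≤ (X : ℝ) ^ (4 * τ₂) by positivity)
      rw [hTT] at h5 ⊢
      linarith
  have hbad := H1 X hXX1 (x - 1) Y (by omega) hYX L hL1' (by rw [← hT]; exact hLT)
  have hE : C₀ * (Y * Real.log X ^ 12 / L) ≤ H / 4 := by
    rw [mul_div_assoc', div_le_iff₀ hLr0]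
    have h5 : C₀ * (Y * Real.log X ^ 12) ≤ C₀ * ((3 * H + T * T) * Real.log X ^ 12) := by gcongr
    refine h5.trans ?_
    have h6 : (48 * C₀ * Real.log X ^ 12) * H ≤ T * H := mul_le_mul_of_nonneg_right w1 hH0.le
    have h7 : ((16 * C₀ + 8) * Real.log X ^ 12 * T) * T ≤ H * T :=
      mul_le_mul_of_nonneg_right (w2.trans hHX) hT0.le
    have h8 : 0 ≤ 8 * Real.log X ^ 12 * T * T := by positivity
    have h9 : H / 4 * (T / 2) ≤ H / 4 * L := mul_le_mul_of_nonneg_left hLT2 (by positivity)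
    nlinarith
  have hLH : (L : ℝ) ≤ H / 4 := by
    have h5 : 8 * T ≤ (16 * C₀ + 8) * Real.log X ^ 12 * T := by
      have h6 : 8 ≤ (16 * C₀ + 8) * Real.log X ^ 12 := by nlinarith
      exact mul_le_mul_of_nonneg_right h6 hT0.le
    linarith
  have hLHn : L ≤ H := by
    have : (L : ℝ) ≤ H := by linarith
    exact_mod_cast this
  have hfin := long_good (fun n => (QG A B C).eval n) r ((X : ℝ) ^ (τ / 2)) x L H Y
    (δ₁ * L / Real.log X) (C₀ * (Y * Real.log X ^ 12 / L)) (by omega) hLHn hx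
    (by rw [hY]; exact le_max_left _ _) (by positivity) hbad
  have h5 : H / 2 * (δ₁ * L / Real.log X) ≤
      (H - L - C₀ * (Y * Real.log X ^ 12 / L)) * (δ₁ * L / Real.log X) := by
    apply mul_le_mul_of_nonneg_right _ (by positivity)
    linarith
  have h6 := h5.trans hfin
  have h7 : (L : ℝ) * (δ₁ / 2 * H / Real.log X) ≤ L *
      ((goodF (fun n => (QG A B C).eval n) r ((X : ℝ) ^ (τ / 2)) H x).card : ℝ) := by
    refine le_trans (le_of_eq ?_) h6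
    ring
  exact le_of_mul_le_mul_left h7 hLr0

open Classical in
theorem uniformQ (r : ℕ) (hr : 1 ≤ r) (τ τ' : ℝ) (hτ0 : 0 < τ) (hτ1 : τ' ≤ 1 / 4) (h : 1 < τ * Lam r)
    (hττ : τ < τ') : ∃ δ C₀ : ℝ, 0 < δ ∧ 0 < C₀ ∧ ∃ X₀ : ℕ, ∀ X : ℕ, X₀ ≤ X → ∀ M Y : ℕ, M + Y ≤ X →
    (X : ℝ) ^ (4 * τ') ≤ Y → ∀ H₀ : ℝ, 1 ≤ H₀ →
    (((Icc 1 Y).filter (fun x => ∃ H : ℕ, H₀ ≤ H ∧ H ≤ X ∧
      ((goodF (fun n => (QG A B C).eval n) r ((X : ℝ) ^ (τ / 2)) H (M + x)).card : ℝ) <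
        δ * H / Real.log X)).card : ℝ) ≤ C₀ * (Y * Real.log X ^ 12 / H₀) := by
  classical
  obtain ⟨F, hF⟩ : ∃ F : ℤ → ℤ, F = fun n => (QG A B C).eval n := ⟨_, rfl⟩
  obtain ⟨δ₁, C₀, hδ₁, hC₀, X1, H1⟩ := windowsQ A B C hA hΔ hadm hrt r hr τ τ' hτ0 (by linarith) h hττ
  obtain ⟨δ₂, hδ₂, X2, H2⟩ := everyQ A B C hA hΔ hadm hrt r hr τ τ' hτ0 hτ1 h hττ
  rw [← hF] at H1 H2 ⊢
  refine ⟨min δ₁ δ₂ / 2, 4 * C₀, by positivity, by positivity, max (max X1 X2) 3, ?_⟩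
  intro X hX M Y hMY hYX H₀ hH₀
  have e1 : X1 ≤ X := ((le_max_left _ _).trans (le_max_left _ _)).trans hX
  have e2 : X2 ≤ X := ((le_max_right _ _).trans (le_max_left _ _)).trans hX
  have e3 : 3 ≤ X := (le_max_right _ _).trans hX
  have hXr : (3 : ℝ) ≤ X := by exact_mod_cast e3
  have hL0 : 0 < Real.log X := Real.log_pos (by linarith)
  set K : Finset ℕ := (range (X + 1)).filter (fun k => H₀ ≤ 2 ^ (k + 1) ∧ (2 : ℝ) ^ k ≤ (X : ℝ) ^ (2 * τ')) with hK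
  have hsub : (Icc 1 Y).filter (fun x => ∃ H : ℕ, H₀ ≤ H ∧ H ≤ X ∧
      ((goodF F r ((X : ℝ) ^ (τ / 2)) H (M + x)).card : ℝ) < min δ₁ δ₂ / 2 * H / Real.log X) ⊆
      K.biUnion (fun k => (Icc 1 Y).filter (fun x =>
        ((goodF F r ((X : ℝ) ^ (τ / 2)) (2 ^ k) (M + x)).card : ℝ) < δ₁ * ((2 ^ k : ℕ) : ℝ) / Real.log X)) := by
    intro x hx
    rw [mem_filter] at hx
    obtain ⟨hx1, H, hH1, hH2, hH3⟩ := hx
    have hHr : (1 : ℝ) ≤ H := hH₀.trans hH1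
    have hH4 : 1 ≤ H := by exact_mod_cast hHr
    obtain ⟨k, hk⟩ : ∃ k, k = Nat.log 2 H := ⟨_, rfl⟩
    have hk1 : 2 ^ k ≤ H := by
      rw [hk]
      exact Nat.pow_log_le_self 2 (by omega)
    have hk2 : H < 2 ^ (k + 1) := by
      rw [hk]
      exact Nat.lt_pow_succ_log_self (by norm_num) H
    have hk3 : k < 2 ^ k := Nat.lt_two_pow_self
    have hk2r : (H : ℝ) ≤ 2 * (2 : ℝ) ^ k := by
      have : (H : ℝ) ≤ 2 ^ (k + 1) := by exact_mod_cast hk2.le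
      rw [pow_succ] at this
      linarith
    have h5 : ((goodF F r ((X : ℝ) ^ (τ / 2)) (2 ^ k) (M + x)).card : ℝ) <
        min δ₁ δ₂ * ((2 ^ k : ℕ) : ℝ) / Real.log X := by
      have h6 : ((goodF F r ((X : ℝ) ^ (τ / 2)) (2 ^ k) (M + x)).card : ℝ) ≤
          ((goodF F r ((X : ℝ) ^ (τ / 2)) H (M + x)).card : ℝ) := by
        exact_mod_cast goodF_mono F r _ hk1 (M + x)
      refine (h6.trans_lt hH3).trans_le ?_
      apply div_le_div_of_nonneg_right _ hL0.le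
      push_cast
      have h7 : 0 < min δ₁ δ₂ := by positivity
      nlinarith
    have hx2 := mem_Icc.1 hx1
    have h8 : (2 : ℝ) ^ k ≤ (X : ℝ) ^ (2 * τ') := by
      by_contra hcon
      rw [not_le] at hcon
      have h9 := H2 X e2 (2 ^ k) (by push_cast; exact hcon.le) (hk1.trans hH2) (M + x) (by omega) (by omega)
      have h10 : min δ₁ δ₂ * ((2 ^ k : ℕ) : ℝ) / Real.log X ≤ δ₂ * ((2 ^ k : ℕ) : ℝ) / Real.log X := by
        apply div_le_div_of_nonneg_right _ hL0.le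
        exact mul_le_mul_of_nonneg_right (min_le_right _ _) (Nat.cast_nonneg _)
      linarith
    rw [mem_biUnion]
    refine ⟨k, ?_, ?_⟩
    · rw [hK, mem_filter, mem_range]
      refine ⟨by omega, ?_, h8⟩
      rw [pow_succ]
      linarith
    · rw [mem_filter]
      refine ⟨hx1, h5.trans_le ?_⟩
      apply div_le_div_of_nonneg_right _ hL0.le
      exact mul_le_mul_of_nonneg_right (min_le_left _ _) (Nat.cast_nonneg _)
  have hcard := (card_le_card hsub).trans card_biUnion_le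
  have hcardr : (((Icc 1 Y).filter (fun x => ∃ H : ℕ, H₀ ≤ H ∧ H ≤ X ∧
      ((goodF F r ((X : ℝ) ^ (τ / 2)) H (M + x)).card : ℝ) < min δ₁ δ₂ / 2 * H / Real.log X)).card : ℝ) ≤
      ∑ k ∈ K, (((Icc 1 Y).filter (fun x =>
        ((goodF F r ((X : ℝ) ^ (τ / 2)) (2 ^ k) (M + x)).card : ℝ) <
          δ₁ * ((2 ^ k : ℕ) : ℝ) / Real.log X)).card : ℝ) := by
    exact_mod_cast hcard
  refine hcardr.trans ?_
  have hterm : ∀ k ∈ K, (((Icc 1 Y).filter (fun x =>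
        ((goodF F r ((X : ℝ) ^ (τ / 2)) (2 ^ k) (M + x)).card : ℝ) <
          δ₁ * ((2 ^ k : ℕ) : ℝ) / Real.log X)).card : ℝ) ≤ C₀ * (Y * Real.log X ^ 12) * (1 / 2 ^ k) := by
    intro k hk
    rw [hK, mem_filter] at hk
    have h5 := H1 X e1 M Y (by omega) hYX (2 ^ k) Nat.one_le_two_pow (by push_cast; exact hk.2.2)
    refine h5.trans (le_of_eq ?_)
    push_cast
    ring
  refine (sum_le_sum hterm).trans ?_
  rw [← mul_sum]
  have h6 := half_set K H₀ (by linarith) (fun k hk => by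
    rw [hK, mem_filter] at hk
    exact hk.2.1)
  calc C₀ * (Y * Real.log X ^ 12) * ∑ k ∈ K, 1 / (2 : ℝ) ^ k ≤ C₀ * (Y * Real.log X ^ 12) * (4 / H₀) := by
        apply mul_le_mul_of_nonneg_left h6 (by positivity)
    _ = 4 * C₀ * (Y * Real.log X ^ 12 / H₀) := by ring

end

end Pool.Agent.U607.QD
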