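import Pool.Agent.U607.QdLow
import Pool.Agent.U607.LocalMain

/-! Almost prime values of quadratic polynomials in all but few short windows of short intervals. -/

set_option autoImplicit false

namespace Pool.Agent.U607.QD

open Finset Filter
open Pool.Agent.W23.DC
open Pool.Agent.Y882
open Pool.Agent.Y882.PX
open Pool.Agent.Y882.KW
open Pool.Agent.K3h19.RV (Lam richert)
open Pool.Agent.K3h31
open Pool.Agent.K3h31.WL

open Classical in
/-- the arguments in the window whose value is an almost prime -/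
noncomputable def goodF (F : ℤ → ℤ) (r : ℕ) (w : ℝ) (H x : ℕ) : Finset ℕ :=
  (Icc 1 H).filter (fun j => (F ((x + j : ℕ) : ℤ)).natAbs.primeFactorsList.length ≤ r ∧
    ∀ q : ℕ, q.Prime → (q : ℤ) ∣ F ((x + j : ℕ) : ℤ) → w ≤ q)

theorem windowsQ (A B C : ℤ) (hA : A ≠ 0) (hΔ : ¬ IsSquare (B ^ 2 - 4 * A * C))
    (hadm : ∀ p : ℕ, p.Prime → rt (fun n => (QG A B C).eval n) p < p)
    (hrt : ∀ p : ℕ, p.Prime → rt (fun n => (QG A B C).eval n) p ≤ 2)
    (r : ℕ) (hr : 1 ≤ r) (τ τ' : ℝ) (hτ0 : 0 < τ) (hτ1 : τ' ≤ 1 / 2) (h : 1 < τ * Lam r)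
    (hττ : τ < τ') : ∃ δ C₀ : ℝ, 0 < δ ∧ 0 < C₀ ∧ ∃ X₀ : ℕ, ∀ X : ℕ, X₀ ≤ X → ∀ M Y : ℕ,
    M + Y ≤ 3 * X → (X : ℝ) ^ (4 * τ') ≤ Y → ∀ H : ℕ, 1 ≤ H → (H : ℝ) ≤ (X : ℝ) ^ (2 * τ') →
    (((Icc 1 Y).filter (fun x => ((goodF (fun n => (QG A B C).eval n) r ((X : ℝ) ^ (τ / 2)) H
      (M + x)).card : ℝ) < δ * H / Real.log X)).card : ℝ) ≤ C₀ * (Y * Real.log X ^ 12 / H) := by
  classical
  obtain ⟨F, hF⟩ : ∃ F : ℤ → ℤ, F = fun n => (QG A B C).eval n := ⟨_, rfl⟩
  have hper : Per F := by rw [hF]; exact per_eval _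
  obtain ⟨υ, lam, S, hζυ, hυτ, hlam, hS, hrS, hint⟩ := richert r hr τ hτ0 h
  obtain ⟨δ₀, hδ₀, Y0, HL⟩ := lowerQ A B C hA hΔ hadm hrt τ (τ / 4) υ lam τ' (by linarith)
    (by linarith) (by linarith) (by linarith) hζυ hυτ hlam hint hττ
  rw [← hF] at HL
  obtain ⟨C₁, hC₁, HM⟩ := mean_sq 2
  obtain ⟨Sq, hSq⟩ : ∃ Sq : ℕ → ℕ → Prop, Sq = fun (q n : ℕ) => ((q ^ 2 : ℕ) : ℤ) ∣ (QG A B C).eval (n : ℤ) :=
    ⟨_, rfl⟩
  obtain ⟨C₂, hC₂, X2, HS⟩ := sq_gen 2 (by norm_num) Sq (A.natAbs + (B ^ 2 - 4 * A * C).natAbs + 3)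
    (by
      intro q hq hqK N H
      have h1 := sq_QG A B C hA hΔ q hq (by omega) (by omega) N H
      unfold mu
      rw [hSq]
      convert h1 using 3
      ext j
      simp only [mem_filter])
    (τ / 4) υ τ' (δ₀ / 4) (by linarith) (by linarith) (by linarith)
  obtain ⟨Kc, hKc⟩ : ∃ Kc : ℝ, Kc = 16 * |(A : ℝ)| + 4 * |(B : ℝ)| + |(C : ℝ)| := ⟨_, rfl⟩
  have ev1 : ∀ᶠ X : ℕ in atTop, Kc ≤ (X : ℝ) ^ (2 * (S - 1)) :=
    ((tendsto_rpow_atTop (show 0 < 2 * (S - 1) by linarith)).comp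
      tendsto_natCast_atTop_atTop).eventually_ge_atTop _
  obtain ⟨X3, hX3⟩ := eventually_atTop.1 ev1
  refine ⟨δ₀ / 8, (2 * C₁ * (4 / δ₀ ^ 2) + C₂) * 2 ^ 12, by positivity, by positivity,
    max (max Y0 X2) (max X3 3), ?_⟩
  intro X hX M Y hMY hYX H hH hHX
  have hXX3 : X3 ≤ X := ((le_max_left _ _).trans (le_max_right _ _)).trans hX
  have hX3' : 3 ≤ X := ((le_max_right _ _).trans (le_max_right _ _)).trans hX
  have hXr : (3 : ℝ) ≤ X := by exact_mod_cast hX3'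
  have hX0 : (0 : ℝ) < X := by linarith
  obtain ⟨Z, hZ⟩ : ∃ Z : ℕ, Z = X ^ 2 := ⟨_, rfl⟩
  have hXZ : X ≤ Z := by
    rw [hZ]
    nlinarith
  have hZr : (Z : ℝ) = (X : ℝ) ^ 2 := by
    rw [hZ]
    push_cast
    rfl
  have hZ3 : 3 ≤ Z := hX3'.trans hXZ
  have hZY : Y0 ≤ Z := (((le_max_left _ _).trans (le_max_left _ _)).trans hX).trans hXZ
  have hZX2 : X2 ≤ Z := (((le_max_right _ _).trans (le_max_left _ _)).trans hX).trans hXZ
  have hZ0 : (0 : ℝ) < Z := by rw [hZr]; positivity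
  have hpow : ∀ s : ℝ, (Z : ℝ) ^ s = (X : ℝ) ^ (2 * s) := by
    intro s
    rw [hZr, ← Real.rpow_natCast, ← Real.rpow_mul hX0.le]
    norm_num
  have hlog : Real.log Z = 2 * Real.log X := by
    rw [hZr, Real.log_pow]
    norm_num
  have hHr : (1 : ℝ) ≤ H := by exact_mod_cast hH
  have hH0 : (0 : ℝ) < H := by linarith
  have hY0 : (0 : ℝ) ≤ Y := Nat.cast_nonneg _
  have hHX' : H ≤ X := by
    have h1 : (H : ℝ) ≤ X := by
      refine hHX.trans ?_
      calc (X : ℝ) ^ (2 * τ') ≤ (X : ℝ) ^ (1 : ℝ) :=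
            Real.rpow_le_rpow_of_exponent_le (by linarith) (by linarith)
        _ = X := Real.rpow_one _
    exact_mod_cast h1
  have hL1 : 1 ≤ Real.log X := by
    have : Real.exp 1 ≤ X := by linarith [Real.exp_one_lt_d9]
    rw [Real.le_log_iff_exp_le hX0]
    exact this
  have hL0 : 0 < Real.log X := by linarith
  have hLZ0 : 0 < Real.log Z := by rw [hlog]; linarith
  have hLZ1 : 1 ≤ Real.log Z := by rw [hlog]; linarith
  obtain ⟨c, hcL, hcD, hcV⟩ := HL Z hZY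
  have hPZ : ∀ p ∈ PZ Z υ, p.Prime ∧ p ≤ Z := by
    intro p hp
    unfold PZ at hp
    rw [mem_filter, mem_Icc] at hp
    exact ⟨hp.2.1, hp.1.2⟩
  set D : ℕ := ⌊(Z : ℝ) ^ τ'⌋₊ with hD
  have hDr : (D : ℝ) ≤ (Z : ℝ) ^ τ' := Nat.floor_le (by positivity)
  obtain ⟨I, hI⟩ : ∃ I : ℕ → Finset ℕ, I = fun q => RM F M q := ⟨_, rfl⟩
  have hIq : ∀ q : ℕ, q.Prime → ∀ n : ℕ, (n % q ∈ I q ↔ (q : ℤ) ∣ F ((M + n : ℕ) : ℤ)) := by
    intro q hq n
    rw [hI]
    exact mem_RM hper M hq.pos n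
  have hIc : ∀ q : ℕ, (I q).card = rt F q := by
    intro q
    rw [hI]
    exact card_RM hper M q
  have hmean := HM Z hZ3 υ c I D (fun q hq => by
    rw [hI]
    exact filter_subset _ _) (fun q hq => by
    rw [hIc, hF]
    exact hrt q hq) (fun T hT hT0 => Nat.le_floor (by
      have := hcD T hT hT0
      exact_mod_cast this)) hcL Y H
  have hmean2 : ∑ x ∈ Icc 1 Y, Rem (PZ Z υ) c I H x ^ 2 ≤ 2 * C₁ * (Y * H * Real.log Z ^ 10) := by
    refine hmean.trans ?_
    have h1 : (D : ℝ) ^ 2 ≤ Y := by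
      calc (D : ℝ) ^ 2 ≤ ((Z : ℝ) ^ τ') ^ 2 := pow_le_pow_left₀ (Nat.cast_nonneg _) hDr 2
        _ = (Z : ℝ) ^ (2 * τ') := by
          rw [← Real.rpow_natCast, ← Real.rpow_mul hZ0.le]
          congr 1
          push_cast
          ring
        _ = (X : ℝ) ^ (4 * τ') := by
          rw [hpow]
          congr 1
          ring
        _ ≤ Y := hYX
    norm_num
    calc C₁ * (((Y : ℝ) + (D : ℝ) ^ 2) * H * Real.log Z ^ 10) ≤ C₁ * (((Y : ℝ) + Y) * H * Real.log Z ^ 10) := by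
          gcongr
      _ = 2 * C₁ * (Y * H * Real.log Z ^ 10) := by ring
  -- the sieve inequality
  have hsieve : ∀ x ∈ Icc 1 Y, δ₀ * H / Real.log Z + Rem (PZ Z υ) c I H x ≤
      ((goodF F r ((X : ℝ) ^ (τ / 2)) H (M + x)).card : ℝ) +
        ((sqg Sq Z (τ / 4) υ H (M + x)).card : ℝ) := by
    intro x hx
    rw [mem_Icc] at hx
    have h1 := hcV (Icc 1 H) (fun j => (F ((M + x + j : ℕ) : ℤ)).natAbs)
    have h2 : ∑ T ∈ (PZ Z υ).powerset, c T *
          ((((Icc 1 H).filter (fun j => ∏ p ∈ T, p ∣ (F ((M + x + j : ℕ) : ℤ)).natAbs)).card : ℝ) -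
            (Icc 1 H).card * ∏ p ∈ T, ((rt F p : ℝ) / p)) =
        Rem (PZ Z υ) c I H x := by
      unfold Rem
      refine sum_congr rfl fun T hT => ?_
      rw [mem_powerset] at hT
      congr 2
      · congr 2
        apply filter_congr
        intro j _
        rw [prod_dvd_iff T (fun p hp => (hPZ p (hT hp)).1)]
        constructor
        · intro h3 q hq
          rw [hIq q (hPZ q (hT hq)).1, ← add_assoc]
          exact Int.natCast_dvd.2 (Nat.dvd_of_mod_eq_zero (mem_singleton.1 (h3 q hq)))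
        · intro h3 q hq
          rw [mem_singleton]
          have := (hIq q (hPZ q (hT hq)).1 (x + j)).1 (h3 q hq)
          rw [← add_assoc] at this
          exact Nat.mod_eq_zero_of_dvd (Int.natCast_dvd.1 this)
      · rw [Nat.card_Icc, Nat.add_sub_cancel]
        congr 1
        apply prod_congr rfl
        intro q _
        rw [hIc]
    rw [h2, Nat.card_Icc, Nat.add_sub_cancel] at h1
    refine h1.trans ?_
    have h3 : (Icc 1 H).filter (fun j => 0 < WW Z (τ / 4) υ lam (lam / υ) (F ((M + x + j : ℕ) : ℤ)).natAbs) ⊆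
        goodF F r ((X : ℝ) ^ (τ / 2)) H (M + x) ∪ sqg Sq Z (τ / 4) υ H (M + x) := by
      intro j hj
      rw [mem_filter] at hj
      have hj1 := mem_Icc.1 hj.1
      rw [mem_union]
      by_cases hs : ∃ q ∈ pr Z (τ / 4) υ, Sq q (M + x + j)
      · right
        unfold sqg
        rw [mem_filter]
        exact ⟨hj.1, hs⟩
      · left
        push Not at hs
        unfold goodF
        rw [mem_filter]
        refine ⟨hj.1, ?_⟩
        have hne : F ((M + x + j : ℕ) : ℤ) ≠ 0 := by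
          rw [hF]
          show (QG A B C).eval ((M + x + j : ℕ) : ℤ) ≠ 0
          rw [QG_eval]
          exact QG_ne_zero A B C hΔ _
        have h4 := almost Z (by omega) (τ / 4) υ lam S r hζυ (by linarith) (by linarith) hlam hrS
          (F ((M + x + j : ℕ) : ℤ)).natAbs (Int.natAbs_ne_zero.2 hne) (by
          have hn : ((M + x + j : ℕ) : ℝ) ≤ 4 * X := by
            have : M + x + j ≤ 4 * X := by omega
            exact_mod_cast this
          obtain ⟨n, hn'⟩ : ∃ n : ℝ, n = ((M + x + j : ℕ) : ℝ) := ⟨_, rfl⟩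
          rw [← hn'] at hn
          have hn0 : 0 ≤ n := by rw [hn']; exact Nat.cast_nonneg _
          have e1 : ((F ((M + x + j : ℕ) : ℤ)).natAbs : ℝ) = |(A : ℝ) * n ^ 2 + B * n + C| := by
            rw [Nat.cast_natAbs, hF, hn']
            show ((|(QG A B C).eval ((M + x + j : ℕ) : ℤ)| : ℤ) : ℝ) = _
            rw [QG_eval]
            push_cast
            rfl
          rw [e1]
          have a1 := abs_nonneg (A : ℝ)
          have a2 := abs_nonneg (B : ℝ)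
          have a3 := abs_nonneg (C : ℝ)
          have hn2 : n ^ 2 ≤ 16 * (X : ℝ) ^ 2 := by nlinarith
          have hX2 : (X : ℝ) ≤ (X : ℝ) ^ 2 := by nlinarith
          have hX1 : (1 : ℝ) ≤ (X : ℝ) ^ 2 := by nlinarith
          have e2 : |(A : ℝ) * n ^ 2 + B * n + C| ≤ Kc * (X : ℝ) ^ 2 := by
            calc |(A : ℝ) * n ^ 2 + B * n + C| ≤ |(A : ℝ) * n ^ 2 + B * n| + |(C : ℝ)| := abs_add_le _ _
              _ ≤ |(A : ℝ) * n ^ 2| + |B * n| + |(C : ℝ)| := by
                have := abs_add_le ((A : ℝ) * n ^ 2) (B * n)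
                linarith
              _ = |(A : ℝ)| * n ^ 2 + |(B : ℝ)| * n + |(C : ℝ)| := by
                rw [abs_mul, abs_mul, abs_of_nonneg hn0, abs_of_nonneg (sq_nonneg n)]
              _ ≤ |(A : ℝ)| * (16 * (X : ℝ) ^ 2) + |(B : ℝ)| * (4 * (X : ℝ) ^ 2) + |(C : ℝ)| * (X : ℝ) ^ 2 := by
                have b1 := mul_le_mul_of_nonneg_left hn2 a1
                have b2 := mul_le_mul_of_nonneg_left (show n ≤ 4 * (X : ℝ) ^ 2 by linarith) a2
                have b3 := mul_le_mul_of_nonneg_left hX1 a3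
                linarith
              _ = Kc * (X : ℝ) ^ 2 := by rw [hKc]; ring
          refine e2.trans ?_
          have h5 := hX3 X hXX3
          calc Kc * (X : ℝ) ^ 2 ≤ (X : ℝ) ^ (2 * (S - 1)) * (X : ℝ) ^ 2 :=
                mul_le_mul_of_nonneg_right h5 (by positivity)
            _ = (Z : ℝ) ^ S := by
              rw [hpow, ← Real.rpow_natCast (X : ℝ) 2, ← Real.rpow_add hX0]
              congr 1
              push_cast
              ring) hj.2 (by
          intro q hq hqd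
          apply hs q hq
          rw [hSq]
          rw [hF] at hqd
          exact Int.natCast_dvd.2 hqd)
        refine ⟨h4.1, ?_⟩
        intro q hq hqd
        have h5 := h4.2 q hq (Int.natCast_dvd.1 hqd)
        rw [hpow] at h5
        have e : 2 * (τ / 4) = τ / 2 := by ring
        rwa [e] at h5
    have h4 := (card_le_card h3).trans (card_union_le _ _)
    exact_mod_cast h4
  -- the exceptional set
  rw [← hF]
  set E := (Icc 1 Y).filter (fun x => ((goodF F r ((X : ℝ) ^ (τ / 2)) H (M + x)).card : ℝ) <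
      δ₀ / 8 * H / Real.log X) with hE
  set E1 := (Icc 1 Y).filter (fun x => δ₀ / 4 * H / Real.log Z <
      ((sqg Sq Z (τ / 4) υ H (M + x)).card : ℝ)) with hE1
  set E2 := (Icc 1 Y).filter (fun x => (δ₀ * H / (2 * Real.log Z)) ^ 2 ≤ Rem (PZ Z υ) c I H x ^ 2)
    with hE2
  have e8 : δ₀ / 8 * H / Real.log X = δ₀ / 4 * H / Real.log Z := by
    rw [hlog]
    field_simp
    norm_num
  have hsub : E ⊆ E1 ∪ E2 := by
    intro x hx
    rw [hE, mem_filter] at hx
    rw [mem_union]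
    by_cases h1 : δ₀ / 4 * H / Real.log Z < ((sqg Sq Z (τ / 4) υ H (M + x)).card : ℝ)
    · left
      rw [hE1, mem_filter]
      exact ⟨hx.1, h1⟩
    · right
      rw [hE2, mem_filter]
      refine ⟨hx.1, ?_⟩
      have h2 := hsieve x hx.1
      have e1 : δ₀ * H / Real.log Z = δ₀ / 4 * H / Real.log Z + δ₀ / 4 * H / Real.log Z +
        δ₀ * H / (2 * Real.log Z) := by
        field_simp
        ring
      have hx2 := hx.2
      rw [e8] at hx2
      have h3 : Rem (PZ Z υ) c I H x ≤ - (δ₀ * H / (2 * Real.log Z)) := by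
        linarith [not_lt.1 h1]
      have h4 : 0 ≤ δ₀ * H / (2 * Real.log Z) := by positivity
      nlinarith
  have hb1 := HS Z hZX2 M Y (by
    rw [hpow]
    refine le_trans (le_of_eq ?_) hYX
    congr 1
    ring) H hH (by
    rw [hpow]
    exact hHX)
  have hpos : 0 < (δ₀ * H / (2 * Real.log Z)) ^ 2 := by positivity
  have hb2 : (E2.card : ℝ) * (δ₀ * H / (2 * Real.log Z)) ^ 2 ≤ 2 * C₁ * (Y * H * Real.log Z ^ 10) := by
    calc (E2.card : ℝ) * (δ₀ * H / (2 * Real.log Z)) ^ 2 = ∑ _x ∈ E2, (δ₀ * H / (2 * Real.log Z)) ^ 2 := by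
          rw [sum_const, nsmul_eq_mul]
      _ ≤ ∑ x ∈ E2, Rem (PZ Z υ) c I H x ^ 2 := sum_le_sum fun x hx => by
          rw [hE2, mem_filter] at hx
          exact hx.2
      _ ≤ ∑ x ∈ Icc 1 Y, Rem (PZ Z υ) c I H x ^ 2 :=
          sum_le_sum_of_subset_of_nonneg (by rw [hE2]; exact filter_subset _ _) fun _ _ _ => sq_nonneg _
      _ ≤ _ := hmean2
  rw [← le_div_iff₀ hpos] at hb2
  have hb3 : 2 * C₁ * (Y * H * Real.log Z ^ 10) / (δ₀ * H / (2 * Real.log Z)) ^ 2 =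
      2 * C₁ * (4 / δ₀ ^ 2) * (Y * Real.log Z ^ 12 / H) := by
    field_simp
    ring
  have hb4 : C₂ * ((Y : ℝ) * Real.log Z ^ 2 / H) ≤ C₂ * (Y * Real.log Z ^ 12 / H) := by
    have h5 : Real.log Z ^ 2 ≤ Real.log Z ^ 12 := pow_le_pow_right₀ hLZ1 (by norm_num)
    gcongr
  have hc : (E.card : ℝ) ≤ (E1.card : ℝ) + E2.card := by
    have := (card_le_card hsub).trans (card_union_le _ _)
    exact_mod_cast this
  rw [hb3] at hb2
  have e12 : (Y : ℝ) * Real.log Z ^ 12 / H = 2 ^ 12 * (Y * Real.log X ^ 12 / H) := by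
    rw [hlog]
    ring
  have hfin : (E.card : ℝ) ≤ (2 * C₁ * (4 / δ₀ ^ 2) + C₂) * (Y * Real.log Z ^ 12 / H) := by
    rw [add_mul]
    linarith
  rw [e12] at hfin
  linarith

end Pool.Agent.U607.QD
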