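import Pool.Agent.U607.QdWin
import Pool.Agent.U607.QdUni

/-! The weighted sieve in windows, uniformly in a family of polynomial functions. -/

set_option autoImplicit false

namespace Pool.Agent.U607.QG2

open Finset Filter
open Pool.Agent.W23.DC
open Pool.Agent.Y882
open Pool.Agent.Y882.PX
open Pool.Agent.Y882.KW
open Pool.Agent.K3h19.RV (Lam richert)
open Pool.Agent.K3h31
open Pool.Agent.K3h31.WL
open Pool.Agent.U607.QD
open Pool.Agent.U607.LW (half_set)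

/-- the densities of the family are regular, at most two roots, no fixed prime divisor -/
structure Fam (𝓕 : Set (ℤ → ℤ)) : Prop where
  per : ∀ F ∈ 𝓕, Per F
  ne : ∀ F ∈ 𝓕, ∀ n : ℤ, F n ≠ 0
  two : ∀ F ∈ 𝓕, ∀ p : ℕ, p.Prime → rt F p ≤ 2
  adm : ∀ F ∈ 𝓕, ∀ p : ℕ, p.Prime → rt F p < p
  mer : ∀ ε₁ υ η : ℝ, 0 < ε₁ → υ ≤ 1 → 0 < η → ∃ Y0 : ℕ, ∀ Y : ℕ, Y0 ≤ Y → ∀ F ∈ 𝓕,
    Mer (pr Y ε₁ υ) (tt Y) (fun p => (rt F p : ℝ) / p) ε₁ υ η
  lo : ∃ c : ℝ, 0 < c ∧ ∀ F ∈ 𝓕, ∀ Z : ℕ, 3 ≤ Z → ∀ S ⊆ (Icc 1 Z).filter Nat.Prime,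
    c / Real.log Z ≤ ∏ p ∈ S, (1 - (rt F p : ℝ) / p)
  sq : ∃ K : ℕ, ∀ F ∈ 𝓕, ∀ q : ℕ, q.Prime → K ≤ q → ∀ N H : ℕ,
    (mu (fun q n => ((q ^ 2 : ℕ) : ℤ) ∣ F (n : ℤ)) q H N : ℝ) ≤ (2 : ℕ) * (H * (1 / (q : ℝ) ^ 2) + 1)

/-- few windows with many numbers divisible by the square of a medium prime -/
theorem sq_genU (κ : ℕ) (hκ : 1 ≤ κ) (𝓕 : Set (ℤ → ℤ)) (K : ℕ)
    (hSU : ∀ F ∈ 𝓕, ∀ q : ℕ, q.Prime → K ≤ q → ∀ N H : ℕ,
      (mu (fun q n => ((q ^ 2 : ℕ) : ℤ) ∣ F (n : ℤ)) q H N : ℝ) ≤ κ * (H * (1 / (q : ℝ) ^ 2) + 1))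
    (ζ υ θ η : ℝ) (hζ : 0 < ζ) (hυ : υ ≤ θ) (hη : 0 < η) :
    ∃ C : ℝ, 0 < C ∧ ∃ X₀ : ℕ, ∀ X : ℕ, X₀ ≤ X → ∀ F ∈ 𝓕, ∀ M Y : ℕ, (X : ℝ) ^ (2 * θ) ≤ Y →
    ∀ H : ℕ, 1 ≤ H → (H : ℝ) ≤ (X : ℝ) ^ θ →
    (((Icc 1 Y).filter (fun x => η * H / Real.log X < ((sqg (fun q n => ((q ^ 2 : ℕ) : ℤ) ∣ F (n : ℤ)) X ζ υ H (M + x)).card : ℝ))).card : ℝ) ≤
      C * (Y * Real.log X ^ 2 / H) := by
  classical
  have hκr : (1 : ℝ) ≤ κ := by exact_mod_cast hκ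
  obtain ⟨η', hη'⟩ : ∃ η' : ℝ, η' = η / κ := ⟨_, rfl⟩
  have hη'0 : 0 < η' := by rw [hη']; positivity
  have ev1 : ∀ᶠ X : ℕ in atTop, (16 / η') * Real.log X ^ 1 * (X : ℝ) ^ (0 : ℝ) ≤ (X : ℝ) ^ ζ :=
    LP.log_pow_le (16 / η') 1 0 ζ hζ
  have ev3 : ∀ᶠ X : ℕ in atTop, (2 : ℝ) + K ≤ (X : ℝ) ^ ζ :=
    ((tendsto_rpow_atTop hζ).comp tendsto_natCast_atTop_atTop).eventually_ge_atTop _
  obtain ⟨X1, hX1⟩ := eventually_atTop.1 (ev1.and ev3)
  refine ⟨4 / η' * (16 / η' + 1), by positivity, max X1 4, ?_⟩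
  intro X hX F hFF M Y hY H hH hHX
  obtain ⟨S, hSdef⟩ : ∃ S : ℕ → ℕ → Prop, S = fun (q n : ℕ) => ((q ^ 2 : ℕ) : ℤ) ∣ F (n : ℤ) := ⟨_, rfl⟩
  have hS := hSU F hFF
  rw [← hSdef] at hS ⊢
  obtain ⟨w1, w4⟩ := hX1 X ((le_max_left _ _).trans hX)
  have hX4 : 4 ≤ X := (le_max_right _ _).trans hX
  have hXr : (4 : ℝ) ≤ X := by exact_mod_cast hX4
  have hX0 : (0 : ℝ) < X := by linarith
  have hHr : (1 : ℝ) ≤ H := by exact_mod_cast hH
  have hH0 : (0 : ℝ) < H := by linarith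
  have hK0 : (0 : ℝ) ≤ K := Nat.cast_nonneg _
  rw [Real.rpow_zero, mul_one, pow_one] at w1
  have hL1 : 1 ≤ Real.log X := by
    have : Real.exp 1 ≤ X := by linarith [Real.exp_one_lt_d9]
    rw [Real.le_log_iff_exp_le hX0]
    exact this
  have hL0 : 0 < Real.log X := by linarith
  set L : ℝ := Real.log X with hL
  set Q : ℝ := η' * H / (8 * L) with hQ
  have hQ0 : 0 < Q := by positivity
  set P1 : Finset ℕ := (pr X ζ υ).filter (fun q => (q : ℝ) ≤ Q) with hP1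
  set P2 : Finset ℕ := (pr X ζ υ).filter (fun q => ¬ (q : ℝ) ≤ Q) with hP2
  have hprp : ∀ q ∈ pr X ζ υ, q.Prime ∧ (X : ℝ) ^ ζ ≤ q ∧ (q : ℝ) < (X : ℝ) ^ υ := by
    intro q hq
    have := LP.pr_facts (by omega) hq
    exact ⟨this.1, this.2.2.1, this.2.2.2⟩
  have hprK : ∀ q ∈ pr X ζ υ, K ≤ q := by
    intro q hq
    have h1 := (hprp q hq).2.1
    have h2 : (K : ℝ) ≤ q := by linarith
    exact_mod_cast h2
  -- the number of the bad `j` is at most the sum over `q`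
  have hcount : ∀ x, ((sqg S X ζ υ H x).card : ℝ) ≤ ∑ q ∈ pr X ζ υ, (mu S q H x : ℝ) := by
    intro x
    have h1 : sqg S X ζ υ H x ⊆ (pr X ζ υ).biUnion (fun q => (Icc 1 H).filter (fun j => S q (x + j))) := by
      intro j hj
      unfold sqg at hj
      rw [mem_filter] at hj
      obtain ⟨q, hq, hqj⟩ := hj.2
      rw [mem_biUnion]
      exact ⟨q, hq, mem_filter.2 ⟨hj.1, hqj⟩⟩
    have h2 := (card_le_card h1).trans card_biUnion_le
    have h3 : ((sqg S X ζ υ H x).card : ℝ) ≤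
        ((∑ q ∈ pr X ζ υ, ((Icc 1 H).filter (fun j => S q (x + j))).card : ℕ) : ℝ) := by
      exact_mod_cast h2
    rw [Nat.cast_sum] at h3
    exact h3
  -- small `q`
  have hsmall : ∀ x, ∑ q ∈ P1, (mu S q H x : ℝ) ≤ κ * (η' * H / (2 * L) / 2 * 2 / 2 + Q) := by
    intro x
    have h1 : ∑ q ∈ P1, (mu S q H x : ℝ) ≤ ∑ q ∈ P1, κ * ((H : ℝ) * (1 / (q : ℝ) ^ 2) + 1) := by
      apply sum_le_sum
      intro q hq
      rw [hP1, mem_filter] at hq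
      exact hS q (hprp q hq.1).1 (hprK q hq.1) x H
    have h2 : ∑ q ∈ P1, (1 / (q : ℝ) ^ 2) ≤ 2 / (X : ℝ) ^ ζ :=
      (sum_le_sum_of_subset_of_nonneg (filter_subset _ _) fun _ _ _ => by positivity).trans
        (LP.pr_sq (by omega) ζ υ (by linarith))
    have h3 : (P1.card : ℝ) ≤ Q := by
      have h4 : P1 ⊆ Icc 1 ⌊Q⌋₊ := by
        intro q hq
        rw [hP1, mem_filter] at hq
        rw [mem_Icc]
        exact ⟨(hprp q hq.1).1.one_le, Nat.le_floor hq.2⟩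
      have h5 := card_le_card h4
      rw [Nat.card_Icc, Nat.add_sub_cancel] at h5
      have h6 : (P1.card : ℝ) ≤ (⌊Q⌋₊ : ℝ) := by exact_mod_cast h5
      exact h6.trans (Nat.floor_le hQ0.le)
    have h7 : (H : ℝ) * (2 / (X : ℝ) ^ ζ) ≤ η' * H / (2 * L) / 2 * 2 / 2 := by
      have h8 : 0 < (X : ℝ) ^ ζ := by positivity
      rw [mul_div_assoc', div_le_iff₀ h8]
      have h9 : 16 / η' * L * (η' * H / (2 * L) / 2 * 2 / 2) = 4 * H := by
        field_simp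
        norm_num
      have h10 : 0 ≤ η' * H / (2 * L) / 2 * 2 / 2 := by positivity
      have h11 := mul_le_mul_of_nonneg_right w1 h10
      nlinarith
    calc _ ≤ ∑ q ∈ P1, κ * ((H : ℝ) * (1 / (q : ℝ) ^ 2) + 1) := h1
      _ = κ * (H * ∑ q ∈ P1, (1 / (q : ℝ) ^ 2) + P1.card) := by
          rw [← mul_sum, sum_add_distrib, mul_sum]
          simp
      _ ≤ κ * (H * (2 / (X : ℝ) ^ ζ) + Q) := by
          apply mul_le_mul_of_nonneg_left _ (by linarith)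
          have := mul_le_mul_of_nonneg_left h2 hH0.le
          linarith
      _ ≤ _ := by
          apply mul_le_mul_of_nonneg_left _ (by linarith)
          linarith
  -- large `q` in the mean
  have hinv : ∑ q ∈ P2, 1 / (q : ℝ) ^ 2 ≤ 2 / Q := by
    rcases lt_or_ge Q 1 with h1 | h1
    · refine (sum_le_sum_of_subset_of_nonneg (filter_subset _ _) fun _ _ _ => by positivity).trans
        ((LP.pr_sq (by omega) ζ υ (by linarith)).trans ?_)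
      apply div_le_div_of_nonneg_left (by norm_num) hQ0
      linarith
    · have ha : 1 ≤ ⌊Q⌋₊ := Nat.le_floor (by exact_mod_cast h1)
      have h2 := inv_sq_tail P2 ⌊Q⌋₊ ha (fun q hq => by
        rw [hP2, mem_filter] at hq
        rw [Nat.floor_lt hQ0.le]
        exact not_le.1 hq.2)
      refine h2.trans ?_
      have h3 := Nat.lt_floor_add_one Q
      have h4 : (1 : ℝ) ≤ (⌊Q⌋₊ : ℝ) := by exact_mod_cast ha
      rw [div_le_div_iff₀ (by linarith) hQ0]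
      linarith
  have hY0 : (0 : ℝ) ≤ Y := Nat.cast_nonneg _
  have hP2c : (P2.card : ℝ) ≤ Y / H := by
    have h4 : P2 ⊆ Icc 1 ⌊(X : ℝ) ^ θ⌋₊ := by
      intro q hq
      rw [hP2, mem_filter] at hq
      rw [mem_Icc]
      refine ⟨(hprp q hq.1).1.one_le, Nat.le_floor ?_⟩
      exact (hprp q hq.1).2.2.le.trans (Real.rpow_le_rpow_of_exponent_le (by linarith) hυ)
    have h5 := card_le_card h4
    rw [Nat.card_Icc, Nat.add_sub_cancel] at h5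
    have h6 : (P2.card : ℝ) ≤ (⌊(X : ℝ) ^ θ⌋₊ : ℝ) := by exact_mod_cast h5
    refine (h6.trans (Nat.floor_le (by positivity))).trans ?_
    rw [le_div_iff₀ hH0]
    calc (X : ℝ) ^ θ * H ≤ (X : ℝ) ^ θ * (X : ℝ) ^ θ := mul_le_mul_of_nonneg_left hHX (by positivity)
      _ = (X : ℝ) ^ (2 * θ) := by
        rw [← Real.rpow_add hX0]
        congr 1
        ring
      _ ≤ Y := hY
  have hmean : ∑ x ∈ Icc 1 Y, ∑ q ∈ P2, (mu S q H (M + x) : ℝ) ≤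
      κ * ((H : ℝ) * ((Y : ℝ) * (2 / Q) + (Y : ℝ) / H)) := by
    rw [sum_comm]
    calc _ ≤ ∑ q ∈ P2, (H : ℝ) * (κ * ((Y : ℝ) * (1 / (q : ℝ) ^ 2) + 1)) := by
          apply sum_le_sum
          intro q hq
          rw [hP2, mem_filter] at hq
          exact mu_shift κ S q (hS q (hprp q hq.1).1 (hprK q hq.1)) H M Y
      _ = κ * ((H : ℝ) * ((Y : ℝ) * ∑ q ∈ P2, (1 / (q : ℝ) ^ 2) + (P2.card : ℝ))) := by
          rw [← mul_sum, ← mul_sum, sum_add_distrib, ← mul_sum]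
          simp
          ring
      _ ≤ κ * ((H : ℝ) * ((Y : ℝ) * (2 / Q) + (Y : ℝ) / H)) := by
          have := mul_le_mul_of_nonneg_left hinv hY0
          gcongr
  -- Markov
  set E := (Icc 1 Y).filter (fun x => η * H / L < ((sqg S X ζ υ H (M + x)).card : ℝ)) with hE
  have hηκ : η = κ * η' := by
    rw [hη']
    field_simp
  have hlow : ∀ x ∈ E, κ * (η' * H / (4 * L)) ≤ ∑ q ∈ P2, (mu S q H (M + x) : ℝ) := by
    intro x hx
    rw [hE, mem_filter] at hx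
    have h1 := hcount (M + x)
    have h2 := hsmall (M + x)
    have h3 : ∑ q ∈ pr X ζ υ, (mu S q H (M + x) : ℝ) =
        ∑ q ∈ P1, (mu S q H (M + x) : ℝ) + ∑ q ∈ P2, (mu S q H (M + x) : ℝ) := by
      rw [hP1, hP2]
      exact (sum_filter_add_sum_filter_not _ _ _).symm
    have e1 : η' * H / (2 * L) / 2 * 2 / 2 = η' * H / L / 4 := by
      field_simp
      norm_num
    have e2 : Q = η' * H / L / 8 := by
      rw [hQ]
      field_simp
    have e3 : η' * H / (4 * L) = η' * H / L / 4 := by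
      field_simp
    have e4 : η * H / L = κ * (η' * H / L) := by
      rw [hηκ]
      ring
    have h4 : 0 ≤ η' * H / L := by positivity
    rw [e1, e2] at h2
    rw [e3]
    have h5 := hx.2
    rw [e4] at h5
    have h6 : 0 ≤ κ * (η' * H / L) := by positivity
    nlinarith
  have h6 : (E.card : ℝ) * (κ * (η' * H / (4 * L))) ≤ κ * ((H : ℝ) * ((Y : ℝ) * (2 / Q) + (Y : ℝ) / H)) := by
    calc (E.card : ℝ) * (κ * (η' * H / (4 * L))) = ∑ _x ∈ E, κ * (η' * H / (4 * L)) := by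
          rw [sum_const, nsmul_eq_mul]
      _ ≤ ∑ x ∈ E, ∑ q ∈ P2, (mu S q H (M + x) : ℝ) := sum_le_sum hlow
      _ ≤ ∑ x ∈ Icc 1 Y, ∑ q ∈ P2, (mu S q H (M + x) : ℝ) :=
          sum_le_sum_of_subset_of_nonneg (filter_subset _ _) fun _ _ _ =>
            sum_nonneg fun _ _ => Nat.cast_nonneg _
      _ ≤ _ := hmean
  have h6' : (E.card : ℝ) * (η' * H / (4 * L)) ≤ (H : ℝ) * ((Y : ℝ) * (2 / Q) + (Y : ℝ) / H) := by
    have h7 : (κ : ℝ) * ((E.card : ℝ) * (η' * H / (4 * L))) ≤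
        κ * ((H : ℝ) * ((Y : ℝ) * (2 / Q) + (Y : ℝ) / H)) := by
      calc (κ : ℝ) * ((E.card : ℝ) * (η' * H / (4 * L))) = (E.card : ℝ) * (κ * (η' * H / (4 * L))) := by ring
        _ ≤ _ := h6
    exact le_of_mul_le_mul_left h7 (by linarith)
  have hpos : 0 < η' * H / (4 * L) := by positivity
  rw [← le_div_iff₀ hpos] at h6'
  refine h6'.trans ?_
  have e4 : (H : ℝ) * ((Y : ℝ) * (2 / Q) + (Y : ℝ) / H) / (η' * H / (4 * L)) =
      4 / η' * (16 / η' * ((Y : ℝ) * L ^ 2 / H) + (Y : ℝ) * L / H) := by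
    rw [hQ]
    field_simp
    ring
  rw [e4]
  have h7 : (Y : ℝ) * L / H ≤ Y * L ^ 2 / H := by
    apply div_le_div_of_nonneg_right _ hH0.le
    apply mul_le_mul_of_nonneg_left _ hY0
    nlinarith
  have h8 : 0 < 4 / η' := by positivity
  calc 4 / η' * (16 / η' * (Y * L ^ 2 / H) + Y * L / H) ≤
        4 / η' * (16 / η' * (Y * L ^ 2 / H) + Y * L ^ 2 / H) := by gcongr
    _ = 4 / η' * (16 / η' + 1) * (Y * L ^ 2 / H) := by ring



open Classical in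
/-- **The weighted sieve** for the densities of a quadratic polynomial. -/
theorem lowerG (𝓕 : Set (ℤ → ℤ)) (hF : Fam 𝓕)
    (τ ζ υ lam τ' : ℝ) (hζ : 0 < ζ) (h2 : 2 * ζ < τ) (h4 : τ ≤ 4 * ζ)
    (hτ : τ ≤ 1) (hζυ : ζ ≤ υ) (hυτ : υ < τ) (hlam : 0 < lam)
    (hJ0 : ∫ x in ζ..υ, (lam - lam / υ * x) / (τ - x) / x < Real.log (τ / ζ - 1) / τ)
    (h5 : τ < τ') :
    ∃ δ : ℝ, 0 < δ ∧ ∃ Y0 : ℕ, ∀ Y : ℕ, Y0 ≤ Y →
      ∃ c : Finset ℕ → ℝ, (∀ T, |c T| ≤ 5 * Real.log Y) ∧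
      (∀ T ⊆ PZ Y υ, c T ≠ 0 → ((∏ p ∈ T, p : ℕ) : ℝ) ≤ (Y : ℝ) ^ τ') ∧
      ∀ F ∈ 𝓕, ∀ (J : Finset ℕ) (a : ℕ → ℕ),
        δ * J.card / Real.log Y + ∑ T ∈ (PZ Y υ).powerset, c T *
          (((J.filter (fun j => ∏ p ∈ T, p ∣ a j)).card : ℝ) -
            J.card * ∏ p ∈ T, ((rt F p : ℝ) / p)) ≤
          ((J.filter (fun j => 0 < WW Y ζ υ lam (lam / υ) (a j))).card : ℝ) := by
  have hυ0 : 0 < υ := by linarith
  obtain ⟨ε₁, η, f, hε₁, hε₁ζ, hε₁β, hη, hf, Y1, HC⟩ :=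
    core3 2 τ ζ υ lam (lam / υ) τ' 1 hζ h2 h4 hτ hζυ hυτ hlam.le (by positivity)
      (by rw [div_mul_cancel₀ _ hυ0.ne']) hJ0 h5 one_pos
  obtain ⟨Y2, HM⟩ := hF.mer ε₁ υ η hε₁ (by linarith) hη
  obtain ⟨c0, hc0, HP⟩ := hF.lo
  refine ⟨f * c0, by positivity, max (max Y1 Y2) 3, fun Y hY => ?_⟩
  have hY1 : Y1 ≤ Y := ((le_max_left _ _).trans (le_max_left _ _)).trans hY
  have hY2 : Y2 ≤ Y := ((le_max_right _ _).trans (le_max_left _ _)).trans hY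
  have hY3 : 3 ≤ Y := (le_max_right _ _).trans hY
  obtain ⟨c, hcL, hcD, hcN, hcV⟩ := HC Y hY1
  refine ⟨c, hcL, hcD, ?_⟩
  intro F hFF J a
  obtain ⟨h, hh⟩ : ∃ h : ℕ → ℝ, h = fun p => (rt F p : ℝ) / p := ⟨_, rfl⟩
  have hPZ : ∀ w : ℝ, ∀ p ∈ PZ Y w, p.Prime ∧ p ≤ Y := by
    intro w p hp
    unfold PZ at hp
    rw [mem_filter, mem_Icc] at hp
    exact ⟨hp.2.1, hp.1.2⟩
  have hJr : (0 : ℝ) ≤ J.card := Nat.cast_nonneg _
  have hlY : 0 < Real.log Y := by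
    apply Real.log_pos
    have : (3 : ℝ) ≤ Y := by exact_mod_cast hY3
    linarith
  have hh01 : ∀ p : ℕ, p.Prime → 0 ≤ h p ∧ h p ≤ 1 ∧ h p ≤ 2 / p := by
    intro p hp
    have hp0 : (0 : ℝ) < p := by exact_mod_cast hp.pos
    have h1 : (rt F p : ℝ) < p := by exact_mod_cast hF.adm F hFF p hp
    have h2 : (rt F p : ℝ) ≤ 2 := by exact_mod_cast hF.two F hFF p hp
    rw [hh]
    refine ⟨by positivity, ?_, ?_⟩
    · show (rt F p : ℝ) / p ≤ 1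
      rw [div_le_one hp0]
      exact h1.le
    · exact div_le_div_of_nonneg_right h2 hp0.le
  have hmain := hcV h (fun p hp => (hh01 p (hPZ υ p hp).1).1)
    (fun p hp => (hh01 p (hPZ ε₁ p hp).1).2.1) (by
    intro p hp _
    have hp2 : (2 : ℝ) ≤ p := by exact_mod_cast (hPZ ε₁ p hp).1.two_le
    refine ((hh01 p (hPZ ε₁ p hp).1).2.2).trans ?_
    push_cast
    apply div_le_div_of_nonneg_left (by norm_num) (by linarith)
    linarith) (by rw [hh]; exact HM Y hY2 F hFF)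
  have hlow : c0 / Real.log Y ≤ ∏ p ∈ PZ Y ε₁, (1 - h p) := by
    rw [hh]
    apply HP F hFF Y hY3 (PZ Y ε₁)
    intro p hp
    rw [mem_filter, mem_Icc]
    exact ⟨⟨(hPZ ε₁ p hp).1.one_le, (hPZ ε₁ p hp).2⟩, (hPZ ε₁ p hp).1⟩
  have hmain' : f * (c0 / Real.log Y) ≤ VV (PZ Y υ) c h :=
    (mul_le_mul_of_nonneg_left hlow hf.le).trans hmain
  -- the sieve inequality
  have hs : (J.card : ℝ) * VV (PZ Y υ) c h +
      ∑ T ∈ (PZ Y υ).powerset, c T * (((J.filter (fun j => ∏ p ∈ T, p ∣ a j)).card : ℝ) -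
          J.card * ∏ p ∈ T, h p) ≤
      ((J.filter (fun j => 0 < WW Y ζ υ lam (lam / υ) (a j))).card : ℝ) := by
    have h6 : (J.card : ℝ) * VV (PZ Y υ) c h +
      ∑ T ∈ (PZ Y υ).powerset, c T * (((J.filter (fun j => ∏ p ∈ T, p ∣ a j)).card : ℝ) -
          J.card * ∏ p ∈ T, h p) =
      ∑ T ∈ (PZ Y υ).powerset, c T * ((J.filter (fun j => ∏ p ∈ T, p ∣ a j)).card : ℝ) := by
      unfold VV
      rw [mul_sum, ← sum_add_distrib]
      apply sum_congr rfl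
      intro T _
      ring
    have h7 : ∑ T ∈ (PZ Y υ).powerset, c T * ((J.filter (fun j => ∏ p ∈ T, p ∣ a j)).card : ℝ) =
        ∑ j ∈ J, VV (PZ Y υ) c (fun p => if p ∣ a j then 1 else 0) := by
      unfold VV
      rw [sum_comm]
      apply sum_congr rfl
      intro T hT
      rw [mem_powerset] at hT
      rw [card_filter]
      push_cast
      rw [mul_sum]
      apply sum_congr rfl
      intro j _
      rw [Pool.Agent.Y882.PX.prod_ind T (fun p hp => (hPZ υ p (hT hp)).1)]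
    rw [h6, h7, card_filter]
    push_cast
    apply sum_le_sum
    intro j _
    refine (hcN (a j)).trans ?_
    split_ifs with h
    · exact WW_le_one Y ζ υ lam (lam / υ) (by positivity) (by rw [div_mul_cancel₀ _ hυ0.ne']) (a j)
    · exact not_lt.1 h
  have hm1 := mul_le_mul_of_nonneg_left hmain' hJr
  have e1 : f * c0 * J.card / Real.log Y = (J.card : ℝ) * (f * (c0 / Real.log Y)) := by ring
  rw [e1]
  rw [hh] at hs hm1
  linarith



theorem windowsG (𝓕 : Set (ℤ → ℤ)) (hFam : Fam 𝓕) (m : ℕ) (hm : 1 ≤ m)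
    (r : ℕ) (hr : 1 ≤ r) (τ τ' : ℝ) (hτ0 : 0 < τ) (hτ1 : m * τ' ≤ 1) (h : 1 < τ * Lam r)
    (hττ : τ < τ') : ∃ σ δ C₀ : ℝ, 0 < σ ∧ 0 < δ ∧ 0 < C₀ ∧ ∃ X₀ : ℕ, ∀ X : ℕ, X₀ ≤ X → ∀ F ∈ 𝓕,
    (∀ n : ℕ, n ≤ 4 * X → ((F (n : ℤ)).natAbs : ℝ) ≤ (X : ℝ) ^ (m * (1 + σ))) → ∀ M Y : ℕ,
    M + Y ≤ 3 * X → (X : ℝ) ^ (2 * (m * τ')) ≤ Y → ∀ H : ℕ, 1 ≤ H → (H : ℝ) ≤ (X : ℝ) ^ (m * τ') →
    (((Icc 1 Y).filter (fun x => ((goodF F r ((X : ℝ) ^ (m * (τ / 4))) H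
      (M + x)).card : ℝ) < δ * H / Real.log X)).card : ℝ) ≤ C₀ * (Y * Real.log X ^ 12 / H) := by
  classical
  have hmr : (1 : ℝ) ≤ m := by exact_mod_cast hm
  have hm0 : (0 : ℝ) < m := by linarith
  have hτ'0 : 0 < τ' := by linarith
  have hτ'1 : τ' ≤ 1 := by nlinarith
  obtain ⟨υ, lam, S, hζυ, hυτ, hlam, hS, hrS, hint⟩ := richert r hr τ hτ0 h
  obtain ⟨δ₀, hδ₀, Y0, HL⟩ := lowerG 𝓕 hFam τ (τ / 4) υ lam τ' (by linarith)
    (by linarith) (by linarith) (by linarith) hζυ hυτ hlam hint hττ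
  obtain ⟨C₁, hC₁, HM⟩ := mean_sq 2
  obtain ⟨Ks, hKs⟩ := hFam.sq
  obtain ⟨C₂, hC₂, X2, HS⟩ := sq_genU 2 (by norm_num) 𝓕 Ks hKs
    (τ / 4) υ τ' (δ₀ / 4) (by linarith) (by linarith) (by linarith)
  refine ⟨S - 1, δ₀ / (4 * m), (2 * C₁ * (4 / δ₀ ^ 2) + C₂) * (m : ℝ) ^ 12, by linarith, by positivity,
    by positivity, max (max Y0 X2) (max 3 3), ?_⟩
  intro X hX F hFF hsize M Y hMY hYX H hH hHX
  have hper : Per F := hFam.per F hFF
  obtain ⟨Sq, hSq⟩ : ∃ Sq : ℕ → ℕ → Prop, Sq = fun (q n : ℕ) => ((q ^ 2 : ℕ) : ℤ) ∣ F (n : ℤ) := ⟨_, rfl⟩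
  have hX3' : 3 ≤ X := ((le_max_right _ _).trans (le_max_right _ _)).trans hX
  have hXr : (3 : ℝ) ≤ X := by exact_mod_cast hX3'
  have hX0 : (0 : ℝ) < X := by linarith
  obtain ⟨Z, hZ⟩ : ∃ Z : ℕ, Z = X ^ m := ⟨_, rfl⟩
  have hXZ : X ≤ Z := by
    rw [hZ]
    exact Nat.le_self_pow (by omega) X
  have hZr : (Z : ℝ) = (X : ℝ) ^ m := by
    rw [hZ]
    push_cast
    rfl
  have hZ3 : 3 ≤ Z := hX3'.trans hXZ
  have hZY : Y0 ≤ Z := (((le_max_left _ _).trans (le_max_left _ _)).trans hX).trans hXZ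
  have hZX2 : X2 ≤ Z := (((le_max_right _ _).trans (le_max_left _ _)).trans hX).trans hXZ
  have hZ0 : (0 : ℝ) < Z := by rw [hZr]; positivity
  have hpow : ∀ s : ℝ, (Z : ℝ) ^ s = (X : ℝ) ^ (m * s) := by
    intro s
    rw [hZr, ← Real.rpow_natCast, ← Real.rpow_mul hX0.le]
  have hlog : Real.log Z = m * Real.log X := by
    rw [hZr, Real.log_pow]
  have hHr : (1 : ℝ) ≤ H := by exact_mod_cast hH
  have hH0 : (0 : ℝ) < H := by linarith
  have hY0 : (0 : ℝ) ≤ Y := Nat.cast_nonneg _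
  have hHX' : H ≤ X := by
    have h1 : (H : ℝ) ≤ X := by
      refine hHX.trans ?_
      calc (X : ℝ) ^ (m * τ') ≤ (X : ℝ) ^ (1 : ℝ) :=
            Real.rpow_le_rpow_of_exponent_le (by linarith) hτ1
        _ = X := Real.rpow_one _
    exact_mod_cast h1
  have hL1 : 1 ≤ Real.log X := by
    have : Real.exp 1 ≤ X := by linarith [Real.exp_one_lt_d9]
    rw [Real.le_log_iff_exp_le hX0]
    exact this
  have hL0 : 0 < Real.log X := by linarith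
  have hLZ0 : 0 < Real.log Z := by rw [hlog]; positivity
  have hLZ1 : 1 ≤ Real.log Z := by rw [hlog]; nlinarith
  obtain ⟨c, hcL, hcD, hcV⟩ := HL Z hZY
  have hPZ : ∀ p ∈ PZ Z υ, p.Prime ∧ p ≤ Z := by
    intro p hp
    unfold PZ at hp
    rw [mem_filter, mem_Icc] at hp
    exact ⟨hp.2.1, hp.1.2⟩
  set D : ℕ := ⌊(Z : ℝ) ^ τ'⌋₊ with hD
  have hDr : (D : ℝ) ≤ (Z : ℝ) ^ τ' := Nat.floor_le (by positivity)
  obtain ⟨I, hI⟩ : ∃ I : ℕ → Finset ℕ, I = fun q => RM F M q := ⟨_, rfl⟩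
  have hIq : ∀ q : ℕ, q.Prime → ∀ n : ℕ, (n % q ∈ I q ↔ (q : ℤ) ∣ F ((M + n : ℕ) : ℤ)) := by
    intro q hq n
    rw [hI]
    exact mem_RM hper M hq.pos n
  have hIc : ∀ q : ℕ, (I q).card = rt F q := by
    intro q
    rw [hI]
    exact card_RM hper M q
  have hmean := HM Z hZ3 υ c I D (fun q hq => by
    rw [hI]
    exact filter_subset _ _) (fun q hq => by
    rw [hIc]
    exact hFam.two F hFF q hq) (fun T hT hT0 => Nat.le_floor (by
      have := hcD T hT hT0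
      exact_mod_cast this)) hcL Y H
  have hmean2 : ∑ x ∈ Icc 1 Y, Rem (PZ Z υ) c I H x ^ 2 ≤ 2 * C₁ * (Y * H * Real.log Z ^ 10) := by
    refine hmean.trans ?_
    have h1 : (D : ℝ) ^ 2 ≤ Y := by
      calc (D : ℝ) ^ 2 ≤ ((Z : ℝ) ^ τ') ^ 2 := pow_le_pow_left₀ (Nat.cast_nonneg _) hDr 2
        _ = (Z : ℝ) ^ (2 * τ') := by
          rw [← Real.rpow_natCast, ← Real.rpow_mul hZ0.le]
          congr 1
          push_cast
          ring
        _ = (X : ℝ) ^ (2 * (m * τ')) := by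
          rw [hpow]
          congr 1
          ring
        _ ≤ Y := hYX
    norm_num
    calc C₁ * (((Y : ℝ) + (D : ℝ) ^ 2) * H * Real.log Z ^ 10) ≤ C₁ * (((Y : ℝ) + Y) * H * Real.log Z ^ 10) := by
          gcongr
      _ = 2 * C₁ * (Y * H * Real.log Z ^ 10) := by ring
  -- the sieve inequality
  have hsieve : ∀ x ∈ Icc 1 Y, δ₀ * H / Real.log Z + Rem (PZ Z υ) c I H x ≤
      ((goodF F r ((X : ℝ) ^ (m * (τ / 4))) H (M + x)).card : ℝ) +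
        ((sqg Sq Z (τ / 4) υ H (M + x)).card : ℝ) := by
    intro x hx
    rw [mem_Icc] at hx
    have h1 := hcV F hFF (Icc 1 H) (fun j => (F ((M + x + j : ℕ) : ℤ)).natAbs)
    have h2 : ∑ T ∈ (PZ Z υ).powerset, c T *
          ((((Icc 1 H).filter (fun j => ∏ p ∈ T, p ∣ (F ((M + x + j : ℕ) : ℤ)).natAbs)).card : ℝ) -
            (Icc 1 H).card * ∏ p ∈ T, ((rt F p : ℝ) / p)) =
        Rem (PZ Z υ) c I H x := by
      unfold Rem
      refine sum_congr rfl fun T hT => ?_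
      rw [mem_powerset] at hT
      congr 2
      · congr 2
        apply filter_congr
        intro j _
        rw [prod_dvd_iff T (fun p hp => (hPZ p (hT hp)).1)]
        constructor
        · intro h3 q hq
          rw [hIq q (hPZ q (hT hq)).1, ← add_assoc]
          exact Int.natCast_dvd.2 (Nat.dvd_of_mod_eq_zero (mem_singleton.1 (h3 q hq)))
        · intro h3 q hq
          rw [mem_singleton]
          have := (hIq q (hPZ q (hT hq)).1 (x + j)).1 (h3 q hq)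
          rw [← add_assoc] at this
          exact Nat.mod_eq_zero_of_dvd (Int.natCast_dvd.1 this)
      · rw [Nat.card_Icc, Nat.add_sub_cancel]
        congr 1
        apply prod_congr rfl
        intro q _
        rw [hIc]
    rw [h2, Nat.card_Icc, Nat.add_sub_cancel] at h1
    refine h1.trans ?_
    have h3 : (Icc 1 H).filter (fun j => 0 < WW Z (τ / 4) υ lam (lam / υ) (F ((M + x + j : ℕ) : ℤ)).natAbs) ⊆
        goodF F r ((X : ℝ) ^ (m * (τ / 4))) H (M + x) ∪ sqg Sq Z (τ / 4) υ H (M + x) := by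
      intro j hj
      rw [mem_filter] at hj
      have hj1 := mem_Icc.1 hj.1
      rw [mem_union]
      by_cases hs : ∃ q ∈ pr Z (τ / 4) υ, Sq q (M + x + j)
      · right
        unfold sqg
        rw [mem_filter]
        exact ⟨hj.1, hs⟩
      · left
        push Not at hs
        unfold goodF
        rw [mem_filter]
        refine ⟨hj.1, ?_⟩
        have hne : F ((M + x + j : ℕ) : ℤ) ≠ 0 := hFam.ne F hFF _
        have h4 := almost Z (by omega) (τ / 4) υ lam S r hζυ (by linarith) (by linarith) hlam hrS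
          (F ((M + x + j : ℕ) : ℤ)).natAbs (Int.natAbs_ne_zero.2 hne) (by
          have e2 := hsize (M + x + j) (by omega)
          refine e2.trans (le_of_eq ?_)
          rw [hpow]
          congr 1
          ring) hj.2 (by
          intro q hq hqd
          apply hs q hq
          rw [hSq]
          exact Int.natCast_dvd.2 hqd)
        refine ⟨h4.1, ?_⟩
        intro q hq hqd
        have h5 := h4.2 q hq (Int.natCast_dvd.1 hqd)
        rw [hpow] at h5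
        exact h5
    have h4 := (card_le_card h3).trans (card_union_le _ _)
    exact_mod_cast h4
  -- the exceptional set
  set E := (Icc 1 Y).filter (fun x => ((goodF F r ((X : ℝ) ^ (m * (τ / 4))) H (M + x)).card : ℝ) <
      δ₀ / (4 * m) * H / Real.log X) with hE
  set E1 := (Icc 1 Y).filter (fun x => δ₀ / 4 * H / Real.log Z <
      ((sqg Sq Z (τ / 4) υ H (M + x)).card : ℝ)) with hE1
  set E2 := (Icc 1 Y).filter (fun x => (δ₀ * H / (2 * Real.log Z)) ^ 2 ≤ Rem (PZ Z υ) c I H x ^ 2)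
    with hE2
  have e8 : δ₀ / (4 * m) * H / Real.log X = δ₀ / 4 * H / Real.log Z := by
    rw [hlog]
    field_simp
  have hsub : E ⊆ E1 ∪ E2 := by
    intro x hx
    rw [hE, mem_filter] at hx
    rw [mem_union]
    by_cases h1 : δ₀ / 4 * H / Real.log Z < ((sqg Sq Z (τ / 4) υ H (M + x)).card : ℝ)
    · left
      rw [hE1, mem_filter]
      exact ⟨hx.1, h1⟩
    · right
      rw [hE2, mem_filter]
      refine ⟨hx.1, ?_⟩
      have h2 := hsieve x hx.1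
      have e1 : δ₀ * H / Real.log Z = δ₀ / 4 * H / Real.log Z + δ₀ / 4 * H / Real.log Z +
        δ₀ * H / (2 * Real.log Z) := by
        field_simp
        ring
      have hx2 := hx.2
      rw [e8] at hx2
      have h3 : Rem (PZ Z υ) c I H x ≤ - (δ₀ * H / (2 * Real.log Z)) := by
        linarith [not_lt.1 h1]
      have h4 : 0 ≤ δ₀ * H / (2 * Real.log Z) := by positivity
      nlinarith
  have hb1 := HS Z hZX2 F hFF M Y (by
    rw [hpow]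
    refine le_trans (le_of_eq ?_) hYX
    congr 1
    ring) H hH (by
    rw [hpow]
    exact hHX)
  have hpos : 0 < (δ₀ * H / (2 * Real.log Z)) ^ 2 := by positivity
  have hb2 : (E2.card : ℝ) * (δ₀ * H / (2 * Real.log Z)) ^ 2 ≤ 2 * C₁ * (Y * H * Real.log Z ^ 10) := by
    calc (E2.card : ℝ) * (δ₀ * H / (2 * Real.log Z)) ^ 2 = ∑ _x ∈ E2, (δ₀ * H / (2 * Real.log Z)) ^ 2 := by
          rw [sum_const, nsmul_eq_mul]
      _ ≤ ∑ x ∈ E2, Rem (PZ Z υ) c I H x ^ 2 := sum_le_sum fun x hx => by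
          rw [hE2, mem_filter] at hx
          exact hx.2
      _ ≤ ∑ x ∈ Icc 1 Y, Rem (PZ Z υ) c I H x ^ 2 :=
          sum_le_sum_of_subset_of_nonneg (by rw [hE2]; exact filter_subset _ _) fun _ _ _ => sq_nonneg _
      _ ≤ _ := hmean2
  rw [← le_div_iff₀ hpos] at hb2
  have hb3 : 2 * C₁ * (Y * H * Real.log Z ^ 10) / (δ₀ * H / (2 * Real.log Z)) ^ 2 =
      2 * C₁ * (4 / δ₀ ^ 2) * (Y * Real.log Z ^ 12 / H) := by
    field_simp
    ring
  have hb4 : C₂ * ((Y : ℝ) * Real.log Z ^ 2 / H) ≤ C₂ * (Y * Real.log Z ^ 12 / H) := by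
    have h5 : Real.log Z ^ 2 ≤ Real.log Z ^ 12 := pow_le_pow_right₀ hLZ1 (by norm_num)
    gcongr
  have hc : (E.card : ℝ) ≤ (E1.card : ℝ) + E2.card := by
    have := (card_le_card hsub).trans (card_union_le _ _)
    exact_mod_cast this
  rw [hb3] at hb2
  rw [← hSq] at hb1
  have e12 : (Y : ℝ) * Real.log Z ^ 12 / H = (m : ℝ) ^ 12 * (Y * Real.log X ^ 12 / H) := by
    rw [hlog]
    ring
  have hfin : (E.card : ℝ) ≤ (2 * C₁ * (4 / δ₀ ^ 2) + C₂) * (Y * Real.log Z ^ 12 / H) := by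
    rw [add_mul]
    linarith
  rw [e12] at hfin
  calc (E.card : ℝ) ≤ _ := hfin
    _ = _ := by ring



theorem everyG (𝓕 : Set (ℤ → ℤ)) (hFam : Fam 𝓕) (m : ℕ) (hm : 1 ≤ m)
    (r : ℕ) (hr : 1 ≤ r) (τ τ' : ℝ) (hτ0 : 0 < τ) (hτ1 : m * τ' ≤ 1 / 2) (h : 1 < τ * Lam r)
    (hττ : τ < τ') : ∃ σ δ : ℝ, 0 < σ ∧ 0 < δ ∧ ∃ X₀ : ℕ, ∀ X : ℕ, X₀ ≤ X → ∀ F ∈ 𝓕,
    (∀ n : ℕ, n ≤ 4 * X → ((F (n : ℤ)).natAbs : ℝ) ≤ (X : ℝ) ^ (m * (1 + σ))) → ∀ H : ℕ,
    (X : ℝ) ^ (m * τ') ≤ H → H ≤ X → ∀ x : ℕ, 1 ≤ x → x ≤ X →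
    δ * H / Real.log X ≤ ((goodF F r ((X : ℝ) ^ (m * (τ / 4))) H x).card : ℝ) := by
  classical
  have hmr : (1 : ℝ) ≤ m := by exact_mod_cast hm
  have hm0 : (0 : ℝ) < m := by linarith
  obtain ⟨τ₂, hτ₂⟩ : ∃ τ₂ : ℝ, τ₂ = (τ + τ') / 2 := ⟨_, rfl⟩
  have ha : τ < τ₂ := by linarith
  have hb : τ₂ < τ' := by linarith
  obtain ⟨σ, δ₁, C₀, hσ, hδ₁, hC₀, X1, H1⟩ := windowsG 𝓕 hFam m hm r hr τ τ₂ hτ0 (by nlinarith) h ha
  have ev1 : ∀ᶠ X : ℕ in atTop, (48 * C₀) * Real.log X ^ 12 * (X : ℝ) ^ (0 : ℝ) ≤ (X : ℝ) ^ (m * τ₂) :=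
    LP.log_pow_le (48 * C₀) 12 0 (m * τ₂) (by nlinarith)
  have ev2 : ∀ᶠ X : ℕ in atTop, (16 * C₀ + 8) * Real.log X ^ 12 * (X : ℝ) ^ (m * τ₂) ≤ (X : ℝ) ^ (m * τ') :=
    LP.log_pow_le (16 * C₀ + 8) 12 (m * τ₂) (m * τ') (by nlinarith)
  have ev3 : ∀ᶠ X : ℕ in atTop, (2 : ℝ) ≤ (X : ℝ) ^ (m * τ₂) :=
    ((tendsto_rpow_atTop (by nlinarith)).comp tendsto_natCast_atTop_atTop).eventually_ge_atTop _
  obtain ⟨X2, hX2⟩ := eventually_atTop.1 (ev1.and (ev2.and ev3))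
  refine ⟨σ, δ₁ / 2, hσ, by positivity, max (max X1 X2) 3, ?_⟩
  intro X hX F hFF hsize H hHX hHX' x hx hxX
  have hXX1 : X1 ≤ X := ((le_max_left _ _).trans (le_max_left _ _)).trans hX
  obtain ⟨w1, w2, w3⟩ := hX2 X (((le_max_right _ _).trans (le_max_left _ _)).trans hX)
  have hX3 : 3 ≤ X := (le_max_right _ _).trans hX
  have hXr : (3 : ℝ) ≤ X := by exact_mod_cast hX3
  have hX0 : (0 : ℝ) < X := by linarith
  have hL1 : 1 ≤ Real.log X := by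
    have : Real.exp 1 ≤ X := by linarith [Real.exp_one_lt_d9]
    rw [Real.le_log_iff_exp_le hX0]
    exact this
  have hL0 : 0 < Real.log X := by linarith
  have hL12 : 1 ≤ Real.log X ^ 12 := one_le_pow₀ hL1
  rw [Real.rpow_zero, mul_one] at w1
  obtain ⟨T, hT⟩ : ∃ T : ℝ, T = (X : ℝ) ^ (m * τ₂) := ⟨_, rfl⟩
  rw [← hT] at w1 w2 w3
  have hT0 : 0 < T := by linarith
  obtain ⟨L, hL⟩ : ∃ L : ℕ, L = ⌊T⌋₊ := ⟨_, rfl⟩
  have hLT : (L : ℝ) ≤ T := by rw [hL]; exact Nat.floor_le hT0.le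
  have hLT2 : T / 2 ≤ L := by
    have := Nat.lt_floor_add_one T
    rw [← hL] at this
    linarith
  have hL1' : 1 ≤ L := by
    rw [hL]
    exact Nat.le_floor (by push_cast; linarith)
  have hLr0 : (0 : ℝ) < L := by exact_mod_cast hL1'
  have hH0 : (0 : ℝ) < H := lt_of_lt_of_le (by positivity) hHX
  have hH1 : (1 : ℝ) ≤ H := by exact_mod_cast (by exact_mod_cast hH0 : 0 < H)
  obtain ⟨Y, hY⟩ : ∃ Y : ℕ, Y = max (1 + H) ⌈(X : ℝ) ^ (2 * (m * τ₂))⌉₊ := ⟨_, rfl⟩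
  have hX4 : (X : ℝ) ^ (2 * (m * τ₂)) ≤ X := by
    calc (X : ℝ) ^ (2 * (m * τ₂)) ≤ (X : ℝ) ^ (1 : ℝ) :=
          Real.rpow_le_rpow_of_exponent_le (by linarith) (by nlinarith)
      _ = X := Real.rpow_one _
  have hYX : (X : ℝ) ^ (2 * (m * τ₂)) ≤ Y := by
    rw [hY]
    refine (Nat.le_ceil _).trans ?_
    exact_mod_cast le_max_right _ _
  have hYle : Y ≤ X + 1 := by
    rw [hY]
    apply max_le
    · omega
    · have : ⌈(X : ℝ) ^ (2 * (m * τ₂))⌉₊ ≤ X := Nat.ceil_le.2 hX4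
      omega
  have hTT : (X : ℝ) ^ (2 * (m * τ₂)) = T * T := by
    rw [hT, ← Real.rpow_add hX0]
    congr 1
    ring
  have hYr : (Y : ℝ) ≤ 3 * H + T * T := by
    rw [hY]
    push_cast
    apply max_le
    · nlinarith
    · have h5 := Nat.ceil_lt_add_one (show 0 ≤ (X : ℝ) ^ (2 * (m * τ₂)) by positivity)
      rw [hTT] at h5 ⊢
      linarith
  have hbad := H1 X hXX1 F hFF hsize (x - 1) Y (by omega) hYX L hL1' (by rw [← hT]; exact hLT)
  have hE : C₀ * (Y * Real.log X ^ 12 / L) ≤ H / 4 := by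
    rw [mul_div_assoc', div_le_iff₀ hLr0]
    have h5 : C₀ * (Y * Real.log X ^ 12) ≤ C₀ * ((3 * H + T * T) * Real.log X ^ 12) := by gcongr
    refine h5.trans ?_
    have h6 : (48 * C₀ * Real.log X ^ 12) * H ≤ T * H := mul_le_mul_of_nonneg_right w1 hH0.le
    have h7 : ((16 * C₀ + 8) * Real.log X ^ 12 * T) * T ≤ H * T :=
      mul_le_mul_of_nonneg_right (w2.trans hHX) hT0.le
    have h8 : 0 ≤ 8 * Real.log X ^ 12 * T * T := by positivity
    have h9 : H / 4 * (T / 2) ≤ H / 4 * L := mul_le_mul_of_nonneg_left hLT2 (by positivity)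
    nlinarith
  have hLH : (L : ℝ) ≤ H / 4 := by
    have h5 : 8 * T ≤ (16 * C₀ + 8) * Real.log X ^ 12 * T := by
      have h6 : 8 ≤ (16 * C₀ + 8) * Real.log X ^ 12 := by nlinarith
      exact mul_le_mul_of_nonneg_right h6 hT0.le
    linarith
  have hLHn : L ≤ H := by
    have : (L : ℝ) ≤ H := by linarith
    exact_mod_cast this
  have hfin := long_good F r ((X : ℝ) ^ (m * (τ / 4))) x L H Y
    (δ₁ * L / Real.log X) (C₀ * (Y * Real.log X ^ 12 / L)) (by omega) hLHn hx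
    (by rw [hY]; exact le_max_left _ _) (by positivity) hbad
  have h5 : H / 2 * (δ₁ * L / Real.log X) ≤
      (H - L - C₀ * (Y * Real.log X ^ 12 / L)) * (δ₁ * L / Real.log X) := by
    apply mul_le_mul_of_nonneg_right _ (by positivity)
    linarith
  have h6 := h5.trans hfin
  have h7 : (L : ℝ) * (δ₁ / 2 * H / Real.log X) ≤ L *
      ((goodF F r ((X : ℝ) ^ (m * (τ / 4))) H x).card : ℝ) := by
    refine le_trans (le_of_eq ?_) h6
    ring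
  exact le_of_mul_le_mul_left h7 hLr0

open Classical in
theorem uniformG (𝓕 : Set (ℤ → ℤ)) (hFam : Fam 𝓕) (m : ℕ) (hm : 1 ≤ m)
    (r : ℕ) (hr : 1 ≤ r) (τ τ' : ℝ) (hτ0 : 0 < τ) (hτ1 : m * τ' ≤ 1 / 2) (h : 1 < τ * Lam r)
    (hττ : τ < τ') : ∃ σ δ C₀ : ℝ, 0 < σ ∧ 0 < δ ∧ 0 < C₀ ∧ ∃ X₀ : ℕ, ∀ X : ℕ, X₀ ≤ X → ∀ F ∈ 𝓕,
    (∀ n : ℕ, n ≤ 4 * X → ((F (n : ℤ)).natAbs : ℝ) ≤ (X : ℝ) ^ (m * (1 + σ))) → ∀ M Y : ℕ, M + Y ≤ X →
    (X : ℝ) ^ (2 * (m * τ')) ≤ Y → ∀ H₀ : ℝ, 1 ≤ H₀ →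
    (((Icc 1 Y).filter (fun x => ∃ H : ℕ, H₀ ≤ H ∧ H ≤ X ∧
      ((goodF F r ((X : ℝ) ^ (m * (τ / 4))) H (M + x)).card : ℝ) <
        δ * H / Real.log X)).card : ℝ) ≤ C₀ * (Y * Real.log X ^ 12 / H₀) := by
  classical
  obtain ⟨σ₁, δ₁, C₀, hσ₁, hδ₁, hC₀, X1, H1⟩ := windowsG 𝓕 hFam m hm r hr τ τ' hτ0 (by linarith) h hττ
  obtain ⟨σ₂, δ₂, hσ₂, hδ₂, X2, H2⟩ := everyG 𝓕 hFam m hm r hr τ τ' hτ0 hτ1 h hττ
  refine ⟨min σ₁ σ₂, min δ₁ δ₂ / 2, 4 * C₀, by positivity, by positivity, by positivity, max (max X1 X2) 3, ?_⟩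
  intro X hX F hFF hsize M Y hMY hYX H₀ hH₀
  have e1 : X1 ≤ X := ((le_max_left _ _).trans (le_max_left _ _)).trans hX
  have e2 : X2 ≤ X := ((le_max_right _ _).trans (le_max_left _ _)).trans hX
  have e3 : 3 ≤ X := (le_max_right _ _).trans hX
  have hXr : (3 : ℝ) ≤ X := by exact_mod_cast e3
  have hL0 : 0 < Real.log X := Real.log_pos (by linarith)
  have hs1 : ∀ n : ℕ, n ≤ 4 * X → ((F (n : ℤ)).natAbs : ℝ) ≤ (X : ℝ) ^ (m * (1 + σ₁)) := by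
    intro n hn
    refine (hsize n hn).trans (Real.rpow_le_rpow_of_exponent_le (by linarith) ?_)
    exact mul_le_mul_of_nonneg_left (by linarith [min_le_left σ₁ σ₂]) (Nat.cast_nonneg _)
  have hs2 : ∀ n : ℕ, n ≤ 4 * X → ((F (n : ℤ)).natAbs : ℝ) ≤ (X : ℝ) ^ (m * (1 + σ₂)) := by
    intro n hn
    refine (hsize n hn).trans (Real.rpow_le_rpow_of_exponent_le (by linarith) ?_)
    exact mul_le_mul_of_nonneg_left (by linarith [min_le_right σ₁ σ₂]) (Nat.cast_nonneg _)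
  set K : Finset ℕ := (range (X + 1)).filter (fun k => H₀ ≤ 2 ^ (k + 1) ∧ (2 : ℝ) ^ k ≤ (X : ℝ) ^ (m * τ')) with hK
  have hsub : (Icc 1 Y).filter (fun x => ∃ H : ℕ, H₀ ≤ H ∧ H ≤ X ∧
      ((goodF F r ((X : ℝ) ^ (m * (τ / 4))) H (M + x)).card : ℝ) < min δ₁ δ₂ / 2 * H / Real.log X) ⊆
      K.biUnion (fun k => (Icc 1 Y).filter (fun x =>
        ((goodF F r ((X : ℝ) ^ (m * (τ / 4))) (2 ^ k) (M + x)).card : ℝ) < δ₁ * ((2 ^ k : ℕ) : ℝ) / Real.log X)) := by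
    intro x hx
    rw [mem_filter] at hx
    obtain ⟨hx1, H, hH1, hH2, hH3⟩ := hx
    have hHr : (1 : ℝ) ≤ H := hH₀.trans hH1
    have hH4 : 1 ≤ H := by exact_mod_cast hHr
    obtain ⟨k, hk⟩ : ∃ k, k = Nat.log 2 H := ⟨_, rfl⟩
    have hk1 : 2 ^ k ≤ H := by
      rw [hk]
      exact Nat.pow_log_le_self 2 (by omega)
    have hk2 : H < 2 ^ (k + 1) := by
      rw [hk]
      exact Nat.lt_pow_succ_log_self (by norm_num) H
    have hk3 : k < 2 ^ k := Nat.lt_two_pow_self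
    have hk2r : (H : ℝ) ≤ 2 * (2 : ℝ) ^ k := by
      have : (H : ℝ) ≤ 2 ^ (k + 1) := by exact_mod_cast hk2.le
      rw [pow_succ] at this
      linarith
    have h5 : ((goodF F r ((X : ℝ) ^ (m * (τ / 4))) (2 ^ k) (M + x)).card : ℝ) <
        min δ₁ δ₂ * ((2 ^ k : ℕ) : ℝ) / Real.log X := by
      have h6 : ((goodF F r ((X : ℝ) ^ (m * (τ / 4))) (2 ^ k) (M + x)).card : ℝ) ≤
          ((goodF F r ((X : ℝ) ^ (m * (τ / 4))) H (M + x)).card : ℝ) := by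
        exact_mod_cast goodF_mono F r _ hk1 (M + x)
      refine (h6.trans_lt hH3).trans_le ?_
      apply div_le_div_of_nonneg_right _ hL0.le
      push_cast
      have h7 : 0 < min δ₁ δ₂ := by positivity
      nlinarith
    have hx2 := mem_Icc.1 hx1
    have h8 : (2 : ℝ) ^ k ≤ (X : ℝ) ^ (m * τ') := by
      by_contra hcon
      rw [not_le] at hcon
      have h9 := H2 X e2 F hFF hs2 (2 ^ k) (by push_cast; exact hcon.le) (hk1.trans hH2) (M + x) (by omega) (by omega)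
      have h10 : min δ₁ δ₂ * ((2 ^ k : ℕ) : ℝ) / Real.log X ≤ δ₂ * ((2 ^ k : ℕ) : ℝ) / Real.log X := by
        apply div_le_div_of_nonneg_right _ hL0.le
        exact mul_le_mul_of_nonneg_right (min_le_right _ _) (Nat.cast_nonneg _)
      linarith
    rw [mem_biUnion]
    refine ⟨k, ?_, ?_⟩
    · rw [hK, mem_filter, mem_range]
      refine ⟨by omega, ?_, h8⟩
      rw [pow_succ]
      linarith
    · rw [mem_filter]
      refine ⟨hx1, h5.trans_le ?_⟩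
      apply div_le_div_of_nonneg_right _ hL0.le
      exact mul_le_mul_of_nonneg_right (min_le_left _ _) (Nat.cast_nonneg _)
  have hcard := (card_le_card hsub).trans card_biUnion_le
  have hcardr : (((Icc 1 Y).filter (fun x => ∃ H : ℕ, H₀ ≤ H ∧ H ≤ X ∧
      ((goodF F r ((X : ℝ) ^ (m * (τ / 4))) H (M + x)).card : ℝ) < min δ₁ δ₂ / 2 * H / Real.log X)).card : ℝ) ≤
      ∑ k ∈ K, (((Icc 1 Y).filter (fun x =>
        ((goodF F r ((X : ℝ) ^ (m * (τ / 4))) (2 ^ k) (M + x)).card : ℝ) <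
          δ₁ * ((2 ^ k : ℕ) : ℝ) / Real.log X)).card : ℝ) := by
    exact_mod_cast hcard
  refine hcardr.trans ?_
  have hterm : ∀ k ∈ K, (((Icc 1 Y).filter (fun x =>
        ((goodF F r ((X : ℝ) ^ (m * (τ / 4))) (2 ^ k) (M + x)).card : ℝ) <
          δ₁ * ((2 ^ k : ℕ) : ℝ) / Real.log X)).card : ℝ) ≤ C₀ * (Y * Real.log X ^ 12) * (1 / 2 ^ k) := by
    intro k hk
    rw [hK, mem_filter] at hk
    have h5 := H1 X e1 F hFF hs1 M Y (by omega) hYX (2 ^ k) Nat.one_le_two_pow (by push_cast; exact hk.2.2)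
    refine h5.trans (le_of_eq ?_)
    push_cast
    ring
  refine (sum_le_sum hterm).trans ?_
  rw [← mul_sum]
  have h6 := half_set K H₀ (by linarith) (fun k hk => by
    rw [hK, mem_filter] at hk
    exact hk.2.1)
  calc C₀ * (Y * Real.log X ^ 12) * ∑ k ∈ K, 1 / (2 : ℝ) ^ k ≤ C₀ * (Y * Real.log X ^ 12) * (4 / H₀) := by
        apply mul_le_mul_of_nonneg_left h6 (by positivity)
    _ = 4 * C₀ * (Y * Real.log X ^ 12 / H₀) := by ring

end Pool.Agent.U607.QG2
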