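import Pool.Agent.U607.QgFin

set_option autoImplicit false

/-! The family `(a n + b) ^ 2 + c`, `c = 1, 4`, `a = 2 q`. -/

namespace Pool.Agent.U607.QG2

open Finset Filter
open Pool.Agent.W23.DC
open Pool.Agent.Y882
open Pool.Agent.Y882.PX
open Pool.Agent.Y882.KW
open Pool.Agent.Y882.SI
open Pool.Agent.K3h31
open Pool.Agent.U607.QD

/-- `(a n + b) ^ 2 + c` -/
def gf (a b c : ℤ) (n : ℤ) : ℤ := (a * n + b) ^ 2 + c

/-- the family: `a = 2 q` with a prime `q`, `c = 1` or `4`, no prime divisor of `a` divides a value -/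
def GF : Set (ℤ → ℤ) :=
  {F | ∃ (q : ℕ) (b c : ℤ), q.Prime ∧ (c = 1 ∨ c = 4) ∧
    (∀ p : ℕ, p.Prime → (p : ℤ) ∣ 2 * q → ∀ n : ℤ, ¬ (p : ℤ) ∣ gf (2 * q) b c n) ∧ F = gf (2 * q) b c}

theorem gf_QG (a b c n : ℤ) : gf a b c n = (QG (a ^ 2) (2 * a * b) (b ^ 2 + c)).eval n := by
  rw [QG_eval]
  unfold gf
  ring

theorem rt_gf (a b c : ℤ) (hc : c = 1 ∨ c = 4) (p : ℕ) (hp : p.Prime) (hpa : ¬ (p : ℤ) ∣ 2 * a) :
    rt (gf a b c) p = ro (QF 1) 0 p := by
  have hpZ : Prime (p : ℤ) := Nat.prime_iff_prime_int.1 hp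
  have hp2 : p ≠ 2 := by
    rintro rfl
    apply hpa
    exact ⟨a, by push_cast; ring⟩
  have hpa1 : ¬ (p : ℤ) ∣ a := fun h => hpa (h.mul_left 2)
  have hp2Z : ¬ (p : ℤ) ∣ 2 := fun h => hpa (h.mul_right a)
  have h1 : gf a b c = fun n => (QG (a ^ 2) (2 * a * b) (b ^ 2 + c)).eval n := by
    funext n
    exact gf_QG a b c n
  rw [h1, rt_QG _ _ _ p hp (by
    intro h
    rcases hpZ.dvd_or_dvd h with h | h
    · exact hp2Z h
    · exact hpa1 (hpZ.dvd_of_dvd_pow h)), rt_ro]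
  have e : -((2 * a * b) ^ 2 - 4 * a ^ 2 * (b ^ 2 + c)) = (2 * a) ^ 2 * c := by ring
  rw [e]
  have h2 := ro_quad ((2 * a) ^ 2 * c) p hp hp2
  have h3 := ro_quad 1 p hp hp2
  have hJ : jacobiSym (-((2 * a) ^ 2 * c)) p = jacobiSym (-1) p := by
    have hcop : ∀ x : ℤ, ¬ (p : ℤ) ∣ x → jacobiSym (x ^ 2) p = 1 := by
      intro x hx
      apply jacobiSym.sq_one'
      exact Int.isCoprime_iff_gcd_eq_one.1 ((Prime.coprime_iff_not_dvd hpZ).2 hx).symm
    rcases hc with h | h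
    · rw [h]
      have e2 : -((2 * a) ^ 2 * 1) = (2 * a) ^ 2 * (-1) := by ring
      rw [e2, jacobiSym.mul_left, hcop _ hpa, one_mul]
    · rw [h]
      have e2 : -((2 * a) ^ 2 * 4) = (2 * (2 * a)) ^ 2 * (-1) := by ring
      rw [e2, jacobiSym.mul_left, hcop _ (by
        intro h
        rcases hpZ.dvd_or_dvd h with h | h
        · exact hp2Z h
        · exact hpa h), one_mul]
  rw [hJ] at h2
  omega

theorem rt_gf_zero (a b c : ℤ) (p : ℕ) (h : ∀ n : ℤ, ¬ (p : ℤ) ∣ gf a b c n) : rt (gf a b c) p = 0 := by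
  unfold rt
  rw [card_eq_zero, filter_eq_empty_iff]
  intro n _
  exact h n

theorem sq_gf (a b c : ℤ) (hc : c = 1 ∨ c = 4) (p : ℕ) (hp : p.Prime) (hp5 : 5 ≤ p)
    (hpa : (p : ℤ) ∣ a → ∀ n : ℤ, ¬ (p : ℤ) ∣ gf a b c n) (N H : ℕ) :
    ((((Icc 1 H).filter (fun j : ℕ => ((p ^ 2 : ℕ) : ℤ) ∣ gf a b c ((N + j : ℕ) : ℤ))).card : ℕ) : ℝ) ≤
      (2 : ℕ) * (H * (1 / (p : ℝ) ^ 2) + 1) := by
  classical
  have hpZ : Prime (p : ℤ) := Nat.prime_iff_prime_int.1 hp
  rcases ((Icc 1 H).filter (fun j : ℕ =>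
    ((p ^ 2 : ℕ) : ℤ) ∣ gf a b c ((N + j : ℕ) : ℤ))).eq_empty_or_nonempty with h | ⟨j0, hj0⟩
  · rw [h]
    simp only [card_empty, Nat.cast_zero]
    positivity
  rw [mem_filter] at hj0
  have hpp : (p : ℤ) ∣ ((p ^ 2 : ℕ) : ℤ) := by
    push_cast
    exact dvd_pow_self _ (by norm_num)
  have hna : ¬ (p : ℤ) ∣ a := fun h => hpa h _ (hpp.trans hj0.2)
  have hsmall : ∀ x : ℤ, 0 < x → x < 5 → ¬ (p : ℤ) ∣ x := by
    intro x hx hx5 h
    have := Int.le_of_dvd hx h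
    omega
  have hcop : IsCoprime ((p ^ 2 : ℕ) : ℤ) a := by
    push_cast
    exact IsCoprime.pow_left ((Prime.coprime_iff_not_dvd hpZ).2 hna)
  obtain ⟨u, v, huv⟩ := hcop
  have hsub : (Icc 1 H).filter (fun j : ℕ => ((p ^ 2 : ℕ) : ℤ) ∣ gf a b c ((N + j : ℕ) : ℤ)) ⊆
      (Icc 1 H).filter (fun n : ℕ => ((p ^ 2 : ℕ) : ℤ) ∣ (n : ℤ) - (j0 : ℤ)) ∪
      (Icc 1 H).filter (fun n : ℕ => ((p ^ 2 : ℕ) : ℤ) ∣
        (n : ℤ) - (-(2 * (N : ℤ) + j0) - v * (2 * b))) := by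
    intro j hj
    rw [mem_filter] at hj
    rw [mem_union, mem_filter, mem_filter]
    obtain ⟨n, hn⟩ : ∃ n : ℤ, n = ((N + j : ℕ) : ℤ) := ⟨_, rfl⟩
    obtain ⟨n0, hn0⟩ : ∃ n0 : ℤ, n0 = ((N + j0 : ℕ) : ℤ) := ⟨_, rfl⟩
    rw [← hn] at hj
    rw [← hn0] at hj0
    have e1 : (j : ℤ) - (j0 : ℤ) = n - n0 := by
      rw [hn, hn0]
      push_cast
      ring
    have e2 : (j : ℤ) - (-(2 * (N : ℤ) + j0) - v * (2 * b)) = n + n0 + v * (2 * b) := by
      rw [hn, hn0]
      push_cast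
      ring
    rw [e1, e2]
    have h3 : ((p ^ 2 : ℕ) : ℤ) ∣ (a * (n - n0)) * (a * (n + n0) + 2 * b) := by
      have := dvd_sub hj.2 hj0.2
      have e : gf a b c n - gf a b c n0 = (a * (n - n0)) * (a * (n + n0) + 2 * b) := by
        unfold gf
        ring
      rwa [e] at this
    have hunit : ∀ x : ℤ, ((p ^ 2 : ℕ) : ℤ) ∣ a * x → ((p ^ 2 : ℕ) : ℤ) ∣ x := by
      intro x hx
      have hc2 : IsCoprime ((p ^ 2 : ℕ) : ℤ) a := ⟨u, v, huv⟩
      exact hc2.dvd_of_dvd_mul_left hx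
    by_cases h4 : (p : ℤ) ∣ a * (n - n0)
    · have h5 : ¬ (p : ℤ) ∣ a * (n + n0) + 2 * b := by
        intro h6
        have h7 : (p : ℤ) ∣ 2 * (a * n + b) := by
          have := dvd_add h4 h6
          have e : a * (n - n0) + (a * (n + n0) + 2 * b) = 2 * (a * n + b) := by ring
          rwa [e] at this
        have h8 : (p : ℤ) ∣ a * n + b := by
          rcases hpZ.dvd_or_dvd h7 with h | h
          · exact absurd h (hsmall 2 (by norm_num) (by norm_num))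
          · exact h
        have h9 : (p : ℤ) ∣ (a * n + b) ^ 2 + c := hpp.trans hj.2
        have h10 : (p : ℤ) ∣ c := by
          have := dvd_sub h9 (dvd_pow h8 (show (2 : ℕ) ≠ 0 by norm_num))
          have e : (a * n + b) ^ 2 + c - (a * n + b) ^ 2 = c := by ring
          rwa [e] at this
        rcases hc with h | h
        · rw [h] at h10
          exact hsmall 1 (by norm_num) (by norm_num) h10
        · rw [h] at h10
          exact hsmall 4 (by norm_num) (by norm_num) h10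
      left
      refine ⟨hj.1, hunit _ ?_⟩
      have h6 : IsCoprime ((p ^ 2 : ℕ) : ℤ) (a * (n + n0) + 2 * b) := by
        push_cast
        apply IsCoprime.pow_left
        exact (Prime.coprime_iff_not_dvd hpZ).2 h5
      exact h6.dvd_of_dvd_mul_right h3
    · right
      refine ⟨hj.1, ?_⟩
      have h6 : IsCoprime ((p ^ 2 : ℕ) : ℤ) (a * (n - n0)) := by
        push_cast
        apply IsCoprime.pow_left
        exact (Prime.coprime_iff_not_dvd hpZ).2 h4
      have h7 := h6.dvd_of_dvd_mul_left h3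
      have e : n + n0 + v * (2 * b) = v * (a * (n + n0) + 2 * b) + (n + n0) * (u * ((p ^ 2 : ℕ) : ℤ)) := by
        linear_combination (-(n + n0)) * huv
      rw [e]
      exact dvd_add (h7.mul_left _) (((dvd_refl _).mul_left _).mul_left _)
  have hm : 0 < p ^ 2 := pow_pos hp.pos 2
  have c1 := class_count (p ^ 2) hm H (j0 : ℤ)
  have c2 := class_count (p ^ 2) hm H (-(2 * (N : ℤ) + j0) - v * (2 * b))
  have h3 : ((((Icc 1 H).filter
      (fun j : ℕ => ((p ^ 2 : ℕ) : ℤ) ∣ gf a b c ((N + j : ℕ) : ℤ))).card : ℕ) : ℝ) ≤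
      (((Icc 1 H).filter (fun n : ℕ => ((p ^ 2 : ℕ) : ℤ) ∣ (n : ℤ) - (j0 : ℤ))).card : ℝ) +
      (((Icc 1 H).filter (fun n : ℕ => ((p ^ 2 : ℕ) : ℤ) ∣
        (n : ℤ) - (-(2 * (N : ℤ) + j0) - v * (2 * b)))).card : ℝ) := by
    exact_mod_cast (card_le_card hsub).trans (card_union_le _ _)
  refine h3.trans ((add_le_add c1 c2).trans (le_of_eq ?_))
  push_cast
  ring

theorem not_sq_neg_one : ¬ IsSquare (-(1 : ℤ)) := by
  rintro ⟨x, hx⟩
  nlinarith [mul_self_nonneg x]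

theorem fam_GF : Fam GF := by
  classical
  have hcases : ∀ F ∈ GF, ∃ q : ℕ, q.Prime ∧ ∀ p : ℕ, p.Prime →
      (¬ (p ∣ 2 * q) → rt F p = ro (QF 1) 0 p) ∧ (p ∣ 2 * q → rt F p = 0) := by
    rintro F ⟨q, b, c, hq, hc, hno, rfl⟩
    refine ⟨q, hq, fun p hp => ⟨fun h => ?_, fun h => ?_⟩⟩
    · apply rt_gf _ _ _ hc p hp
      intro h2
      have hpZ : Prime (p : ℤ) := Nat.prime_iff_prime_int.1 hp
      apply h
      rcases hpZ.dvd_or_dvd h2 with h3 | h3
      · have : p ∣ 2 := by exact_mod_cast h3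
        exact this.mul_right q
      · exact_mod_cast h3
    · apply rt_gf_zero
      apply hno p hp
      exact_mod_cast h
  have hrt2 : ∀ F ∈ GF, ∀ p : ℕ, p.Prime → rt F p ≤ 2 := by
    intro F hF p hp
    obtain ⟨q, hq, h⟩ := hcases F hF
    by_cases h2 : p ∣ 2 * q
    · rw [(h p hp).2 h2]
      norm_num
    · rw [(h p hp).1 h2]
      exact ro_quad_le 1 p hp
  have hrole : ∀ F ∈ GF, ∀ p : ℕ, p.Prime → rt F p ≤ ro (QF 1) 0 p := by
    intro F hF p hp
    obtain ⟨q, hq, h⟩ := hcases F hF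
    by_cases h2 : p ∣ 2 * q
    · rw [(h p hp).2 h2]
      exact Nat.zero_le _
    · rw [(h p hp).1 h2]
  refine ⟨?_, ?_, hrt2, ?_, ?_, ?_, ?_⟩
  · rintro F ⟨q, b, c, hq, hc, hno, rfl⟩
    intro m n
    refine ⟨2 * q * (2 * q * (m + n) + 2 * b), ?_⟩
    unfold gf
    ring
  · rintro F ⟨q, b, c, hq, hc, hno, rfl⟩ n h
    unfold gf at h
    rcases hc with h1 | h1 <;> rw [h1] at h <;> nlinarith [sq_nonneg (2 * (q : ℤ) * n + b)]
  · intro F hF p hp
    obtain ⟨q, hq, h⟩ := hcases F hF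
    by_cases h2 : p ∣ 2 * q
    · rw [(h p hp).2 h2]
      exact hp.pos
    · have h3 : p ≠ 2 := by
        rintro rfl
        exact h2 (dvd_mul_right 2 q)
      have h4 := hrt2 F hF p hp
      have h5 := hp.two_le
      omega
  · intro ε₁ υ η hε hυ hη
    obtain ⟨Y0, hY0⟩ := mer_quad 1 not_sq_neg_one ε₁ υ (η / 2) hε hυ (by linarith)
    have ev : ∀ᶠ Y : ℕ in atTop, 4 / η + 3 ≤ (Y : ℝ) ^ ε₁ :=
      ((tendsto_rpow_atTop hε).comp tendsto_natCast_atTop_atTop).eventually_ge_atTop _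
    obtain ⟨Y1, hY1⟩ := eventually_atTop.1 (ev.and (eventually_ge_atTop 3))
    refine ⟨max Y0 Y1, fun Y hY F hF => ?_⟩
    have h := hY0 Y ((le_max_left _ _).trans hY)
    obtain ⟨h1, h3⟩ := hY1 Y ((le_max_right _ _).trans hY)
    obtain ⟨q, hq, hcs⟩ := hcases F hF
    intro a b ha hab hb
    have h2 := h a b ha hab hb
    set T := (pr Y ε₁ υ).filter (fun p => a ≤ tt Y p ∧ tt Y p < b) with hT
    have hTp : ∀ p ∈ T, p.Prime ∧ (Y : ℝ) ^ ε₁ ≤ p := by
      intro p hp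
      rw [hT, mem_filter] at hp
      have := LP.pr_facts (by omega) hp.1
      exact ⟨this.1, this.2.2.1⟩
    have hdiff0 : ∀ p ∈ T, 0 ≤ (ro (QF 1) 0 p : ℝ) / p - (rt F p : ℝ) / p := by
      intro p hp
      have hpp := (hTp p hp).1
      have hp0 : (0 : ℝ) < p := by exact_mod_cast hpp.pos
      have h4 : (rt F p : ℝ) ≤ ro (QF 1) 0 p := by exact_mod_cast hrole F hF p hpp
      have := div_le_div_of_nonneg_right h4 hp0.le
      linarith
    have hsum0 := sum_nonneg hdiff0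
    have hsum1 : ∑ p ∈ T, ((ro (QF 1) 0 p : ℝ) / p - (rt F p : ℝ) / p) ≤ 2 / (Y : ℝ) ^ ε₁ := by
      have hY0' : (0 : ℝ) < (Y : ℝ) ^ ε₁ := by
        have : 0 < 4 / η := by positivity
        linarith
      have h4 : ∑ p ∈ T, ((ro (QF 1) 0 p : ℝ) / p - (rt F p : ℝ) / p) ≤
          ∑ p ∈ T, (if p = q then 2 / (Y : ℝ) ^ ε₁ else 0) := by
        apply sum_le_sum
        intro p hp
        obtain ⟨hpp, hpY⟩ := hTp p hp
        have hp0 : (0 : ℝ) < p := by exact_mod_cast hpp.pos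
        split_ifs with h5
        · have h6 : (ro (QF 1) 0 p : ℝ) ≤ 2 := by exact_mod_cast ro_quad_le 1 p hpp
          have h7 : 0 ≤ (rt F p : ℝ) / p := by positivity
          have h8 : (ro (QF 1) 0 p : ℝ) / p ≤ 2 / (Y : ℝ) ^ ε₁ :=
            div_le_div₀ (by norm_num) h6 hY0' hpY
          linarith
        · have h6 : ¬ p ∣ 2 * q := by
            intro hd
            rcases (Nat.Prime.dvd_mul hpp).1 hd with h7 | h7
            · have h8 := (Nat.prime_dvd_prime_iff_eq hpp Nat.prime_two).1 h7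
              have h9 : (3 : ℝ) < (Y : ℝ) ^ ε₁ := by
                have : 0 < 4 / η := by positivity
                linarith
              rw [h8] at hpY
              push_cast at hpY
              linarith
            · exact h5 ((Nat.prime_dvd_prime_iff_eq hpp hq).1 h7)
          rw [(hcs p hpp).1 h6]
          simp
      refine h4.trans ?_
      rw [sum_ite_eq']
      split_ifs
      · exact le_rfl
      · positivity
    have h5 : 2 / (Y : ℝ) ^ ε₁ ≤ η / 2 := by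
      have h6 : 4 / η ≤ (Y : ℝ) ^ ε₁ := by linarith
      have h7 : 0 < (Y : ℝ) ^ ε₁ := lt_of_lt_of_le (by positivity) h6
      rw [div_le_div_iff₀ h7 (by norm_num)]
      rw [div_le_iff₀ hη] at h6
      linarith
    rw [sum_sub_distrib] at hsum0 hsum1
    obtain ⟨a1, a2⟩ := abs_le.1 h2
    rw [abs_le]
    constructor <;> linarith
  · obtain ⟨c, hc, hlo⟩ := lo_quad 1 not_sq_neg_one
    refine ⟨c, hc, fun F hF Z hZ S hS => ?_⟩
    refine (hlo Z hZ).trans ?_
    unfold lo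
    have hp1 : ∀ p ∈ (Icc 1 Z).filter Nat.Prime, 0 ≤ 1 - (ro (QF 1) 0 p : ℝ) / p ∧
        1 - (ro (QF 1) 0 p : ℝ) / p ≤ 1 := by
      intro p hp
      have hpp := (mem_filter.1 hp).2
      have hp0 : (0 : ℝ) < p := by exact_mod_cast hpp.pos
      have h1 : (ro (QF 1) 0 p : ℝ) ≤ p := by exact_mod_cast ro_le_self _ _ _
      have h2 : (ro (QF 1) 0 p : ℝ) / p ≤ 1 := by
        rw [div_le_one hp0]
        exact h1
      have h3 : 0 ≤ (ro (QF 1) 0 p : ℝ) / p := by positivity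
      constructor <;> linarith
    calc ∏ p ∈ (Icc 1 Z).filter Nat.Prime, (1 - (ro (QF 1) 0 p : ℝ) / p) ≤
          ∏ p ∈ S, (1 - (ro (QF 1) 0 p : ℝ) / p) := by
          rw [← prod_sdiff hS]
          have h1 : ∏ p ∈ (Icc 1 Z).filter Nat.Prime \ S, (1 - (ro (QF 1) 0 p : ℝ) / p) ≤ 1 := by
            apply prod_le_one
            · intro p hp
              exact (hp1 p (mem_sdiff.1 hp).1).1
            · intro p hp
              exact (hp1 p (mem_sdiff.1 hp).1).2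
          have h2 : 0 ≤ ∏ p ∈ S, (1 - (ro (QF 1) 0 p : ℝ) / p) := prod_nonneg fun p hp => (hp1 p (hS hp)).1
          nlinarith
      _ ≤ ∏ p ∈ S, (1 - (rt F p : ℝ) / p) := by
          apply Finset.prod_le_prod
          · intro p hp
            exact (hp1 p (hS hp)).1
          · intro p hp
            have hpp := (mem_filter.1 (hS hp)).2
            have hp0 : (0 : ℝ) < p := by exact_mod_cast hpp.pos
            have h4 : (rt F p : ℝ) ≤ ro (QF 1) 0 p := by exact_mod_cast hrole F hF p hpp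
            have := div_le_div_of_nonneg_right h4 hp0.le
            linarith
  · refine ⟨5, ?_⟩
    rintro F ⟨q, b, c, hq, hc, hno, rfl⟩ p hp hp5 N H
    unfold mu
    have h1 := sq_gf (2 * q) b c hc p hp hp5 (fun h => hno p hp h) N H
    convert h1 using 3
    ext j
    simp only [mem_filter]

end Pool.Agent.U607.QG2
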