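import Pool.Agent.U607.QgAll
import Pool.Agent.U607.GapShift

set_option autoImplicit false

/-! Windows and gaps, uniformly in a family. -/

namespace Pool.Agent.U607.QG2

open Finset Filter
open Pool.Agent.U607
open Pool.Agent.U607.QD (goodF)

/-- the value is an almost prime -/
def AP (F : ℤ → ℤ) (r : ℕ) (z : ℝ) (t : ℕ) : Prop :=
  (F (t : ℤ)).natAbs.primeFactorsList.length ≤ r ∧ ∀ q : ℕ, q.Prime → (q : ℤ) ∣ F (t : ℤ) → z ≤ q

open Classical in
/-- the number of the almost prime values in a window -/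
noncomputable def cnt (F : ℤ → ℤ) (r : ℕ) (z : ℝ) (n H : ℕ) : ℕ :=
  ((Ioc n (n + H)).filter (AP F r z)).card

open Classical in
theorem finG (𝓕 : Set (ℤ → ℤ)) (hFam : Fam 𝓕) (m : ℕ) (hm : 1 ≤ m) (r : ℕ) (θ : ℝ)
    (hθ : 2 * m < θ * Pool.Agent.K3h19.RV.Lam r) (hθ0 : 0 < θ) (hθ1 : θ ≤ 1) :
    ∃ w σ δ C : ℝ, 0 < w ∧ 0 < σ ∧ 0 < δ ∧ 0 < C ∧ ∀ᶠ X : ℕ in atTop, ∀ F ∈ 𝓕,
      (∀ n : ℕ, n ≤ 4 * X → ((F (n : ℤ)).natAbs : ℝ) ≤ (X : ℝ) ^ (m * (1 + σ))) →
      ∀ M Y : ℕ, M + Y ≤ X → (X : ℝ) ^ θ ≤ Y →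
      (∀ H₀ : ℝ, 1 ≤ H₀ → (((Ioc M (M + Y)).filter (fun n => ∃ H : ℕ, H₀ ≤ H ∧ H ≤ X ∧
        (cnt F r ((X : ℝ) ^ w) n H : ℝ) < δ * H / Real.log X)).card : ℝ) ≤
          C * (Y * Real.log X ^ 12) / H₀) ∧
      (∀ H : ℝ, 1 ≤ H → (((GM.consec (AP F r ((X : ℝ) ^ w)) M Y).filter
        (fun s => H ≤ ((s.2 - s.1 : ℕ) : ℝ))).card : ℝ) ≤ C * (Y * Real.log X ^ 12) / H ^ 2) ∧
      ((∑ s ∈ GM.consec (AP F r ((X : ℝ) ^ w)) M Y, (s.2 - s.1) ^ 2 : ℕ) : ℝ) ≤
        C * (Y * Real.log X ^ 13) := by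
  obtain ⟨Λ, hΛ⟩ : ∃ Λ : ℝ, Λ = Pool.Agent.K3h19.RV.Lam r := ⟨_, rfl⟩
  rw [← hΛ] at hθ
  have hlog3 : (0 : ℝ) < Real.log 3 := Real.log_pos (by norm_num)
  have hmr : (1 : ℝ) ≤ m := by exact_mod_cast hm
  have hΛ4 : 2 * m < Λ := by
    have h1 : 0 < Λ := by
      by_contra hcon
      push Not at hcon
      have := mul_nonpos_of_nonneg_of_nonpos hθ0.le hcon
      linarith
    nlinarith
  have hr : 1 ≤ r := by
    by_contra hcon
    have h0 : r = 0 := by omega
    rw [h0] at hΛ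
    unfold Pool.Agent.K3h19.RV.Lam at hΛ
    have h1 : Real.log ((3 ^ 0 + 1) / 4) ≤ 0 := by
      apply Real.log_nonpos <;> norm_num
    have h2 : Real.log ((3 ^ 0 + 1) / 4) / Real.log 3 ≤ 0 := div_nonpos_of_nonpos_of_nonneg h1 hlog3.le
    linarith
  obtain ⟨τ, hτ⟩ : ∃ τ : ℝ, τ = (1 / Λ + θ / (2 * m)) / 2 := ⟨_, rfl⟩
  have hinv : 1 / Λ < θ / (2 * m) := by
    rw [div_lt_div_iff₀ (by linarith) (by linarith)]
    linarith
  have hinv0 : 0 < 1 / Λ := by
    apply one_div_pos.2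
    linarith
  have hτ1 : 1 / Λ < τ := by linarith
  have hτ2 : τ < θ / (2 * m) := by linarith
  have hτ0 : 0 < τ := by linarith
  have hτΛ : 1 < τ * Pool.Agent.K3h19.RV.Lam r := by
    rw [← hΛ]
    rwa [div_lt_iff₀ (by linarith)] at hτ1
  have e2m : (m : ℝ) * (θ / (2 * m)) = θ / 2 := by
    field_simp
  obtain ⟨σ, δ, C₀, hσ, hδ, hC₀, X₀, HU⟩ := uniformG 𝓕 hFam m hm r hr τ (θ / (2 * m)) hτ0
    (by rw [e2m]; linarith) hτΛ hτ2
  refine ⟨m * (τ / 4), σ, δ, 17 * (C₀ + 1), by positivity, hσ, hδ, by positivity, ?_⟩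
  filter_upwards [eventually_ge_atTop (max X₀ 3)] with X hX F hFF hsize M Y hMY hYX
  have hX1 : X₀ ≤ X := (le_max_left _ _).trans hX
  have hX3 : 3 ≤ X := (le_max_right _ _).trans hX
  have hXr : (3 : ℝ) ≤ X := by exact_mod_cast hX3
  have hX0 : (0 : ℝ) < X := by linarith
  have hL1 : 1 ≤ Real.log X := by
    have : Real.exp 1 ≤ X := by linarith [Real.exp_one_lt_d9]
    rw [Real.le_log_iff_exp_le hX0]
    exact this
  have hL0 : 0 < Real.log X := by linarith
  have hL12 : 1 ≤ Real.log X ^ 12 := one_le_pow₀ hL1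
  have hY0 : (0 : ℝ) ≤ Y := Nat.cast_nonneg _
  obtain ⟨z, hz⟩ : ∃ z : ℝ, z = (X : ℝ) ^ (m * (τ / 4)) := ⟨_, rfl⟩
  have hU := HU X hX1 F hFF hsize M Y hMY (by
    refine le_trans (le_of_eq ?_) hYX
    congr 1
    rw [e2m]
    ring)
  rw [← hz] at hU ⊢
  have hcount : ∀ x H : ℕ, (cnt F r z (M + x) H) = (goodF F r z H (M + x)).card := by
    intro x H
    unfold cnt goodF
    symm
    apply card_nbij' (fun j => M + x + j) (fun t => t - (M + x))
    · intro j hj
      simp only [coe_filter, Set.mem_ofPred_eq, mem_Ioc, mem_Icc] at hj ⊢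
      exact ⟨⟨by omega, by omega⟩, hj.2⟩
    · intro t ht
      simp only [coe_filter, Set.mem_ofPred_eq, mem_Ioc, mem_Icc] at ht ⊢
      refine ⟨⟨by omega, by omega⟩, ?_⟩
      rw [Nat.add_sub_cancel' (by omega)]
      exact ht.2
    · intro j _
      show M + x + j - (M + x) = j
      omega
    · intro t ht
      simp only [coe_filter, Set.mem_ofPred_eq, mem_Ioc] at ht
      show M + x + (t - (M + x)) = t
      omega
  refine ⟨?_, ?_⟩
  · intro H₀ hH₀
    have h1 := hU H₀ hH₀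
    have h2 : ((Ioc M (M + Y)).filter (fun n => ∃ H : ℕ, H₀ ≤ H ∧ H ≤ X ∧
        (cnt F r z n H : ℝ) < δ * H / Real.log X)).card =
        ((Icc 1 Y).filter (fun x => ∃ H : ℕ, H₀ ≤ H ∧ H ≤ X ∧
      ((goodF F r z H (M + x)).card : ℝ) < δ * H / Real.log X)).card := by
      symm
      apply card_nbij' (fun x => M + x) (fun n => n - M)
      · intro x hx
        simp only [coe_filter, Set.mem_ofPred_eq, mem_Ioc, mem_Icc] at hx ⊢
        refine ⟨⟨by omega, by omega⟩, ?_⟩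
        obtain ⟨H, a1, a2, a3⟩ := hx.2
        refine ⟨H, a1, a2, ?_⟩
        rw [hcount]
        exact a3
      · intro n hn
        simp only [coe_filter, Set.mem_ofPred_eq, mem_Ioc, mem_Icc] at hn ⊢
        refine ⟨⟨by omega, by omega⟩, ?_⟩
        obtain ⟨H, a1, a2, a3⟩ := hn.2
        refine ⟨H, a1, a2, ?_⟩
        rw [← hcount, Nat.add_sub_cancel' (by omega)]
        exact a3
      · intro x _
        show M + x - M = x
        omega
      · intro n hn
        simp only [coe_filter, Set.mem_ofPred_eq, mem_Ioc] at hn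
        show M + (n - M) = n
        omega
    rw [h2]
    refine h1.trans ?_
    rw [mul_div_assoc']
    apply div_le_div_of_nonneg_right _ (by linarith)
    have : 0 ≤ (Y : ℝ) * Real.log X ^ 12 := by positivity
    nlinarith
  · obtain ⟨E, hE⟩ : ∃ E : ℝ, E = (C₀ + 1) * (Y * Real.log X ^ 12) := ⟨_, rfl⟩
    have hYE : (Y : ℝ) ≤ E := by
      rw [hE]
      have h1 : (Y : ℝ) * 1 ≤ Y * Real.log X ^ 12 := mul_le_mul_of_nonneg_left hL12 hY0
      have h2 : 0 ≤ C₀ * (Y * Real.log X ^ 12) := by positivity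
      linarith
    have hmain := GM.from_empt (AP F r z) M Y X E
      (by omega) hX3 hYE (by
      intro h hh hhX
      have hhr : (1 : ℝ) ≤ h := by exact_mod_cast hh
      have h1 := hU h hhr
      have h2 : (GM.empt {n | (AP F r z) (M + n)} Y h).card ≤
          ((Icc 1 Y).filter (fun x => ∃ H : ℕ, (h : ℝ) ≤ H ∧ H ≤ X ∧
      ((goodF F r z H (M + x)).card : ℝ) < δ * H / Real.log X)).card := by
        apply card_le_card
        intro x hx
        unfold GM.empt at hx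
        rw [mem_filter] at hx ⊢
        refine ⟨hx.1, h, le_rfl, hhX, ?_⟩
        have h3 : goodF F r z h (M + x) = ∅ := by
          rw [eq_empty_iff_forall_notMem]
          intro j hj
          unfold goodF at hj
          rw [mem_filter] at hj
          apply hx.2 j hj.1
          show AP F r z (M + (x + j))
          rw [← add_assoc]
          exact hj.2
        rw [h3, card_empty, Nat.cast_zero]
        positivity
      have h3 : ((GM.empt {n | (AP F r z) (M + n)} Y h).card : ℝ) ≤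
          C₀ * (Y * Real.log X ^ 12 / h) := le_trans (by exact_mod_cast h2) h1
      refine h3.trans ?_
      rw [hE, mul_div_assoc']
      apply div_le_div_of_nonneg_right _ (by linarith)
      have : 0 ≤ (Y : ℝ) * Real.log X ^ 12 := by positivity
      nlinarith)
    refine ⟨?_, ?_⟩
    · intro H hH
      refine (hmain.1 H hH).trans ?_
      apply div_le_div_of_nonneg_right _ (by positivity)
      rw [hE]
      have : 0 ≤ (C₀ + 1) * ((Y : ℝ) * Real.log X ^ 12) := by positivity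
      nlinarith
    · refine hmain.2.trans ?_
      have h1 : (Y : ℝ) ≤ Real.log X * E := by
        have : 0 ≤ E := hY0.trans hYE
        nlinarith
      have h2 : Real.log X * E = (C₀ + 1) * (Y * Real.log X ^ 13) := by
        rw [hE]
        ring
      rw [h2] at h1 ⊢
      linarith

end Pool.Agent.U607.QG2
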